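import Pool.Agent.Work.MP_055a27_an.Cr3.Stmts

/-!
# Necessity of the shadow condition for all weights: definitions and statements of the items

Let `0 < b < lam` and let `U` satisfy `Star lam b p`. We show: `U = 0` a.e., or `U` grows so
fast that the right side is infinite for all non constant functions (`¬ NV U`), or `U > 0` a.e.,
`log U` is admissible and the shadow condition `Sh μ U` holds for every `μ < lam`.
-/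

open MeasureTheory Set Filter Topology Complex Metric
open scoped ENNReal NNReal

namespace Pool.Agent.Work.MP_055a27_an.Fn

open Crit (lg NTc Nice NI)
open Cr3 (Wt Sh)

/-! ### Definitions -/

/-- The inequality of the problem with the constant `C`. -/
def StarC (C : ℝ≥0) (lam b p : ℝ) (U : ℝ → ℝ) : Prop :=
  ∀ f : ℝ → ℝ, Admissible f →
    ∫⁻ x : ℝ, (areaFn lam f x) ^ p * ENNReal.ofReal (U x)
      ≤ (C : ℝ≥0∞) * ∫⁻ x : ℝ, (ntMax b f x) ^ p * ENNReal.ofReal (U x)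

/-- The average of `U` over `[x - t, x]`. -/
noncomputable def Uav (U : ℝ → ℝ) (t x : ℝ) : ℝ := (∫ s in Icc (x - t) x, U s) / t

/-- The Poisson integral of `l` plus the linear function `c y`. -/
noncomputable def Vp (l : ℝ → ℝ) (c z y : ℝ) : ℝ := poisson l z y + c * y

/-- The analytic function with real part `Vp l c`. -/
noncomputable def Vs (l : ℝ → ℝ) (c : ℝ) (w : ℂ) : ℂ := schw l w - I * c * w

/-- The exponents: admissible functions bounded below. -/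
def Ex (l : ℝ → ℝ) : Prop := Admissible l ∧ ∃ θ : ℝ, ∀ t, θ ≤ l t

/-- The shadow condition with aperture `μ`, constant `κ` and exponent `Vp l c`. -/
def ShK (μ κ c : ℝ) (U l : ℝ → ℝ) : Prop := ∀ z y : ℝ, 0 < y →
  ∫ t in Icc (z - μ * y) (z + μ * y), U t ≤ κ * (y * Real.exp (Vp l c z y))

/-- The lower bound `m` for `Vp l c` on the cones of aperture `a` and height `T` with vertices
in `E`. -/
def LowB (a T m c : ℝ) (E : Set ℝ) (l : ℝ → ℝ) : Prop :=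
  ∀ x ∈ E, ∀ z y : ℝ, 0 < y → y < T → |z - x| < a * y → m ≤ Vp l c z y

/-- The growth condition: there are an admissible `ρ ≥ 0` and `c ≥ 0` such that the mass of
`[z - y, z + y]` is at most `exp (P[ρ](z, y) + c y)` for `y ≥ 1`. -/
def NV (U : ℝ → ℝ) : Prop := ∃ (ρ : ℝ → ℝ) (c : ℝ), Admissible ρ ∧ (∀ t, 0 ≤ ρ t) ∧ 0 ≤ c ∧
  ∀ z y : ℝ, 1 ≤ y → ∫ t in Icc (z - y) (z + y), U t ≤ Real.exp (Vp ρ c z y)

/-- The truncated logarithm. -/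
noncomputable def lgm (U : ℝ → ℝ) (θ x : ℝ) : ℝ := Real.log (max (U x) θ)

/-! ### Harmonic functions -/

/-- 1 Hch: Harnack chains in a truncated cone. -/
def StHch : Prop := ∀ a a' A : ℝ, 0 < a' → a' < a → 1 ≤ A → ∃ C : ℝ, 1 ≤ C ∧
  ∀ (l : ℝ → ℝ) (c x T m : ℝ), Admissible l → LowB a T m c {x} l →
  ∀ z y z' y' : ℝ, 0 < y → 0 < y' → |z - x| ≤ a' * y → |z' - x| ≤ a' * y' →
    y ≤ A * y' → y' ≤ A * y → 2 * y ≤ T → 2 * y' ≤ T →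
    Vp l c z y - m ≤ C * (Vp l c z' y' - m) ∧
    ‖dschw l (z + y * I) - I * c‖ ≤ C / y * (Vp l c z y - m)

/-- 2 Mx: the maximum principle on a compact subset of the half plane. -/
def StMx : Prop := ∀ (K : Set ℂ) (G : ℂ → ℂ), IsCompact K → (∀ w ∈ K, 0 < w.im) →
  DifferentiableOn ℂ G {w : ℂ | 0 < w.im} → (∀ w ∈ frontier K, 0 ≤ (G w).re) →
  ∀ w ∈ K, 0 ≤ (G w).re

/-- 3 Pd: Poisson integrals of indicator functions. -/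
def StPd : Prop := ∀ (Y : Set ℝ), MeasurableSet Y → Admissible (Y.indicator fun _ => (1 : ℝ)) ∧
  ∀ z y : ℝ, 0 < y →
    (0 ≤ poisson (Y.indicator fun _ => 1) z y ∧ poisson (Y.indicator fun _ => 1) z y ≤ 1) ∧
    (volume Y ≠ ∞ → poisson (Y.indicator fun _ => 1) z y ≤ volume.real Y / (Real.pi * y)) ∧
    (∀ r : ℝ, 0 ≤ r → Y ∩ Ioo (z - r) (z + r) = ∅ →
      poisson (Y.indicator fun _ => 1) z y ≤ 1 - 2 / Real.pi * Real.arctan (r / y)) ∧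
    (∀ (r : ℝ) (N : Set ℝ), 0 ≤ r → MeasurableSet N → volume N ≠ ∞ →
      Icc (z - r) (z + r) ⊆ Y ∪ N →
      2 / Real.pi * Real.arctan (r / y) - volume.real N / (Real.pi * y) ≤
        poisson (Y.indicator fun _ => 1) z y)

/-- 4 ClA: if `Vp l c - m` is nonnegative on the sawtooth over points of disjoint subintervals
which nearly fill an interval, and at least `k` at the points above the subintervals, then it is
at least `e k` at the point above the interval. -/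
def StClA : Prop := ∀ a : ℝ, 0 < a → ∃ M0 : ℝ, 1 ≤ M0 ∧ ∀ M : ℝ, M0 ≤ M →
  ∃ ε e : ℝ, 0 < ε ∧ ε ≤ 1 / 2 ∧ 0 < e ∧ e ≤ 1 ∧
  ∀ (l : ℝ → ℝ) (c m k a0 s : ℝ) (n : ℕ) (α γ x : Fin n → ℝ), Admissible l → 0 < s → 0 ≤ k →
    (∀ i, a0 ≤ α i ∧ α i < γ i ∧ γ i ≤ a0 + s ∧ α i ≤ x i ∧ x i ≤ γ i) →
    Pairwise (fun i j => Disjoint (Ioo (α i) (γ i)) (Ioo (α j) (γ j))) →
    (1 - ε) * s ≤ ∑ i, (γ i - α i) → LowB a (2 * M * s) m c (range x) l →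
    (∀ i, k ≤ Vp l c ((α i + γ i) / 2) (M * (γ i - α i)) - m) →
    e * k ≤ Vp l c (a0 + s / 2) (M * s) - m

/-- 5 RS: rising sun lemma, intervals of given density. -/
def StRS : Prop := ∀ (X : Set ℝ) (a s ρ : ℝ), MeasurableSet X → X ⊆ Icc a (a + s) → 0 < s →
  0 < ρ → ρ < 1 → volume.real X ≤ ρ * s →
  ∃ (ι : Type) (_ : Countable ι) (α γ : ι → ℝ), (∀ i, a ≤ α i ∧ α i < γ i ∧ γ i ≤ a + s ∧
      volume.real (X ∩ Ioo (α i) (γ i)) = ρ * (γ i - α i)) ∧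
    Pairwise (fun i j => Disjoint (Ioo (α i) (γ i)) (Ioo (α j) (γ j))) ∧
    volume (X \ ⋃ i, Ioo (α i) (γ i)) = 0

/-- 6 Lb: vertical limits at almost every point. -/
def StLb : Prop := ∀ (l : ℝ → ℝ) (c : ℝ), Admissible l →
  ∀ᵐ x, Tendsto (fun y => Vp l c x y) (𝓝[>] 0) (𝓝 (l x))

/-- 7 HM0: sets of density near one. -/
def StHM0 : Prop := ∀ a : ℝ, 0 < a → ∃ M0 : ℝ, 1 ≤ M0 ∧ ∀ M : ℝ, M0 ≤ M →
  ∃ ε e : ℝ, 0 < ε ∧ ε < 1 ∧ 0 < e ∧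
  ∀ (l : ℝ → ℝ) (c m H a0 s : ℝ) (X : Set ℝ), Admissible l → 0 < s → 0 ≤ H → MeasurableSet X →
    X ⊆ Icc a0 (a0 + s) → (1 - ε) * s ≤ volume.real X → LowB a (2 * M * s) m c X l →
    (∀ᵐ x, x ∈ X → m + H ≤ l x) → e * H ≤ Vp l c (a0 + s / 2) (M * s) - m

/-- 8 HM: sets of positive density. -/
def StHM : Prop := ∀ a : ℝ, 0 < a → ∃ M0 : ℝ, 1 ≤ M0 ∧ ∀ M : ℝ, M0 ≤ M →
  ∀ δ : ℝ, 0 < δ → ∃ e : ℝ, 0 < e ∧
  ∀ (l : ℝ → ℝ) (c m H a0 s : ℝ) (X : Set ℝ), Admissible l → 0 < s → 0 ≤ H → MeasurableSet X →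
    X ⊆ Icc a0 (a0 + s) → δ * s ≤ volume.real X → LowB a (2 * M * s) m c X l →
    (∀ᵐ x, x ∈ X → m + H ≤ l x) → e * H ≤ Vp l c (a0 + s / 2) (M * s) - m

/-! ### Test functions -/

/-- 9 Osc: the multilevel oscillation at a small open set. -/
def StOsc : Prop := ∀ lam B : ℝ, 0 < lam → 0 ≤ B → ∃ τ : ℝ, 0 < τ ∧ ∀ n : ℕ, ∃ δ : ℝ, 0 < δ ∧
  ∀ (x0 r : ℝ) (E : Set ℝ), 0 < r → IsOpen E → E ⊆ Ioo (x0 - 2 * r) (x0 + 2 * r) →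
    volume.real E ≤ δ * r → ∃ f : ℝ → ℝ, Measurable f ∧ (∀ t, |f t| ≤ 1) ∧
    ∀ (G : ℂ → ℂ) (g : ℝ), DifferentiableOn ℂ G {w : ℂ | 0 < w.im} → 0 ≤ g →
      (∀ x ∈ E, ∀ z y : ℝ, 0 < y → y ≤ r → |z - x| ≤ lam * y →
        g ≤ ‖G (z + y * I)‖ ∧ ‖deriv G (z + y * I)‖ ≤ B / r * ‖G (z + y * I)‖) →
      ∀ x ∈ E, ∃ ε0 : ℝ, 0 < ε0 ∧ ∀ ε : ℝ, 0 < ε → ε < ε0 →
        ENNReal.ofReal (n * (τ * g ^ 2)) ≤ ∫⁻ q in cone lam x,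
          ENNReal.ofReal (‖deriv (fun w : ℂ => Complex.exp (schw f w) * G w)
            (q.1 + (q.2 + ε : ℝ) * I)‖ ^ 2)

/-- 10 Cost: upper bound for the maximal functions of the test functions. -/
def StCost : Prop := ∀ (b μ p ε : ℝ) (k : ℕ), 0 < b → b < μ → 0 < p → 4 ≤ k * p → 0 < ε →
  ∃ C : ℝ, 0 ≤ C ∧ ∀ (U l : ℝ → ℝ) (c κ x0 β A : ℝ) (H : ℂ → ℂ), IsWeight U → Admissible l →
    0 ≤ κ → 0 < β → 0 ≤ A → ShK μ κ c U l →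
    (∀ z y : ℝ, 0 < y → ‖H (z + y * I)‖ ≤
      A * Real.exp (-Vp l c z (y + ε * β) / p) * (β / ‖(z : ℂ) + y * I - x0 + β * I‖) ^ k) →
    ∫⁻ x, (NTc H b x) ^ p * ENNReal.ofReal (U x) ≤ ENNReal.ofReal (C * A ^ p * κ * β)

/-- 11 Nu: the maximal function of larger aperture, uniform version. -/
def StNu : Prop := ∀ (C0 : ℝ≥0) (lam lam2 b p : ℝ), 0 < lam2 → lam2 < lam → 0 < b → 0 < p →
  ∃ C : ℝ≥0, ∀ U : ℝ → ℝ, IsWeight U → StarC C0 lam b p U → ∀ F : ℂ → ℂ, Nice F →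
    NI U F lam2 p ≤ C * NI U F b p

/-- 12 NK: the shadow condition with larger aperture. -/
def StNK : Prop := ∀ (C0 : ℝ≥0) (lam b p μ μ' : ℝ), 0 < b → b < μ → μ < lam → 0 < μ' →
  μ' < lam → 0 < p → ∃ C : ℝ, 0 ≤ C ∧ ∀ (U l : ℝ → ℝ) (c κ : ℝ), IsWeight U → Ex l → 0 ≤ c →
    StarC C0 lam b p U → 0 ≤ κ → ShK μ κ c U l → ShK μ' (C * κ) c U l

/-- 13 Cov: a dyadic covering argument. -/
def StCov : Prop := ∀ (ν : Measure ℝ) (S : Set ℝ) (a L L' Θ : ℝ), 0 < L → 0 < L' → 0 ≤ Θ →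
  S ⊆ Icc a (a + L) →
  (∀ x ∈ S, ∃ (j : ℕ) (i : ℤ), x ∈ Ico (i * (L' / 2 ^ j)) ((i + 1) * (L' / 2 ^ j)) ∧
    ν (S ∩ Ico (i * (L' / 2 ^ j)) ((i + 1) * (L' / 2 ^ j))) ≤ ENNReal.ofReal (Θ * (L' / 2 ^ j))) →
  ν S ≤ ENNReal.ofReal (Θ * (L + 2 * L'))

/-- 14 Core: the typical points where the weight is large. -/
def StCore : Prop := ∀ (C0 : ℝ≥0) (lam b p μ a : ℝ), 0 < lam → 0 < b → b < μ → 0 < p → 0 < a →
  ∃ M0 : ℝ, 1 ≤ M0 ∧ ∀ M : ℝ, M0 ≤ M → ∀ kk CH η : ℝ, 1 ≤ kk → 1 ≤ CH → 0 < η →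
  ∃ H0 : ℝ, 0 < H0 ∧ ∀ (U l : ℝ → ℝ) (c κ m a0 s : ℝ) (X : Set ℝ), IsWeight U → Ex l → 0 ≤ c →
    (∀ᵐ x, U x ≤ Real.exp (l x)) → StarC C0 lam b p U → 0 ≤ κ → ShK μ κ c U l → 0 < s →
    X ⊆ Icc a0 (a0 + s) → LowB a (4 * M * s) (m - 2 * kk) c X l →
    (∀ x ∈ X, Real.exp (m + H0) ≤ U x) → Vp l c (a0 + s / 2) (M * s) ≤ m + CH * kk →
    wm U X ≤ ENNReal.ofReal (η * κ * s * Real.exp m)

/-- 15 Imp: the self improving estimate. -/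
def StImp : Prop := ∀ (C0 : ℝ≥0) (lam b p μ1 μ ε : ℝ), 0 < lam → 0 < b → b < μ1 → μ1 < μ →
  0 < p → 0 < ε → ∃ K : ℝ, 0 ≤ K ∧ ∀ (U l : ℝ → ℝ) (c κ : ℝ), IsWeight U → Ex l → 0 ≤ c →
    (∀ᵐ x, U x ≤ Real.exp (l x)) → StarC C0 lam b p U → 0 ≤ κ → ShK μ κ c U l →
    ShK μ1 (ε * κ + K) c U l

/-- 16 Unif: the uniform bound for the constant of the shadow condition. -/
def StUnif : Prop := ∀ (C0 : ℝ≥0) (lam b p μ : ℝ), 0 < b → b < μ → μ < lam → 0 < p →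
  ∃ K : ℝ, 0 ≤ K ∧ ∀ (U l : ℝ → ℝ) (c : ℝ), IsWeight U → Ex l → 0 ≤ c →
    (∀ᵐ x, U x ≤ Real.exp (l x)) → StarC C0 lam b p U → (∃ κ : ℝ, 0 ≤ κ ∧ ShK μ κ c U l) →
    ShK μ K c U l

/-! ### Approximation -/

/-- 17 Tr: averages of translates satisfy the inequality with the same constant. -/
def StTr : Prop := ∀ (C0 : ℝ≥0) (lam b p t : ℝ) (U : ℝ → ℝ), 0 < lam → 0 < b → 0 < p → 0 < t →
  IsWeight U → StarC C0 lam b p U → IsWeight (Uav U t) ∧ StarC C0 lam b p (Uav U t)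

/-- 18 NVc: the growth condition with small linear term and large aperture. -/
def StNVc : Prop := ∀ (U : ℝ → ℝ) (c A : ℝ), IsWeight U → NV U → 0 < c → 1 ≤ A →
  ∃ ρ : ℝ → ℝ, Admissible ρ ∧ (∀ t, 0 ≤ ρ t) ∧ ∀ z y : ℝ, 1 ≤ y →
    ∫ t in Icc (z - A * y) (z + A * y), U t ≤ Real.exp (Vp ρ c z y)

/-- 19 Ap: the a priori bounds. -/
def StAp : Prop := ∀ (U : ℝ → ℝ) (μ c : ℝ), IsWeight U → NV U → 0 < μ → 0 < c →
  ∃ ρ : ℝ → ℝ, Admissible ρ ∧ (∀ t, 0 ≤ ρ t) ∧ ∀ t θ : ℝ, 0 < t → t ≤ 1 → 0 < θ → θ ≤ 1 →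
    Ex (lgm (Uav U t) θ) ∧ ∀ n : ℕ,
    Ex (fun x => lgm (Uav U t) θ x + if (n : ℝ) ≤ |x| then ρ x else 0) ∧
    ∃ κ : ℝ, 0 ≤ κ ∧
      ShK μ κ c (Uav U t) (fun x => lgm (Uav U t) θ x + if (n : ℝ) ≤ |x| then ρ x else 0)

/-- 20 LimN: removal of the far away majorant. -/
def StLimN : Prop := ∀ (U l ρ : ℝ → ℝ) (μ K c : ℝ), Admissible l → Admissible ρ → 0 ≤ K →
  (∀ n : ℕ, ShK μ K c U (fun x => l x + if (n : ℝ) ≤ |x| then ρ x else 0)) → ShK μ K c U l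

/-- 21 LimT: the averages tend to the weight. -/
def StLimT : Prop := ∀ (U : ℝ → ℝ) (μ K θ : ℝ), IsWeight U → NV U → 0 < μ → 0 ≤ K → 0 < θ →
  θ ≤ 1 → (∀ t : ℝ, 0 < t → t ≤ 1 → ShK μ K 0 (Uav U t) (lgm (Uav U t) θ)) →
  ShK μ K 0 U (lgm U θ)

/-- 22 LimTh: removal of the lower truncation. -/
def StLimTh : Prop := ∀ (U : ℝ → ℝ) (μ K : ℝ), IsWeight U → NV U → 0 < μ → 0 ≤ K →
  (∀ θ : ℝ, 0 < θ → θ ≤ 1 → ShK μ K 0 U (lgm U θ)) →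
  (∀ᵐ x, U x = 0) ∨ (Wt U ∧ Sh μ U)

/-- 23 NecF: necessity of the shadow condition. -/
def StNecF : Prop := ∀ (lam b p μ : ℝ) (U : ℝ → ℝ), 0 < b → b < lam → 0 < μ → μ < lam → 0 < p →
  IsWeight U → NV U → Star lam b p U → (∀ᵐ x, U x = 0) ∨ (Wt U ∧ Sh μ U)

end Pool.Agent.Work.MP_055a27_an.Fn
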