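import Pool.Agent.Work.MP_055a27_an.Fn.Stmts

/-!
# The vacuous case: definitions and statements of the items

If `NV U` fails then `∫ N_b(f)^p U = ∞` for every admissible `f` with non constant Poisson
integral. The growth condition `NV` is equivalent to the explicit condition `NVd`.
-/

open MeasureTheory Set Filter Topology Complex Metric
open scoped ENNReal NNReal ComplexConjugate

namespace Pool.Agent.Work.MP_055a27_an.Fn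

/-- The zeros of `g` in the open half plane. -/
def ZZ (g : ℂ → ℂ) : Set ℂ := {ζ : ℂ | 0 < ζ.im ∧ g ζ = 0}

/-- Standing hypotheses: `g` is analytic and bounded by one on `Im w > -h`, without real
zeros. -/
def GG (h : ℝ) (g : ℂ → ℂ) : Prop := 0 < h ∧ DifferentiableOn ℂ g {w : ℂ | -h < w.im} ∧
  (∀ w : ℂ, -h < w.im → ‖g w‖ ≤ 1) ∧ ∀ x : ℝ, g x ≠ 0

/-- The supremum of the `y ≥ 1` such that the mass of `[x - y, x + y]` is at least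
`exp (c y)`. -/
noncomputable def yc (U : ℝ → ℝ) (c x : ℝ) : ℝ≥0∞ :=
  ⨆ (y : ℝ) (_ : 1 ≤ y ∧ Real.exp (c * y) ≤ ∫ t in Icc (x - y) (x + y), U t), ENNReal.ofReal y

/-- The explicit growth condition. -/
def NVd (U : ℝ → ℝ) : Prop := ∃ c : ℝ, 0 < c ∧
  ∫⁻ x : ℝ, yc U c x * ENNReal.ofReal (1 / (1 + x ^ 2)) ≠ ∞

/-- 24 Va: the mass of a shadow times the gradient. -/
def StVa : Prop := ∀ b p : ℝ, 0 < b → 0 < p → ∃ C δ : ℝ, 0 < C ∧ 0 < δ ∧ δ < 1 ∧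
  ∀ (U f : ℝ → ℝ) (A : ℝ), IsWeight U → Admissible f → 0 ≤ A →
    ∫⁻ x, (ntMax b f x) ^ p * ENNReal.ofReal (U x) ≤ ENNReal.ofReal A →
    ∀ z y : ℝ, 0 < y → ∀ w ∈ ball ((z : ℂ) + y * I) (δ * y),
      (∫ t in Icc (z - b / 2 * y) (z + b / 2 * y), U t) * (y * ‖dschw f w‖) ^ p ≤ C * A

/-- 25 PJ: the Poisson Jensen formula on a disc. -/
def StPJ : Prop := ∀ (g : ℂ → ℂ) (c : ℂ) (R : ℝ), 0 < R → AnalyticOnNhd ℂ g (closedBall c R) →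
  (∀ ζ ∈ sphere c R, g ζ ≠ 0) → (∀ ζ ∈ closedBall c R, ‖g ζ‖ ≤ 1) → ∀ w ∈ ball c R, g w ≠ 0 →
    0 ≤ Real.circleAverage (fun ζ => poissonKernel c w ζ * (-Real.log ‖g ζ‖)) c R ∧
    ENNReal.ofReal (-Real.log ‖g w‖) =
      ENNReal.ofReal (Real.circleAverage (fun ζ => poissonKernel c w ζ * (-Real.log ‖g ζ‖)) c R) +
      ∑' ζ : {ζ : ℂ // ζ ∈ ball c R ∧ g ζ = 0}, (analyticOrderNatAt g (ζ : ℂ) : ℝ≥0∞) *
        ENNReal.ofReal (Real.log (‖(R : ℂ) ^ 2 - conj ((ζ : ℂ) - c) * (w - c)‖ / (R * ‖w - ζ‖)))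

/-- 26 Bl: the Blaschke condition. -/
def StBl : Prop := ∀ (g : ℂ → ℂ) (h : ℝ), GG h g → (ZZ g).Countable ∧
  ∑' ζ : ZZ g, (analyticOrderNatAt g (ζ : ℂ) : ℝ≥0∞) *
    ENNReal.ofReal ((ζ : ℂ).im / (1 + ‖(ζ : ℂ)‖ ^ 2)) ≠ ∞

/-- 27 Rp: upper bound by the Poisson integral, a linear function and the zeros. -/
def StRp : Prop := ∀ (g : ℂ → ℂ) (h : ℝ), GG h g →
  Admissible (fun x : ℝ => -Real.log ‖g x‖) ∧ ∃ C : ℝ, 0 ≤ C ∧ ∀ w : ℂ, 0 < w.im → g w ≠ 0 →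
    ENNReal.ofReal (-Real.log ‖g w‖) ≤
      ENNReal.ofReal (Vp (fun x : ℝ => -Real.log ‖g x‖) C w.re w.im) +
      ∑' ζ : ZZ g, (analyticOrderNatAt g (ζ : ℂ) : ℝ≥0∞) *
        ENNReal.ofReal (Real.log (‖w - conj (ζ : ℂ)‖ / ‖w - ζ‖))

/-- 28 Ga: averages of the Green function. -/
def StGa : Prop := ∀ δ : ℝ, 0 < δ → δ < 1 → ∃ C : ℝ, 0 ≤ C ∧ ∀ (ζ : ℂ) (z y : ℝ), 0 < ζ.im →
  0 < y →
  ∫⁻ w in ball ((z : ℂ) + y * I) (δ * y), ENNReal.ofReal (Real.log (‖w - conj ζ‖ / ‖w - ζ‖)) ≤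
    ENNReal.ofReal (C * y ^ 2 *
      poisson ((Icc (ζ.re - ζ.im) (ζ.re + ζ.im)).indicator fun _ => 1) z y) ∧
  ∫⁻ w in ball ((z : ℂ) + y * I) (δ * y), ENNReal.ofReal (Real.log (‖w - conj ζ‖ / ‖w - ζ‖)) ≤
    ENNReal.ofReal (C * y ^ 2 * (y / ζ.im))

/-- 29 Zs: the sum over the zeros. -/
def StZs : Prop := ∀ (δ : ℝ) (Z : Set ℂ) (m : Z → ℕ), 0 < δ → δ < 1 → Z.Countable →
  (∀ ζ ∈ Z, 0 < ζ.im) →
  ∑' ζ : Z, (m ζ : ℝ≥0∞) * ENNReal.ofReal ((ζ : ℂ).im / (1 + ‖(ζ : ℂ)‖ ^ 2)) ≠ ∞ →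
  ∃ (ρ : ℝ → ℝ) (c : ℝ), Admissible ρ ∧ (∀ t, 0 ≤ ρ t) ∧ 0 ≤ c ∧ ∀ z y : ℝ, 0 < y →
    ∑' ζ : Z, (m ζ : ℝ≥0∞) * ∫⁻ w in ball ((z : ℂ) + y * I) (δ * y),
      ENNReal.ofReal (Real.log (‖w - conj (ζ : ℂ)‖ / ‖w - ζ‖)) ≤
        ENNReal.ofReal (y ^ 2 * Vp ρ c z y)

/-- 30 Vz: a bounded analytic function is not too small on balls. -/
def StVz : Prop := ∀ (δ : ℝ) (g : ℂ → ℂ), 0 < δ → δ < 1 →
  DifferentiableOn ℂ g {w : ℂ | 0 < w.im} → (∀ w : ℂ, 0 < w.im → ‖g w‖ ≤ 1) →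
  (∃ w : ℂ, 0 < w.im ∧ g w ≠ 0) →
  ∃ (ρ : ℝ → ℝ) (c : ℝ), Admissible ρ ∧ (∀ t, 0 ≤ ρ t) ∧ 0 ≤ c ∧ ∀ z y : ℝ, 1 ≤ y →
    ∃ w ∈ ball ((z : ℂ) + y * I) (δ * y), g w ≠ 0 ∧ -Real.log ‖g w‖ ≤ Vp ρ c z y

/-- 31 Vf: a non constant function with finite right side implies the growth condition. -/
def StVf : Prop := ∀ (b p : ℝ) (U f : ℝ → ℝ), 0 < b → 0 < p → IsWeight U → Admissible f →
  ∫⁻ x, (ntMax b f x) ^ p * ENNReal.ofReal (U x) ≠ ∞ →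
  (∃ w : ℂ, 0 < w.im ∧ dschw f w ≠ 0) → NV U

/-- 32 Vac: the vacuous case. -/
def StVac : Prop := ∀ (lam b p : ℝ) (U : ℝ → ℝ), 0 < lam → 0 < b → 0 < p → IsWeight U → ¬ NV U →
  Star lam b p U

/-- 33 E1: the explicit growth condition implies the growth condition. -/
def StE1 : Prop := ∀ U : ℝ → ℝ, IsWeight U → NVd U → NV U

/-- 34 E2: the growth condition implies the explicit growth condition. -/
def StE2 : Prop := ∀ U : ℝ → ℝ, IsWeight U → NV U → NVd U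

end Pool.Agent.Work.MP_055a27_an.Fn
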