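import Pool.Agent.Work.MP_055a27_an.Fn.Stmts
import Pool.Agent.Work.MP_055a27_an.Bd.B03
import Pool.Agent.Work.MP_055a27_an.WMeas
import Pool.Agent.Work.MP_055a27_an.Bd.B06
import Pool.Agent.Work.MP_055a27_an.Crit.TFUp

/-!
# The typical points where the weight is large
-/

set_option autoImplicit false

open MeasureTheory Set Filter Topology Complex Metric
open scoped ENNReal NNReal

namespace Pool.Agent.Work.MP_055a27_an.Fn

open Crit (lg NTc Nice NI)
open Cr3 (Wt Sh)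

namespace Core

/-! ### The inequality of the problem for an analytic function -/

lemma shift_im {ζ : ℂ} {ε : ℝ} (hε : 0 < ε) (hζ : 0 ≤ ζ.im) : 0 < (ζ + ε * I).im := by
  simp
  linarith

lemma star_lower {C0 : ℝ≥0} {lam b p : ℝ} {U : ℝ → ℝ} (hb0 : 0 < b) (hp : 0 < p)
    (hU : IsWeight U) (hS : StarC C0 lam b p U) {H : ℂ → ℂ} {K : ℝ}
    (hd : ∀ w : ℂ, 0 < w.im → DifferentiableAt ℂ H w) (hb : ∀ w : ℂ, 0 < w.im → ‖H w‖ ≤ K)
    {E : Set ℝ} (hE : MeasurableSet E) {Q : ℝ} (hQ : 0 ≤ Q)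
    (hlow : ∀ x ∈ E, ∃ ε0 : ℝ, 0 < ε0 ∧ ∀ ε : ℝ, 0 < ε → ε < ε0 →
      ENNReal.ofReal Q ≤ ∫⁻ q in cone lam x,
        ENNReal.ofReal (‖deriv H (q.1 + (q.2 + ε : ℝ) * I)‖ ^ 2)) :
    ENNReal.ofReal (Q ^ (p / 2)) * wm U E ≤
      C0 * ∫⁻ x, (NTc H b x) ^ p * ENNReal.ofReal (U x) := by
  set F : ℝ → ℝ → ℝ := fun ε t => (H (t + ε * I)).re with hF
  have hdε : ∀ ε : ℝ, 0 < ε → ∀ ζ : ℂ, 0 ≤ ζ.im →
      HasDerivAt (fun ζ : ℂ => H (ζ + ε * I)) (deriv H (ζ + ε * I)) ζ := by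
    intro ε hε ζ hζ
    have h1 := (hd _ (shift_im hε hζ)).hasDerivAt
    have h3 : HasDerivAt (fun ζ : ℂ => ζ + ε * I) 1 ζ := (hasDerivAt_id ζ).add_const _
    have h4 := h1.comp ζ h3
    rw [mul_one] at h4
    exact h4
  have hadm : ∀ ε : ℝ, 0 < ε → Admissible (F ε) := fun ε hε =>
    admissible_re (F := fun ζ : ℂ => H (ζ + ε * I))
      (fun ζ hζ => (hdε ε hε ζ hζ).differentiableAt) (fun ζ hζ => hb _ (shift_im hε hζ))
  have hpois : ∀ ε : ℝ, 0 < ε → ∀ z y : ℝ, 0 < y →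
      poisson (F ε) z y = (H ((z + y * I) + ε * I)).re := fun ε hε z y hy =>
    poisson_re (F := fun ζ : ℂ => H (ζ + ε * I))
      (fun ζ hζ => (hdε ε hε ζ hζ).differentiableAt) (fun ζ hζ => hb _ (shift_im hε hζ)) hy
  have hgrad : ∀ ε : ℝ, 0 < ε → ∀ z y : ℝ, 0 < y →
      gradSq (F ε) z y = ‖deriv H (z + (y + ε : ℝ) * I)‖ ^ 2 := by
    intro ε hε z y hy
    have him : (0 : ℝ) ≤ ((z : ℂ) + y * I).im := by simp; exact hy.le
    have h := gradSq_of_re (f := F ε) (F := fun ζ : ℂ => H (ζ + ε * I)) hy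
      (hdε ε hε _ him) (fun z y hy => hpois ε hε z y hy)
    rw [h]
    have e : ((z : ℂ) + y * I) + ε * I = z + (y + ε : ℝ) * I := by push_cast; ring
    rw [e]
  have hnt : ∀ ε : ℝ, 0 < ε → ∀ x, ntMax b (F ε) x ≤ NTc H b x := by
    intro ε hε x
    unfold ntMax
    refine iSup_le fun z => iSup_le fun y => iSup_le fun hzy => ?_
    unfold NTc
    rw [hpois ε hε _ _ hzy.1]
    have e : (((x - z : ℝ) : ℂ) + y * I) + ε * I = ((x - z : ℝ) : ℂ) + ((y + ε : ℝ) : ℂ) * I := by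
      push_cast; ring
    rw [e]
    refine le_trans (ENNReal.ofReal_le_ofReal (Complex.abs_re_le_norm _)) ?_
    refine le_iSup_of_le (x - z) (le_iSup_of_le (y + ε) (le_iSup_of_le ⟨?_, ?_⟩ le_rfl))
    · linarith [hzy.1]
    · rw [sub_sub_cancel]
      refine hzy.2.trans ?_
      exact mul_le_mul_of_nonneg_left (by linarith) hb0.le
  have hR : ∀ ε : ℝ, 0 < ε → ∫⁻ x, (areaFn lam (F ε) x) ^ p * ENNReal.ofReal (U x) ≤
      C0 * ∫⁻ x, (NTc H b x) ^ p * ENNReal.ofReal (U x) := by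
    intro ε hε
    refine (hS (F ε) (hadm ε hε)).trans ?_
    gcongr with x
    exact hnt ε hε x
  set ε : ℕ → ℝ := fun j => 1 / ((j : ℝ) + 1) with hεdef
  have hεpos : ∀ j, 0 < ε j := fun j => by positivity
  have hεlim : Tendsto ε atTop (𝓝 0) := tendsto_one_div_add_atTop_nhds_zero_nat
  have hpt : ∀ x, E.indicator (fun _ => ENNReal.ofReal (Q ^ (p / 2))) x * ENNReal.ofReal (U x) ≤
      liminf (fun j => (areaFn lam (F (ε j)) x) ^ p * ENNReal.ofReal (U x)) atTop := by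
    intro x
    by_cases hx : x ∈ E
    · rw [indicator_of_mem hx]
      obtain ⟨ε0, hε0, h⟩ := hlow x hx
      refine le_liminf_of_le (by isBoundedDefault) ?_
      filter_upwards [hεlim.eventually (gt_mem_nhds hε0)] with j hj
      gcongr
      rw [areaFn_rpow, ← ENNReal.ofReal_rpow_of_nonneg hQ (by positivity)]
      refine ENNReal.rpow_le_rpow ?_ (by positivity)
      refine (h (ε j) (hεpos j) hj).trans ?_
      refine setLIntegral_mono' (measurableSet_cone lam x) fun q hq => ?_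
      rw [hgrad (ε j) (hεpos j) q.1 q.2 hq.2]
    · rw [indicator_of_notMem hx, zero_mul]
      exact zero_le
  have hmeas : ∀ j, AEMeasurable
      (fun x => (areaFn lam (F (ε j)) x) ^ p * ENNReal.ofReal (U x)) volume := fun j =>
    ((Crit.N.meas_area (hadm _ (hεpos j)) lam).pow_const p).aemeasurable.mul
      (weight_ofReal_aemeas hU)
  calc ENNReal.ofReal (Q ^ (p / 2)) * wm U E
      = ∫⁻ x, E.indicator (fun _ => ENNReal.ofReal (Q ^ (p / 2))) x * ENNReal.ofReal (U x) := by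
        rw [lintegral_mul_weight_univ hU, lintegral_indicator_const hE]
    _ ≤ ∫⁻ x, liminf (fun j => (areaFn lam (F (ε j)) x) ^ p * ENNReal.ofReal (U x)) atTop :=
        lintegral_mono hpt
    _ ≤ liminf (fun j => ∫⁻ x, (areaFn lam (F (ε j)) x) ^ p * ENNReal.ofReal (U x)) atTop :=
        lintegral_liminf_le' hmeas
    _ ≤ C0 * ∫⁻ x, (NTc H b x) ^ p * ENNReal.ofReal (U x) := by
        refine liminf_le_of_le (by isBoundedDefault) fun B hB => ?_
        obtain ⟨j, hj⟩ := hB.exists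
        exact hj.trans (hR _ (hεpos j))

/-! ### The analytic factor -/

lemma poisson_const {θ z y : ℝ} (hy : 0 < y) : poisson (fun _ => θ) z y = θ := by
  rw [poisson_eq_integral]
  have h : (fun t : ℝ => y * θ / ((z - t) ^ 2 + y ^ 2)) =
      fun t => (y * θ) * (1 / ((z - t) ^ 2 + y ^ 2)) := by
    funext t
    rw [mul_one_div]
  rw [h, integral_const_mul, integral_kernel hy]
  have h1 := Real.pi_ne_zero
  have h2 := hy.ne'
  field_simp

lemma le_Vp {l : ℝ → ℝ} {θ c z y : ℝ} (hl : Admissible l) (hθ : ∀ t, θ ≤ l t) (hc : 0 ≤ c)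
    (hy : 0 < y) : θ ≤ Vp l c z y := by
  have h1 : Admissible (fun _ : ℝ => θ) :=
    admissible_of_bounded (M := |θ|) aestronglyMeasurable_const fun _ => le_rfl
  have h2 := Crit.TFUp.poisson_mono (z := z) h1 hl hθ hy
  rw [poisson_const hy] at h2
  have h3 : 0 ≤ c * y := mul_nonneg hc hy.le
  unfold Vp
  linarith

lemma Vs_re {l : ℝ → ℝ} {c z y : ℝ} (hl : Admissible l) (hy : 0 < y) :
    (Vs l c (z + y * I)).re = Vp l c z y := by
  unfold Vs Vp
  rw [Complex.sub_re, schw_re hl hy]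
  simp

/-- The analytic factor of the test function. -/
noncomputable def GG (l : ℝ → ℝ) (c p T x0 s : ℝ) (k : ℕ) (w : ℂ) : ℂ :=
  Complex.exp (-(Vs l c (w + T * I)) / p) * tF x0 s k w

lemma hasDerivAt_GG {l : ℝ → ℝ} {c p T x0 s : ℝ} {k : ℕ} (hl : Admissible l) (hT : 0 < T)
    (hs : 0 < s) {w : ℂ} (hw : 0 ≤ w.im) :
    HasDerivAt (GG l c p T x0 s k) (GG l c p T x0 s k w *
      (-(dschw l (w + T * I) - I * c) / p - k / (w - x0 + s * I))) w := by
  have h0 := hasDerivAt_schw hl (shift_im hT hw)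
  have h1 : HasDerivAt (Vs l c) (dschw l (w + T * I) - I * c) (w + T * I) := by
    have h2 : HasDerivAt (fun v : ℂ => I * c * v) (I * c) (w + T * I) := by
      simpa using (hasDerivAt_id (w + (T : ℂ) * I)).const_mul (I * (c : ℂ))
    exact h0.sub h2
  have h3 : HasDerivAt (fun ζ : ℂ => ζ + T * I) 1 w := (hasDerivAt_id w).add_const _
  have h4 := h1.comp w h3
  rw [mul_one] at h4
  have h5 : HasDerivAt (fun ζ : ℂ => -(Vs l c (ζ + T * I)) / p)
      (-(dschw l (w + T * I) - I * c) / p) w := h4.neg.div_const (p : ℂ)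
  have h6 := h5.cexp
  have h7 := hasDerivAt_tF (x0 := x0) hs k hw
  have h8 := h6.mul h7
  unfold GG
  convert! h8 using 1
  ring

lemma norm_GG {l : ℝ → ℝ} {c p T x0 s : ℝ} {k : ℕ} (hl : Admissible l) (hT : 0 < T)
    (hs : 0 < s) {z y : ℝ} (hy : 0 ≤ y) :
    ‖GG l c p T x0 s k (z + y * I)‖ =
      Real.exp (-Vp l c z (y + T) / p) * (s / ‖(z : ℂ) + y * I - x0 + s * I‖) ^ k := by
  unfold GG
  rw [norm_mul, Complex.norm_exp, norm_tF hs]
  congr 2
  have e : (z : ℂ) + y * I + T * I = z + (y + T : ℝ) * I := by push_cast; ring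
  rw [e, Complex.div_ofReal_re, Complex.neg_re, Vs_re hl (by linarith)]

lemma norm_GG_le {l : ℝ → ℝ} {θ c p T x0 s : ℝ} {k : ℕ} (hl : Admissible l)
    (hθ : ∀ t, θ ≤ l t) (hc : 0 ≤ c) (hp : 0 < p) (hT : 0 < T)
    (hs : 0 < s) {w : ℂ} (hw : 0 ≤ w.im) :
    ‖GG l c p T x0 s k w‖ ≤ Real.exp (-θ / p) := by
  have hwe : (w.re : ℂ) + w.im * I = w := Complex.re_add_im w
  rw [← hwe, norm_GG hl hT hs hw]
  have h1 : θ ≤ Vp l c w.re (w.im + T) := le_Vp hl hθ hc (by linarith)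
  have h2 : (s / ‖(w.re : ℂ) + w.im * I - x0 + s * I‖) ^ k ≤ 1 := by
    rw [hwe]
    apply pow_le_one₀ (by positivity)
    rw [div_le_one (lt_of_lt_of_le hs (le_norm_den hs hw))]
    exact le_norm_den hs hw
  calc Real.exp (-Vp l c w.re (w.im + T) / p) *
        (s / ‖(w.re : ℂ) + w.im * I - x0 + s * I‖) ^ k
      ≤ Real.exp (-θ / p) * 1 := by
        refine mul_le_mul (Real.exp_le_exp.2 ?_) h2 (by positivity) (Real.exp_pos _).le
        exact div_le_div_of_nonneg_right (by linarith) hp.le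
    _ = _ := mul_one _

/-- The bound for the product with the exponential of a Schwarz integral. -/
lemma norm_HH_le {f : ℝ → ℝ} (hf : Admissible f) (hfm : Measurable f) (hf1 : ∀ t, |f t| ≤ 1)
    (G : ℂ → ℂ) {w : ℂ} (hw : 0 < w.im) :
    ‖Complex.exp (schw f w) * G w‖ ≤ Real.exp 1 * ‖G w‖ := by
  rw [norm_mul, Complex.norm_exp]
  refine mul_le_mul_of_nonneg_right (Real.exp_le_exp.2 ?_) (norm_nonneg _)
  have hwe : (w.re : ℂ) + w.im * I = w := Complex.re_add_im w
  have h1 : (schw f w).re = poisson f w.re w.im := by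
    conv_lhs => rw [← hwe]
    exact schw_re hf hw
  rw [h1]
  exact (le_abs_self _).trans (abs_poisson_le hfm hf1 hw)

/-! ### Cones over the closure and over a neighbourhood -/

lemma lowB_closure {a T m c : ℝ} {X : Set ℝ} {l : ℝ → ℝ} (h : LowB a T m c X l) :
    LowB a T m c (closure X) l := by
  intro x hx z y hy hyT hz
  obtain ⟨x', hx', hd⟩ := Metric.mem_closure_iff.1 hx (a * y - |z - x|) (by linarith)
  refine h x' hx' z y hy hyT ?_
  rw [Real.dist_eq] at hd
  calc |z - x'| ≤ |z - x| + |x - x'| := abs_sub_le _ _ _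
    _ < a * y := by linarith

lemma lowB_mono {a T T' m c : ℝ} {X X' : Set ℝ} {l : ℝ → ℝ} (h : LowB a T m c X l)
    (hX : X' ⊆ X) (hT : T' ≤ T) : LowB a T' m c X' l := fun x hx z y hy hyT hz =>
  h x (hX hx) z y hy (hyT.trans_le hT) hz

/-- The set of large values is small. -/
lemma small {a M kk CH δ e H0 : ℝ} (hM : 1 ≤ M) (hkk : 0 < kk) (he : 0 < e)
    (hHM : ∀ (l : ℝ → ℝ) (c m H a0 s : ℝ) (X : Set ℝ), Admissible l → 0 < s → 0 ≤ H →
      MeasurableSet X → X ⊆ Icc a0 (a0 + s) → δ * s ≤ volume.real X →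
      LowB a (2 * M * s) m c X l → (∀ᵐ x, x ∈ X → m + H ≤ l x) →
      e * H ≤ Vp l c (a0 + s / 2) (M * s) - m)
    (hH0 : 0 < H0) (hH : (CH + 2) * kk < e * H0)
    {U l : ℝ → ℝ} {c m a0 s : ℝ} {X : Set ℝ} (hU : IsWeight U) (hl : Admissible l)
    (hUl : ∀ᵐ x, U x ≤ Real.exp (l x)) (hs : 0 < s) (hX : X ⊆ Icc a0 (a0 + s))
    (hLow : LowB a (4 * M * s) (m - 2 * kk) c X l) (hXU : ∀ x ∈ X, Real.exp (m + H0) ≤ U x)
    (hV : Vp l c (a0 + s / 2) (M * s) ≤ m + CH * kk) :
    volume X ≤ ENNReal.ofReal (δ * s) := by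
  have hae := weight_aemeas hU
  set U' : ℝ → ℝ := hae.mk U with hU'
  have hU'm : Measurable U' := hae.measurable_mk
  have hU'e : U =ᵐ[volume] U' := hae.ae_eq_mk
  set Y : Set ℝ := closure X ∩ Icc a0 (a0 + s) ∩ {x | Real.exp (m + H0) ≤ U' x} with hY
  have hYm : MeasurableSet Y :=
    (isClosed_closure.measurableSet.inter measurableSet_Icc).inter
      (measurableSet_le measurable_const hU'm)
  have hYs : Y ⊆ Icc a0 (a0 + s) := fun x hx => hx.1.2
  have hYtop : volume Y ≠ ∞ :=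
    ((measure_mono hYs).trans_lt (by rw [Real.volume_Icc]; exact ENNReal.ofReal_lt_top)).ne
  have hXY : volume X ≤ volume Y := by
    refine measure_mono_ae ?_
    filter_upwards [hU'e] with x hx hxX
    refine ⟨⟨subset_closure hxX, hX hxX⟩, ?_⟩
    show Real.exp (m + H0) ≤ U' x
    rw [← hx]
    exact hXU x hxX
  have hYsmall : volume.real Y < δ * s := by
    by_contra hcon
    push Not at hcon
    have h1 := hHM l c (m - 2 * kk) (H0 + 2 * kk) a0 s Y hl hs (by linarith) hYm hYs hcon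
      (lowB_mono (lowB_closure hLow) (fun x hx => hx.1.1) (by nlinarith)) (by
        filter_upwards [hU'e, hUl] with x hx1 hx2 hxY
        have h2 : Real.exp (m + H0) ≤ Real.exp (l x) := by
          have h3 : Real.exp (m + H0) ≤ U' x := hxY.2
          rw [← hx1] at h3
          exact h3.trans hx2
        have h4 := Real.exp_le_exp.1 h2
        linarith)
    nlinarith
  refine hXY.trans ?_
  rw [← ENNReal.ofReal_toReal hYtop]
  exact ENNReal.ofReal_le_ofReal hYsmall.le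

/-- The lower bound for the analytic factor and the bound for its derivative. -/
lemma key_GG {a lam p M kk CH C1 C2 B g : ℝ} {k0 : ℕ} (ha : 0 < a) (hlam : 0 < lam) (hp : 0 < p)
    (hM1 : 1 ≤ M) (hMa : 2 * (lam + 1) / a ≤ M) (hMa' : 1 / a ≤ M) (hkk : 1 ≤ kk) (hCH : 1 ≤ CH)
    (hC1 : 1 ≤ C1) (hC2 : C2 = C1 * (CH + 2)) (hB : B = C1 * (C2 * kk) / (M * p) + k0)
    (hHch : ∀ (l : ℝ → ℝ) (c x T m : ℝ), Admissible l → LowB a T m c {x} l →
      ∀ z y z' y' : ℝ, 0 < y → 0 < y' → |z - x| ≤ a / 2 * y → |z' - x| ≤ a / 2 * y' →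
        y ≤ 2 * y' → y' ≤ 2 * y → 2 * y ≤ T → 2 * y' ≤ T →
        Vp l c z y - m ≤ C1 * (Vp l c z' y' - m) ∧
        ‖dschw l (z + y * I) - I * c‖ ≤ C1 / y * (Vp l c z y - m))
    {l : ℝ → ℝ} {c m a0 s : ℝ} {X : Set ℝ} (hl : Admissible l) (hs : 0 < s)
    (hX : X ⊆ Icc a0 (a0 + s)) (hLow : LowB a (4 * M * s) (m - 2 * kk) c X l)
    (hV : Vp l c (a0 + s / 2) (M * s) ≤ m + CH * kk)
    (hg : g = Real.exp (-(m + C2 * kk) / p) * (1 / (lam + 3)) ^ k0)
    {x z y : ℝ} (hx : x ∈ thickening (s / 2) X) (hy : 0 < y) (hys : y ≤ s)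
    (hz : |z - x| ≤ lam * y) :
    g ≤ ‖GG l c p (M * s) (a0 + s / 2) s k0 (z + y * I)‖ ∧
      ‖deriv (GG l c p (M * s) (a0 + s / 2) s k0) (z + y * I)‖ ≤
        B / s * ‖GG l c p (M * s) (a0 + s / 2) s k0 (z + y * I)‖ := by
  have hM0 : 0 < M := by linarith
  have hT : 0 < M * s := by positivity
  obtain ⟨x', hx', hd⟩ := mem_thickening_iff.1 hx
  rw [Real.dist_eq] at hd
  have hx'I := hX hx'
  have hMa2 : lam + 1 ≤ a / 2 * M := by
    rw [div_le_iff₀ ha] at hMa
    linarith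
  have hMa3 : 1 ≤ a * M := by
    rw [div_le_iff₀ ha] at hMa'
    linarith
  have hsM : s ≤ M * s := by nlinarith
  have h1 : |z - x'| ≤ a / 2 * (y + M * s) := by
    calc |z - x'| ≤ |z - x| + |x - x'| := abs_sub_le _ _ _
      _ ≤ lam * s + s := by
        have h2 : lam * y ≤ lam * s := by gcongr
        linarith
      _ = (lam + 1) * s := by ring
      _ ≤ a / 2 * M * s := by gcongr
      _ ≤ a / 2 * (y + M * s) := by
        have h3 : 0 ≤ a / 2 * y := by positivity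
        nlinarith
  have h2 : |a0 + s / 2 - x'| ≤ a / 2 * (M * s) := by
    have h3 : |a0 + s / 2 - x'| ≤ s / 2 := by
      rw [abs_le]
      constructor <;> linarith [hx'I.1, hx'I.2]
    nlinarith
  obtain ⟨h3, h4⟩ := hHch l c x' (4 * M * s) (m - 2 * kk) hl
    (lowB_mono hLow (singleton_subset_iff.2 hx') le_rfl) z (y + M * s) (a0 + s / 2) (M * s)
    (by positivity) hT h1 h2 (by linarith) (by linarith) (by linarith) (by linarith)
  have hC20 : 0 ≤ C2 := by
    rw [hC2]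
    have : 0 ≤ CH + 2 := by linarith
    positivity
  have h5 : Vp l c z (y + M * s) - (m - 2 * kk) ≤ C2 * kk := by
    refine h3.trans ?_
    rw [hC2, mul_assoc]
    refine mul_le_mul_of_nonneg_left ?_ (by linarith)
    linarith
  have him : (0 : ℝ) ≤ ((z : ℂ) + y * I).im := by simp; exact hy.le
  have hGn := norm_GG (c := c) (p := p) (x0 := a0 + s / 2) (k := k0) hl hT hs hy.le (z := z)
  have hden : ‖(z : ℂ) + y * I - (a0 + s / 2 : ℝ) + s * I‖ ≤ (lam + 3) * s := by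
    have e : (z : ℂ) + y * I - (a0 + s / 2 : ℝ) + s * I =
        ((z - (a0 + s / 2) : ℝ) : ℂ) + ((y + s : ℝ) : ℂ) * I := by push_cast; ring
    rw [e]
    have h6 : |z - (a0 + s / 2)| ≤ (lam + 1) * s := by
      have h7 : |a0 + s / 2 - x'| ≤ s / 2 := by
        rw [abs_le]
        constructor <;> linarith [hx'I.1, hx'I.2]
      have h8 : |z - (a0 + s / 2)| ≤ |z - x| + |x - x'| + |x' - (a0 + s / 2)| := by
        calc |z - (a0 + s / 2)| ≤ |z - x'| + |x' - (a0 + s / 2)| := abs_sub_le _ _ _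
          _ ≤ _ := by
            have := abs_sub_le z x x'
            linarith
      rw [abs_sub_comm x' (a0 + s / 2)] at h8
      have h9 : lam * y ≤ lam * s := by gcongr
      nlinarith
    calc ‖((z - (a0 + s / 2) : ℝ) : ℂ) + ((y + s : ℝ) : ℂ) * I‖
        ≤ ‖((z - (a0 + s / 2) : ℝ) : ℂ)‖ + ‖((y + s : ℝ) : ℂ) * I‖ := norm_add_le _ _
      _ = |z - (a0 + s / 2)| + (y + s) := by
          rw [norm_mul, norm_I, mul_one, Complex.norm_real, Complex.norm_real,
            Real.norm_eq_abs, Real.norm_eq_abs, abs_of_pos (by linarith : 0 < y + s)]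
      _ ≤ (lam + 3) * s := by nlinarith
  have hden0 : s ≤ ‖(z : ℂ) + y * I - (a0 + s / 2 : ℝ) + s * I‖ := le_norm_den hs him
  have hdenp : 0 < ‖(z : ℂ) + y * I - (a0 + s / 2 : ℝ) + s * I‖ := lt_of_lt_of_le hs hden0
  constructor
  · rw [hGn, hg]
    refine mul_le_mul (Real.exp_le_exp.2 ?_) ?_ (by positivity) (Real.exp_pos _).le
    · refine div_le_div_of_nonneg_right ?_ hp.le
      linarith
    · refine pow_le_pow_left₀ (by positivity) ?_ k0
      rw [div_le_div_iff₀ (by linarith) hdenp]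
      linarith
  · rw [(hasDerivAt_GG hl hT hs him).deriv, norm_mul, mul_comm]
    refine mul_le_mul_of_nonneg_right ?_ (norm_nonneg _)
    have e2 : (z : ℂ) + y * I + (M * s : ℝ) * I = z + (y + M * s : ℝ) * I := by push_cast; ring
    rw [e2]
    have h6 : ‖-(dschw l (z + (y + M * s : ℝ) * I) - I * c) / p‖ ≤
        C1 * (C2 * kk) / (M * p) / s := by
      rw [norm_div, norm_neg, Complex.norm_real, Real.norm_eq_abs, abs_of_pos hp]
      have h7 : ‖dschw l (z + (y + M * s : ℝ) * I) - I * c‖ ≤ C1 / (M * s) * (C2 * kk) := by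
        refine h4.trans ?_
        have h8 : C1 / (y + M * s) ≤ C1 / (M * s) := by
          gcongr
          linarith
        have h9 : (0 : ℝ) ≤ C1 / (y + M * s) := by positivity
        calc C1 / (y + M * s) * (Vp l c z (y + M * s) - (m - 2 * kk))
            ≤ C1 / (y + M * s) * (C2 * kk) := by gcongr
          _ ≤ C1 / (M * s) * (C2 * kk) := by gcongr
      calc ‖dschw l (z + (y + M * s : ℝ) * I) - I * c‖ / p
          ≤ C1 / (M * s) * (C2 * kk) / p := by gcongr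
        _ = C1 * (C2 * kk) / (M * p) / s := by field_simp
    have h7 : ‖(k0 : ℂ) / ((z : ℂ) + y * I - (a0 + s / 2 : ℝ) + s * I)‖ ≤ k0 / s := by
      rw [norm_div, Complex.norm_natCast]
      gcongr
    calc ‖-(dschw l (z + (y + M * s : ℝ) * I) - I * c) / p -
          k0 / ((z : ℂ) + y * I - (a0 + s / 2 : ℝ) + s * I)‖
        ≤ C1 * (C2 * kk) / (M * p) / s + k0 / s := (norm_sub_le _ _).trans (add_le_add h6 h7)
      _ = B / s := by rw [hB, add_div]

end Core

open Core in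
theorem stCore (hHch : StHch) (hHM : StHM) (hOsc : StOsc) (hCost : StCost) : StCore := by
  intro C0 lam b p μ a hlam hb hbμ hp ha
  obtain ⟨M1, hM1, hM⟩ := hHM a ha
  refine ⟨max (max M1 (2 * (lam + 1) / a)) (1 / a),
    le_trans hM1 ((le_max_left _ _).trans (le_max_left _ _)), ?_⟩
  intro M hMM kk CH η hkk hCH hη
  have hMM1 : M1 ≤ M := ((le_max_left _ _).trans (le_max_left _ _)).trans hMM
  have hMa : 2 * (lam + 1) / a ≤ M := ((le_max_right _ _).trans (le_max_left _ _)).trans hMM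
  have hMa' : 1 / a ≤ M := (le_max_right _ _).trans hMM
  have hM1' : 1 ≤ M := hM1.trans hMM1
  have hM0 : 0 < M := by linarith
  obtain ⟨k0, hk0⟩ := exists_nat_ge (4 / p)
  have hk0p : 4 ≤ (k0 : ℝ) * p := by rwa [div_le_iff₀ hp] at hk0
  obtain ⟨C1, hC1, hHch'⟩ := hHch a (a / 2) 2 (by positivity) (by linarith) (by norm_num)
  obtain ⟨C2, hC2⟩ : ∃ C2 : ℝ, C2 = C1 * (CH + 2) := ⟨_, rfl⟩
  obtain ⟨B, hB⟩ : ∃ B : ℝ, B = C1 * (C2 * kk) / (M * p) + k0 := ⟨_, rfl⟩
  have hCH2 : 0 < CH + 2 := by linarith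
  have hC20 : 0 < C2 := by
    rw [hC2]
    exact mul_pos (by linarith) hCH2
  have hkk0 : 0 < kk := by linarith
  have hB0 : 0 ≤ B := by
    rw [hB]
    have : 0 < C1 := by linarith
    positivity
  obtain ⟨τ, hτ, hOsc'⟩ := hOsc lam B hlam hB0
  obtain ⟨Cc, hCc, hCost'⟩ := hCost b μ p M k0 hb hbμ hp hk0p hM0
  obtain ⟨g1, hg1⟩ : ∃ g1 : ℝ, g1 = Real.exp (-(C2 * kk)) * ((1 / (lam + 3)) ^ k0) ^ p := ⟨_, rfl⟩
  have hg10 : 0 < g1 := by
    rw [hg1]
    have : 0 < lam + 3 := by linarith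
    positivity
  obtain ⟨n, hn, hn1⟩ : ∃ n : ℕ, C0 * Cc * Real.exp 1 ^ p / (η * g1) ≤ (n * τ) ^ (p / 2) ∧
      1 ≤ n := by
    have h1 : Tendsto (fun n : ℕ => ((n : ℝ) * τ) ^ (p / 2)) atTop atTop :=
      (tendsto_rpow_atTop (by positivity)).comp
        (tendsto_natCast_atTop_atTop.atTop_mul_const hτ)
    exact ((h1.eventually_ge_atTop _).and (eventually_ge_atTop 1)).exists
  have hn0 : (0 : ℝ) < n := by exact_mod_cast hn1
  have hn2 : C0 * Cc * Real.exp 1 ^ p ≤ η * ((n * τ) ^ (p / 2) * g1) := by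
    rw [div_le_iff₀ (by positivity)] at hn
    linarith
  obtain ⟨δ, hδ, hOsc''⟩ := hOsc' n
  obtain ⟨e, he, hHM'⟩ := hM M hMM1 (δ / 2) (by positivity)
  have hH0 : 0 < (CH + 2) * kk / e + 1 := by positivity
  refine ⟨(CH + 2) * kk / e + 1, hH0, ?_⟩
  intro U l c κ m a0 s X hU hEx hc hUl hS hκ hSh hs hX hLow hXU hV
  obtain ⟨hl, θ, hθ⟩ := hEx
  have hHe : (CH + 2) * kk < e * ((CH + 2) * kk / e + 1) := by
    have h1 : e * ((CH + 2) * kk / e + 1) = (CH + 2) * kk + e := by field_simp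
    rw [h1]
    linarith
  have hvol := small hM1' hkk0 he hHM' hH0 hHe hU hl hUl hs hX hLow hXU hV
  have hlt : volume X < ENNReal.ofReal (δ * s) := by
    refine hvol.trans_lt ((ENNReal.ofReal_lt_ofReal_iff (by positivity)).2 ?_)
    have : 0 < δ * s := by positivity
    linarith
  obtain ⟨E1, hXE1, hE1o, hE1v⟩ := X.exists_isOpen_lt_of_lt _ hlt
  set E : Set ℝ := E1 ∩ thickening (s / 2) X with hE
  have hEo : IsOpen E := hE1o.inter isOpen_thickening
  have hXE : X ⊆ E := subset_inter hXE1 (self_subset_thickening (by positivity) X)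
  have hEI : E ⊆ Ioo (a0 + s / 2 - 2 * s) (a0 + s / 2 + 2 * s) := by
    intro x hx
    obtain ⟨x', hx', hd⟩ := mem_thickening_iff.1 hx.2
    rw [Real.dist_eq] at hd
    have h1 := hX hx'
    have h2 := abs_lt.1 hd
    constructor <;> linarith [h1.1, h1.2, h2.1, h2.2]
  have hEv : volume.real E ≤ δ * s := by
    have h1 : volume E ≤ ENNReal.ofReal (δ * s) := (measure_mono inter_subset_left).trans hE1v.le
    have h2 := ENNReal.toReal_mono ENNReal.ofReal_ne_top h1
    rwa [ENNReal.toReal_ofReal (by positivity)] at h2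
  obtain ⟨f, hfm, hf1, hf⟩ := hOsc'' (a0 + s / 2) s E hs hEo hEI hEv
  have hfa : Admissible f := admissible_of_bounded hfm.aestronglyMeasurable hf1
  have hT : 0 < M * s := by positivity
  set G : ℂ → ℂ := GG l c p (M * s) (a0 + s / 2) s k0 with hG
  obtain ⟨g, hg⟩ : ∃ g : ℝ, g = Real.exp (-(m + C2 * kk) / p) * (1 / (lam + 3)) ^ k0 := ⟨_, rfl⟩
  have hlam3 : 0 < lam + 3 := by linarith
  have hg0 : 0 < g := by
    rw [hg]
    positivity
  have hGd : ∀ w : ℂ, 0 ≤ w.im → DifferentiableAt ℂ G w := fun w hw =>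
    (hasDerivAt_GG hl hT hs hw).differentiableAt
  have hosc := hf G g (fun w hw => (hGd w (le_of_lt hw)).differentiableWithinAt) hg0.le
    (fun x hx z y hy hys hz => key_GG ha hlam hp hM1' hMa hMa' hkk hCH hC1 hC2 hB hHch' hl hs
      hX hLow hV hg hx.2 hy hys hz)
  have hlower := star_lower (C0 := C0) (K := Real.exp 1 * Real.exp (-θ / p)) hb hp hU hS
    (H := fun w : ℂ => Complex.exp (schw f w) * G w)
    (fun w hw => (hasDerivAt_schw hfa hw).cexp.differentiableAt.mul (hGd w (le_of_lt hw)))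
    (fun w hw => (norm_HH_le hfa hfm hf1 G hw).trans
      (mul_le_mul_of_nonneg_left (norm_GG_le hl hθ hc hp hT hs (le_of_lt hw))
        (Real.exp_pos 1).le))
    hEo.measurableSet (Q := n * (τ * g ^ 2)) (by positivity) hosc
  have hupper := hCost' U l c κ (a0 + s / 2) s (Real.exp 1)
    (fun w : ℂ => Complex.exp (schw f w) * G w) hU hl hκ hs (Real.exp_pos 1).le hSh
    (fun z y hy => by
      have h1 := norm_HH_le hfa hfm hf1 G (w := z + y * I) (by simp; exact hy)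
      rw [hG, norm_GG hl hT hs hy.le] at h1
      rw [mul_assoc]
      exact h1)
  have hQ : (n * (τ * g ^ 2)) ^ (p / 2) = (n * τ) ^ (p / 2) * (Real.exp (-m) * g1) := by
    have h1 : (n : ℝ) * (τ * g ^ 2) = (n * τ) * g ^ 2 := by ring
    rw [h1, Real.mul_rpow (by positivity) (by positivity)]
    congr 1
    rw [← Real.rpow_natCast g 2, ← Real.rpow_mul hg0.le]
    have h2 : ((2 : ℕ) : ℝ) * (p / 2) = p := by push_cast; ring
    rw [h2, hg, Real.mul_rpow (Real.exp_pos _).le (by positivity), ← Real.exp_mul, hg1,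
      ← mul_assoc, ← Real.exp_add]
    congr 2
    field_simp
    ring
  have hQ0 : 0 < (n * (τ * g ^ 2)) ^ (p / 2) := by positivity
  have hfin : ENNReal.ofReal ((n * (τ * g ^ 2)) ^ (p / 2)) * wm U X ≤
      ENNReal.ofReal ((n * (τ * g ^ 2)) ^ (p / 2)) *
        ENNReal.ofReal (η * κ * s * Real.exp m) := by
    calc ENNReal.ofReal ((n * (τ * g ^ 2)) ^ (p / 2)) * wm U X
        ≤ ENNReal.ofReal ((n * (τ * g ^ 2)) ^ (p / 2)) * wm U E := by
          gcongr
      _ ≤ _ := hlower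
      _ ≤ C0 * ENNReal.ofReal (Cc * Real.exp 1 ^ p * κ * s) := by gcongr
      _ = ENNReal.ofReal (C0 * (Cc * Real.exp 1 ^ p * κ * s)) := by
          rw [ENNReal.ofReal_mul C0.coe_nonneg, ENNReal.ofReal_coe_nnreal]
      _ ≤ ENNReal.ofReal ((n * (τ * g ^ 2)) ^ (p / 2) * (η * κ * s * Real.exp m)) := by
          apply ENNReal.ofReal_le_ofReal
          rw [hQ]
          have h1 : Real.exp (-m) * Real.exp m = 1 := by
            rw [← Real.exp_add]
            simp
          have h2 : (n * τ) ^ (p / 2) * (Real.exp (-m) * g1) * (η * κ * s * Real.exp m) =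
              η * ((n * τ) ^ (p / 2) * g1) * (κ * s) := by
            linear_combination ((n * τ) ^ (p / 2) * g1 * η * κ * s) * h1
          rw [h2]
          have h3 : (C0 : ℝ) * (Cc * Real.exp 1 ^ p * κ * s) =
              C0 * Cc * Real.exp 1 ^ p * (κ * s) := by ring
          rw [h3]
          exact mul_le_mul_of_nonneg_right hn2 (by positivity)
      _ = _ := ENNReal.ofReal_mul hQ0.le
  exact (ENNReal.mul_le_mul_iff_right (by
    simp only [ne_eq, ENNReal.ofReal_eq_zero, not_le]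
    exact hQ0) ENNReal.ofReal_ne_top).1 hfin

end Pool.Agent.Work.MP_055a27_an.Fn
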