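import Pool.Agent.Work.MP_055a27_an.Fn.Stmts
import Pool.Agent.Work.MP_055a27_an.Bd.B06

/-!
# Upper bound for the maximal functions of the test functions
-/

set_option autoImplicit false

open MeasureTheory Set Filter Topology Complex Metric
open scoped ENNReal NNReal

namespace Pool.Agent.Work.MP_055a27_an.Fn

open Crit (lg NTc Nice NI)
open Cr3 (Wt Sh)

namespace Cost

lemma contVp {l : ℝ → ℝ} (hl : Admissible l) (c : ℝ) :
    ContinuousOn (fun q : ℝ × ℝ => Vp l c q.1 q.2) {q : ℝ × ℝ | 0 < q.2} :=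
  (Crit.stPCont l hl).add (continuous_const.mul continuous_snd).continuousOn

/-- A minimum point in a cell. -/
lemma exMin {l : ℝ → ℝ} (hl : Admissible l) (c : ℝ) {a d Y Y' : ℝ} (had : a ≤ d) (hY : 0 < Y)
    (hYY : Y ≤ Y') : ∃ w : ℝ × ℝ, w.1 ∈ Icc a d ∧ w.2 ∈ Icc Y Y' ∧
      ∀ z y : ℝ, z ∈ Icc a d → y ∈ Icc Y Y' → Vp l c w.1 w.2 ≤ Vp l c z y := by
  have hK : IsCompact (Icc a d ×ˢ Icc Y Y') := isCompact_Icc.prod isCompact_Icc
  have hne : (Icc a d ×ˢ Icc Y Y').Nonempty := ⟨(a, Y), ⟨le_rfl, had⟩, ⟨le_rfl, hYY⟩⟩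
  obtain ⟨w, hw, hmin⟩ := hK.exists_isMinOn hne
    ((contVp hl c).mono (fun q hq => lt_of_lt_of_le hY hq.2.1))
  exact ⟨w, hw.1, hw.2, fun z y hz hy => hmin (a := (z, y)) ⟨hz, hy⟩⟩

lemma sumSq {s : ℝ} (hs : 0 < s) (N : ℕ) :
    ∑ n ∈ Finset.range (N + 1), 1 / (1 + (n : ℝ) * s) ^ 2 ≤
      1 + 1 / s - 1 / (s * (1 + (N : ℝ) * s)) := by
  induction N with
  | zero => simp
  | succ N ih =>
    rw [Finset.sum_range_succ]
    have h1 : 0 < 1 + (N : ℝ) * s := by positivity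
    have h2 : 0 < 1 + ((N + 1 : ℕ) : ℝ) * s := by positivity
    have h3 : 1 / (1 + ((N + 1 : ℕ) : ℝ) * s) ^ 2 ≤
        1 / (s * (1 + (N : ℝ) * s)) - 1 / (s * (1 + ((N + 1 : ℕ) : ℝ) * s)) := by
      have e : 1 / (s * (1 + (N : ℝ) * s)) - 1 / (s * (1 + ((N + 1 : ℕ) : ℝ) * s)) =
          1 / ((1 + (N : ℝ) * s) * (1 + ((N + 1 : ℕ) : ℝ) * s)) := by
        field_simp
        push_cast
        ring
      rw [e]
      apply one_div_le_one_div_of_le (by positivity)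
      rw [sq]
      apply mul_le_mul_of_nonneg_right _ h2.le
      push_cast
      linarith
    linarith

lemma sumSq' {s : ℝ} (hs : 0 < s) (N : ℕ) :
    ∑ n ∈ Finset.range N, 1 / (1 + (n : ℝ) * s) ^ 2 ≤ 1 + 1 / s := by
  cases N with
  | zero => simp; positivity
  | succ N =>
    refine (sumSq hs N).trans ?_
    have : 0 ≤ 1 / (s * (1 + (N : ℝ) * s)) := by positivity
    linarith

/-- The decay of the test function. -/
lemma decay {z y x0 β ε Y D : ℝ} (hβ : 0 < β) (hε : 0 < ε) (hy : 0 < y) (h1 : Y ≤ y + ε * β)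
    (hY : 0 < Y) (hD : 0 ≤ D) (hz : D ≤ |z - x0|) :
    0 < β / ‖(z : ℂ) + y * I - x0 + β * I‖ ∧ β / ‖(z : ℂ) + y * I - x0 + β * I‖ ≤ 1 ∧
    (β / ‖(z : ℂ) + y * I - x0 + β * I‖) ^ 4 ≤
      4 * (1 + ε) ^ 2 * (1 / (1 + Y / β) ^ 2) * (1 / (1 + D / β) ^ 2) := by
  have hN : |z - x0| ≤ ‖(z : ℂ) + y * I - x0 + β * I‖ := by
    have h := Complex.abs_re_le_norm ((z : ℂ) + y * I - x0 + β * I)
    simpa using h
  have hN2 : y + β ≤ ‖(z : ℂ) + y * I - x0 + β * I‖ := by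
    have h := Complex.abs_im_le_norm ((z : ℂ) + y * I - x0 + β * I)
    simp only [add_im, sub_im, ofReal_im, mul_im, ofReal_re, I_im, mul_one, I_re, mul_zero,
      add_zero, zero_add, sub_zero] at h
    exact (le_abs_self _).trans h
  set N : ℝ := ‖(z : ℂ) + y * I - x0 + β * I‖ with hNd
  have hNpos : 0 < N := by linarith
  have hg0 : 0 < β / N := div_pos hβ hNpos
  have e1 : β / N ≤ (1 + ε) / (1 + Y / β) := by
    rw [div_le_div_iff₀ hNpos (by positivity)]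
    have : β * (1 + Y / β) = β + Y := by field_simp
    rw [this]
    nlinarith
  have e2 : β / N ≤ 2 / (1 + D / β) := by
    rw [div_le_div_iff₀ hNpos (by positivity)]
    have : β * (1 + D / β) = β + D := by field_simp
    rw [this]
    linarith
  refine ⟨hg0, ?_, ?_⟩
  · rw [div_le_one hNpos]
    linarith
  · calc (β / N) ^ 4 = (β / N) ^ 2 * (β / N) ^ 2 := by ring
      _ ≤ ((1 + ε) / (1 + Y / β)) ^ 2 * (2 / (1 + D / β)) ^ 2 := by
          apply mul_le_mul (pow_le_pow_left₀ hg0.le e1 2) (pow_le_pow_left₀ hg0.le e2 2)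
            (by positivity) (by positivity)
      _ = 4 * (1 + ε) ^ 2 * (1 / (1 + Y / β) ^ 2) * (1 / (1 + D / β) ^ 2) := by
          rw [div_pow, div_pow]
          ring

lemma rpow_est {p g : ℝ} {k : ℕ} (hk : 4 ≤ k * p) (h0 : 0 < g) (h1 : g ≤ 1) :
    (g ^ k) ^ p ≤ g ^ 4 := by
  have e : (g ^ k) ^ p = g ^ ((k : ℝ) * p) := by
    rw [Real.rpow_mul h0.le, Real.rpow_natCast]
  have e2 : g ^ 4 = g ^ (4 : ℝ) := by
    rw [← Real.rpow_natCast]
    norm_num
  rw [e, e2]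
  exact Real.rpow_le_rpow_of_exponent_ge h0 h1 hk

/-- The left end of a cell. -/
noncomputable def lft (x0 η Y : ℝ) (σ : Bool) (n : ℕ) : ℝ :=
  if σ then x0 + n * (η * Y) else x0 - (n + 1) * (η * Y)

/-- Each point lies in a cell. -/
lemma exCell {x0 η Y z : ℝ} (hη : 0 < η) (hY : 0 < Y) : ∃ (σ : Bool) (n : ℕ),
    z ∈ Icc (lft x0 η Y σ n) (lft x0 η Y σ n + η * Y) ∧ n * (η * Y) ≤ |z - x0| := by
  have hs : 0 < η * Y := mul_pos hη hY
  rcases le_total x0 z with h | h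
  · refine ⟨true, ⌊(z - x0) / (η * Y)⌋₊, ?_, ?_⟩
    · have h1 := Nat.floor_le (div_nonneg (sub_nonneg.2 h) hs.le)
      have h2 := Nat.lt_floor_add_one ((z - x0) / (η * Y))
      rw [le_div_iff₀ hs] at h1
      rw [div_lt_iff₀ hs] at h2
      simp only [lft, if_true]
      constructor <;> linarith
    · have h1 := Nat.floor_le (div_nonneg (sub_nonneg.2 h) hs.le)
      rw [le_div_iff₀ hs] at h1
      exact h1.trans (le_abs_self _)
  · refine ⟨false, ⌊(x0 - z) / (η * Y)⌋₊, ?_, ?_⟩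
    · have h1 := Nat.floor_le (div_nonneg (sub_nonneg.2 h) hs.le)
      have h2 := Nat.lt_floor_add_one ((x0 - z) / (η * Y))
      rw [le_div_iff₀ hs] at h1
      rw [div_lt_iff₀ hs] at h2
      simp only [lft, Bool.false_eq_true, if_false]
      constructor <;> linarith
    · have h1 := Nat.floor_le (div_nonneg (sub_nonneg.2 h) hs.le)
      rw [le_div_iff₀ hs] at h1
      rw [abs_sub_comm]
      exact h1.trans (le_abs_self _)

/-- The heights of the cells. -/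
noncomputable def hgt (ε β η : ℝ) (j : ℕ) : ℝ := ε * β * (1 + η) ^ j

/-- The weight of a cell. -/
noncomputable def om (ε β η : ℝ) (j n : ℕ) : ℝ :=
  4 * (1 + ε) ^ 2 * (1 / (1 + hgt ε β η j / β) ^ 2) *
    (1 / (1 + (n : ℝ) * (η * (hgt ε β η j / β))) ^ 2)

lemma hgt_pos {ε β η : ℝ} (hε : 0 < ε) (hβ : 0 < β) (hη : 0 < η) (j : ℕ) : 0 < hgt ε β η j := by
  unfold hgt
  positivity

lemma hgt_succ (ε β η : ℝ) (j : ℕ) : hgt ε β η (j + 1) = (1 + η) * hgt ε β η j := by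
  unfold hgt
  rw [pow_succ]
  ring

lemma om_nonneg {ε β η : ℝ} (hε : 0 < ε) (hβ : 0 < β) (hη : 0 < η) (j n : ℕ) :
    0 ≤ om ε β η j n := by
  have := hgt_pos hε hβ hη j
  unfold om
  positivity

/-- The sum over the cells of one height. -/
lemma sumRow {ε β η E : ℝ} (hε : 0 < ε) (hβ : 0 < β) (hη : 0 < η) (hE : 0 ≤ E) (j : ℕ) :
    ∑' n : ℕ, ENNReal.ofReal (E * (om ε β η j n * hgt ε β η (j + 1))) ≤
      ENNReal.ofReal (E * (4 * (1 + ε) ^ 2 * (1 + η) * (1 + 1 / η) * β / ε) *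
        (1 / (1 + η)) ^ j) := by
  have hY := hgt_pos hε hβ hη j
  set Y := hgt ε β η j with hYd
  have ht : 0 < Y / β := div_pos hY hβ
  have hs : 0 < η * (Y / β) := mul_pos hη ht
  refine ENNReal.tsum_le_of_sum_range_le fun N => ?_
  have hnn : ∀ n ∈ Finset.range N, 0 ≤ E * (om ε β η j n * hgt ε β η (j + 1)) := fun n _ =>
    mul_nonneg hE (mul_nonneg (om_nonneg hε hβ hη j n) (hgt_pos hε hβ hη _).le)
  rw [← ENNReal.ofReal_sum_of_nonneg hnn]
  apply ENNReal.ofReal_le_ofReal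
  have h1 : ∑ n ∈ Finset.range N, E * (om ε β η j n * hgt ε β η (j + 1)) =
      E * (4 * (1 + ε) ^ 2 * (1 / (1 + Y / β) ^ 2) * ((1 + η) * Y)) *
        ∑ n ∈ Finset.range N, 1 / (1 + (n : ℝ) * (η * (Y / β))) ^ 2 := by
    rw [Finset.mul_sum]
    refine Finset.sum_congr rfl fun n _ => ?_
    rw [hgt_succ, om, ← hYd]
    ring
  rw [h1]
  have h2 := sumSq' hs N
  have h3 : 0 ≤ E * (4 * (1 + ε) ^ 2 * (1 / (1 + Y / β) ^ 2) * ((1 + η) * Y)) := by positivity
  refine (mul_le_mul_of_nonneg_left h2 h3).trans ?_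
  have hYt : Y = β * (Y / β) := by field_simp
  have htj : Y / β = ε * (1 + η) ^ j := by
    rw [hYd, hgt]
    field_simp
  set t := Y / β with htd
  have h4 : (1 / (1 + t) ^ 2) * Y * (1 + 1 / (η * t)) ≤ (1 + 1 / η) * β / ε * (1 / (1 + η)) ^ j := by
    have e1 : (1 / (1 + t) ^ 2) * Y * (1 + 1 / (η * t)) = β * (t + 1 / η) / (1 + t) ^ 2 := by
      rw [hYt]
      field_simp
    have e2 : (1 + 1 / η) * β / ε * (1 / (1 + η)) ^ j = β * (1 + 1 / η) / t := by
      rw [htj, one_div_pow]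
      field_simp
    rw [e1, e2, div_le_div_iff₀ (by positivity) ht]
    have hη1 : 0 < 1 / η := by positivity
    have h5 : (t + 1 / η) * t ≤ (1 + 1 / η) * (1 + t) ^ 2 := by nlinarith [mul_pos hη1 ht]
    nlinarith
  calc E * (4 * (1 + ε) ^ 2 * (1 / (1 + t) ^ 2) * ((1 + η) * Y)) * (1 + 1 / (η * t))
      = E * (4 * (1 + ε) ^ 2 * (1 + η)) * ((1 / (1 + t) ^ 2) * Y * (1 + 1 / (η * t))) := by ring
    _ ≤ E * (4 * (1 + ε) ^ 2 * (1 + η)) * ((1 + 1 / η) * β / ε * (1 / (1 + η)) ^ j) :=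
        mul_le_mul_of_nonneg_left h4 (by positivity)
    _ = _ := by ring

/-- The sum over all cells. -/
lemma sumAll {ε β η E : ℝ} (hε : 0 < ε) (hβ : 0 < β) (hη : 0 < η) (hE : 0 ≤ E) :
    ∑' Q : ℕ × Bool × ℕ, ENNReal.ofReal (E * (om ε β η Q.1 Q.2.2 * hgt ε β η (Q.1 + 1))) ≤
      ENNReal.ofReal (E * (8 * (1 + ε) ^ 2 * (1 + η) ^ 2 * (1 + 1 / η) / (ε * η)) * β) := by
  rw [ENNReal.tsum_prod']
  have h1 : ∀ j : ℕ, ∑' b : Bool × ℕ, ENNReal.ofReal (E * (om ε β η j b.2 *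
      hgt ε β η (j + 1))) ≤ ENNReal.ofReal (2 * (E * (4 * (1 + ε) ^ 2 * (1 + η) * (1 + 1 / η) *
        β / ε)) * (1 / (1 + η)) ^ j) := by
    intro j
    rw [ENNReal.tsum_prod', tsum_bool]
    have h2 := sumRow hε hβ hη hE j
    refine (add_le_add h2 h2).trans ?_
    rw [← ENNReal.ofReal_add (by positivity) (by positivity)]
    apply ENNReal.ofReal_le_ofReal
    linarith
  refine (ENNReal.tsum_le_tsum h1).trans ?_
  have hr : 1 / (1 + η) < 1 := by
    rw [div_lt_one (by positivity)]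
    linarith
  have hr0 : 0 ≤ 1 / (1 + η) := by positivity
  rw [← ENNReal.ofReal_tsum_of_nonneg (fun j => by positivity)
    ((summable_geometric_of_lt_one hr0 hr).mul_left _), tsum_mul_left,
    tsum_geometric_of_lt_one hr0 hr]
  apply ENNReal.ofReal_le_ofReal
  have e : (1 - 1 / (1 + η))⁻¹ = (1 + η) / η := by
    have : 1 - 1 / (1 + η) = η / (1 + η) := by
      field_simp
      ring
    rw [this, inv_div]
  rw [e]
  apply le_of_eq
  field_simp
  ring

/-- The pointwise bound. -/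
lemma pointwise {b μ p ε η c β A x0 : ℝ} {k : ℕ} {l : ℝ → ℝ} {H : ℂ → ℂ} (hb : 0 < b)
    (hη : 0 < η) (hbμ : b * (1 + η) + η ≤ μ) (hμ : 0 < μ) (hp : 0 < p) (hk : 4 ≤ k * p)
    (hε : 0 < ε) (hβ : 0 < β) (hA : 0 ≤ A)
    (hH : ∀ z y : ℝ, 0 < y → ‖H (z + y * I)‖ ≤
      A * Real.exp (-Vp l c z (y + ε * β) / p) * (β / ‖(z : ℂ) + y * I - x0 + β * I‖) ^ k)
    (w : ℕ × Bool × ℕ → ℝ × ℝ)
    (hw : ∀ Q, (w Q).1 ∈ Icc (lft x0 η (hgt ε β η Q.1) Q.2.1 Q.2.2)
        (lft x0 η (hgt ε β η Q.1) Q.2.1 Q.2.2 + η * hgt ε β η Q.1) ∧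
      (w Q).2 ∈ Icc (hgt ε β η Q.1) (hgt ε β η (Q.1 + 1)) ∧
      ∀ z y : ℝ, z ∈ Icc (lft x0 η (hgt ε β η Q.1) Q.2.1 Q.2.2)
        (lft x0 η (hgt ε β η Q.1) Q.2.1 Q.2.2 + η * hgt ε β η Q.1) →
        y ∈ Icc (hgt ε β η Q.1) (hgt ε β η (Q.1 + 1)) →
        Vp l c (w Q).1 (w Q).2 ≤ Vp l c z y) (x : ℝ) :
    (NTc H b x) ^ p ≤ ∑' Q : ℕ × Bool × ℕ,
      ENNReal.ofReal (A ^ p * Real.exp (-Vp l c (w Q).1 (w Q).2) * om ε β η Q.1 Q.2.2) *
        (Icc ((w Q).1 - μ * (w Q).2) ((w Q).1 + μ * (w Q).2)).indicator (fun _ => (1 : ℝ≥0∞)) x := by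
  set S := ∑' Q : ℕ × Bool × ℕ,
      ENNReal.ofReal (A ^ p * Real.exp (-Vp l c (w Q).1 (w Q).2) * om ε β η Q.1 Q.2.2) *
        (Icc ((w Q).1 - μ * (w Q).2) ((w Q).1 + μ * (w Q).2)).indicator (fun _ => (1 : ℝ≥0∞)) x
    with hS
  have key : NTc H b x ≤ S ^ (1 / p) := by
    unfold NTc
    refine iSup_le fun z => iSup_le fun y => iSup_le fun ⟨hy, hz⟩ => ?_
    rw [one_div, ENNReal.le_rpow_inv_iff hp]
    have hεβ : 0 < ε * β := mul_pos hε hβ
    obtain ⟨j, hj1, hj2⟩ := exists_nat_pow_near (x := (y + ε * β) / (ε * β)) (y := 1 + η)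
      (by rw [le_div_iff₀ hεβ]; linarith) (by linarith)
    rw [le_div_iff₀ hεβ] at hj1
    rw [div_lt_iff₀ hεβ] at hj2
    have hYj := hgt_pos hε hβ hη j
    have hj1' : hgt ε β η j ≤ y + ε * β := by unfold hgt; linarith
    have hj2' : y + ε * β ≤ hgt ε β η (j + 1) := by unfold hgt; linarith
    obtain ⟨σ, n, hcell, hdist⟩ := exCell (x0 := x0) (z := z) hη hYj
    obtain ⟨hw1, hw2, hw3⟩ := hw (j, σ, n)
    simp only at hw1 hw2 hw3
    refine le_trans ?_ (ENNReal.le_tsum (j, σ, n))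
    have hmem : x ∈ Icc ((w (j, σ, n)).1 - μ * (w (j, σ, n)).2)
        ((w (j, σ, n)).1 + μ * (w (j, σ, n)).2) := by
      have h1 : μ * hgt ε β η j ≤ μ * (w (j, σ, n)).2 := mul_le_mul_of_nonneg_left hw2.1 hμ.le
      have h2 : (b * (1 + η) + η) * hgt ε β η j ≤ μ * hgt ε β η j :=
        mul_le_mul_of_nonneg_right hbμ hYj.le
      have h3 : b * y ≤ b * ((1 + η) * hgt ε β η j) := by
        apply mul_le_mul_of_nonneg_left _ hb.le
        rw [← hgt_succ]
        linarith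
      have h4 := abs_le.1 hz
      constructor
      · linarith [h4.1, h4.2, hw1.1, hw1.2, hcell.1, hcell.2]
      · linarith [h4.1, h4.2, hw1.1, hw1.2, hcell.1, hcell.2]
    rw [indicator_of_mem hmem, mul_one, ENNReal.ofReal_rpow_of_nonneg (norm_nonneg _) hp.le]
    refine ENNReal.ofReal_le_ofReal ?_
    obtain ⟨g0, g1, g2⟩ := decay (x0 := x0) (D := n * (η * hgt ε β η j)) hβ hε hy hj1' hYj
      (by positivity) hdist
    set g := β / ‖(z : ℂ) + y * I - x0 + β * I‖ with hg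
    calc ‖H (z + y * I)‖ ^ p
        ≤ (A * Real.exp (-Vp l c z (y + ε * β) / p) * g ^ k) ^ p :=
          Real.rpow_le_rpow (norm_nonneg _) (hH z y hy) hp.le
      _ = A ^ p * Real.exp (-Vp l c z (y + ε * β)) * (g ^ k) ^ p := by
          rw [Real.mul_rpow (by positivity) (by positivity), Real.mul_rpow hA (Real.exp_pos _).le,
            ← Real.exp_mul]
          congr 3
          field_simp
      _ ≤ A ^ p * Real.exp (-Vp l c (w (j, σ, n)).1 (w (j, σ, n)).2) * om ε β η j n := by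
          apply mul_le_mul
          · apply mul_le_mul_of_nonneg_left _ (Real.rpow_nonneg hA p)
            apply Real.exp_le_exp.2
            exact neg_le_neg (hw3 z (y + ε * β) hcell ⟨hj1', hj2'⟩)
          · refine (rpow_est hk g0 g1).trans (g2.trans (le_of_eq ?_))
            rw [om]
            congr 3
            field_simp
          · positivity
          · exact mul_nonneg (Real.rpow_nonneg hA p) (Real.exp_pos _).le
  calc (NTc H b x) ^ p ≤ (S ^ (1 / p)) ^ p := ENNReal.rpow_le_rpow key hp.le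
    _ = S := by
        rw [← ENNReal.rpow_mul, one_div, inv_mul_cancel₀ hp.ne', ENNReal.rpow_one]

end Cost

open Cost in
/-- 10 Cost: upper bound for the maximal functions of the test functions. -/
theorem stCost : StCost := by
  intro b μ p ε k hb hbμ hp hk hε
  have hμ : 0 < μ := hb.trans hbμ
  set η := (μ - b) / (1 + b) with hηd
  have hη : 0 < η := div_pos (by linarith) (by linarith)
  have hη2 : b * (1 + η) + η ≤ μ := by
    have : η * (1 + b) = μ - b := by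
      rw [hηd]
      field_simp
    linarith
  refine ⟨8 * (1 + ε) ^ 2 * (1 + η) ^ 2 * (1 + 1 / η) / (ε * η), by positivity, ?_⟩
  intro U l c κ x0 β A H hU hl hκ hβ hA hsh hH
  have hex : ∀ Q : ℕ × Bool × ℕ, ∃ w : ℝ × ℝ,
      w.1 ∈ Icc (lft x0 η (hgt ε β η Q.1) Q.2.1 Q.2.2)
        (lft x0 η (hgt ε β η Q.1) Q.2.1 Q.2.2 + η * hgt ε β η Q.1) ∧
      w.2 ∈ Icc (hgt ε β η Q.1) (hgt ε β η (Q.1 + 1)) ∧
      ∀ z y : ℝ, z ∈ Icc (lft x0 η (hgt ε β η Q.1) Q.2.1 Q.2.2)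
        (lft x0 η (hgt ε β η Q.1) Q.2.1 Q.2.2 + η * hgt ε β η Q.1) →
        y ∈ Icc (hgt ε β η Q.1) (hgt ε β η (Q.1 + 1)) →
        Vp l c w.1 w.2 ≤ Vp l c z y := by
    intro Q
    have hY := hgt_pos hε hβ hη Q.1
    refine exMin hl c ?_ hY ?_
    · have := mul_pos hη hY
      linarith
    · rw [hgt_succ]
      nlinarith
  choose w hw using hex
  have hUm : AEMeasurable (fun x => ENNReal.ofReal (U x)) volume :=
    hU.2.aestronglyMeasurable.aemeasurable.ennreal_ofReal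
  calc ∫⁻ x, (NTc H b x) ^ p * ENNReal.ofReal (U x)
      ≤ ∫⁻ x, ∑' Q : ℕ × Bool × ℕ,
        ENNReal.ofReal (A ^ p * Real.exp (-Vp l c (w Q).1 (w Q).2) * om ε β η Q.1 Q.2.2) *
        ((Icc ((w Q).1 - μ * (w Q).2) ((w Q).1 + μ * (w Q).2)).indicator
          (fun x => ENNReal.ofReal (U x)) x) := by
        refine lintegral_mono fun x => ?_
        refine (mul_le_mul_left (pointwise hb hη hη2 hμ hp hk hε hβ hA hH w hw x) _).trans ?_
        rw [← ENNReal.tsum_mul_right]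
        refine ENNReal.tsum_le_tsum fun Q => ?_
        rw [mul_assoc]
        refine mul_le_mul_right (le_of_eq ?_) _
        by_cases hx : x ∈ Icc ((w Q).1 - μ * (w Q).2) ((w Q).1 + μ * (w Q).2)
        · rw [indicator_of_mem hx, indicator_of_mem hx, one_mul]
        · rw [indicator_of_notMem hx, indicator_of_notMem hx, zero_mul]
    _ = ∑' Q : ℕ × Bool × ℕ,
        ENNReal.ofReal (A ^ p * Real.exp (-Vp l c (w Q).1 (w Q).2) * om ε β η Q.1 Q.2.2) *
        ∫⁻ x in Icc ((w Q).1 - μ * (w Q).2) ((w Q).1 + μ * (w Q).2), ENNReal.ofReal (U x) := by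
        rw [lintegral_tsum]
        · refine tsum_congr fun Q => ?_
          rw [lintegral_const_mul'' _ (hUm.indicator measurableSet_Icc),
            lintegral_indicator measurableSet_Icc]
        · intro Q
          exact (hUm.indicator measurableSet_Icc).const_mul _
    _ ≤ ∑' Q : ℕ × Bool × ℕ, ENNReal.ofReal (A ^ p * κ * (om ε β η Q.1 Q.2.2 *
          hgt ε β η (Q.1 + 1))) := by
        refine ENNReal.tsum_le_tsum fun Q => ?_
        obtain ⟨-, hw2, -⟩ := hw Q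
        have hwpos : 0 < (w Q).2 := lt_of_lt_of_le (hgt_pos hε hβ hη Q.1) hw2.1
        have h1 : ∫⁻ x in Icc ((w Q).1 - μ * (w Q).2) ((w Q).1 + μ * (w Q).2),
            ENNReal.ofReal (U x) =
            ENNReal.ofReal (∫ x in Icc ((w Q).1 - μ * (w Q).2) ((w Q).1 + μ * (w Q).2), U x) :=
          (ofReal_integral_eq_lintegral_ofReal (hU.2.integrableOn_isCompact isCompact_Icc)
            (Eventually.of_forall hU.1)).symm
        have hom := om_nonneg hε hβ hη Q.1 Q.2.2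
        have hAp : 0 ≤ A ^ p := Real.rpow_nonneg hA p
        rw [h1, ← ENNReal.ofReal_mul (mul_nonneg (mul_nonneg hAp (Real.exp_pos _).le) hom)]
        apply ENNReal.ofReal_le_ofReal
        have h2 := hsh (w Q).1 (w Q).2 hwpos
        calc A ^ p * Real.exp (-Vp l c (w Q).1 (w Q).2) * om ε β η Q.1 Q.2.2 *
              ∫ x in Icc ((w Q).1 - μ * (w Q).2) ((w Q).1 + μ * (w Q).2), U x
            ≤ A ^ p * Real.exp (-Vp l c (w Q).1 (w Q).2) * om ε β η Q.1 Q.2.2 *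
              (κ * ((w Q).2 * Real.exp (Vp l c (w Q).1 (w Q).2))) :=
              mul_le_mul_of_nonneg_left h2
                (mul_nonneg (mul_nonneg hAp (Real.exp_pos _).le) hom)
          _ = A ^ p * κ * (om ε β η Q.1 Q.2.2 * (w Q).2) *
              (Real.exp (-Vp l c (w Q).1 (w Q).2) * Real.exp (Vp l c (w Q).1 (w Q).2)) := by
              ring
          _ = A ^ p * κ * (om ε β η Q.1 Q.2.2 * (w Q).2) := by
              rw [← Real.exp_add, neg_add_cancel, Real.exp_zero, mul_one]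
          _ ≤ A ^ p * κ * (om ε β η Q.1 Q.2.2 * hgt ε β η (Q.1 + 1)) :=
              mul_le_mul_of_nonneg_left (mul_le_mul_of_nonneg_left hw2.2 hom)
                (mul_nonneg hAp hκ)
    _ ≤ _ := sumAll hε hβ hη (mul_nonneg (Real.rpow_nonneg hA p) hκ)
    _ = _ := by
        congr 1
        ring

end Pool.Agent.Work.MP_055a27_an.Fn
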