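import Pool.Agent.Work.MP_055a27_an.Fn.Cost

/-!
# Upper bound for the maximal functions of the test functions, aperture `b ≤ μ`
-/

set_option autoImplicit false

open MeasureTheory Set Filter Topology Complex Metric
open scoped ENNReal NNReal

namespace Pool.Agent.Work.MP_055a27_an.Fn

open Crit (lg NTc Nice NI)
open Cr3 (Wt Sh)

/-- `StCost` with `b ≤ μ`. -/
def StCost2 : Prop := ∀ (b μ p ε : ℝ) (k : ℕ), 0 < b → b ≤ μ → 0 < p → 4 ≤ k * p → 0 < ε →
  ∃ C : ℝ, 0 ≤ C ∧ ∀ (U l : ℝ → ℝ) (c κ x0 β A : ℝ) (H : ℂ → ℂ), IsWeight U → Admissible l →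
    0 ≤ κ → 0 < β → 0 ≤ A → ShK μ κ c U l →
    (∀ z y : ℝ, 0 < y → ‖H (z + y * I)‖ ≤
      A * Real.exp (-Vp l c z (y + ε * β) / p) * (β / ‖(z : ℂ) + y * I - x0 + β * I‖) ^ k) →
    ∫⁻ x, (NTc H b x) ^ p * ENNReal.ofReal (U x) ≤ ENNReal.ofReal (C * A ^ p * κ * β)

namespace Cost2

open Cost (exMin rpow_est)

lemma sumSq {u t : ℝ} (hu : 0 < u) (ht : 0 < t) (N : ℕ) :
    ∑ n ∈ Finset.range (N + 1), 1 / (u + (n : ℝ) * t) ^ 2 ≤
      1 / u ^ 2 + 1 / (t * u) - 1 / (t * (u + (N : ℝ) * t)) := by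
  induction N with
  | zero => simp
  | succ N ih =>
    rw [Finset.sum_range_succ]
    have h1 : 0 < u + (N : ℝ) * t := by positivity
    have h2 : 0 < u + ((N + 1 : ℕ) : ℝ) * t := by positivity
    have h3 : 1 / (u + ((N + 1 : ℕ) : ℝ) * t) ^ 2 ≤
        1 / (t * (u + (N : ℝ) * t)) - 1 / (t * (u + ((N + 1 : ℕ) : ℝ) * t)) := by
      have e : 1 / (t * (u + (N : ℝ) * t)) - 1 / (t * (u + ((N + 1 : ℕ) : ℝ) * t)) =
          1 / ((u + (N : ℝ) * t) * (u + ((N + 1 : ℕ) : ℝ) * t)) := by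
        field_simp
        push_cast
        ring
      rw [e]
      apply one_div_le_one_div_of_le (by positivity)
      rw [sq]
      apply mul_le_mul_of_nonneg_right _ h2.le
      push_cast
      linarith
    linarith

lemma sumSq' {u t : ℝ} (hu : 1 ≤ u) (ht : 0 < t) (N : ℕ) :
    ∑ n ∈ Finset.range N, 1 / (u + (n : ℝ) * t) ^ 2 ≤ (1 + 1 / t) / u := by
  have hu0 : 0 < u := by linarith
  cases N with
  | zero => simp; positivity
  | succ N =>
    refine (sumSq hu0 ht N).trans ?_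
    have h1 : 0 ≤ 1 / (t * (u + (N : ℝ) * t)) := by positivity
    have h2 : 1 / u ^ 2 ≤ 1 / u := by
      apply one_div_le_one_div_of_le hu0
      nlinarith
    have h3 : (1 + 1 / t) / u = 1 / u + 1 / (t * u) := by
      field_simp
    rw [h3]
    linarith

lemma sumFour {u t : ℝ} (hu : 1 ≤ u) (ht : 0 < t) (N : ℕ) :
    ∑ n ∈ Finset.range N, 1 / (u + (n : ℝ) * t) ^ 4 ≤ (1 + 1 / t) / u ^ 3 := by
  have hu0 : 0 < u := by linarith
  have h1 : ∀ n ∈ Finset.range N, 1 / (u + (n : ℝ) * t) ^ 4 ≤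
      1 / u ^ 2 * (1 / (u + (n : ℝ) * t) ^ 2) := by
    intro n _
    have h2 : 0 ≤ (n : ℝ) * t := by positivity
    have h3 : 0 < u + (n : ℝ) * t := by positivity
    rw [one_div_mul_one_div]
    apply one_div_le_one_div_of_le (by positivity)
    have h4 : (u + (n : ℝ) * t) ^ 4 = (u + (n : ℝ) * t) ^ 2 * (u + (n : ℝ) * t) ^ 2 := by ring
    rw [h4]
    apply mul_le_mul_of_nonneg_right _ (by positivity)
    exact pow_le_pow_left₀ hu0.le (by linarith) 2
  refine (Finset.sum_le_sum h1).trans ?_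
  rw [← Finset.mul_sum]
  refine (mul_le_mul_of_nonneg_left (sumSq' hu ht N) (by positivity)).trans (le_of_eq ?_)
  field_simp

/-- The decay of the test function. -/
lemma decay {z y x0 β ε Y D : ℝ} (hβ : 0 < β) (hε : 0 < ε) (hy : 0 < y) (h1 : Y ≤ y + ε * β)
    (hY : 0 < Y) (hD : 0 ≤ D) (hz : D ≤ |z - x0|) :
    0 < β / ‖(z : ℂ) + y * I - x0 + β * I‖ ∧ β / ‖(z : ℂ) + y * I - x0 + β * I‖ ≤ 1 ∧
    (β / ‖(z : ℂ) + y * I - x0 + β * I‖) ^ 4 ≤
      16 * (1 + ε) ^ 4 * (1 / (1 + Y / β + D / β) ^ 4) := by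
  have hN : |z - x0| ≤ ‖(z : ℂ) + y * I - x0 + β * I‖ := by
    have h := Complex.abs_re_le_norm ((z : ℂ) + y * I - x0 + β * I)
    simpa using h
  have hN2 : y + β ≤ ‖(z : ℂ) + y * I - x0 + β * I‖ := by
    have h := Complex.abs_im_le_norm ((z : ℂ) + y * I - x0 + β * I)
    simp only [add_im, sub_im, ofReal_im, mul_im, ofReal_re, I_im, mul_one, I_re, mul_zero,
      add_zero, zero_add, sub_zero] at h
    exact (le_abs_self _).trans h
  set N : ℝ := ‖(z : ℂ) + y * I - x0 + β * I‖ with hNd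
  have hNpos : 0 < N := by linarith
  have hg0 : 0 < β / N := div_pos hβ hNpos
  have e1 : β / N ≤ 2 * (1 + ε) / (1 + Y / β + D / β) := by
    rw [div_le_div_iff₀ hNpos (by positivity)]
    have : β * (1 + Y / β + D / β) = β + Y + D := by field_simp
    rw [this]
    nlinarith [mul_pos hε hy, mul_pos hε hβ]
  refine ⟨hg0, ?_, ?_⟩
  · rw [div_le_one hNpos]
    linarith
  · calc (β / N) ^ 4 ≤ (2 * (1 + ε) / (1 + Y / β + D / β)) ^ 4 :=
          pow_le_pow_left₀ hg0.le e1 4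
      _ = 16 * (1 + ε) ^ 4 * (1 / (1 + Y / β + D / β) ^ 4) := by
          rw [div_pow]
          ring

/-- The left end of a cell. -/
noncomputable def lft (x0 s : ℝ) (σ : Bool) (n : ℕ) : ℝ :=
  if σ then x0 + n * s else x0 - (n + 1) * s

/-- Each point lies in a cell. -/
lemma exCell {x0 s z : ℝ} (hs : 0 < s) : ∃ (σ : Bool) (n : ℕ),
    z ∈ Icc (lft x0 s σ n) (lft x0 s σ n + s) ∧ n * s ≤ |z - x0| := by
  rcases le_total x0 z with h | h
  · refine ⟨true, ⌊(z - x0) / s⌋₊, ?_, ?_⟩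
    · have h1 := Nat.floor_le (div_nonneg (sub_nonneg.2 h) hs.le)
      have h2 := Nat.lt_floor_add_one ((z - x0) / s)
      rw [le_div_iff₀ hs] at h1
      rw [div_lt_iff₀ hs] at h2
      simp only [lft, if_true]
      constructor <;> linarith
    · have h1 := Nat.floor_le (div_nonneg (sub_nonneg.2 h) hs.le)
      rw [le_div_iff₀ hs] at h1
      exact h1.trans (le_abs_self _)
  · refine ⟨false, ⌊(x0 - z) / s⌋₊, ?_, ?_⟩
    · have h1 := Nat.floor_le (div_nonneg (sub_nonneg.2 h) hs.le)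
      have h2 := Nat.lt_floor_add_one ((x0 - z) / s)
      rw [le_div_iff₀ hs] at h1
      rw [div_lt_iff₀ hs] at h2
      simp only [lft, Bool.false_eq_true, if_false]
      constructor <;> linarith
    · have h1 := Nat.floor_le (div_nonneg (sub_nonneg.2 h) hs.le)
      rw [le_div_iff₀ hs] at h1
      rw [abs_sub_comm]
      exact h1.trans (le_abs_self _)

/-- The heights of the cells. -/
noncomputable def hgt (ε β t : ℝ) (j : ℕ) : ℝ := ε * β + j * (t * β)

/-- The weight of a cell. -/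
noncomputable def om (ε t : ℝ) (j n : ℕ) : ℝ :=
  16 * (1 + ε) ^ 4 * (1 / ((1 + ε + j * t) + (n : ℝ) * t) ^ 4)

lemma hgt_pos {ε β t : ℝ} (hε : 0 < ε) (hβ : 0 < β) (ht : 0 < t) (j : ℕ) : 0 < hgt ε β t j := by
  unfold hgt
  positivity

lemma hgt_succ (ε β t : ℝ) (j : ℕ) : hgt ε β t (j + 1) = hgt ε β t j + t * β := by
  unfold hgt
  push_cast
  ring

lemma om_nonneg {ε t : ℝ} (hε : 0 < ε) (ht : 0 < t) (j n : ℕ) : 0 ≤ om ε t j n := by
  unfold om
  positivity

/-- The sum over the cells of one height. -/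
lemma sumRow {ε β t E : ℝ} (hε : 0 < ε) (hβ : 0 < β) (ht : 0 < t) (hE : 0 ≤ E) (j : ℕ) :
    ∑' n : ℕ, ENNReal.ofReal (E * (om ε t j n * hgt ε β t (j + 1))) ≤
      ENNReal.ofReal (E * (16 * (1 + ε) ^ 4 * (1 + 1 / t) * (1 + t) * β) *
        (1 / ((1 + ε) + j * t) ^ 2)) := by
  have hu : 1 ≤ 1 + ε + (j : ℝ) * t := by
    have : 0 ≤ (j : ℝ) * t := by positivity
    linarith
  have hu0 : 0 < 1 + ε + (j : ℝ) * t := by linarith
  set u := 1 + ε + (j : ℝ) * t with hud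
  refine ENNReal.tsum_le_of_sum_range_le fun N => ?_
  have hnn : ∀ n ∈ Finset.range N, 0 ≤ E * (om ε t j n * hgt ε β t (j + 1)) := fun n _ =>
    mul_nonneg hE (mul_nonneg (om_nonneg hε ht j n) (hgt_pos hε hβ ht _).le)
  rw [← ENNReal.ofReal_sum_of_nonneg hnn]
  apply ENNReal.ofReal_le_ofReal
  have h1 : ∑ n ∈ Finset.range N, E * (om ε t j n * hgt ε β t (j + 1)) =
      E * (16 * (1 + ε) ^ 4) * hgt ε β t (j + 1) *
        ∑ n ∈ Finset.range N, 1 / (u + (n : ℝ) * t) ^ 4 := by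
    rw [Finset.mul_sum]
    refine Finset.sum_congr rfl fun n _ => ?_
    rw [om, ← hud]
    ring
  rw [h1]
  have h2 := sumFour hu ht N
  have h3 : hgt ε β t (j + 1) ≤ β * ((1 + t) * u) := by
    rw [hgt_succ, hgt]
    have e1 : β * ((1 + t) * u) = β * u + β * (t * u) := by ring
    have e2 : ε * β + j * (t * β) + t * β = β * (u - 1) + β * t := by
      rw [hud]
      ring
    have e3 : β * t ≤ β * (t * u) := by
      apply mul_le_mul_of_nonneg_left _ hβ.le
      nlinarith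
    rw [e1, e2]
    linarith
  have h4 : 0 ≤ ∑ n ∈ Finset.range N, 1 / (u + (n : ℝ) * t) ^ 4 :=
    Finset.sum_nonneg fun n _ => by positivity
  calc E * (16 * (1 + ε) ^ 4) * hgt ε β t (j + 1) * ∑ n ∈ Finset.range N, 1 / (u + (n : ℝ) * t) ^ 4
      ≤ E * (16 * (1 + ε) ^ 4) * (β * ((1 + t) * u)) * ((1 + 1 / t) / u ^ 3) := by
        apply mul_le_mul _ h2 h4 (by positivity)
        exact mul_le_mul_of_nonneg_left h3 (by positivity)
    _ = _ := by
        field_simp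

/-- The sum over all cells. -/
lemma sumAll {ε β t E : ℝ} (hε : 0 < ε) (hβ : 0 < β) (ht : 0 < t) (hE : 0 ≤ E) :
    ∑' Q : ℕ × Bool × ℕ, ENNReal.ofReal (E * (om ε t Q.1 Q.2.2 * hgt ε β t (Q.1 + 1))) ≤
      ENNReal.ofReal (E * (32 * (1 + ε) ^ 4 * (1 + 1 / t) ^ 2 * (1 + t)) * β) := by
  rw [ENNReal.tsum_prod']
  have h1 : ∀ j : ℕ, ∑' b : Bool × ℕ, ENNReal.ofReal (E * (om ε t j b.2 *
      hgt ε β t (j + 1))) ≤ ENNReal.ofReal (2 * (E * (16 * (1 + ε) ^ 4 * (1 + 1 / t) * (1 + t) *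
        β)) * (1 / ((1 + ε) + j * t) ^ 2)) := by
    intro j
    rw [ENNReal.tsum_prod', tsum_bool]
    have h2 := sumRow hε hβ ht hE j
    refine (add_le_add h2 h2).trans ?_
    rw [← ENNReal.ofReal_add (by positivity) (by positivity)]
    apply ENNReal.ofReal_le_ofReal
    linarith
  refine (ENNReal.tsum_le_tsum h1).trans ?_
  refine ENNReal.tsum_le_of_sum_range_le fun N => ?_
  have hnn : ∀ j ∈ Finset.range N, 0 ≤ 2 * (E * (16 * (1 + ε) ^ 4 * (1 + 1 / t) * (1 + t) *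
        β)) * (1 / ((1 + ε) + (j : ℝ) * t) ^ 2) := fun j _ => by positivity
  rw [← ENNReal.ofReal_sum_of_nonneg hnn]
  apply ENNReal.ofReal_le_ofReal
  rw [← Finset.mul_sum]
  have h2 := sumSq' (u := 1 + ε) (by linarith) ht N
  have h3 : (1 + 1 / t) / (1 + ε) ≤ 1 + 1 / t := div_le_self (by positivity) (by linarith)
  refine (mul_le_mul_of_nonneg_left (h2.trans h3) (by positivity)).trans (le_of_eq ?_)
  ring

/-- The pointwise bound. -/
lemma pointwise {b μ p ε t c β A x0 : ℝ} {k : ℕ} {l : ℝ → ℝ} {H : ℂ → ℂ} (hb : 0 < b)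
    (ht : 0 < t) (htb : t * (1 + b) ≤ b * ε) (hbμ : b ≤ μ) (hp : 0 < p) (hk : 4 ≤ k * p)
    (hε : 0 < ε) (hβ : 0 < β) (hA : 0 ≤ A)
    (hH : ∀ z y : ℝ, 0 < y → ‖H (z + y * I)‖ ≤
      A * Real.exp (-Vp l c z (y + ε * β) / p) * (β / ‖(z : ℂ) + y * I - x0 + β * I‖) ^ k)
    (w : ℕ × Bool × ℕ → ℝ × ℝ)
    (hw : ∀ Q, (w Q).1 ∈ Icc (lft x0 (t * β) Q.2.1 Q.2.2) (lft x0 (t * β) Q.2.1 Q.2.2 + t * β) ∧
      (w Q).2 ∈ Icc (hgt ε β t Q.1) (hgt ε β t (Q.1 + 1)) ∧
      ∀ z y : ℝ, z ∈ Icc (lft x0 (t * β) Q.2.1 Q.2.2) (lft x0 (t * β) Q.2.1 Q.2.2 + t * β) →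
        y ∈ Icc (hgt ε β t Q.1) (hgt ε β t (Q.1 + 1)) →
        Vp l c (w Q).1 (w Q).2 ≤ Vp l c z y) (x : ℝ) :
    (NTc H b x) ^ p ≤ ∑' Q : ℕ × Bool × ℕ,
      ENNReal.ofReal (A ^ p * Real.exp (-Vp l c (w Q).1 (w Q).2) * om ε t Q.1 Q.2.2) *
        (Icc ((w Q).1 - μ * (w Q).2) ((w Q).1 + μ * (w Q).2)).indicator (fun _ => (1 : ℝ≥0∞)) x := by
  set S := ∑' Q : ℕ × Bool × ℕ,
      ENNReal.ofReal (A ^ p * Real.exp (-Vp l c (w Q).1 (w Q).2) * om ε t Q.1 Q.2.2) *
        (Icc ((w Q).1 - μ * (w Q).2) ((w Q).1 + μ * (w Q).2)).indicator (fun _ => (1 : ℝ≥0∞)) x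
    with hS
  have key : NTc H b x ≤ S ^ (1 / p) := by
    unfold NTc
    refine iSup_le fun z => iSup_le fun y => iSup_le fun ⟨hy, hz⟩ => ?_
    rw [one_div, ENNReal.le_rpow_inv_iff hp]
    have htβ : 0 < t * β := mul_pos ht hβ
    have hj1 := Nat.floor_le (div_nonneg hy.le htβ.le)
    have hj2 := Nat.lt_floor_add_one (y / (t * β))
    rw [le_div_iff₀ htβ] at hj1
    rw [div_lt_iff₀ htβ] at hj2
    set j := ⌊y / (t * β)⌋₊ with hjd
    have hYj := hgt_pos hε hβ ht j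
    have hj1' : hgt ε β t j ≤ y + ε * β := by unfold hgt; linarith
    have hj2' : y + ε * β ≤ hgt ε β t (j + 1) := by rw [hgt_succ]; unfold hgt; linarith
    obtain ⟨σ, n, hcell, hdist⟩ := exCell (x0 := x0) (z := z) htβ
    obtain ⟨hw1, hw2, hw3⟩ := hw (j, σ, n)
    simp only at hw1 hw2 hw3
    refine le_trans ?_ (ENNReal.le_tsum (j, σ, n))
    have hw0 : 0 < (w (j, σ, n)).2 := lt_of_lt_of_le hYj hw2.1
    have hmem : x ∈ Icc ((w (j, σ, n)).1 - μ * (w (j, σ, n)).2)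
        ((w (j, σ, n)).1 + μ * (w (j, σ, n)).2) := by
      have h1 : b * (w (j, σ, n)).2 ≤ μ * (w (j, σ, n)).2 :=
        mul_le_mul_of_nonneg_right hbμ hw0.le
      have h2 : y + ε * β - t * β ≤ (w (j, σ, n)).2 := by
        have h3 : hgt ε β t (j + 1) = hgt ε β t j + t * β := hgt_succ ε β t j
        linarith [hw2.1]
      have h3 : b * (y + ε * β - t * β) ≤ b * (w (j, σ, n)).2 :=
        mul_le_mul_of_nonneg_left h2 hb.le
      have h5 : t * β + b * (t * β) ≤ b * (ε * β) := by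
        have h6 := mul_le_mul_of_nonneg_right htb hβ.le
        linarith
      have h4 := abs_le.1 hz
      constructor
      · linarith [h4.1, h4.2, hw1.1, hw1.2, hcell.1, hcell.2]
      · linarith [h4.1, h4.2, hw1.1, hw1.2, hcell.1, hcell.2]
    rw [indicator_of_mem hmem, mul_one, ENNReal.ofReal_rpow_of_nonneg (norm_nonneg _) hp.le]
    refine ENNReal.ofReal_le_ofReal ?_
    obtain ⟨g0, g1, g2⟩ := decay (x0 := x0) (D := n * (t * β)) hβ hε hy hj1' hYj
      (by positivity) hdist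
    set g := β / ‖(z : ℂ) + y * I - x0 + β * I‖ with hg
    calc ‖H (z + y * I)‖ ^ p
        ≤ (A * Real.exp (-Vp l c z (y + ε * β) / p) * g ^ k) ^ p :=
          Real.rpow_le_rpow (norm_nonneg _) (hH z y hy) hp.le
      _ = A ^ p * Real.exp (-Vp l c z (y + ε * β)) * (g ^ k) ^ p := by
          rw [Real.mul_rpow (by positivity) (by positivity), Real.mul_rpow hA (Real.exp_pos _).le,
            ← Real.exp_mul]
          congr 3
          field_simp
      _ ≤ A ^ p * Real.exp (-Vp l c (w (j, σ, n)).1 (w (j, σ, n)).2) * om ε t j n := by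
          apply mul_le_mul
          · apply mul_le_mul_of_nonneg_left _ (Real.rpow_nonneg hA p)
            apply Real.exp_le_exp.2
            exact neg_le_neg (hw3 z (y + ε * β) hcell ⟨hj1', hj2'⟩)
          · refine (rpow_est hk g0 g1).trans (g2.trans (le_of_eq ?_))
            rw [om, hgt]
            congr 3
            field_simp
            ring
          · positivity
          · exact mul_nonneg (Real.rpow_nonneg hA p) (Real.exp_pos _).le
  calc (NTc H b x) ^ p ≤ (S ^ (1 / p)) ^ p := ENNReal.rpow_le_rpow key hp.le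
    _ = S := by
        rw [← ENNReal.rpow_mul, one_div, inv_mul_cancel₀ hp.ne', ENNReal.rpow_one]

end Cost2

open Cost (exMin) in
open Cost2 in
/-- Upper bound for the maximal functions of the test functions, `b ≤ μ`. -/
theorem stCost2 : StCost2 := by
  intro b μ p ε k hb hbμ hp hk hε
  have hμ : 0 < μ := hb.trans_le hbμ
  set t := b * ε / (1 + b) with htd
  have ht : 0 < t := div_pos (by positivity) (by linarith)
  have htb : t * (1 + b) ≤ b * ε := by
    rw [htd]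
    apply le_of_eq
    field_simp
  refine ⟨32 * (1 + ε) ^ 4 * (1 + 1 / t) ^ 2 * (1 + t), by positivity, ?_⟩
  intro U l c κ x0 β A H hU hl hκ hβ hA hsh hH
  have htβ : 0 < t * β := mul_pos ht hβ
  have hex : ∀ Q : ℕ × Bool × ℕ, ∃ w : ℝ × ℝ,
      w.1 ∈ Icc (lft x0 (t * β) Q.2.1 Q.2.2) (lft x0 (t * β) Q.2.1 Q.2.2 + t * β) ∧
      w.2 ∈ Icc (hgt ε β t Q.1) (hgt ε β t (Q.1 + 1)) ∧
      ∀ z y : ℝ, z ∈ Icc (lft x0 (t * β) Q.2.1 Q.2.2) (lft x0 (t * β) Q.2.1 Q.2.2 + t * β) →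
        y ∈ Icc (hgt ε β t Q.1) (hgt ε β t (Q.1 + 1)) →
        Vp l c w.1 w.2 ≤ Vp l c z y := by
    intro Q
    refine exMin hl c ?_ (hgt_pos hε hβ ht Q.1) ?_
    · linarith
    · rw [hgt_succ]
      linarith
  choose w hw using hex
  have hUm : AEMeasurable (fun x => ENNReal.ofReal (U x)) volume :=
    hU.2.aestronglyMeasurable.aemeasurable.ennreal_ofReal
  calc ∫⁻ x, (NTc H b x) ^ p * ENNReal.ofReal (U x)
      ≤ ∫⁻ x, ∑' Q : ℕ × Bool × ℕ,
        ENNReal.ofReal (A ^ p * Real.exp (-Vp l c (w Q).1 (w Q).2) * om ε t Q.1 Q.2.2) *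
        ((Icc ((w Q).1 - μ * (w Q).2) ((w Q).1 + μ * (w Q).2)).indicator
          (fun x => ENNReal.ofReal (U x)) x) := by
        refine lintegral_mono fun x => ?_
        refine (mul_le_mul_left (pointwise hb ht htb hbμ hp hk hε hβ hA hH w hw x) _).trans ?_
        rw [← ENNReal.tsum_mul_right]
        refine ENNReal.tsum_le_tsum fun Q => ?_
        rw [mul_assoc]
        refine mul_le_mul_right (le_of_eq ?_) _
        by_cases hx : x ∈ Icc ((w Q).1 - μ * (w Q).2) ((w Q).1 + μ * (w Q).2)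
        · rw [indicator_of_mem hx, indicator_of_mem hx, one_mul]
        · rw [indicator_of_notMem hx, indicator_of_notMem hx, zero_mul]
    _ = ∑' Q : ℕ × Bool × ℕ,
        ENNReal.ofReal (A ^ p * Real.exp (-Vp l c (w Q).1 (w Q).2) * om ε t Q.1 Q.2.2) *
        ∫⁻ x in Icc ((w Q).1 - μ * (w Q).2) ((w Q).1 + μ * (w Q).2), ENNReal.ofReal (U x) := by
        rw [lintegral_tsum]
        · refine tsum_congr fun Q => ?_
          rw [lintegral_const_mul'' _ (hUm.indicator measurableSet_Icc),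
            lintegral_indicator measurableSet_Icc]
        · intro Q
          exact (hUm.indicator measurableSet_Icc).const_mul _
    _ ≤ ∑' Q : ℕ × Bool × ℕ, ENNReal.ofReal (A ^ p * κ * (om ε t Q.1 Q.2.2 *
          hgt ε β t (Q.1 + 1))) := by
        refine ENNReal.tsum_le_tsum fun Q => ?_
        obtain ⟨-, hw2, -⟩ := hw Q
        have hwpos : 0 < (w Q).2 := lt_of_lt_of_le (hgt_pos hε hβ ht Q.1) hw2.1
        have h1 : ∫⁻ x in Icc ((w Q).1 - μ * (w Q).2) ((w Q).1 + μ * (w Q).2),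
            ENNReal.ofReal (U x) =
            ENNReal.ofReal (∫ x in Icc ((w Q).1 - μ * (w Q).2) ((w Q).1 + μ * (w Q).2), U x) :=
          (ofReal_integral_eq_lintegral_ofReal (hU.2.integrableOn_isCompact isCompact_Icc)
            (Eventually.of_forall hU.1)).symm
        have hom := om_nonneg hε ht Q.1 Q.2.2
        have hAp : 0 ≤ A ^ p := Real.rpow_nonneg hA p
        rw [h1, ← ENNReal.ofReal_mul (mul_nonneg (mul_nonneg hAp (Real.exp_pos _).le) hom)]
        apply ENNReal.ofReal_le_ofReal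
        have h2 := hsh (w Q).1 (w Q).2 hwpos
        calc A ^ p * Real.exp (-Vp l c (w Q).1 (w Q).2) * om ε t Q.1 Q.2.2 *
              ∫ x in Icc ((w Q).1 - μ * (w Q).2) ((w Q).1 + μ * (w Q).2), U x
            ≤ A ^ p * Real.exp (-Vp l c (w Q).1 (w Q).2) * om ε t Q.1 Q.2.2 *
              (κ * ((w Q).2 * Real.exp (Vp l c (w Q).1 (w Q).2))) :=
              mul_le_mul_of_nonneg_left h2
                (mul_nonneg (mul_nonneg hAp (Real.exp_pos _).le) hom)
          _ = A ^ p * κ * (om ε t Q.1 Q.2.2 * (w Q).2) *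
              (Real.exp (-Vp l c (w Q).1 (w Q).2) * Real.exp (Vp l c (w Q).1 (w Q).2)) := by
              ring
          _ = A ^ p * κ * (om ε t Q.1 Q.2.2 * (w Q).2) := by
              rw [← Real.exp_add, neg_add_cancel, Real.exp_zero, mul_one]
          _ ≤ A ^ p * κ * (om ε t Q.1 Q.2.2 * hgt ε β t (Q.1 + 1)) :=
              mul_le_mul_of_nonneg_left (mul_le_mul_of_nonneg_left hw2.2 hom)
                (mul_nonneg hAp hκ)
    _ ≤ _ := sumAll hε hβ ht (mul_nonneg (Real.rpow_nonneg hA p) hκ)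
    _ = _ := by
        congr 1
        ring

end Pool.Agent.Work.MP_055a27_an.Fn
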