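import Pool.Agent.Work.MP_055a27_an.Fn.Stmts

/-!
# A dyadic covering argument
-/

set_option autoImplicit false

open MeasureTheory Set Filter Topology
open scoped ENNReal NNReal

namespace Pool.Agent.Work.MP_055a27_an.Fn

namespace Cov

/-- dyadic intervals -/
def D (w : ℝ) (q : ℕ × ℤ) : Set ℝ := Ico (q.2 * (w / 2 ^ q.1)) ((q.2 + 1) * (w / 2 ^ q.1))

theorem key {w : ℝ} (hw : 0 < w) (j k : ℕ) (i i' : ℤ) (x : ℝ) (hx : x ∈ D w (j, i))
    (hx' : x ∈ D w (j + k, i')) : i * 2 ^ k ≤ i' ∧ i' + 1 ≤ (i + 1) * 2 ^ k := by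
  have hv : 0 < w / 2 ^ (j + k) := by positivity
  have he : w / 2 ^ j = 2 ^ k * (w / 2 ^ (j + k)) := by
    rw [pow_add]
    field_simp
  obtain ⟨h1, h2⟩ := hx
  obtain ⟨h3, h4⟩ := hx'
  dsimp only at h1 h2 h3 h4
  rw [he] at h1 h2
  constructor
  · have h5 : ((i : ℝ) * 2 ^ k) * (w / 2 ^ (j + k)) < ((i' : ℝ) + 1) * (w / 2 ^ (j + k)) := by
      rw [mul_assoc]
      exact h1.trans_lt h4
    have h6 := lt_of_mul_lt_mul_right h5 hv.le
    have h7 : i * 2 ^ k < i' + 1 := by exact_mod_cast h6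
    omega
  · have h5 : (i' : ℝ) * (w / 2 ^ (j + k)) < (((i : ℝ) + 1) * 2 ^ k) * (w / 2 ^ (j + k)) := by
      rw [mul_assoc]
      exact h3.trans_lt h2
    have h6 := lt_of_mul_lt_mul_right h5 hv.le
    have h7 : i' < (i + 1) * 2 ^ k := by exact_mod_cast h6
    omega

theorem nested {w : ℝ} (hw : 0 < w) (j k : ℕ) (i i' : ℤ) (x : ℝ) (hx : x ∈ D w (j, i))
    (hx' : x ∈ D w (j + k, i')) : D w (j + k, i') ⊆ D w (j, i) := by
  obtain ⟨h1, h2⟩ := key hw j k i i' x hx hx'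
  have hv : 0 < w / 2 ^ (j + k) := by positivity
  have he : w / 2 ^ j = 2 ^ k * (w / 2 ^ (j + k)) := by
    rw [pow_add]
    field_simp
  have h1' : (i : ℝ) * 2 ^ k ≤ i' := by exact_mod_cast h1
  have h2' : (i' : ℝ) + 1 ≤ ((i : ℝ) + 1) * 2 ^ k := by exact_mod_cast h2
  rintro y ⟨h3, h4⟩
  dsimp only at h3 h4
  constructor
  · dsimp only
    rw [he, ← mul_assoc]
    exact (mul_le_mul_of_nonneg_right h1' hv.le).trans h3
  · dsimp only
    rw [he, ← mul_assoc]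
    exact h4.trans_le (mul_le_mul_of_nonneg_right h2' hv.le)

theorem vol {w : ℝ} (q : ℕ × ℤ) : volume (D w q) = ENNReal.ofReal (w / 2 ^ q.1) := by
  unfold D
  rw [Real.volume_Ico]
  congr 1
  ring

/-- the selected intervals -/
def Sel (ν : Measure ℝ) (S : Set ℝ) (w Θ : ℝ) : Set (ℕ × ℤ) :=
  {q | ν (S ∩ D w q) ≤ ENNReal.ofReal (Θ * (w / 2 ^ q.1)) ∧ (S ∩ D w q).Nonempty ∧
    ∀ q' : ℕ × ℤ, q'.1 < q.1 → ν (S ∩ D w q') ≤ ENNReal.ofReal (Θ * (w / 2 ^ q'.1)) →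
      ¬ D w q ⊆ D w q'}

theorem disj (ν : Measure ℝ) (S : Set ℝ) {w : ℝ} (hw : 0 < w) (Θ : ℝ) (q q' : ℕ × ℤ)
    (hq : q ∈ Sel ν S w Θ) (hq' : q' ∈ Sel ν S w Θ) (hne : q ≠ q') (hle : q.1 ≤ q'.1) :
    Disjoint (D w q) (D w q') := by
  rw [Set.disjoint_left]
  intro x hx hx'
  obtain ⟨j, i⟩ := q
  obtain ⟨j', i'⟩ := q'
  dsimp only at hle
  obtain ⟨k, rfl⟩ := Nat.exists_eq_add_of_le hle
  rcases Nat.eq_zero_or_pos k with rfl | hk
  · obtain ⟨h1, h2⟩ := key hw j 0 i i' x hx hx'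
    apply hne
    have : i = i' := by omega
    rw [this, Nat.add_zero]
  · exact hq'.2.2 (j, i) (by dsimp only; omega) hq.1 (nested hw j k i i' x hx hx')

theorem disj' (ν : Measure ℝ) (S : Set ℝ) {w : ℝ} (hw : 0 < w) (Θ : ℝ) :
    (Sel ν S w Θ).PairwiseDisjoint (D w) := by
  intro q hq q' hq' hne
  rcases le_total q.1 q'.1 with h | h
  · exact disj ν S hw Θ q q' hq hq' hne h
  · exact (disj ν S hw Θ q' q hq' hq hne.symm h).symm

end Cov

open Cov in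
theorem stCov : StCov := by
  intro ν S a L w Θ hL hw hΘ hS hx
  have hcov : S ⊆ ⋃ q ∈ Sel ν S w Θ, S ∩ D w q := by
    intro x hxS
    classical
    have hex : ∃ j : ℕ, ∃ i : ℤ, x ∈ D w (j, i) ∧
        ν (S ∩ D w (j, i)) ≤ ENNReal.ofReal (Θ * (w / 2 ^ j)) := hx x hxS
    obtain ⟨i, hi1, hi2⟩ := Nat.find_spec hex
    rw [Set.mem_iUnion₂]
    refine ⟨(Nat.find hex, i), ⟨hi2, ⟨x, hxS, hi1⟩, ?_⟩, hxS, hi1⟩
    rintro ⟨j', i'⟩ hj' hg hsub
    exact Nat.find_min hex hj' ⟨i', hsub hi1, hg⟩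
  have hcount : (Sel ν S w Θ).Countable := Set.to_countable _
  have hmeas : ∀ q, MeasurableSet (D w q) := fun q => measurableSet_Ico
  have hsum : ∑' q : Sel ν S w Θ, volume (D w q) ≤ ENNReal.ofReal (L + 2 * w) := by
    rw [← measure_biUnion hcount (disj' ν S hw Θ) (fun q _ => hmeas q)]
    have hsub : (⋃ q ∈ Sel ν S w Θ, D w q) ⊆ Icc (a - w) (a + L + w) := by
      intro y hy
      rw [Set.mem_iUnion₂] at hy
      obtain ⟨q, hq, hy1, hy2⟩ := hy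
      obtain ⟨x, hxS, hx1, hx2⟩ := hq.2.1
      obtain ⟨hx3, hx4⟩ := hS hxS
      have hlen : w / 2 ^ q.1 ≤ w := div_le_self hw.le (one_le_pow₀ (by norm_num))
      constructor
      · linarith
      · linarith
    refine (measure_mono hsub).trans ?_
    rw [Real.volume_Icc]
    apply ENNReal.ofReal_le_ofReal
    linarith
  calc ν S ≤ ν (⋃ q ∈ Sel ν S w Θ, S ∩ D w q) := measure_mono hcov
    _ ≤ ∑' q : Sel ν S w Θ, ν (S ∩ D w q) := measure_biUnion_le ν hcount _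
    _ ≤ ∑' q : Sel ν S w Θ, ENNReal.ofReal Θ * volume (D w q) := by
        refine ENNReal.tsum_le_tsum fun q => ?_
        rw [vol, ← ENNReal.ofReal_mul hΘ]
        exact q.2.1
    _ = ENNReal.ofReal Θ * ∑' q : Sel ν S w Θ, volume (D w q) := ENNReal.tsum_mul_left
    _ ≤ ENNReal.ofReal Θ * ENNReal.ofReal (L + 2 * w) := mul_le_mul_right hsum _
    _ = ENNReal.ofReal (Θ * (L + 2 * w)) := (ENNReal.ofReal_mul hΘ).symm

end Pool.Agent.Work.MP_055a27_an.Fn
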