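import Pool.Agent.Work.MP_055a27_an.Fn.Stmts2
import Pool.Agent.Work.MP_055a27_an.Crit.TFUp

/-!
# 33 E1: the explicit growth condition implies the growth condition
-/

set_option autoImplicit false

open MeasureTheory Set Filter Topology Complex Metric
open scoped ENNReal NNReal ComplexConjugate

namespace Pool.Agent.Work.MP_055a27_an.Fn

namespace E1

/-- The primitive of the weight. -/
noncomputable def F (U : ℝ → ℝ) (t : ℝ) : ℝ := ∫ s in (0 : ℝ)..t, U s

lemma locInt {U : ℝ → ℝ} (hU : IsWeight U) (a b : ℝ) : IntervalIntegrable U volume a b :=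
  (hU.2.integrableOn_isCompact isCompact_uIcc).intervalIntegrable

lemma cont_F {U : ℝ → ℝ} (hU : IsWeight U) : Continuous (F U) :=
  intervalIntegral.continuous_primitive (fun a b => locInt hU a b) 0

lemma mass_eq {U : ℝ → ℝ} (hU : IsWeight U) {x y : ℝ} (hy : 0 ≤ y) :
    ∫ t in Icc (x - y) (x + y), U t = F U (x + y) - F U (x - y) := by
  unfold F
  rw [intervalIntegral.integral_interval_sub_left (locInt hU _ _) (locInt hU _ _),
    integral_Icc_eq_integral_Ioc, intervalIntegral.integral_of_le (by linarith)]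

lemma le_yc {U : ℝ → ℝ} {c x y : ℝ} (hy : 1 ≤ y)
    (h : Real.exp (c * y) ≤ ∫ t in Icc (x - y) (x + y), U t) :
    ENNReal.ofReal y ≤ yc U c x :=
  le_iSup_of_le y (le_iSup_of_le ⟨hy, h⟩ le_rfl)

lemma meas_yc {U : ℝ → ℝ} (hU : IsWeight U) (c : ℝ) : Measurable (yc U c) := by
  refine measurable_of_Ioi fun t => ?_
  rcases eq_or_ne t ⊤ with rfl | ht
  · have : yc U c ⁻¹' Ioi ⊤ = ∅ := by simp
    rw [this]
    exact MeasurableSet.empty
  set s : ℝ := t.toReal with hs
  have hs0 : 0 ≤ s := ENNReal.toReal_nonneg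
  have hts : t = ENNReal.ofReal s := (ENNReal.ofReal_toReal ht).symm
  have hF := cont_F hU
  have hG : Continuous fun q : ℝ × ℝ =>
      F U (q.1 + q.2) - F U (q.1 - q.2) - Real.exp (c * q.2) := by
    have h1 : Continuous fun q : ℝ × ℝ => F U (q.1 + q.2) :=
      hF.comp (continuous_fst.add continuous_snd)
    have h2 : Continuous fun q : ℝ × ℝ => F U (q.1 - q.2) :=
      hF.comp (continuous_fst.sub continuous_snd)
    have h3 : Continuous fun q : ℝ × ℝ => Real.exp (c * q.2) := by fun_prop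
    exact (h1.sub h2).sub h3
  have key : yc U c ⁻¹' Ioi t = ⋃ (k : ℕ) (n : ℕ), Prod.fst ''
      ((Icc (-(k : ℝ)) k ×ˢ Icc (max 1 (s + 1 / ((n : ℝ) + 1))) (k : ℝ)) ∩
        {q : ℝ × ℝ | 0 ≤ F U (q.1 + q.2) - F U (q.1 - q.2) - Real.exp (c * q.2)}) := by
    ext x
    simp only [mem_preimage, mem_Ioi, mem_iUnion, mem_image]
    constructor
    · intro hx
      unfold yc at hx
      obtain ⟨y, hx⟩ := lt_iSup_iff.1 hx
      obtain ⟨⟨hy1, hy2⟩, hx⟩ := lt_iSup_iff.1 hx
      have hy0 : 0 < y := by linarith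
      rw [hts, ENNReal.ofReal_lt_ofReal_iff hy0] at hx
      obtain ⟨n, hn⟩ := exists_nat_one_div_lt (sub_pos.2 hx)
      obtain ⟨k, hk⟩ := exists_nat_ge (max |x| y)
      refine ⟨k, n, (x, y), ⟨⟨⟨?_, ?_⟩, ⟨?_, ?_⟩⟩, ?_⟩, rfl⟩
      · have := (abs_le.1 ((le_max_left _ _).trans hk)).1
        exact this
      · exact (abs_le.1 ((le_max_left _ _).trans hk)).2
      · exact max_le hy1 (by simp only; linarith)
      · exact (le_max_right _ _).trans hk
      · rw [mass_eq hU hy0.le] at hy2
        exact sub_nonneg.2 hy2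
    · rintro ⟨k, n, ⟨x', y⟩, ⟨⟨-, ⟨hy, -⟩⟩, hg⟩, rfl⟩
      simp only at hy hg ⊢
      have hy1 : 1 ≤ y := (le_max_left _ _).trans hy
      have hy2 : s + 1 / ((n : ℝ) + 1) ≤ y := (le_max_right _ _).trans hy
      have hn : 0 < 1 / ((n : ℝ) + 1) := by positivity
      have hg' : Real.exp (c * y) ≤ ∫ t in Icc (x' - y) (x' + y), U t := by
        rw [mass_eq hU (by linarith)]
        exact sub_nonneg.1 hg
      refine lt_of_lt_of_le ?_ (le_yc hy1 hg')
      rw [hts, ENNReal.ofReal_lt_ofReal_iff (by linarith)]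
      linarith
  rw [key]
  refine MeasurableSet.iUnion fun k => MeasurableSet.iUnion fun n => ?_
  refine IsClosed.measurableSet (IsCompact.isClosed ?_)
  refine IsCompact.image ?_ continuous_fst
  exact (isCompact_Icc.prod isCompact_Icc).inter_right (isClosed_le continuous_const hG)

lemma poisson_lower {ρ v : ℝ → ℝ} (hρ : Admissible ρ) (hv : Admissible v) {a : ℝ}
    (h : ∀ᵐ t, a * v t ≤ ρ t) {z y : ℝ} (hy : 0 < y) :
    a * poisson v z y ≤ poisson ρ z y := by
  have e : a * poisson v z y =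
      (1 / Real.pi) * ∫ t : ℝ, a * (y * v t / ((z - t) ^ 2 + y ^ 2)) := by
    rw [poisson_eq_integral, integral_const_mul]
    ring
  rw [e, poisson_eq_integral]
  refine mul_le_mul_of_nonneg_left ?_ (by positivity)
  refine integral_mono_ae ((Crit.TFUp.integrable_pois hv hy).const_mul a)
    (Crit.TFUp.integrable_pois hρ hy) ?_
  filter_upwards [h] with t ht
  have h6 : 0 < (z - t) ^ 2 + y ^ 2 := by positivity
  have h7 : a * (y * v t / ((z - t) ^ 2 + y ^ 2)) = y * (a * v t) / ((z - t) ^ 2 + y ^ 2) := by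
    ring
  rw [h7]
  exact div_le_div_of_nonneg_right (mul_le_mul_of_nonneg_left ht hy.le) h6.le

lemma poisson_nonneg {ρ : ℝ → ℝ} (h : ∀ t, 0 ≤ ρ t) {z y : ℝ} (hy : 0 < y) :
    0 ≤ poisson ρ z y := by
  rw [poisson_eq_integral]
  refine mul_nonneg (by positivity) (integral_nonneg fun t => ?_)
  have h6 : 0 < (z - t) ^ 2 + y ^ 2 := by positivity
  exact div_nonneg (mul_nonneg hy.le (h t)) h6.le

end E1

open E1

/-- The explicit growth condition implies the growth condition. -/
theorem stE1 (hPd : StPd) : StE1 := by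
  intro U hU hNV
  obtain ⟨c, hc, hfin⟩ := hNV
  have hym := meas_yc hU c
  have hwm : Measurable fun x : ℝ => ENNReal.ofReal (1 / (1 + x ^ 2)) := by fun_prop
  have hgm : Measurable fun x : ℝ => yc U c x * ENNReal.ofReal (1 / (1 + x ^ 2)) :=
    hym.mul hwm
  have hlt : ∀ᵐ x : ℝ, yc U c x ≠ ⊤ := by
    filter_upwards [ae_lt_top hgm hfin] with x hx h
    rw [h, ENNReal.top_mul] at hx
    · exact lt_irrefl _ hx
    · have : 0 < 1 / (1 + x ^ 2) := by positivity
      exact (ENNReal.ofReal_pos.2 this).ne'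
  set ρ : ℝ → ℝ := fun x => 2 * c * (yc U c x).toReal with hρdef
  have hρ0 : ∀ t, 0 ≤ ρ t := fun t => by
    have := @ENNReal.toReal_nonneg (yc U c t)
    positivity
  have hρ : Admissible ρ := by
    have h1 := integrable_toReal_of_lintegral_ne_top hgm.aemeasurable hfin
    refine (h1.const_mul (2 * c)).congr (Eventually.of_forall fun x => ?_)
    have h2 : 0 ≤ 1 / (1 + x ^ 2) := by positivity
    simp only [hρdef, ENNReal.toReal_mul, ENNReal.toReal_ofReal h2]
    ring
  refine ⟨ρ, 2 * c, hρ, hρ0, by positivity, ?_⟩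
  intro z y hy
  have hy0 : 0 < y := by linarith
  unfold Vp
  have hP0 := E1.poisson_nonneg hρ0 (z := z) hy0
  by_cases hm : ∫ t in Icc (z - y) (z + y), U t ≤ Real.exp (2 * c * y)
  · exact hm.trans (Real.exp_le_exp.2 (by linarith))
  rw [not_le] at hm
  set m : ℝ := ∫ t in Icc (z - y) (z + y), U t with hmdef
  have hm0 : 0 < m := (Real.exp_pos _).trans hm
  set L : ℝ := Real.log m with hL
  have hLm : Real.exp L = m := Real.exp_log hm0
  have hLy : 2 * c * y < L := by
    rw [← hLm] at hm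
    exact Real.exp_lt_exp.1 hm
  set Y : ℝ := L / (2 * c) with hY
  have hcY : 2 * c * Y = L := by
    rw [hY]
    field_simp
  have hyY : y < Y := by
    rw [hY, lt_div_iff₀ (by positivity)]
    linarith
  have hI := hPd (Icc (z - Y) (z + Y)) measurableSet_Icc
  have hlow : ∀ᵐ t : ℝ, (2 * c * (2 * Y)) * (Icc (z - Y) (z + Y)).indicator
      (fun _ => (1 : ℝ)) t ≤ ρ t := by
    filter_upwards [hlt] with t ht
    by_cases hmem : t ∈ Icc (z - Y) (z + Y)
    · rw [indicator_of_mem hmem, mul_one]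
      have h1 : Real.exp (c * (2 * Y)) ≤ ∫ s in Icc (t - 2 * Y) (t + 2 * Y), U s := by
        have e1 : c * (2 * Y) = L := by rw [← hcY]; ring
        rw [e1, hLm, hmdef]
        refine setIntegral_mono_set (hU.2.integrableOn_isCompact isCompact_Icc)
          (Eventually.of_forall fun s => hU.1 s) (LE.le.eventuallyLE ?_)
        refine Icc_subset_Icc ?_ ?_
        · linarith [hmem.2]
        · linarith [hmem.1]
      have h2 := le_yc (c := c) (by linarith : (1 : ℝ) ≤ 2 * Y) h1
      have h3 : 2 * Y ≤ (yc U c t).toReal := by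
        rw [← ENNReal.ofReal_le_ofReal_iff ENNReal.toReal_nonneg, ENNReal.ofReal_toReal ht]
        exact h2
      simp only [hρdef]
      exact mul_le_mul_of_nonneg_left h3 (by positivity)
    · rw [indicator_of_notMem hmem, mul_zero]
      exact hρ0 t
  have hpl := poisson_lower hρ hI.1 hlow (z := z) hy0
  have hat : 1 / 2 ≤ poisson ((Icc (z - Y) (z + Y)).indicator fun _ => (1 : ℝ)) z y := by
    have h1 := (hI.2 z y hy0).2.2.2 Y ∅ (by linarith) MeasurableSet.empty (by simp) (by simp)
    have h2 : Real.arctan 1 ≤ Real.arctan (Y / y) := by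
      apply Real.arctan_strictMono.monotone
      rw [le_div_iff₀ hy0]
      linarith
    rw [Real.arctan_one] at h2
    have h3 : 1 / 2 ≤ 2 / Real.pi * Real.arctan (Y / y) := by
      have hpi := Real.pi_pos
      calc (1 / 2 : ℝ) = 2 / Real.pi * (Real.pi / 4) := by field_simp; norm_num
        _ ≤ _ := mul_le_mul_of_nonneg_left h2 (by positivity)
    simp only [measureReal_empty, zero_div, sub_zero] at h1
    linarith
  rw [← hLm]
  apply Real.exp_le_exp.2
  have h4 : 2 * c * (2 * Y) * (1 / 2) ≤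
      2 * c * (2 * Y) * poisson ((Icc (z - Y) (z + Y)).indicator fun _ => (1 : ℝ)) z y := by
    refine mul_le_mul_of_nonneg_left hat ?_
    have : 0 < Y := by linarith
    positivity
  have h5 : 2 * c * (2 * Y) * (1 / 2) = L := by rw [← hcY]; ring
  have h6 : 0 ≤ 2 * c * y := by positivity
  linarith

end Pool.Agent.Work.MP_055a27_an.Fn
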