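import Pool.Agent.Work.MP_055a27_an.Fn.Stmts2

/-!
# 34 E2: the growth condition implies the explicit growth condition
-/

set_option autoImplicit false

open MeasureTheory Set Filter Topology Metric
open scoped ENNReal NNReal

namespace Pool.Agent.Work.MP_055a27_an.Fn

namespace E2

/-- Vitali: balls of large mass. -/
theorem vit (ν : Measure ℝ) [IsFiniteMeasure ν] (κ : ℝ) (hκ : 0 < κ) :
    ∃ g : ℝ → ℝ≥0∞, Measurable g ∧ ∫⁻ x, g x ≤ ENNReal.ofReal (50 / κ) * ν univ ∧
      ∀ x r : ℝ, 0 < r → ENNReal.ofReal (κ * r ^ 2) ≤ ν (closedBall x r) →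
        ENNReal.ofReal r ≤ g x := by
  set t : Set (ℝ × ℝ) := {a | 0 < a.2 ∧ ENNReal.ofReal (κ * a.2 ^ 2) ≤ ν (closedBall a.1 a.2)}
    with ht
  have hR : ∀ a ∈ t, a.2 ≤ Real.sqrt ((ν univ).toReal / κ) := by
    intro a ha
    apply Real.le_sqrt_of_sq_le
    rw [le_div_iff₀ hκ]
    have h1 : ENNReal.ofReal (κ * a.2 ^ 2) ≤ ν univ := ha.2.trans (measure_mono (subset_univ _))
    have h2 := (ENNReal.ofReal_le_iff_le_toReal (measure_ne_top ν univ)).1 h1
    linarith
  obtain ⟨u, hut, hdis, hcov⟩ := Vitali.exists_disjoint_subfamily_covering_enlargement_closedBall t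
    (fun a => a.1) (fun a => a.2) _ hR 5 (by norm_num)
  have hc : u.Countable := hdis.countable_of_nonempty_interior (fun a ha => by
    refine ⟨a.1, ?_⟩
    exact ball_subset_interior_closedBall (mem_ball_self (hut ha).1))
  have : Countable u := hc.to_subtype
  have hm : ∀ b : u, Measurable ((closedBall (b : ℝ × ℝ).1 (5 * (b : ℝ × ℝ).2)).indicator
      (fun _ : ℝ => ENNReal.ofReal (5 * (b : ℝ × ℝ).2))) := fun b =>
    measurable_const.indicator isClosed_closedBall.measurableSet
  refine ⟨fun x => ∑' b : u, (closedBall (b : ℝ × ℝ).1 (5 * (b : ℝ × ℝ).2)).indicator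
    (fun _ : ℝ => ENNReal.ofReal (5 * (b : ℝ × ℝ).2)) x, Measurable.tsum hm, ?_, ?_⟩
  · rw [lintegral_tsum fun b => (hm b).aemeasurable]
    have h1 : ∀ b : u, ∫⁻ x, (closedBall (b : ℝ × ℝ).1 (5 * (b : ℝ × ℝ).2)).indicator
        (fun _ : ℝ => ENNReal.ofReal (5 * (b : ℝ × ℝ).2)) x ≤
        ENNReal.ofReal (50 / κ) * ν (closedBall (b : ℝ × ℝ).1 (b : ℝ × ℝ).2) := by
      intro b
      have hb := hut b.2
      have hb0 : 0 < (b : ℝ × ℝ).2 := hb.1
      rw [lintegral_indicator_const isClosed_closedBall.measurableSet, Real.volume_closedBall,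
        ← ENNReal.ofReal_mul (by positivity)]
      have e1 : 5 * (b : ℝ × ℝ).2 * (2 * (5 * (b : ℝ × ℝ).2)) =
          50 / κ * (κ * (b : ℝ × ℝ).2 ^ 2) := by
        field_simp
        ring
      rw [e1, ENNReal.ofReal_mul (by positivity)]
      exact mul_le_mul_right hb.2 _
    refine (ENNReal.tsum_le_tsum h1).trans ?_
    rw [ENNReal.tsum_mul_left]
    refine mul_le_mul_right ?_ _
    refine (tsum_meas_le_meas_iUnion_of_disjoint ν
      (fun b : u => isClosed_closedBall.measurableSet) ?_).trans (measure_mono (subset_univ _))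
    intro b b' hbb
    exact hdis b.2 b'.2 fun h => hbb (Subtype.ext h)
  · intro x r hr h
    obtain ⟨b, hb, hsub⟩ := hcov (x, r) ⟨hr, h⟩
    have hxr : closedBall x r ⊆ closedBall b.1 (5 * b.2) := hsub
    have h1 : x + r ∈ closedBall b.1 (5 * b.2) := hxr (by
      rw [mem_closedBall, Real.dist_eq]
      rw [show x + r - x = r by ring, abs_of_pos hr])
    have h2 : x - r ∈ closedBall b.1 (5 * b.2) := hxr (by
      rw [mem_closedBall, Real.dist_eq]
      rw [show x - r - x = -r by ring, abs_neg, abs_of_pos hr])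
    have h3 : x ∈ closedBall b.1 (5 * b.2) := hxr (mem_closedBall_self hr.le)
    rw [mem_closedBall, Real.dist_eq, abs_le] at h1 h2
    have h4 : r ≤ 5 * b.2 := by linarith [h1.2, h2.1]
    refine le_trans ?_ (ENNReal.le_tsum (⟨b, hb⟩ : u))
    rw [indicator_of_mem h3]
    exact ENNReal.ofReal_le_ofReal h4

/-- Pointwise bound of the kernel by dyadic balls. -/
theorem ptw {x y : ℝ} (hy : 0 < y) (t : ℝ) :
    ENNReal.ofReal (1 / ((x - t) ^ 2 + y ^ 2)) ≤ ∑' j : ℕ, (closedBall x (2 ^ j * y)).indicator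
      (fun _ : ℝ => ENNReal.ofReal (4 * (1 / 4) ^ j / y ^ 2)) t := by
  classical
  have hex : ∃ j : ℕ, |x - t| ≤ 2 ^ j * y := by
    obtain ⟨j, hj⟩ := pow_unbounded_of_one_lt (|x - t| / y) (one_lt_two : (1 : ℝ) < 2)
    exact ⟨j, by rw [← div_le_iff₀ hy]; exact hj.le⟩
  have hj := Nat.find_spec hex
  set j := Nat.find hex with hjd
  have hmem : t ∈ closedBall x (2 ^ j * y) := by
    rw [mem_closedBall, Real.dist_eq, abs_sub_comm]
    exact hj
  refine le_trans ?_ (ENNReal.le_tsum j)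
  rw [indicator_of_mem hmem]
  refine ENNReal.ofReal_le_ofReal ?_
  rcases Nat.eq_zero_or_pos j with h0 | h0
  · rw [h0, pow_zero, mul_one]
    have h1 : 0 ≤ (x - t) ^ 2 := sq_nonneg _
    rw [div_le_div_iff₀ (by positivity) (by positivity)]
    nlinarith [sq_nonneg y]
  · obtain ⟨i, hi⟩ : ∃ i, j = i + 1 := ⟨j - 1, by omega⟩
    have hlt : 2 ^ i * y < |x - t| := by
      have := Nat.find_min hex (m := i) (by rw [← hjd]; omega)
      exact not_le.1 this
    have h2 : (2 ^ i * y) ^ 2 ≤ (x - t) ^ 2 := by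
      rw [← sq_abs (x - t)]
      exact pow_le_pow_left₀ (by positivity) hlt.le 2
    have h4 : (2 ^ i * y) ^ 2 = 4 ^ i * y ^ 2 := by
      rw [mul_pow, ← pow_mul, mul_comm i 2, pow_mul]
      norm_num
    have h6 : (1 / 4 : ℝ) ^ (i + 1) = (1 / 4) ^ i * (1 / 4) := pow_succ _ _
    rw [hi, h6]
    have h5 : 4 * ((1 / 4 : ℝ) ^ i * (1 / 4)) / y ^ 2 = 1 / (4 ^ i * y ^ 2) := by
      rw [one_div_pow]
      field_simp
    rw [h5]
    refine one_div_le_one_div_of_le (by positivity) ?_
    rw [← h4]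
    nlinarith [sq_nonneg y]

theorem geo (c q : ℝ) (hc : 0 ≤ c) (hq0 : 0 ≤ q) (hq1 : q < 1) :
    ∑' j : ℕ, ENNReal.ofReal (c * q ^ j) = ENNReal.ofReal (c * (1 - q)⁻¹) := by
  rw [← ENNReal.ofReal_tsum_of_nonneg (fun j => by positivity)
    ((summable_geometric_of_lt_one hq0 hq1).mul_left c), tsum_mul_left,
    tsum_geometric_of_lt_one hq0 hq1]

/-- The heights at which the Poisson integral of a finite measure is large. -/
theorem big (ν : Measure ℝ) [IsFiniteMeasure ν] :
    ∃ g : ℝ → ℝ≥0∞, Measurable g ∧ ∫⁻ x, g x ≤ ENNReal.ofReal 4800 * ν univ ∧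
      ∀ x y : ℝ, 0 < y → 1 ≤ ∫⁻ t, ENNReal.ofReal (1 / ((x - t) ^ 2 + y ^ 2)) ∂ν →
        ENNReal.ofReal y ≤ g x := by
  have hκ : ∀ j : ℕ, (0 : ℝ) < (3 / 4) ^ j / 32 := fun j => by positivity
  choose g hgm hgi hg using fun j : ℕ => vit ν ((3 / 4) ^ j / 32) (hκ j)
  refine ⟨fun x => ∑' j : ℕ, ENNReal.ofReal ((1 / 2) ^ j) * g j x,
    Measurable.tsum fun j => (hgm j).const_mul _, ?_, ?_⟩
  · rw [lintegral_tsum fun j => ((hgm j).const_mul _).aemeasurable]
    have h1 : ∀ j : ℕ, ∫⁻ x, ENNReal.ofReal ((1 / 2) ^ j) * g j x ≤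
        ENNReal.ofReal (1600 * (2 / 3) ^ j) * ν univ := by
      intro j
      rw [lintegral_const_mul _ (hgm j)]
      refine (mul_le_mul_right (hgi j) _).trans ?_
      rw [← mul_assoc, ← ENNReal.ofReal_mul (by positivity)]
      refine le_of_eq ?_
      congr 2
      have e1 : (1 / 2 : ℝ) ^ j = (2 / 3) ^ j * (3 / 4) ^ j := by
        rw [← mul_pow]
        norm_num
      rw [e1]
      have : (3 / 4 : ℝ) ^ j ≠ 0 := by positivity
      generalize (2 / 3 : ℝ) ^ j = a at *
      field_simp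
      ring
    refine (ENNReal.tsum_le_tsum h1).trans ?_
    rw [ENNReal.tsum_mul_right, geo 1600 (2 / 3) (by norm_num) (by norm_num) (by norm_num)]
    norm_num
  · intro x y hy h
    by_contra hn
    have hall : ∀ j : ℕ, ν (closedBall x (2 ^ j * y)) <
        ENNReal.ofReal ((3 / 4) ^ j / 32 * (2 ^ j * y) ^ 2) := by
      intro j
      by_contra hj
      rw [not_lt] at hj
      have h1 := hg j x (2 ^ j * y) (by positivity) hj
      refine hn ?_
      have h2 : ENNReal.ofReal y ≤ ENNReal.ofReal ((1 / 2) ^ j) * g j x := by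
        refine le_trans (le_of_eq ?_) (mul_le_mul_right h1 _)
        rw [← ENNReal.ofReal_mul (by positivity), ← mul_assoc, ← mul_pow]
        norm_num
      exact h2.trans (ENNReal.le_tsum j)
    have h1 : ∫⁻ t, ENNReal.ofReal (1 / ((x - t) ^ 2 + y ^ 2)) ∂ν ≤
        ∑' j : ℕ, ENNReal.ofReal (1 / 8 * (3 / 4) ^ j) := by
      refine (lintegral_mono fun t => ptw hy t).trans ?_
      rw [lintegral_tsum fun j => (measurable_const.indicator
        isClosed_closedBall.measurableSet).aemeasurable]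
      refine ENNReal.tsum_le_tsum fun j => ?_
      rw [lintegral_indicator_const isClosed_closedBall.measurableSet]
      refine (mul_le_mul_right (hall j).le _).trans ?_
      rw [← ENNReal.ofReal_mul (by positivity)]
      refine ENNReal.ofReal_le_ofReal (le_of_eq ?_)
      have h4 : (2 ^ j * y) ^ 2 = 4 ^ j * y ^ 2 := by
        rw [mul_pow, ← pow_mul, mul_comm j 2, pow_mul]
        norm_num
      rw [h4, one_div_pow]
      field_simp
      norm_num
    rw [geo (1 / 8) (3 / 4) (by norm_num) (by norm_num) (by norm_num)] at h1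
    have h2 := h.trans h1
    rw [show (1 : ℝ≥0∞) = ENNReal.ofReal 1 by simp,
      ENNReal.ofReal_le_ofReal_iff (by norm_num)] at h2
    norm_num at h2

/-- Dyadic annuli. -/
def S (c : ℝ) (k : ℕ) : Set ℝ := {t | c * 2 ^ k ≤ |t| ∧ |t| < c * 2 ^ (k + 1)}

theorem S_meas (c : ℝ) (k : ℕ) : MeasurableSet (S c k) := by
  unfold S
  exact (measurableSet_le measurable_const measurable_norm).inter
    (measurableSet_lt measurable_norm measurable_const)

theorem S_sum (c : ℝ) (hc : 0 < c) (μ : Measure ℝ) : ∑' k : ℕ, μ (S c k) ≤ μ univ := by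
  refine (tsum_meas_le_meas_iUnion_of_disjoint μ (S_meas c) ?_).trans (measure_mono (subset_univ _))
  have key : ∀ k l : ℕ, k < l → Disjoint (S c k) (S c l) := by
    intro k l hkl
    rw [Set.disjoint_left]
    intro t h1 h2
    have h3 : (2 : ℝ) ^ (k + 1) ≤ 2 ^ l := pow_le_pow_right₀ (by norm_num) hkl
    have h4 : c * 2 ^ (k + 1) ≤ c * 2 ^ l := mul_le_mul_of_nonneg_left h3 hc.le
    linarith [h1.2, h2.1]
  intro k l hkl
  rcases lt_or_gt_of_ne hkl with h | h
  · exact key k l h
  · exact (key l k h).symm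

/-- The near part. -/
def Nk (k : ℕ) : Set ℝ := {t | 2 ^ k / 2 ≤ |t| ∧ |t| ≤ 3 * 2 ^ k}

theorem Nk_meas (k : ℕ) : MeasurableSet (Nk k) := by
  unfold Nk
  exact (measurableSet_le measurable_const measurable_norm).inter
    (measurableSet_le measurable_norm measurable_const)

theorem Nk_sub (k : ℕ) : Nk k ⊆ S (1 / 2) k ∪ (S 1 k ∪ S 2 k) := by
  intro t ht
  obtain ⟨h1, h2⟩ := ht
  have h0 : (0 : ℝ) < 2 ^ k := by positivity
  have e : (2 : ℝ) ^ (k + 1) = 2 * 2 ^ k := by ring
  rcases lt_or_ge |t| (2 ^ k) with h | h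
  · left
    exact ⟨by linarith, by rw [e]; linarith⟩
  · right
    rcases lt_or_ge |t| (2 * 2 ^ k) with h' | h'
    · left
      exact ⟨by linarith, by rw [e]; linarith⟩
    · right
      exact ⟨by linarith, by rw [e]; linarith⟩

theorem Nk_sum (μ : Measure ℝ) : ∑' k : ℕ, μ (Nk k) ≤ 3 * μ univ := by
  have h1 : ∀ k, μ (Nk k) ≤ μ (S (1 / 2) k) + (μ (S 1 k) + μ (S 2 k)) := fun k =>
    (measure_mono (Nk_sub k)).trans ((measure_union_le _ _).trans
      (add_le_add le_rfl (measure_union_le _ _)))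
  refine (ENNReal.tsum_le_tsum h1).trans ?_
  rw [ENNReal.tsum_add, ENNReal.tsum_add]
  have e : (3 : ℝ≥0∞) * μ univ = μ univ + (μ univ + μ univ) := by ring
  rw [e]
  exact add_le_add (S_sum _ (by norm_num) μ) (add_le_add (S_sum _ (by norm_num) μ)
    (S_sum _ (by norm_num) μ))

end E2

open E2 in
theorem stE2 : StE2 := by
  intro U hU ⟨ρ, c₀, hρ, hρ0, hc₀, hNV⟩
  set I₀ : ℝ := ∫ t, ρ t / (1 + t ^ 2) with hI₀
  have hq0 : ∀ t, 0 ≤ ρ t / (1 + t ^ 2) := fun t => div_nonneg (hρ0 t) (by positivity)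
  have hI₀0 : 0 ≤ I₀ := integral_nonneg hq0
  have hρi : Integrable (fun t : ℝ => ρ t / (1 + t ^ 2)) volume := hρ
  -- measurability of `ρ`
  have hρm : AEMeasurable ρ volume := by
    have h1 : AEMeasurable (fun t : ℝ => ρ t / (1 + t ^ 2) * (1 + t ^ 2)) volume :=
      hρi.aestronglyMeasurable.aemeasurable.mul (by fun_prop)
    refine h1.congr (Eventually.of_forall fun t => ?_)
    have : (1 + t ^ 2 : ℝ) ≠ 0 := by positivity
    field_simp
  set lam : Measure ℝ := volume.withDensity (fun t => ENNReal.ofReal (ρ t / (1 + t ^ 2))) with hlam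
  set μ : Measure ℝ := volume.withDensity (fun t => ENNReal.ofReal (ρ t)) with hμ
  have hlamU : lam univ = ENNReal.ofReal I₀ := by
    rw [hlam, withDensity_apply _ MeasurableSet.univ, Measure.restrict_univ, hI₀,
      ofReal_integral_eq_lintegral_ofReal hρi (Eventually.of_forall hq0)]
  have hμN : ∀ k : ℕ, μ (Nk k) ≤ ENNReal.ofReal (10 * 4 ^ k) * lam (Nk k) := by
    intro k
    rw [hμ, hlam, withDensity_apply _ (Nk_meas k), withDensity_apply _ (Nk_meas k),
      ← lintegral_const_mul'' _ (by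
        exact (hρi.aestronglyMeasurable.aemeasurable.ennreal_ofReal).restrict)]
    refine setLIntegral_mono' (Nk_meas k) fun t ht => ?_
    rw [← ENNReal.ofReal_mul (by positivity)]
    refine ENNReal.ofReal_le_ofReal ?_
    have h1 : t ^ 2 ≤ 9 * 4 ^ k := by
      rw [← sq_abs]
      calc |t| ^ 2 ≤ (3 * 2 ^ k) ^ 2 := pow_le_pow_left₀ (abs_nonneg _) ht.2 2
        _ = 9 * 4 ^ k := by rw [mul_pow, ← pow_mul, mul_comm k 2, pow_mul]; norm_num
    have h2 : (1 : ℝ) ≤ 4 ^ k := one_le_pow₀ (by norm_num)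
    rw [mul_div_assoc', le_div_iff₀ (by positivity), mul_comm]
    exact mul_le_mul_of_nonneg_right (by linarith) (hρ0 t)
  have : ∀ k : ℕ, IsFiniteMeasure (μ.restrict (Nk k)) := by
    intro k
    refine ⟨?_⟩
    rw [Measure.restrict_apply_univ]
    refine (hμN k).trans_lt ?_
    refine ENNReal.mul_lt_top ENNReal.ofReal_lt_top ?_
    refine (measure_mono (subset_univ _)).trans_lt ?_
    rw [hlamU]
    exact ENNReal.ofReal_lt_top
  choose g hgm hgi hg using fun k : ℕ => big (μ.restrict (Nk k))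
  set K : ℝ := 13 * I₀ + 1 with hK
  have hK0 : 0 < K := by positivity
  refine ⟨c₀ + K, by positivity, ?_⟩
  -- the integral near `x`
  have hgrow : ∀ x y : ℝ, 1 ≤ y → Real.exp ((c₀ + K) * y) ≤ ∫ t in Icc (x - y) (x + y), U t →
      Real.pi * K ≤ ∫ t, ρ t / ((x - t) ^ 2 + y ^ 2) := by
    intro x y hy h
    have hy0 : 0 < y := by linarith
    have h1 := h.trans (hNV x y hy)
    rw [Real.exp_le_exp] at h1
    unfold Vp at h1
    have h2 : K * y ≤ poisson ρ x y := by linarith
    rw [poisson_eq_integral] at h2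
    have e : ∫ t : ℝ, y * ρ t / ((x - t) ^ 2 + y ^ 2) =
        y * ∫ t, ρ t / ((x - t) ^ 2 + y ^ 2) := by
      rw [← integral_const_mul]
      refine integral_congr_ae (Eventually.of_forall fun t => ?_)
      show y * ρ t / ((x - t) ^ 2 + y ^ 2) = y * (ρ t / ((x - t) ^ 2 + y ^ 2))
      rw [mul_div_assoc]
    rw [e] at h2
    have h3 : K * y ≤ (∫ t, ρ t / ((x - t) ^ 2 + y ^ 2)) / Real.pi * y := by
      calc K * y ≤ _ := h2
        _ = _ := by ring
    have h4 := le_of_mul_le_mul_right h3 hy0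
    rw [le_div_iff₀ Real.pi_pos] at h4
    linarith
  have hint : ∀ x y : ℝ, 1 ≤ y → Integrable (fun t => ρ t / ((x - t) ^ 2 + y ^ 2)) volume := by
    intro x y hy
    have hy0 : 0 < y := by linarith
    have h1 : AEStronglyMeasurable (fun t => ρ t / ((x - t) ^ 2 + y ^ 2)) volume := by
      refine AEMeasurable.aestronglyMeasurable (hρm.div ?_)
      fun_prop
    refine Integrable.mono' (hρi.const_mul (2 * x ^ 2 + 3)) h1 (Eventually.of_forall fun t => ?_)
    rw [Real.norm_eq_abs, abs_of_nonneg (div_nonneg (hρ0 t) (by positivity)), mul_div_assoc',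
      div_le_div_iff₀ (by positivity) (by positivity)]
    have h2 : 1 + t ^ 2 ≤ (2 * x ^ 2 + 3) * ((x - t) ^ 2 + y ^ 2) := by
      nlinarith [sq_nonneg (2 * x - t), sq_nonneg x, sq_nonneg (x - t), mul_nonneg (sq_nonneg x)
        (sq_nonneg (x - t)), mul_nonneg (sq_nonneg x) (by nlinarith : (0 : ℝ) ≤ y ^ 2 - 1)]
    calc ρ t * (1 + t ^ 2) ≤ ρ t * ((2 * x ^ 2 + 3) * ((x - t) ^ 2 + y ^ 2)) :=
          mul_le_mul_of_nonneg_left h2 (hρ0 t)
      _ = (2 * x ^ 2 + 3) * ρ t * ((x - t) ^ 2 + y ^ 2) := by ring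
  -- near zero there is nothing
  have hsmall : ∀ x y : ℝ, |x| < 1 → 1 ≤ y →
      ¬ Real.exp ((c₀ + K) * y) ≤ ∫ t in Icc (x - y) (x + y), U t := by
    intro x y hx hy h
    have h1 := hgrow x y hy h
    have h2 : ∫ t, ρ t / ((x - t) ^ 2 + y ^ 2) ≤ 3 * I₀ := by
      rw [hI₀, ← integral_const_mul]
      refine integral_mono (hint x y hy) (hρi.const_mul 3) fun t => ?_
      show ρ t / ((x - t) ^ 2 + y ^ 2) ≤ 3 * (ρ t / (1 + t ^ 2))
      rw [mul_div_assoc', div_le_div_iff₀ (by positivity) (by positivity)]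
      have hx2 : x ^ 2 ≤ 1 := by
        rw [← sq_abs]
        nlinarith [abs_nonneg x]
      have h3 : 1 + t ^ 2 ≤ 3 * ((x - t) ^ 2 + y ^ 2) := by
        nlinarith [sq_nonneg (2 * x - t)]
      calc ρ t * (1 + t ^ 2) ≤ ρ t * (3 * ((x - t) ^ 2 + y ^ 2)) :=
            mul_le_mul_of_nonneg_left h3 (hρ0 t)
        _ = 3 * ρ t * ((x - t) ^ 2 + y ^ 2) := by ring
    have h4 : 3 * K ≤ Real.pi * K := mul_le_mul_of_nonneg_right Real.pi_gt_three.le hK0.le
    linarith
  -- away from zero
  have hlarge : ∀ (x y : ℝ) (k : ℕ), (2 : ℝ) ^ k ≤ |x| → |x| < 2 ^ (k + 1) → 1 ≤ y →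
      Real.exp ((c₀ + K) * y) ≤ ∫ t in Icc (x - y) (x + y), U t → ENNReal.ofReal y ≤ g k x := by
    intro x y k hk1 hk2 hy h
    have h1 := hgrow x y hy h
    have hy0 : 0 < y := by linarith
    have hx1 : 1 ≤ |x| := le_trans (one_le_pow₀ (by norm_num)) hk1
    have hqn : ∀ t, 0 ≤ ρ t / ((x - t) ^ 2 + y ^ 2) := fun t => div_nonneg (hρ0 t) (by positivity)
    have hsplit := integral_add_compl (Nk_meas k) (hint x y hy)
    have hfar : ∫ t in (Nk k)ᶜ, ρ t / ((x - t) ^ 2 + y ^ 2) ≤ 13 * I₀ := by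
      have h2 : ∫ t in (Nk k)ᶜ, ρ t / ((x - t) ^ 2 + y ^ 2) ≤
          ∫ t in (Nk k)ᶜ, 13 * (ρ t / (1 + t ^ 2)) := by
        refine setIntegral_mono_on (hint x y hy).integrableOn (hρi.const_mul 13).integrableOn
          (Nk_meas k).compl fun t ht => ?_
        have hd : |x| / 2 ≤ |x - t| := by
          by_contra hd
          rw [not_le] at hd
          refine ht ⟨?_, ?_⟩
          · have := abs_sub_abs_le_abs_sub x t
            linarith
          · have h5 := abs_sub_abs_le_abs_sub t x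
            rw [abs_sub_comm t x] at h5
            have e : (2 : ℝ) ^ (k + 1) = 2 * 2 ^ k := by ring
            rw [e] at hk2
            linarith
        have hd2 : x ^ 2 ≤ 4 * (x - t) ^ 2 := by
          rw [← sq_abs x, ← sq_abs (x - t)]
          nlinarith [abs_nonneg x]
        have hx2 : 1 ≤ x ^ 2 := by
          rw [← sq_abs]
          nlinarith
        rw [mul_div_assoc', div_le_div_iff₀ (by positivity) (by positivity)]
        have h3 : 1 + t ^ 2 ≤ 13 * ((x - t) ^ 2 + y ^ 2) := by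
          have h6 : t ^ 2 ≤ 9 * (x - t) ^ 2 := by
            have h7 : |t| ≤ 3 * |x - t| := by
              have := abs_sub_abs_le_abs_sub t x
              rw [abs_sub_comm t x] at this
              linarith
            rw [← sq_abs t, ← sq_abs (x - t)]
            nlinarith [abs_nonneg t, abs_nonneg (x - t)]
          nlinarith [sq_nonneg y]
        calc ρ t * (1 + t ^ 2) ≤ ρ t * (13 * ((x - t) ^ 2 + y ^ 2)) :=
              mul_le_mul_of_nonneg_left h3 (hρ0 t)
          _ = 13 * ρ t * ((x - t) ^ 2 + y ^ 2) := by ring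
      refine h2.trans ?_
      rw [integral_const_mul]
      refine mul_le_mul_of_nonneg_left ?_ (by norm_num)
      exact setIntegral_le_integral hρi (Eventually.of_forall hq0)
    have h4 : 3 * K ≤ Real.pi * K := mul_le_mul_of_nonneg_right Real.pi_gt_three.le hK0.le
    have hnear : 1 ≤ ∫ t in Nk k, ρ t / ((x - t) ^ 2 + y ^ 2) := by linarith
    refine hg k x y hy0 ?_
    have h5 : ∫⁻ t, ENNReal.ofReal (1 / ((x - t) ^ 2 + y ^ 2)) ∂(μ.restrict (Nk k)) =
        ENNReal.ofReal (∫ t in Nk k, ρ t / ((x - t) ^ 2 + y ^ 2)) := by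
      rw [ofReal_integral_eq_lintegral_ofReal (hint x y hy).integrableOn
        (Eventually.of_forall hqn), hμ, restrict_withDensity (Nk_meas k),
        lintegral_withDensity_eq_lintegral_mul₀ hρm.ennreal_ofReal.restrict
          (by fun_prop)]
      refine lintegral_congr fun t => ?_
      rw [Pi.mul_apply, ← ENNReal.ofReal_mul (hρ0 t)]
      congr 1
      ring
    rw [h5]
    rw [show (1 : ℝ≥0∞) = ENNReal.ofReal 1 by simp]
    exact ENNReal.ofReal_le_ofReal hnear
  -- the bound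
  have hle : ∀ x : ℝ, yc U (c₀ + K) x ≤ ∑' k : ℕ, (S 1 k).indicator (g k) x := by
    intro x
    unfold yc
    refine iSup₂_le fun y hy => ?_
    rcases lt_or_ge |x| 1 with hx | hx
    · exact absurd hy.2 (hsmall x y hx hy.1)
    · obtain ⟨k, hk1, hk2⟩ := exists_nat_pow_near hx (one_lt_two : (1 : ℝ) < 2)
      refine le_trans ?_ (ENNReal.le_tsum k)
      have hmem : x ∈ S 1 k := ⟨by rw [one_mul]; exact hk1, by rw [one_mul]; exact hk2⟩
      rw [indicator_of_mem hmem]
      exact hlarge x y k hk1 hk2 hy.1 hy.2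
  have hfin : ∫⁻ x : ℝ, yc U (c₀ + K) x * ENNReal.ofReal (1 / (1 + x ^ 2)) ≤
      ENNReal.ofReal 48000 * (3 * lam univ) := by
    calc ∫⁻ x : ℝ, yc U (c₀ + K) x * ENNReal.ofReal (1 / (1 + x ^ 2))
        ≤ ∫⁻ x : ℝ, (∑' k : ℕ, (S 1 k).indicator (g k) x) * ENNReal.ofReal (1 / (1 + x ^ 2)) :=
          lintegral_mono fun x => mul_le_mul_left (hle x) _
      _ = ∫⁻ x : ℝ, ∑' k : ℕ, (S 1 k).indicator (g k) x * ENNReal.ofReal (1 / (1 + x ^ 2)) := by
          refine lintegral_congr fun x => ?_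
          rw [ENNReal.tsum_mul_right]
      _ = ∑' k : ℕ, ∫⁻ x : ℝ, (S 1 k).indicator (g k) x * ENNReal.ofReal (1 / (1 + x ^ 2)) := by
          rw [lintegral_tsum fun k => ?_]
          exact (((hgm k).indicator (S_meas 1 k)).mul (by fun_prop)).aemeasurable
      _ ≤ ∑' k : ℕ, ENNReal.ofReal 48000 * lam (Nk k) := by
          refine ENNReal.tsum_le_tsum fun k => ?_
          calc ∫⁻ x : ℝ, (S 1 k).indicator (g k) x * ENNReal.ofReal (1 / (1 + x ^ 2))
              ≤ ∫⁻ x : ℝ, ENNReal.ofReal (1 / 4 ^ k) * g k x := by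
                refine lintegral_mono fun x => ?_
                by_cases hx : x ∈ S 1 k
                · rw [indicator_of_mem hx, mul_comm]
                  refine mul_le_mul_left (ENNReal.ofReal_le_ofReal ?_) _
                  refine one_div_le_one_div_of_le (by positivity) ?_
                  have h1 : (2 : ℝ) ^ k ≤ |x| := by
                    have := hx.1
                    rwa [one_mul] at this
                  have h2 : ((2 : ℝ) ^ k) ^ 2 ≤ |x| ^ 2 := pow_le_pow_left₀ (by positivity) h1 2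
                  rw [sq_abs, ← pow_mul, mul_comm k 2, pow_mul] at h2
                  norm_num at h2
                  linarith
                · rw [indicator_of_notMem hx, zero_mul]
                  exact zero_le
            _ = ENNReal.ofReal (1 / 4 ^ k) * ∫⁻ x, g k x := lintegral_const_mul _ (hgm k)
            _ ≤ ENNReal.ofReal (1 / 4 ^ k) * (ENNReal.ofReal 4800 * μ (Nk k)) := by
                have := hgi k
                rw [Measure.restrict_apply_univ] at this
                exact mul_le_mul_right this _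
            _ ≤ ENNReal.ofReal (1 / 4 ^ k) * (ENNReal.ofReal 4800 *
                (ENNReal.ofReal (10 * 4 ^ k) * lam (Nk k))) :=
                mul_le_mul_right (mul_le_mul_right (hμN k) _) _
            _ = ENNReal.ofReal 48000 * lam (Nk k) := by
                rw [← mul_assoc, ← mul_assoc, ← ENNReal.ofReal_mul (by positivity),
                  ← ENNReal.ofReal_mul (by positivity)]
                congr 2
                field_simp
                norm_num
      _ = ENNReal.ofReal 48000 * ∑' k : ℕ, lam (Nk k) := ENNReal.tsum_mul_left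
      _ ≤ ENNReal.ofReal 48000 * (3 * lam univ) := mul_le_mul_right (Nk_sum lam) _
  refine ne_of_lt (hfin.trans_lt ?_)
  rw [hlamU]
  exact ENNReal.mul_lt_top ENNReal.ofReal_lt_top
    (ENNReal.mul_lt_top (by norm_num) ENNReal.ofReal_lt_top)

end Pool.Agent.Work.MP_055a27_an.Fn
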