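import Pool.Agent.Work.MP_055a27_an.Fn.Main
import Pool.Agent.Work.MP_055a27_an.Op.Main

/-!
# The characterization for `b < lam`
-/

set_option autoImplicit false

open MeasureTheory Set Filter Topology
open scoped ENNReal NNReal

namespace Pool.Agent.Work.MP_055a27_an.Fn

open Crit (lg CC)
open Cr3 (Wt Sh)

/-- A weight which vanishes almost everywhere satisfies the inequality. -/
theorem star_of_zero {lam b p : ℝ} {U : ℝ → ℝ} (h : ∀ᵐ x, U x = 0) : Star lam b p U := by
  refine ⟨0, fun f _ => ?_⟩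
  have h1 : ∫⁻ x : ℝ, (areaFn lam f x) ^ p * ENNReal.ofReal (U x) = 0 := by
    rw [← lintegral_zero (μ := volume) (α := ℝ)]
    refine lintegral_congr_ae ?_
    filter_upwards [h] with x hx
    simp [hx]
  rw [h1]
  exact zero_le

/-- The condition of the characterization. -/
def Cond (lam : ℝ) (U : ℝ → ℝ) : Prop :=
  (∀ᵐ x, U x = 0) ∨ ¬ NVd U ∨ (Wt U ∧ ∃ μ : ℝ, lam < μ ∧ Sh μ U)

theorem char (hGain : Op.StGain) {lam b p : ℝ} {U : ℝ → ℝ} (hb : 0 < b) (hbl : b < lam)
    (hp : 1 < p) (hU : IsWeight U) : Star lam b p U ↔ Cond lam U := by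
  have hlam : 0 < lam := hb.trans hbl
  have hp0 : 0 < p := by linarith
  constructor
  · intro hS
    by_cases hN : NVd U
    · have hNV : NV U := fE1 U hU hN
      rcases fNecF lam b p (lam / 2) U hb hbl (by linarith) (by linarith) hp0 hU hNV hS with
        h | ⟨hW, hSh⟩
      · exact Or.inl h
      · right
        right
        refine ⟨hW, ?_⟩
        have hCC : CC (lam / 4) U := Cr3.fCC3 (lam / 4) (lam / 2) U (by linarith) (by linarith)
          hW hSh
        obtain ⟨μ, hμ, h⟩ := Op.stOp hGain lam b p (lam / 4) U hb hbl hp0 (by linarith) hW hCC hS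
        exact ⟨μ, hμ, Cr3.stSh1.1 μ U (by linarith) hU h⟩
    · exact Or.inr (Or.inl hN)
  · rintro (h | h | ⟨hW, μ, hμ, hSh⟩)
    · exact star_of_zero h
    · exact fVac lam b p U hlam hb hp0 hU fun hNV => h (fE2 U hU hNV)
    · exact Cr3.fSuff3 lam μ b p U hlam hμ hb hp hW hSh

end Pool.Agent.Work.MP_055a27_an.Fn
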