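import Pool.Agent.Work.MP_055a27_an.Fn.Stmts

/-!
# Item 8 (HM): sets of positive density

From sets of density near one (`StHM0`), the clamping argument `StClA` and the rising sun lemma
`StRS`.
-/

set_option autoImplicit false

open MeasureTheory Set Filter Topology
open scoped ENNReal NNReal

namespace Pool.Agent.Work.MP_055a27_an.Fn

namespace HM

/-- The conclusion of `StHM` for given `a`, `M` and density `ρ`. -/
def PP (a M ρ : ℝ) : Prop := ∃ e : ℝ, 0 < e ∧
  ∀ (l : ℝ → ℝ) (c m H a0 s : ℝ) (X : Set ℝ), Admissible l → 0 < s → 0 ≤ H → MeasurableSet X →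
    X ⊆ Icc a0 (a0 + s) → ρ * s ≤ volume.real X → LowB a (2 * M * s) m c X l →
    (∀ᵐ x, x ∈ X → m + H ≤ l x) → e * H ≤ Vp l c (a0 + s / 2) (M * s) - m

theorem PP_mono {a M ρ ρ' : ℝ} (h : PP a M ρ) (hρ : ρ ≤ ρ') : PP a M ρ' := by
  obtain ⟨e, he, h⟩ := h
  refine ⟨e, he, fun l c m H a0 s X hl hs hH hX hXs hv hL hae => ?_⟩
  exact h l c m H a0 s X hl hs hH hX hXs
    (le_trans (mul_le_mul_of_nonneg_right hρ hs.le) hv) hL hae

/-- A countable disjoint family of intervals of density `ρ` which covers almost all of `X` has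
finite subfamilies of total length close to `volume X / ρ`. -/
theorem fin_sub {X : Set ℝ} {a s ρ t : ℝ} (hXm : MeasurableSet X) (hXs : X ⊆ Icc a (a + s))
    (hρ : 0 < ρ) {ι : Type} [Countable ι] (α γ : ι → ℝ)
    (h1 : ∀ i, a ≤ α i ∧ α i < γ i ∧ γ i ≤ a + s ∧
      volume.real (X ∩ Ioo (α i) (γ i)) = ρ * (γ i - α i))
    (h2 : Pairwise (fun i j => Disjoint (Ioo (α i) (γ i)) (Ioo (α j) (γ j))))
    (h3 : volume (X \ ⋃ i, Ioo (α i) (γ i)) = 0) (ht : ρ * t < volume.real X) :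
    ∃ F : Finset ι, t ≤ ∑ i ∈ F, (γ i - α i) := by
  by_contra hcon
  push Not at hcon
  have hfin : volume X ≠ ∞ := by
    refine ne_top_of_le_ne_top ?_ (measure_mono hXs)
    rw [Real.volume_Icc]; exact ENNReal.ofReal_ne_top
  have hfi : ∀ i, volume (X ∩ Ioo (α i) (γ i)) ≠ ∞ := fun i =>
    ne_top_of_le_ne_top hfin (measure_mono inter_subset_left)
  have hvi : ∀ i, volume (X ∩ Ioo (α i) (γ i)) = ENNReal.ofReal (ρ * (γ i - α i)) := by
    intro i
    rw [← (h1 i).2.2.2, measureReal_def, ENNReal.ofReal_toReal (hfi i)]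
  have hle : volume X ≤ ∑' i, volume (X ∩ Ioo (α i) (γ i)) := by
    calc volume X ≤ volume ((X ∩ ⋃ i, Ioo (α i) (γ i)) ∪ (X \ ⋃ i, Ioo (α i) (γ i))) := by
          rw [inter_union_sdiff]
      _ ≤ volume (X ∩ ⋃ i, Ioo (α i) (γ i)) + volume (X \ ⋃ i, Ioo (α i) (γ i)) :=
          measure_union_le _ _
      _ = volume (⋃ i, X ∩ Ioo (α i) (γ i)) := by rw [h3, add_zero, inter_iUnion]
      _ ≤ ∑' i, volume (X ∩ Ioo (α i) (γ i)) := measure_iUnion_le _
  have hsum : ∑' i, volume (X ∩ Ioo (α i) (γ i)) ≤ ENNReal.ofReal (ρ * t) := by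
    rw [ENNReal.tsum_eq_iSup_sum]
    refine iSup_le fun F => ?_
    have : ∑ i ∈ F, volume (X ∩ Ioo (α i) (γ i)) =
        ENNReal.ofReal (ρ * ∑ i ∈ F, (γ i - α i)) := by
      rw [Finset.mul_sum, ENNReal.ofReal_sum_of_nonneg]
      · exact Finset.sum_congr rfl fun i _ => hvi i
      · intro i _
        exact mul_nonneg hρ.le (by linarith [(h1 i).2.1])
    rw [this]
    exact ENNReal.ofReal_le_ofReal (mul_le_mul_of_nonneg_left (hcon F).le hρ.le)
  have h4 : volume X ≤ ENNReal.ofReal (ρ * t) := hle.trans hsum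
  have h5 : 0 ≤ ρ * t := by
    have := hcon ∅
    simp only [Finset.sum_empty] at this
    exact mul_nonneg hρ.le this.le
  have h6 : volume.real X ≤ ρ * t := by
    rw [measureReal_def]
    exact ENNReal.toReal_le_of_le_ofReal h5 h4
  linarith

theorem step (hRS : StRS) {a M ρ ε e2 : ℝ} (hM : 1 ≤ M) (hρ : 0 < ρ) (hρ1 : ρ < 1)
    (hε : 0 < ε) (he2 : 0 < e2) (he21 : e2 ≤ 1)
    (hCl : ∀ (l : ℝ → ℝ) (c m k a0 s : ℝ) (n : ℕ) (α γ x : Fin n → ℝ), Admissible l → 0 < s →
      0 ≤ k →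
      (∀ i, a0 ≤ α i ∧ α i < γ i ∧ γ i ≤ a0 + s ∧ α i ≤ x i ∧ x i ≤ γ i) →
      Pairwise (fun i j => Disjoint (Ioo (α i) (γ i)) (Ioo (α j) (γ j))) →
      (1 - ε) * s ≤ ∑ i, (γ i - α i) → LowB a (2 * M * s) m c (range x) l →
      (∀ i, k ≤ Vp l c ((α i + γ i) / 2) (M * (γ i - α i)) - m) →
      e2 * k ≤ Vp l c (a0 + s / 2) (M * s) - m)
    (hP : PP a M ρ) : PP a M (ρ * (1 - ε / 2)) := by
  obtain ⟨e, he, hP⟩ := hP
  refine ⟨e2 * e, mul_pos he2 he, fun l c m H a0 s X hl hs hH hX hXs hv hL hae => ?_⟩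
  rcases le_total (ρ * s) (volume.real X) with hc | hc
  · have h1 := hP l c m H a0 s X hl hs hH hX hXs hc hL hae
    have h2 : e2 * e * H ≤ e * H := by
      have : 0 ≤ e * H := mul_nonneg he.le hH
      nlinarith
    linarith
  · obtain ⟨ι, hι, α, γ, h1, h2, h3⟩ := hRS X a0 s ρ hX hXs hs hρ hρ1 hc
    haveI := hι
    have ht : ρ * ((1 - ε) * s) < volume.real X := by
      have : ρ * ((1 - ε) * s) < ρ * (1 - ε / 2) * s := by
        have : 0 < ρ * s * (ε / 2) := by positivity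
        nlinarith
      linarith
    obtain ⟨F, hF⟩ := fin_sub hX hXs hρ α γ h1 h2 h3 ht
    have hi : ∀ i, e * H ≤ Vp l c ((α i + γ i) / 2) (M * (γ i - α i)) - m := by
      intro i
      obtain ⟨g1, g2, g3, g4⟩ := h1 i
      have hsi : 0 < γ i - α i := by linarith
      have := hP l c m H (α i) (γ i - α i) (X ∩ Ioo (α i) (γ i)) hl hsi hH
        (hX.inter measurableSet_Ioo) (fun x hx => ⟨hx.2.1.le, by
          have := hx.2.2; linarith⟩) (le_of_eq g4.symm)
        (fun x hx z y hy hyT hz => hL x hx.1 z y hy (lt_of_lt_of_le hyT (by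
          have : γ i - α i ≤ s := by linarith
          exact mul_le_mul_of_nonneg_left this (by linarith))) hz)
        (by filter_upwards [hae] with x hx hx2 using hx hx2.1)
      have e1 : α i + (γ i - α i) / 2 = (α i + γ i) / 2 := by ring
      rwa [e1] at this
    have hx : ∀ i, ∃ x, x ∈ X ∩ Ioo (α i) (γ i) := by
      intro i
      by_contra hne
      have hem : X ∩ Ioo (α i) (γ i) = ∅ := by
        rw [← not_nonempty_iff_eq_empty]
        exact hne
      have := (h1 i).2.2.2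
      rw [hem, measureReal_empty] at this
      have : 0 < ρ * (γ i - α i) := mul_pos hρ (by linarith [(h1 i).2.1])
      linarith
    choose x hx using hx
    have key := hCl l c m (e * H) a0 s F.card (fun i => α (F.equivFin.symm i))
      (fun i => γ (F.equivFin.symm i)) (fun i => x (F.equivFin.symm i)) hl hs
      (mul_nonneg he.le hH)
      (fun i => ⟨(h1 _).1, (h1 _).2.1, (h1 _).2.2.1, (hx _).2.1.le, (hx _).2.2.le⟩)
      (fun i j hij => h2 (fun h => hij (F.equivFin.symm.injective (Subtype.ext h))))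
      (by
        have : ∑ i : Fin F.card, (γ (F.equivFin.symm i) - α (F.equivFin.symm i)) =
            ∑ i ∈ F, (γ i - α i) := by
          rw [← Finset.sum_coe_sort F (fun i => γ i - α i)]
          exact Equiv.sum_comp F.equivFin.symm (fun i : F => γ i - α i)
        rw [this]
        exact hF)
      (by
        rintro y ⟨i, rfl⟩ z y hy hyT hz
        exact hL _ (hx _).1 z y hy hyT hz)
      (fun i => hi _)
    linarith [key, mul_assoc e2 e H]

end HM

open HM in
theorem stHM (hClA : StClA) (hRS : StRS) (hHM0 : StHM0) : StHM := by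
  intro a ha
  obtain ⟨M1, hM1, h1⟩ := hClA a ha
  obtain ⟨M2, hM2, h2⟩ := hHM0 a ha
  refine ⟨max M1 M2, le_max_of_le_left hM1, fun M hM δ hδ => ?_⟩
  have hMa : M1 ≤ M := (le_max_left _ _).trans hM
  have hMb : M2 ≤ M := (le_max_right _ _).trans hM
  have hM1' : 1 ≤ M := hM1.trans hMa
  obtain ⟨ε2, e2, hε2, hε2', he2, he2', h1⟩ := h1 M hMa
  obtain ⟨ε1, e1, hε1, hε1', he1, h2⟩ := h2 M hMb
  have hq0 : 0 < 1 - ε2 / 2 := by linarith
  have hq1 : 1 - ε2 / 2 < 1 := by linarith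
  have hit : ∀ n : ℕ, PP a M ((1 - ε1) * (1 - ε2 / 2) ^ n) := by
    intro n
    induction n with
    | zero =>
      rw [pow_zero, mul_one]
      exact ⟨e1, he1, h2⟩
    | succ n ih =>
      have hp : 0 < (1 - ε2 / 2) ^ n := pow_pos hq0 n
      have hp1 : (1 - ε2 / 2) ^ n ≤ 1 := pow_le_one₀ hq0.le hq1.le
      have := step hRS hM1' (ρ := (1 - ε1) * (1 - ε2 / 2) ^ n)
        (mul_pos (by linarith) hp) (by nlinarith) hε2 he2 he2' h1 ih
      rwa [mul_assoc, ← pow_succ] at this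
  obtain ⟨n, hn⟩ := exists_pow_lt_of_lt_one hδ hq1
  have hp : 0 < (1 - ε2 / 2) ^ n := pow_pos hq0 n
  have hle : (1 - ε1) * (1 - ε2 / 2) ^ n ≤ δ := by nlinarith
  exact PP_mono (hit n) hle

end Pool.Agent.Work.MP_055a27_an.Fn
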