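import Pool.Agent.Work.MP_055a27_an.Fn.Stmts
import Pool.Agent.Work.MP_055a27_an.Crit.TFUp

/-!
# The averages of a weight tend to the weight (item LimT)
-/

open MeasureTheory Set Filter Topology Complex Metric
open scoped ENNReal NNReal

namespace Pool.Agent.Work.MP_055a27_an.Fn

namespace LimT

/-- The primitive. -/
noncomputable def H (U : ℝ → ℝ) (x : ℝ) : ℝ := ∫ s in (0 : ℝ)..x, U s

lemma ii {U : ℝ → ℝ} (hU : IsWeight U) (a b : ℝ) : IntervalIntegrable U volume a b := by
  rw [intervalIntegrable_iff]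
  exact (hU.2.integrableOn_isCompact isCompact_uIcc).mono_set uIoc_subset_uIcc

lemma H_cont {U : ℝ → ℝ} (hU : IsWeight U) : Continuous (H U) :=
  intervalIntegral.continuous_primitive (fun a b => ii hU a b) 0

lemma H_sub {U : ℝ → ℝ} (hU : IsWeight U) {a b : ℝ} (hab : a ≤ b) :
    H U b - H U a = ∫ s in Icc a b, U s := by
  unfold H
  rw [intervalIntegral.integral_interval_sub_left (ii hU _ _) (ii hU _ _),
    intervalIntegral.integral_of_le hab, integral_Icc_eq_integral_Ioc]

lemma H_mono {U : ℝ → ℝ} (hU : IsWeight U) : Monotone (H U) := by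
  intro a b hab
  have h := H_sub hU hab
  have h2 : 0 ≤ ∫ s in Icc a b, U s := integral_nonneg fun x => hU.1 x
  linarith

lemma Uav_eq {U : ℝ → ℝ} (hU : IsWeight U) {t : ℝ} (ht : 0 < t) (x : ℝ) :
    Uav U t x = (H U x - H U (x - t)) / t := by
  rw [H_sub hU (by linarith)]
  rfl

lemma Uav_nonneg {U : ℝ → ℝ} (hU : IsWeight U) {t : ℝ} (ht : 0 < t) (x : ℝ) :
    0 ≤ Uav U t x := by
  rw [Uav_eq hU ht]
  have := H_mono hU (show x - t ≤ x by linarith)
  exact div_nonneg (by linarith) ht.le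

lemma Uav_cont {U : ℝ → ℝ} (hU : IsWeight U) {t : ℝ} (ht : 0 < t) : Continuous (Uav U t) := by
  have h : Uav U t = fun x => (H U x - H U (x - t)) / t := funext fun x => Uav_eq hU ht x
  rw [h]
  have := H_cont hU
  fun_prop

lemma Uav_int {U : ℝ → ℝ} (hU : IsWeight U) {t : ℝ} (ht : 0 < t) (a b : ℝ) :
    ∫ x in a..b, Uav U t x =
      ((∫ x in (b - t)..b, H U x) - ∫ x in (a - t)..a, H U x) / t := by
  have hc := H_cont hU
  have hii : ∀ c d : ℝ, IntervalIntegrable (H U) volume c d := fun c d =>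
    hc.intervalIntegrable c d
  have h1 : ∫ x in a..b, Uav U t x = (∫ x in a..b, (H U x - H U (x - t))) / t := by
    rw [← intervalIntegral.integral_div]
    apply intervalIntegral.integral_congr
    intro x _
    exact Uav_eq hU ht x
  have h3 : IntervalIntegrable (fun x => H U (x - t)) volume a b :=
    Continuous.intervalIntegrable (by fun_prop) a b
  rw [h1, intervalIntegral.integral_sub (hii _ _) h3]
  congr 1
  have h2 : ∫ x in a..b, H U (x - t) = ∫ x in (a - t)..(b - t), H U x :=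
    intervalIntegral.integral_comp_sub_right (fun x => H U x) t
  rw [h2, intervalIntegral.integral_interval_sub_interval_comm' (hii _ _) (hii _ _) (hii _ _)]

/-- Backward difference quotients. -/
lemma bdq {G : ℝ → ℝ} {G' x : ℝ} (h : HasDerivAt G G' x) :
    Tendsto (fun t : ℝ => (G x - G (x - t)) / t) (𝓝[>] 0) (𝓝 G') := by
  have h1 := h.tendsto_slope_zero_left
  have h2 : Tendsto (fun t : ℝ => -t) (𝓝[>] 0) (𝓝[<] 0) := by
    have := tendsto_neg_nhdsGT (a := (0 : ℝ))
    simpa using this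
  refine (h1.comp h2).congr' ?_
  filter_upwards [self_mem_nhdsWithin] with t ht
  simp only [Function.comp, smul_eq_mul]
  have ht' : (t : ℝ) ≠ 0 := ne_of_gt ht
  rw [← sub_eq_add_neg]
  field_simp
  ring

lemma Uav_int_tendsto {U : ℝ → ℝ} (hU : IsWeight U) (a b : ℝ) :
    Tendsto (fun t : ℝ => ∫ x in a..b, Uav U t x) (𝓝[>] 0) (𝓝 (∫ x in a..b, U x)) := by
  have hc := H_cont hU
  have hd : ∀ x : ℝ, HasDerivAt (fun u => ∫ s in (0 : ℝ)..u, H U s) (H U x) x := fun x =>
    intervalIntegral.integral_hasDerivAt_right (hc.intervalIntegrable _ _)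
      (hc.stronglyMeasurableAtFilter _ _) hc.continuousAt
  have h1 := (bdq (hd b)).sub (bdq (hd a))
  have h2 : H U b - H U a = ∫ x in a..b, U x :=
    intervalIntegral.integral_interval_sub_left (ii hU _ _) (ii hU _ _)
  rw [h2] at h1
  refine h1.congr' ?_
  filter_upwards [self_mem_nhdsWithin] with t ht
  have e2 : ∀ c : ℝ, (∫ s in (0 : ℝ)..c, H U s) - (∫ s in (0 : ℝ)..(c - t), H U s) =
      ∫ x in (c - t)..c, H U x := fun c =>
    intervalIntegral.integral_interval_sub_left (hc.intervalIntegrable _ _)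
      (hc.intervalIntegrable _ _)
  rw [Uav_int hU ht, e2, e2, sub_div]

lemma Uav_ae {U : ℝ → ℝ} (hU : IsWeight U) :
    ∀ᵐ x, Tendsto (fun t : ℝ => Uav U t x) (𝓝[>] 0) (𝓝 (U x)) := by
  filter_upwards [LocallyIntegrable.ae_hasDerivAt_integral hU.2] with x hx
  refine (bdq (hx 0)).congr' ?_
  filter_upwards [self_mem_nhdsWithin] with t ht
  rw [Uav_eq hU ht]
  rfl

lemma mass_le {U : ℝ → ℝ} (hU : IsWeight U) {t : ℝ} (ht : 0 < t) (ht1 : t ≤ 1) {a b : ℝ}
    (hab : a ≤ b) : ∫ x in a..b, Uav U t x ≤ ∫ x in Icc (a - 1) b, U x := by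
  have hc := H_cont hU
  have hm := H_mono hU
  rw [Uav_int hU ht, ← H_sub hU (show a - 1 ≤ b by linarith), div_le_iff₀ ht]
  have h1 : ∫ x in (b - t)..b, H U x ≤ ∫ x in (b - t)..b, H U b := by
    apply intervalIntegral.integral_mono_on (by linarith) (hc.intervalIntegrable _ _)
      (by simp)
    intro x hx
    exact hm hx.2
  have h2 : ∫ x in (a - t)..a, H U (a - 1) ≤ ∫ x in (a - t)..a, H U x := by
    apply intervalIntegral.integral_mono_on (by linarith) (by simp)
      (hc.intervalIntegrable _ _)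
    intro x hx
    exact hm (by linarith [hx.1])
  rw [intervalIntegral.integral_const, smul_eq_mul] at h1 h2
  nlinarith

/-- Convergence in `L^1` on compact intervals. -/
lemma L1loc {U : ℝ → ℝ} (hU : IsWeight U) {a b : ℝ} (hab : a ≤ b) :
    Tendsto (fun t : ℝ => ∫ x in Icc a b, |Uav U t x - U x|) (𝓝[>] 0) (𝓝 0) := by
  have hUi : IntegrableOn U (Icc a b) := hU.2.integrableOn_isCompact isCompact_Icc
  have h1 : Tendsto (fun t : ℝ => ∫ x in Icc a b, min (Uav U t x) (U x)) (𝓝[>] 0)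
      (𝓝 (∫ x in Icc a b, U x)) := by
    apply tendsto_integral_filter_of_dominated_convergence U
    · filter_upwards [self_mem_nhdsWithin] with t ht
      exact ((Uav_cont hU ht).aestronglyMeasurable.aemeasurable.min
        hUi.aestronglyMeasurable.aemeasurable).aestronglyMeasurable
    · filter_upwards [self_mem_nhdsWithin] with t ht
      refine Eventually.of_forall fun x => ?_
      rw [Real.norm_eq_abs, abs_of_nonneg (le_min (Uav_nonneg hU ht x) (hU.1 x))]
      exact min_le_right _ _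
    · exact hUi
    · filter_upwards [ae_restrict_of_ae (Uav_ae hU)] with x hx
      have := hx.min (tendsto_const_nhds (x := U x))
      simpa using this
  have h2 := Uav_int_tendsto hU a b
  have e1 : ∀ f : ℝ → ℝ, ∫ x in a..b, f x = ∫ x in Icc a b, f x := fun f => by
    rw [intervalIntegral.integral_of_le hab, integral_Icc_eq_integral_Ioc]
  simp only [e1] at h2
  have h3 := (h2.add (tendsto_const_nhds (x := ∫ x in Icc a b, U x))).sub (h1.const_mul 2)
  have h4 : (∫ x in Icc a b, U x) + (∫ x in Icc a b, U x) - 2 * (∫ x in Icc a b, U x) = 0 := by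
    ring
  rw [h4] at h3
  refine h3.congr' ?_
  filter_upwards [self_mem_nhdsWithin] with t ht
  have hui : IntegrableOn (Uav U t) (Icc a b) :=
    (Uav_cont hU ht).continuousOn.integrableOn_compact isCompact_Icc
  have hmi : IntegrableOn (fun x => min (Uav U t x) (U x)) (Icc a b) := by
    refine hUi.mono' ((Uav_cont hU ht).aestronglyMeasurable.aemeasurable.min
        hUi.aestronglyMeasurable.aemeasurable).aestronglyMeasurable
      (Eventually.of_forall fun x => ?_)
    rw [Real.norm_eq_abs, abs_of_nonneg (le_min (Uav_nonneg hU ht x) (hU.1 x))]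
    exact min_le_right _ _
  have hs : IntegrableOn (fun x => Uav U t x + U x) (Icc a b) := hui.add hUi
  rw [← integral_add hui hUi, ← integral_const_mul, ← integral_sub hs (hmi.const_mul 2)]
  apply integral_congr_ae
  refine Eventually.of_forall fun x => ?_
  simp only
  rcases le_total (Uav U t x) (U x) with h | h
  · rw [min_eq_left h, abs_of_nonpos (by linarith)]
    ring
  · rw [min_eq_right h, abs_of_nonneg (by linarith)]
    ring

/-! ### Sums over the integers -/

lemma ker_le {k x t : ℝ} (h1 : k ≤ x) (h2 : x ≤ k + 1) :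
    1 / (1 + (k - t) ^ 2) ≤ 3 / (1 + (x - t) ^ 2) := by
  rw [div_le_div_iff₀ (by positivity) (by positivity)]
  nlinarith [sq_nonneg (x - t), sq_nonneg (k - t), sq_nonneg (x - k), sq_nonneg (k - t - (x - k))]

lemma ker_le' {k x : ℝ} (h1 : k ≤ x) (h2 : x ≤ k + 1) :
    1 / (1 + x ^ 2) ≤ 3 / (1 + k ^ 2) := by
  rw [div_le_div_iff₀ (by positivity) (by positivity)]
  nlinarith [sq_nonneg (x - (x - k)), sq_nonneg (x + (x - k)), sq_nonneg (x - k)]

lemma ker_int (t : ℝ) : ∫⁻ x : ℝ, ENNReal.ofReal (3 / (1 + (x - t) ^ 2)) =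
    ENNReal.ofReal (3 * Real.pi) := by
  have h1 : Integrable (fun x : ℝ => 3 / (1 + (x - t) ^ 2)) := by
    have := (integrable_inv_one_add_sq.comp_sub_right t).const_mul 3
    refine this.congr (Eventually.of_forall fun x => ?_)
    simp [div_eq_mul_inv]
  rw [← ofReal_integral_eq_lintegral_ofReal h1 (Eventually.of_forall fun x => by positivity)]
  congr 1
  have h2 : ∫ x : ℝ, 3 / (1 + (x - t) ^ 2) = ∫ x : ℝ, 3 / (1 + x ^ 2) :=
    integral_sub_right_eq_self (fun x : ℝ => 3 / (1 + x ^ 2)) t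
  rw [h2]
  have h3 : (fun x : ℝ => 3 / (1 + x ^ 2)) = fun x : ℝ => 3 * (1 + x ^ 2)⁻¹ := by
    funext x
    rw [div_eq_mul_inv]
  rw [h3, integral_const_mul, integral_univ_inv_one_add_sq]

lemma lint_split (g : ℝ → ℝ≥0∞) :
    ∫⁻ x : ℝ, g x = ∑' k : ℤ, ∫⁻ x in Ico (k : ℝ) (k + 1), g x := by
  have h := lintegral_iUnion (μ := volume) (s := fun k : ℤ => Ico (k : ℝ) (k + 1))
    (fun k => measurableSet_Ico) (Set.pairwise_disjoint_Ico_intCast ℝ) g
  rw [iUnion_Ico_intCast, setLIntegral_univ] at h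
  exact h

lemma sum_ker (t : ℝ) : ∑' k : ℤ, ENNReal.ofReal (1 / (1 + ((k : ℝ) - t) ^ 2)) ≤
    ENNReal.ofReal (3 * Real.pi) := by
  rw [← ker_int t, lint_split]
  refine ENNReal.tsum_le_tsum fun k => ?_
  have h : ∫⁻ x in Ico (k : ℝ) (k + 1), ENNReal.ofReal (1 / (1 + ((k : ℝ) - t) ^ 2)) =
      ENNReal.ofReal (1 / (1 + ((k : ℝ) - t) ^ 2)) := by
    rw [setLIntegral_const, Real.volume_Ico]
    simp
  rw [← h]
  refine setLIntegral_mono' measurableSet_Ico fun x hx => ?_
  exact ENNReal.ofReal_le_ofReal (ker_le hx.1 hx.2.le)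

lemma prod_ker (k t : ℝ) : 1 / (1 + k ^ 2) * (1 / (1 + (k - t) ^ 2)) ≤
    2 / (1 + t ^ 2) * (1 / (1 + (k - t) ^ 2) + 1 / (1 + k ^ 2)) := by
  have h1 : (0 : ℝ) < 1 + k ^ 2 := by positivity
  have h2 : (0 : ℝ) < 1 + (k - t) ^ 2 := by positivity
  have h3 : (0 : ℝ) < 1 + t ^ 2 := by positivity
  have e : 2 / (1 + t ^ 2) * (1 / (1 + (k - t) ^ 2) + 1 / (1 + k ^ 2)) =
      (2 * (1 + k ^ 2) + 2 * (1 + (k - t) ^ 2)) / (1 + t ^ 2) *
        (1 / (1 + k ^ 2) * (1 / (1 + (k - t) ^ 2))) := by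
    field_simp
  rw [e]
  refine le_mul_of_one_le_left (by positivity) ?_
  rw [one_le_div h3]
  nlinarith [sq_nonneg (2 * k - t)]

lemma sum_pois {ρ : ℝ → ℝ} (hρ : Admissible ρ) (h0 : ∀ t, 0 ≤ ρ t) :
    ∑' k : ℤ, ENNReal.ofReal (1 / (1 + (k : ℝ) ^ 2) * poisson ρ k 1) < ∞ := by
  have hm : AEStronglyMeasurable ρ volume := adm_measurable hρ
  have h1 : ∀ k : ℤ, ENNReal.ofReal (1 / (1 + (k : ℝ) ^ 2) * poisson ρ k 1) ≤
      ∫⁻ t : ℝ, ENNReal.ofReal (ρ t) *
        ENNReal.ofReal (1 / (1 + (k : ℝ) ^ 2) * (1 / (1 + ((k : ℝ) - t) ^ 2))) := by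
    intro k
    rw [poisson_eq_integral]
    have hp : 1 / Real.pi ≤ 1 := by
      rw [div_le_one Real.pi_pos]
      linarith [Real.pi_gt_three]
    have hi : 0 ≤ ∫ t : ℝ, 1 * ρ t / (((k : ℝ) - t) ^ 2 + 1 ^ 2) :=
      integral_nonneg fun t => by
        have := h0 t
        positivity
    calc ENNReal.ofReal (1 / (1 + (k : ℝ) ^ 2) *
          ((1 / Real.pi) * ∫ t : ℝ, 1 * ρ t / (((k : ℝ) - t) ^ 2 + 1 ^ 2)))
        ≤ ENNReal.ofReal (1 / (1 + (k : ℝ) ^ 2) *
          ∫ t : ℝ, 1 * ρ t / (((k : ℝ) - t) ^ 2 + 1 ^ 2)) := by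
          apply ENNReal.ofReal_le_ofReal
          apply mul_le_mul_of_nonneg_left _ (by positivity)
          exact mul_le_of_le_one_left hi hp
      _ = ENNReal.ofReal (∫ t : ℝ, ρ t *
          (1 / (1 + (k : ℝ) ^ 2) * (1 / (1 + ((k : ℝ) - t) ^ 2)))) := by
          congr 1
          rw [← integral_const_mul]
          apply integral_congr_ae
          refine Eventually.of_forall fun t => ?_
          simp only
          rw [one_pow, add_comm (((k : ℝ) - t) ^ 2) 1]
          field_simp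
      _ ≤ _ := by
          rw [integral_eq_lintegral_of_nonneg_ae
            (Eventually.of_forall fun t => mul_nonneg (h0 t) (by positivity))
            (hm.mul (Measurable.aestronglyMeasurable (by fun_prop)))]
          refine ENNReal.ofReal_toReal_le.trans ?_
          refine lintegral_mono fun t => ?_
          simp only
          rw [ENNReal.ofReal_mul (h0 t)]
  have h2 : ∀ k : ℤ, AEMeasurable (fun t : ℝ => ENNReal.ofReal (ρ t) *
        ENNReal.ofReal (1 / (1 + (k : ℝ) ^ 2) * (1 / (1 + ((k : ℝ) - t) ^ 2)))) volume := by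
    intro k
    refine hm.aemeasurable.ennreal_ofReal.mul (Measurable.aemeasurable ?_)
    exact Measurable.ennreal_ofReal (by fun_prop)
  refine lt_of_le_of_lt (ENNReal.tsum_le_tsum h1) ?_
  rw [← lintegral_tsum h2]
  have h3 : ∀ t : ℝ, ∑' k : ℤ, ENNReal.ofReal (ρ t) *
        ENNReal.ofReal (1 / (1 + (k : ℝ) ^ 2) * (1 / (1 + ((k : ℝ) - t) ^ 2))) ≤
      ENNReal.ofReal (ρ t / (1 + t ^ 2)) * (2 * (ENNReal.ofReal (3 * Real.pi) +
        ENNReal.ofReal (3 * Real.pi))) := by
    intro t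
    rw [ENNReal.tsum_mul_left, div_eq_mul_one_div, ENNReal.ofReal_mul (h0 t), mul_assoc]
    gcongr
    have h4 : ∀ k : ℤ, ENNReal.ofReal (1 / (1 + (k : ℝ) ^ 2) * (1 / (1 + ((k : ℝ) - t) ^ 2))) ≤
        ENNReal.ofReal (1 / (1 + t ^ 2)) * (2 * (ENNReal.ofReal (1 / (1 + ((k : ℝ) - t) ^ 2)) +
          ENNReal.ofReal (1 / (1 + ((k : ℝ) - 0) ^ 2)))) := by
      intro k
      have h5 := prod_ker (k : ℝ) t
      refine (ENNReal.ofReal_le_ofReal h5).trans (le_of_eq ?_)
      rw [← ENNReal.ofReal_add (by positivity) (by positivity)]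
      rw [show (2 : ℝ≥0∞) = ENNReal.ofReal 2 by simp]
      rw [← ENNReal.ofReal_mul (by norm_num), ← ENNReal.ofReal_mul (by positivity)]
      congr 1
      rw [sub_zero]
      ring
    refine (ENNReal.tsum_le_tsum h4).trans ?_
    rw [ENNReal.tsum_mul_left, ENNReal.tsum_mul_left, ENNReal.tsum_add]
    gcongr
    · exact sum_ker t
    · exact sum_ker 0
  refine lt_of_le_of_lt (lintegral_mono h3) ?_
  have hfin : ∫⁻ t : ℝ, ENNReal.ofReal (ρ t / (1 + t ^ 2)) < ∞ := by
    have h6 : Integrable (fun t : ℝ => ρ t / (1 + t ^ 2)) := hρ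
    exact h6.lintegral_lt_top
  rw [lintegral_mul_const' _ _ (by finiteness)]
  exact ENNReal.mul_lt_top hfin (by finiteness)

/-! ### Logarithms -/

lemma log_one_add_le {u m : ℝ} (hu : 0 ≤ u) (hm : 0 ≤ m) :
    Real.log (1 + u) ≤ Real.log (1 + m) + (u - m) / (1 + m) := by
  have h1 : 0 < 1 + m := by linarith
  have h2 : 0 < 1 + u := by linarith
  have h3 := Real.log_le_sub_one_of_pos (div_pos h2 h1)
  rw [Real.log_div h2.ne' h1.ne'] at h3
  have h4 : (1 + u) / (1 + m) - 1 = (u - m) / (1 + m) := by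
    field_simp
    ring
  linarith

lemma jensen {h : ℝ → ℝ} (h0 : ∀ x, 0 ≤ h x) {θ : ℝ} (hθ : 0 < θ) (k : ℝ)
    (hi : IntegrableOn h (Ico k (k + 1))) :
    ∫⁻ x in Ico k (k + 1), ENNReal.ofReal (Real.log (1 + h x / θ)) ≤
      ENNReal.ofReal (Real.log (1 + (∫ x in Ico k (k + 1), h x) / θ)) := by
  set m : ℝ := (∫ x in Ico k (k + 1), h x) / θ with hm
  have hm0 : 0 ≤ m := div_nonneg (integral_nonneg fun x => h0 x) hθ.le
  have hu0 : ∀ x, 0 ≤ h x / θ := fun x => div_nonneg (h0 x) hθ.le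
  have hui : IntegrableOn (fun x => h x / θ) (Ico k (k + 1)) := hi.div_const θ
  have hli : IntegrableOn (fun x => Real.log (1 + h x / θ)) (Ico k (k + 1)) := by
    refine hui.mono' ?_ (Eventually.of_forall fun x => ?_)
    · exact (Real.measurable_log.comp_aemeasurable
        (hui.aestronglyMeasurable.aemeasurable.const_add 1)).aestronglyMeasurable
    · rw [Real.norm_eq_abs, abs_of_nonneg (Real.log_nonneg (by linarith [hu0 x]))]
      have := Real.log_le_sub_one_of_pos (show 0 < 1 + h x / θ by linarith [hu0 x])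
      linarith
  rw [← ofReal_integral_eq_lintegral_ofReal hli
    (Eventually.of_forall fun x => Real.log_nonneg (by linarith [hu0 x]))]
  apply ENNReal.ofReal_le_ofReal
  have hvol : volume.real (Ico k (k + 1)) = 1 := by simp [Measure.real]
  have hci : IntegrableOn (fun _ : ℝ => Real.log (1 + m)) (Ico k (k + 1)) :=
    integrableOn_const (by simp)
  have hcm : IntegrableOn (fun _ : ℝ => m) (Ico k (k + 1)) :=
    integrableOn_const (by simp)
  calc ∫ x in Ico k (k + 1), Real.log (1 + h x / θ)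
      ≤ ∫ x in Ico k (k + 1), (Real.log (1 + m) + (h x / θ - m) / (1 + m)) := by
        refine integral_mono hli (hci.add ((hui.sub hcm).div_const _)) fun x => ?_
        exact log_one_add_le (hu0 x) hm0
    _ = Real.log (1 + m) := by
        have e1 : ∫ x in Ico k (k + 1), (h x / θ - m) / (1 + m) = 0 := by
          rw [integral_div, integral_sub hui hcm, integral_div, setIntegral_const, hvol]
          simp [hm]
        have hs : IntegrableOn (fun x => (h x / θ - m) / (1 + m)) (Ico k (k + 1)) :=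
          (hui.sub hcm).div_const _
        rw [integral_add hci hs, e1, setIntegral_const, hvol]
        simp

lemma logint {h : ℝ → ℝ} (h0 : ∀ x, 0 ≤ h x) {θ : ℝ} (hθ : 0 < θ)
    (hi : ∀ k : ℤ, IntegrableOn h (Ico (k : ℝ) (k + 1))) (S : ℤ → ℝ)
    (hS : ∀ k : ℤ, ∫ x in Ico (k : ℝ) (k + 1), h x ≤ S k) :
    ∫⁻ x, ENNReal.ofReal (Real.log (1 + h x / θ) / (1 + x ^ 2)) ≤
      ∑' k : ℤ, ENNReal.ofReal (3 / (1 + (k : ℝ) ^ 2) * Real.log (1 + S k / θ)) := by
  rw [lint_split]
  refine ENNReal.tsum_le_tsum fun k => ?_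
  have hl0 : ∀ x, 0 ≤ Real.log (1 + h x / θ) := fun x =>
    Real.log_nonneg (by linarith [div_nonneg (h0 x) hθ.le])
  have hI0 : 0 ≤ ∫ x in Ico (k : ℝ) (k + 1), h x := integral_nonneg fun x => h0 x
  calc ∫⁻ x in Ico (k : ℝ) (k + 1), ENNReal.ofReal (Real.log (1 + h x / θ) / (1 + x ^ 2))
      ≤ ∫⁻ x in Ico (k : ℝ) (k + 1), ENNReal.ofReal (3 / (1 + (k : ℝ) ^ 2)) *
          ENNReal.ofReal (Real.log (1 + h x / θ)) := by
        refine setLIntegral_mono' measurableSet_Ico fun x hx => ?_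
        rw [← ENNReal.ofReal_mul (by positivity)]
        apply ENNReal.ofReal_le_ofReal
        rw [div_eq_mul_one_div, mul_comm]
        exact mul_le_mul_of_nonneg_right (ker_le' hx.1 hx.2.le) (hl0 x)
    _ = ENNReal.ofReal (3 / (1 + (k : ℝ) ^ 2)) *
          ∫⁻ x in Ico (k : ℝ) (k + 1), ENNReal.ofReal (Real.log (1 + h x / θ)) :=
        lintegral_const_mul' _ _ ENNReal.ofReal_ne_top
    _ ≤ ENNReal.ofReal (3 / (1 + (k : ℝ) ^ 2)) *
          ENNReal.ofReal (Real.log (1 + S k / θ)) := by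
        gcongr
        refine (jensen h0 hθ k (hi k)).trans ?_
        apply ENNReal.ofReal_le_ofReal
        apply Real.log_le_log
        · have := div_nonneg hI0 hθ.le
          linarith
        · have := div_le_div_of_nonneg_right (hS k) hθ.le
          linarith
    _ = _ := by rw [← ENNReal.ofReal_mul (by positivity)]

/-- The masses. -/
noncomputable def MM (U : ℝ → ℝ) (k : ℤ) : ℝ := ∫ x in Icc ((k : ℝ) - 1) (k + 1), U x

lemma MM_nonneg {U : ℝ → ℝ} (hU : IsWeight U) (k : ℤ) : 0 ≤ MM U k :=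
  integral_nonneg fun x => hU.1 x

lemma summ_const : ∑' k : ℤ, ENNReal.ofReal (1 / (1 + (k : ℝ) ^ 2)) < ∞ := by
  have := sum_ker 0
  simp only [sub_zero] at this
  exact this.trans_lt ENNReal.ofReal_lt_top

lemma summ {U : ℝ → ℝ} (hU : IsWeight U) (hN : NV U) {θ : ℝ} (hθ : 0 < θ) :
    Summable fun k : ℤ => 3 / (1 + (k : ℝ) ^ 2) * Real.log (1 + 2 * MM U k / θ) := by
  obtain ⟨ρ, c, hρ, hρ0, hc, hb⟩ := hN
  have hsummable : ∀ f : ℤ → ℝ, (∀ k, 0 ≤ f k) → ∑' k : ℤ, ENNReal.ofReal (f k) < ∞ →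
      Summable f := by
    intro f hf hs
    have := ENNReal.summable_toReal hs.ne
    refine this.congr fun k => ?_
    rw [ENNReal.toReal_ofReal (hf k)]
  have hP0 : ∀ k : ℤ, 0 ≤ poisson ρ k 1 := by
    intro k
    unfold poisson
    refine mul_nonneg (by positivity) (integral_nonneg fun x => ?_)
    have := hρ0 ((k : ℝ) - x)
    simp only [Pi.zero_apply]
    positivity
  have s1 : Summable fun k : ℤ => 1 / (1 + (k : ℝ) ^ 2) :=
    hsummable _ (fun k => by positivity) summ_const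
  have s2 : Summable fun k : ℤ => 1 / (1 + (k : ℝ) ^ 2) * poisson ρ k 1 :=
    hsummable _ (fun k => mul_nonneg (by positivity) (hP0 k)) (sum_pois hρ hρ0)
  have s3 := (s1.mul_left (3 * (Real.log (1 + 2 / θ) + c))).add (s2.mul_left 3)
  refine Summable.of_nonneg_of_le (fun k => ?_) (fun k => ?_) s3
  · have h1 : 0 ≤ 2 * MM U k / θ := div_nonneg (by linarith [MM_nonneg hU k]) hθ.le
    exact mul_nonneg (by positivity) (Real.log_nonneg (by linarith))
  · have h1 : 0 ≤ 2 * MM U k / θ := div_nonneg (by linarith [MM_nonneg hU k]) hθ.le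
    have h2 : MM U k ≤ Real.exp (poisson ρ k 1 + c) := by
      have := hb k 1 le_rfl
      unfold Vp at this
      rw [mul_one] at this
      exact this
    have h3 : (1 : ℝ) ≤ Real.exp (poisson ρ k 1 + c) :=
      Real.one_le_exp (by linarith [hP0 k])
    have h4 : 1 + 2 * MM U k / θ ≤ (1 + 2 / θ) * Real.exp (poisson ρ k 1 + c) := by
      have h5 : 2 * MM U k / θ = 2 / θ * MM U k := by ring
      have h6 : 2 / θ * MM U k ≤ 2 / θ * Real.exp (poisson ρ k 1 + c) :=
        mul_le_mul_of_nonneg_left h2 (by positivity)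
      rw [h5, add_mul]
      linarith
    have h7 : Real.log (1 + 2 * MM U k / θ) ≤ Real.log (1 + 2 / θ) + (poisson ρ k 1 + c) := by
      refine (Real.log_le_log (by linarith) h4).trans (le_of_eq ?_)
      rw [Real.log_mul (by positivity) (Real.exp_pos _).ne', Real.log_exp]
    have h8 : 3 / (1 + (k : ℝ) ^ 2) * Real.log (1 + 2 * MM U k / θ) ≤
        3 / (1 + (k : ℝ) ^ 2) * (Real.log (1 + 2 / θ) + (poisson ρ k 1 + c)) :=
      mul_le_mul_of_nonneg_left h7 (by positivity)
    refine h8.trans (le_of_eq ?_)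
    ring

/-- Admissibility from mass bounds. -/
lemma adm_log {U : ℝ → ℝ} (hU : IsWeight U) (hN : NV U) {θ : ℝ} (hθ : 0 < θ) {h : ℝ → ℝ}
    (h0 : ∀ x, 0 ≤ h x) (hm : AEStronglyMeasurable h volume)
    (hi : ∀ k : ℤ, IntegrableOn h (Ico (k : ℝ) (k + 1)))
    (hS : ∀ k : ℤ, ∫ x in Ico (k : ℝ) (k + 1), h x ≤ 2 * MM U k) :
    Admissible fun x => Real.log (1 + h x / θ) := by
  have hl0 : ∀ x, 0 ≤ Real.log (1 + h x / θ) := fun x =>
    Real.log_nonneg (by linarith [div_nonneg (h0 x) hθ.le])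
  have h1 := logint h0 hθ hi _ hS
  have h2 : ∑' k : ℤ, ENNReal.ofReal (3 / (1 + (k : ℝ) ^ 2) *
      Real.log (1 + 2 * MM U k / θ)) < ∞ := by
    rw [← ENNReal.ofReal_tsum_of_nonneg _ (summ hU hN hθ)]
    · exact ENNReal.ofReal_lt_top
    · intro k
      have h1 : 0 ≤ 2 * MM U k / θ := div_nonneg (by linarith [MM_nonneg hU k]) hθ.le
      exact mul_nonneg (by positivity) (Real.log_nonneg (by linarith))
  have hmeas : AEStronglyMeasurable (fun x => Real.log (1 + h x / θ) / (1 + x ^ 2)) volume := by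
    have e1 : AEMeasurable (fun x => Real.log (1 + h x / θ)) volume :=
      Real.measurable_log.comp_aemeasurable ((hm.aemeasurable.div_const θ).const_add 1)
    exact (e1.div (Measurable.aemeasurable (by fun_prop))).aestronglyMeasurable
  refine ⟨hmeas, ?_⟩
  rw [hasFiniteIntegral_iff_ofReal (Eventually.of_forall fun x =>
    div_nonneg (hl0 x) (by positivity))]
  exact h1.trans_lt h2

lemma lgm_diff {U V : ℝ → ℝ} {θ : ℝ} (hθ : 0 < θ) (x : ℝ) :
    |lgm U θ x - lgm V θ x| ≤ Real.log (1 + |U x - V x| / θ) := by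
  have key : ∀ u v : ℝ, Real.log (max u θ) - Real.log (max v θ) ≤
      Real.log (1 + |u - v| / θ) := by
    intro u v
    have hu : 0 < max u θ := lt_max_of_lt_right hθ
    have hv : 0 < max v θ := lt_max_of_lt_right hθ
    have hd : 0 ≤ |u - v| / θ := div_nonneg (abs_nonneg _) hθ.le
    have h1 : max u θ ≤ max v θ * (1 + |u - v| / θ) := by
      have h2 : max u θ ≤ max v θ + |u - v| := by
        apply max_le
        · have := le_abs_self (u - v)
          linarith [le_max_left v θ]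
        · linarith [le_max_right v θ, abs_nonneg (u - v)]
      have h3 : |u - v| ≤ max v θ * (|u - v| / θ) := by
        have h4 : θ * (|u - v| / θ) = |u - v| := by field_simp
        calc |u - v| = θ * (|u - v| / θ) := h4.symm
          _ ≤ _ := mul_le_mul_of_nonneg_right (le_max_right _ _) hd
      linarith
    have h5 := Real.log_le_log hu h1
    rw [Real.log_mul hv.ne' (by linarith)] at h5
    linarith
  rw [abs_le]
  constructor
  · have := key (V x) (U x)
    rw [abs_sub_comm] at this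
    unfold lgm
    linarith
  · exact key (U x) (V x)

lemma adm_lgm {U V : ℝ → ℝ} (hU : IsWeight U) (hN : NV U) {θ : ℝ} (hθ : 0 < θ)
    (h0 : ∀ x, 0 ≤ V x) (hm : AEStronglyMeasurable V volume)
    (hi : ∀ k : ℤ, IntegrableOn V (Ico (k : ℝ) (k + 1)))
    (hS : ∀ k : ℤ, ∫ x in Ico (k : ℝ) (k + 1), V x ≤ 2 * MM U k) :
    Admissible (lgm V θ) := by
  have h1 := adm_log hU hN hθ h0 hm hi hS
  have h2 : Integrable (fun x : ℝ => |Real.log θ| * (1 + x ^ 2)⁻¹) :=
    integrable_inv_one_add_sq.const_mul _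
  have h3 := h2.add h1
  refine h3.mono' ?_ (Eventually.of_forall fun x => ?_)
  · have e1 : AEMeasurable (lgm V θ) volume :=
      Real.measurable_log.comp_aemeasurable (hm.aemeasurable.max aemeasurable_const)
    exact (e1.div (Measurable.aemeasurable (by fun_prop))).aestronglyMeasurable
  · have h4 := lgm_diff (U := V) (V := fun _ => 0) hθ x
    have h5 : lgm (fun _ => 0) θ x = Real.log θ := by
      unfold lgm
      rw [max_eq_right hθ.le]
    rw [h5, sub_zero, abs_of_nonneg (h0 x)] at h4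
    have h6 : |lgm V θ x| ≤ |Real.log θ| + Real.log (1 + V x / θ) := by
      have := abs_sub_abs_le_abs_sub (lgm V θ x) (Real.log θ)
      linarith
    rw [Real.norm_eq_abs, abs_div, abs_of_pos (show (0 : ℝ) < 1 + x ^ 2 by positivity)]
    simp only [Pi.add_apply]
    rw [← div_eq_mul_inv, ← add_div]
    exact div_le_div_of_nonneg_right h6 (by positivity)

/-- Comparison of Poisson integrals. -/
lemma pois_diff {f g h : ℝ → ℝ} (hf : Admissible f) (hg : Admissible g) (hh : Admissible h)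
    (hfg : ∀ x, |f x - g x| ≤ h x) {z y : ℝ} (hy : 0 < y) :
    |poisson f z y - poisson g z y| ≤
      y * (2 + (1 + 2 * z ^ 2) / y ^ 2) * ∫ x, h x / (1 + x ^ 2) := by
  have h1 := Crit.TFUp.integrable_pois hf (z := z) hy
  have h2 := Crit.TFUp.integrable_pois hg (z := z) hy
  have hh0 : ∀ x, 0 ≤ h x := fun x => (abs_nonneg _).trans (hfg x)
  rw [poisson_eq_integral, poisson_eq_integral, ← mul_sub, ← integral_sub h1 h2, abs_mul,
    abs_of_pos (show 0 < 1 / Real.pi by positivity), ← integral_const_mul]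
  have hp : 1 / Real.pi ≤ 1 := by
    rw [div_le_one Real.pi_pos]
    linarith [Real.pi_gt_three]
  refine (mul_le_of_le_one_left (abs_nonneg _) hp).trans ?_
  refine (abs_integral_le_integral_abs).trans ?_
  refine integral_mono (h1.sub h2).abs (Integrable.const_mul hh _) fun t => ?_
  have h3 : 0 < (z - t) ^ 2 + y ^ 2 := by positivity
  simp only
  rw [← sub_div, ← mul_sub, abs_div, abs_mul, abs_of_pos hy, abs_of_pos h3]
  have h4 : 1 / ((z - t) ^ 2 + y ^ 2) ≤ (2 + (1 + 2 * z ^ 2) / y ^ 2) * (1 / (1 + t ^ 2)) := by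
    rw [mul_one_div, div_le_div_iff₀ h3 (by positivity), one_mul]
    have h5 : (2 + (1 + 2 * z ^ 2) / y ^ 2) * ((z - t) ^ 2 + y ^ 2) =
        2 * ((z - t) ^ 2 + y ^ 2) + (1 + 2 * z ^ 2) + (1 + 2 * z ^ 2) / y ^ 2 * (z - t) ^ 2 := by
      field_simp
      ring
    rw [h5]
    have h6 : 0 ≤ (1 + 2 * z ^ 2) / y ^ 2 * (z - t) ^ 2 := by positivity
    nlinarith [sq_nonneg (z - t - z), sq_nonneg (2 * z - t)]
  calc y * |f t - g t| / ((z - t) ^ 2 + y ^ 2)
      = y * |f t - g t| * (1 / ((z - t) ^ 2 + y ^ 2)) := by ring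
    _ ≤ y * h t * ((2 + (1 + 2 * z ^ 2) / y ^ 2) * (1 / (1 + t ^ 2))) := by
        have := hfg t
        have h7 : 0 ≤ 1 / ((z - t) ^ 2 + y ^ 2) := by positivity
        have h8 : 0 ≤ y * h t := mul_nonneg hy.le (hh0 t)
        exact mul_le_mul (mul_le_mul_of_nonneg_left this hy.le) h4 h7 h8
    _ = _ := by ring

lemma dInt {U : ℝ → ℝ} (hU : IsWeight U) {t : ℝ} (ht : 0 < t) (a b : ℝ) :
    IntegrableOn (fun x => |Uav U t x - U x|) (Ico a b) := by
  have h1 : IntegrableOn (Uav U t) (Icc a b) :=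
    (Uav_cont hU ht).continuousOn.integrableOn_compact isCompact_Icc
  have h2 : IntegrableOn U (Icc a b) := hU.2.integrableOn_isCompact isCompact_Icc
  have h3 : IntegrableOn (fun x => |Uav U t x - U x|) (Icc a b) := (h1.sub h2).abs
  exact h3.mono_set Ico_subset_Icc_self

lemma ico_eq (f : ℝ → ℝ) (k : ℤ) :
    ∫ x in Ico (k : ℝ) (k + 1), f x = ∫ x in (k : ℝ)..(k + 1), f x := by
  rw [intervalIntegral.integral_of_le (by linarith), integral_Ico_eq_integral_Ioo,
    integral_Ioc_eq_integral_Ioo]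

lemma U_mass {U : ℝ → ℝ} (hU : IsWeight U) (k : ℤ) :
    ∫ x in Ico (k : ℝ) (k + 1), U x ≤ MM U k := by
  unfold MM
  refine setIntegral_mono_set (hU.2.integrableOn_isCompact isCompact_Icc)
    (Eventually.of_forall fun x => hU.1 x) (LE.le.eventuallyLE ?_)
  intro x hx
  exact ⟨by linarith [hx.1], hx.2.le⟩

lemma Uav_mass {U : ℝ → ℝ} (hU : IsWeight U) {t : ℝ} (ht : 0 < t) (ht1 : t ≤ 1) (k : ℤ) :
    ∫ x in Ico (k : ℝ) (k + 1), Uav U t x ≤ MM U k := by
  rw [ico_eq]
  exact mass_le hU ht ht1 (by linarith)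

lemma D_mass {U : ℝ → ℝ} (hU : IsWeight U) {t : ℝ} (ht : 0 < t) (ht1 : t ≤ 1) (k : ℤ) :
    ∫ x in Ico (k : ℝ) (k + 1), |Uav U t x - U x| ≤ 2 * MM U k := by
  have h1 : IntegrableOn (Uav U t) (Ico (k : ℝ) (k + 1)) :=
    ((Uav_cont hU ht).continuousOn.integrableOn_compact isCompact_Icc).mono_set
      Ico_subset_Icc_self
  have h2 : IntegrableOn U (Ico (k : ℝ) (k + 1)) :=
    (hU.2.integrableOn_isCompact isCompact_Icc).mono_set Ico_subset_Icc_self
  calc ∫ x in Ico (k : ℝ) (k + 1), |Uav U t x - U x|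
      ≤ ∫ x in Ico (k : ℝ) (k + 1), (Uav U t x + U x) := by
        refine integral_mono (dInt hU ht _ _) (h1.add h2) fun x => ?_
        rw [abs_le]
        constructor <;> linarith [Uav_nonneg hU ht x, hU.1 x]
    _ = (∫ x in Ico (k : ℝ) (k + 1), Uav U t x) + ∫ x in Ico (k : ℝ) (k + 1), U x :=
        integral_add h1 h2
    _ ≤ _ := by linarith [U_mass hU k, Uav_mass hU ht ht1 k]

/-- The error sum tends to zero. -/
lemma sum_tendsto {U : ℝ → ℝ} (hU : IsWeight U) (hN : NV U) {θ : ℝ} (hθ : 0 < θ) :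
    Tendsto (fun t : ℝ => ∑' k : ℤ, 3 / (1 + (k : ℝ) ^ 2) *
      Real.log (1 + (∫ x in Ico (k : ℝ) (k + 1), |Uav U t x - U x|) / θ)) (𝓝[>] 0) (𝓝 0) := by
  have hpos : ∀ (t : ℝ) (k : ℤ), 0 ≤ (∫ x in Ico (k : ℝ) (k + 1), |Uav U t x - U x|) / θ :=
    fun t k => div_nonneg (integral_nonneg fun x => abs_nonneg _) hθ.le
  suffices hh : Tendsto (fun t : ℝ => ∑' k : ℤ, 3 / (1 + (k : ℝ) ^ 2) *
      Real.log (1 + (∫ x in Ico (k : ℝ) (k + 1), |Uav U t x - U x|) / θ)) (𝓝[>] 0)
      (𝓝 (∑' _ : ℤ, (0 : ℝ))) by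
    rw [tsum_zero] at hh
    exact hh
  refine tendsto_tsum_of_dominated_convergence (summ hU hN hθ) (fun k => ?_) ?_
  · have h1 := L1loc hU (show (k : ℝ) ≤ k + 1 by linarith)
    have h2 : Tendsto (fun t : ℝ => ∫ x in Ico (k : ℝ) (k + 1), |Uav U t x - U x|)
        (𝓝[>] 0) (𝓝 0) := by
      refine h1.congr fun t => ?_
      rw [integral_Icc_eq_integral_Ioo, integral_Ico_eq_integral_Ioo]
    have h3 : Tendsto (fun t : ℝ => 1 + (∫ x in Ico (k : ℝ) (k + 1), |Uav U t x - U x|) / θ)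
        (𝓝[>] 0) (𝓝 1) := by
      have := (h2.div_const θ).const_add 1
      simpa using this
    have h4 := ((Real.continuousAt_log (show (1 : ℝ) ≠ 0 by norm_num)).tendsto.comp h3).const_mul
      (3 / (1 + (k : ℝ) ^ 2))
    rw [Real.log_one, mul_zero] at h4
    exact h4
  · have h5 : ∀ᶠ t : ℝ in 𝓝[>] 0, t ≤ 1 :=
      mem_nhdsWithin_of_mem_nhds (Iic_mem_nhds (by norm_num))
    filter_upwards [self_mem_nhdsWithin, h5] with t ht ht1
    intro k
    have hp := hpos t k
    rw [Real.norm_eq_abs, abs_of_nonneg (mul_nonneg (by positivity)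
      (Real.log_nonneg (by linarith)))]
    refine mul_le_mul_of_nonneg_left ?_ (by positivity)
    apply Real.log_le_log (by linarith)
    have := div_le_div_of_nonneg_right (D_mass hU ht ht1 k) hθ.le
    linarith

/-- The integral of the error is at most the error sum. -/
lemma err_le {U : ℝ → ℝ} (hU : IsWeight U) (hN : NV U) {θ : ℝ} (hθ : 0 < θ) {t : ℝ}
    (ht : 0 < t) (ht1 : t ≤ 1) :
    ∫ x, Real.log (1 + |Uav U t x - U x| / θ) / (1 + x ^ 2) ≤
      ∑' k : ℤ, 3 / (1 + (k : ℝ) ^ 2) *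
        Real.log (1 + (∫ x in Ico (k : ℝ) (k + 1), |Uav U t x - U x|) / θ) := by
  have hl0 : ∀ x, 0 ≤ Real.log (1 + |Uav U t x - U x| / θ) := fun x =>
    Real.log_nonneg (by linarith [div_nonneg (abs_nonneg (Uav U t x - U x)) hθ.le])
  have hs0 : ∀ k : ℤ, 0 ≤ 3 / (1 + (k : ℝ) ^ 2) *
      Real.log (1 + (∫ x in Ico (k : ℝ) (k + 1), |Uav U t x - U x|) / θ) := by
    intro k
    have : 0 ≤ (∫ x in Ico (k : ℝ) (k + 1), |Uav U t x - U x|) / θ :=
      div_nonneg (integral_nonneg fun x => abs_nonneg _) hθ.le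
    exact mul_nonneg (by positivity) (Real.log_nonneg (by linarith))
  have hsum : Summable fun k : ℤ => 3 / (1 + (k : ℝ) ^ 2) *
      Real.log (1 + (∫ x in Ico (k : ℝ) (k + 1), |Uav U t x - U x|) / θ) := by
    refine Summable.of_nonneg_of_le hs0 (fun k => ?_) (summ hU hN hθ)
    refine mul_le_mul_of_nonneg_left ?_ (by positivity)
    have hp : 0 ≤ (∫ x in Ico (k : ℝ) (k + 1), |Uav U t x - U x|) / θ :=
      div_nonneg (integral_nonneg fun x => abs_nonneg _) hθ.le
    apply Real.log_le_log (by linarith)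
    have := div_le_div_of_nonneg_right (D_mass hU ht ht1 k) hθ.le
    linarith
  have h1 := logint (h := fun x => |Uav U t x - U x|) (fun x => abs_nonneg _) hθ
    (fun k => dInt hU ht _ _) _ (fun k => le_rfl)
  rw [← ENNReal.ofReal_tsum_of_nonneg hs0 hsum] at h1
  have hm : AEStronglyMeasurable (fun x => Real.log (1 + |Uav U t x - U x| / θ) / (1 + x ^ 2))
      volume := by
    have e0 : AEMeasurable (fun x => |Uav U t x - U x|) volume :=
      continuous_abs.measurable.comp_aemeasurable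
        ((Uav_cont hU ht).aemeasurable.sub (weight_aemeas hU))
    have e1 : AEMeasurable (fun x => Real.log (1 + |Uav U t x - U x| / θ)) volume :=
      Real.measurable_log.comp_aemeasurable ((e0.div_const θ).const_add 1)
    exact (e1.div (Measurable.aemeasurable (by fun_prop))).aestronglyMeasurable
  rw [integral_eq_lintegral_of_nonneg_ae (Eventually.of_forall fun x =>
    div_nonneg (hl0 x) (by positivity)) hm]
  refine ENNReal.toReal_le_of_le_ofReal (tsum_nonneg hs0) h1

end LimT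

open LimT in
theorem stLimT : StLimT := by
  intro U μ K θ hU hN hμ hK hθ _ h z y hy
  have hUm : AEStronglyMeasurable U volume := hU.2.aestronglyMeasurable
  have hUi : ∀ k : ℤ, IntegrableOn U (Ico (k : ℝ) (k + 1)) := fun k =>
    (hU.2.integrableOn_isCompact isCompact_Icc).mono_set Ico_subset_Icc_self
  have hA0 : Admissible (lgm U θ) :=
    adm_lgm hU hN hθ hU.1 hUm hUi fun k => by linarith [U_mass hU k, MM_nonneg hU k]
  have h5 : ∀ᶠ t : ℝ in 𝓝[>] 0, t ≤ 1 :=
    mem_nhdsWithin_of_mem_nhds (Iic_mem_nhds (by norm_num))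
  have hP : Tendsto (fun t : ℝ => poisson (lgm (Uav U t) θ) z y) (𝓝[>] 0)
      (𝓝 (poisson (lgm U θ) z y)) := by
    rw [tendsto_iff_norm_sub_tendsto_zero]
    have h6 := (sum_tendsto hU hN hθ).const_mul (y * (2 + (1 + 2 * z ^ 2) / y ^ 2))
    rw [mul_zero] at h6
    refine squeeze_zero' (Eventually.of_forall fun t => norm_nonneg _) ?_ h6
    filter_upwards [self_mem_nhdsWithin, h5] with t ht ht1
    have ht0 : (0 : ℝ) < t := ht
    have hc := Uav_cont hU ht0
    have hci : ∀ k : ℤ, IntegrableOn (Uav U t) (Ico (k : ℝ) (k + 1)) := fun k =>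
      (hc.continuousOn.integrableOn_compact isCompact_Icc).mono_set Ico_subset_Icc_self
    have hA1 : Admissible (lgm (Uav U t) θ) :=
      adm_lgm hU hN hθ (Uav_nonneg hU ht0) hc.aestronglyMeasurable hci fun k => by
        linarith [Uav_mass hU ht0 ht1 k, MM_nonneg hU k]
    have e0 : AEMeasurable (fun x => |Uav U t x - U x|) volume :=
      continuous_abs.measurable.comp_aemeasurable
        (hc.aemeasurable.sub (weight_aemeas hU))
    have hA2 : Admissible fun x => Real.log (1 + |Uav U t x - U x| / θ) :=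
      adm_log hU hN hθ (fun x => abs_nonneg _) e0.aestronglyMeasurable
        (fun k => dInt hU ht0 _ _) (D_mass hU ht0 ht1)
    rw [Real.norm_eq_abs]
    refine (pois_diff hA1 hA0 hA2 (fun x => lgm_diff hθ x) hy).trans ?_
    exact mul_le_mul_of_nonneg_left (err_le hU hN hθ ht0 ht1) (by positivity)
  have hL : Tendsto (fun t : ℝ => ∫ x in Icc (z - μ * y) (z + μ * y), Uav U t x) (𝓝[>] 0)
      (𝓝 (∫ x in Icc (z - μ * y) (z + μ * y), U x)) := by
    have hab : z - μ * y ≤ z + μ * y := by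
      have := mul_pos hμ hy
      linarith
    have e1 : ∀ f : ℝ → ℝ, ∫ x in (z - μ * y)..(z + μ * y), f x =
        ∫ x in Icc (z - μ * y) (z + μ * y), f x := fun f => by
      rw [intervalIntegral.integral_of_le hab, integral_Icc_eq_integral_Ioc]
    have := Uav_int_tendsto hU (z - μ * y) (z + μ * y)
    simp only [e1] at this
    exact this
  have hR : Tendsto (fun t : ℝ => K * (y * Real.exp (Vp (lgm (Uav U t) θ) 0 z y))) (𝓝[>] 0)
      (𝓝 (K * (y * Real.exp (Vp (lgm U θ) 0 z y)))) := by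
    unfold Vp
    exact (((Real.continuous_exp.tendsto _).comp (hP.add_const _)).const_mul y).const_mul K
  refine le_of_tendsto_of_tendsto hL hR ?_
  filter_upwards [self_mem_nhdsWithin, h5] with t ht ht1
  exact h t ht ht1 z y hy

end Pool.Agent.Work.MP_055a27_an.Fn
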