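import Pool.Agent.Work.MP_055a27_an.Fn.Stmts
import Pool.Agent.Work.MP_055a27_an.Crit.TFUp
import Pool.Agent.Work.MP_055a27_an.Schwarz
import Pool.Agent.Work.MP_055a27_an.WMeas

/-!
# Item LimTh: removal of the lower truncation
-/

set_option autoImplicit false

open MeasureTheory Set Filter Topology
open scoped ENNReal NNReal

namespace Pool.Agent.Work.MP_055a27_an.Fn

open Crit (lg)
open Cr3 (Wt Sh)

namespace LimTh

/-- The weight `1 / (1 + x ^ 2)`. -/
noncomputable def w (x : ℝ) : ℝ≥0∞ := ENNReal.ofReal (1 / (1 + x ^ 2))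

lemma measurable_w : Measurable w := by
  unfold w
  fun_prop

lemma lint_w : ∫⁻ x, w x < ∞ := by
  have h := integrable_inv_one_add_sq.lintegral_lt_top
  refine lt_of_le_of_lt (le_of_eq ?_) h
  refine lintegral_congr fun x => ?_
  simp [w]

lemma meas_ind : Measurable (fun q : ℝ × ℝ =>
    (Icc (q.1 - 1) (q.1 + 1)).indicator (1 : ℝ → ℝ≥0∞) q.2) := by
  have h : (fun q : ℝ × ℝ => (Icc (q.1 - 1) (q.1 + 1)).indicator (1 : ℝ → ℝ≥0∞) q.2) =
      {q : ℝ × ℝ | q.1 - 1 ≤ q.2 ∧ q.2 ≤ q.1 + 1}.indicator (1 : ℝ × ℝ → ℝ≥0∞) := by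
    funext q
    by_cases hq : q.1 - 1 ≤ q.2 ∧ q.2 ≤ q.1 + 1
    · rw [indicator_of_mem (show q.2 ∈ Icc (q.1 - 1) (q.1 + 1) from hq),
        indicator_of_mem (show q ∈ {q : ℝ × ℝ | q.1 - 1 ≤ q.2 ∧ q.2 ≤ q.1 + 1} from hq)]
      rfl
    · rw [indicator_of_notMem (show q.2 ∉ Icc (q.1 - 1) (q.1 + 1) from hq),
        indicator_of_notMem (show q ∉ {q : ℝ × ℝ | q.1 - 1 ≤ q.2 ∧ q.2 ≤ q.1 + 1} from hq)]
  rw [h]
  refine measurable_one.indicator ?_
  refine MeasurableSet.inter ?_ ?_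
  · exact measurableSet_le (measurable_fst.sub_const 1) measurable_snd
  · exact measurableSet_le measurable_snd (measurable_fst.add_const 1)

/-- the weight is comparable to its averages -/
lemma w_le (x : ℝ) : w x ≤ 3 * ∫⁻ k, w k * (Icc (k - 1) (k + 1)).indicator (1 : ℝ → ℝ≥0∞) x := by
  have h1 : ∀ k : ℝ, w k * (Icc (k - 1) (k + 1)).indicator (1 : ℝ → ℝ≥0∞) x =
      (Icc (x - 1) (x + 1)).indicator w k := by
    intro k
    by_cases hk : x ∈ Icc (k - 1) (k + 1)
    · have hk' : k ∈ Icc (x - 1) (x + 1) := ⟨by linarith [hk.2], by linarith [hk.1]⟩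
      rw [indicator_of_mem hk, indicator_of_mem hk']
      simp
    · have hk' : k ∉ Icc (x - 1) (x + 1) := fun h => hk ⟨by linarith [h.2], by linarith [h.1]⟩
      rw [indicator_of_notMem hk, indicator_of_notMem hk']
      simp
  simp_rw [h1]
  rw [lintegral_indicator measurableSet_Icc]
  have h2 : ∫⁻ _ in Icc (x - 1) (x + 1), ENNReal.ofReal (1 / 3) * w x ≤
      ∫⁻ k in Icc (x - 1) (x + 1), w k := by
    refine setLIntegral_mono measurable_w fun k hk => ?_
    unfold w
    rw [← ENNReal.ofReal_mul (by norm_num)]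
    refine ENNReal.ofReal_le_ofReal ?_
    rw [div_mul_div_comm, one_mul]
    refine one_div_le_one_div_of_le (by positivity) ?_
    have h3 : |k - x| ≤ 1 := abs_le.2 ⟨by linarith [hk.1], by linarith [hk.2]⟩
    have h4 : (k - x) ^ 2 ≤ 1 := by
      rw [← sq_abs]
      exact pow_le_one₀ (abs_nonneg _) h3
    nlinarith [sq_nonneg (k - 2 * x)]
  rw [setLIntegral_const, Real.volume_Icc] at h2
  have h5 : x + 1 - (x - 1) = 2 := by ring
  rw [h5] at h2
  refine le_trans ?_ (mul_le_mul_right h2 3)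
  have h6 : (3 : ℝ≥0∞) * (ENNReal.ofReal (1 / 3) * w x * ENNReal.ofReal 2) =
      ENNReal.ofReal 2 * w x := by
    have h7 : (3 : ℝ≥0∞) = ENNReal.ofReal 3 := by simp
    rw [h7]
    calc ENNReal.ofReal 3 * (ENNReal.ofReal (1 / 3) * w x * ENNReal.ofReal 2)
        = (ENNReal.ofReal 3 * ENNReal.ofReal (1 / 3)) * (ENNReal.ofReal 2 * w x) := by ring
      _ = ENNReal.ofReal 2 * w x := by
        rw [← ENNReal.ofReal_mul (by norm_num)]
        norm_num
  rw [h6]
  have h8 : (1 : ℝ≥0∞) ≤ ENNReal.ofReal 2 := by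
    rw [← ENNReal.ofReal_one]
    exact ENNReal.ofReal_le_ofReal (by norm_num)
  calc w x = 1 * w x := (one_mul _).symm
    _ ≤ ENNReal.ofReal 2 * w x := mul_le_mul_left h8 _

/-- averages over windows -/
lemma win {g : ℝ → ℝ≥0∞} (hg : AEMeasurable g volume) :
    ∫⁻ x, w x * g x ≤ 3 * ∫⁻ k, w k * ∫⁻ x in Icc (k - 1) (k + 1), g x := by
  have hm : AEMeasurable (Function.uncurry fun x k : ℝ =>
      w k * (Icc (k - 1) (k + 1)).indicator (1 : ℝ → ℝ≥0∞) x * g x) (volume.prod volume) := by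
    have h1 : Measurable (fun q : ℝ × ℝ =>
        w q.2 * (Icc (q.2 - 1) (q.2 + 1)).indicator (1 : ℝ → ℝ≥0∞) q.1) :=
      (measurable_w.comp measurable_snd).mul (meas_ind.comp measurable_swap)
    have h2 : AEMeasurable (fun q : ℝ × ℝ => g q.1) (volume.prod volume) :=
      hg.comp_quasiMeasurePreserving Measure.quasiMeasurePreserving_fst
    exact h1.aemeasurable.mul h2
  calc ∫⁻ x, w x * g x
      ≤ ∫⁻ x, 3 * ∫⁻ k, w k * (Icc (k - 1) (k + 1)).indicator (1 : ℝ → ℝ≥0∞) x * g x := by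
        refine lintegral_mono fun x => ?_
        refine (mul_le_mul_left (w_le x) (g x)).trans (le_of_eq ?_)
        rw [mul_assoc, lintegral_mul_const]
        exact measurable_w.mul (meas_ind.comp (measurable_id.prodMk measurable_const))
    _ = 3 * ∫⁻ x, ∫⁻ k, w k * (Icc (k - 1) (k + 1)).indicator (1 : ℝ → ℝ≥0∞) x * g x :=
        lintegral_const_mul' _ _ (by simp)
    _ = 3 * ∫⁻ k, ∫⁻ x, w k * (Icc (k - 1) (k + 1)).indicator (1 : ℝ → ℝ≥0∞) x * g x := by
        rw [lintegral_lintegral_swap hm]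
    _ = 3 * ∫⁻ k, w k * ∫⁻ x in Icc (k - 1) (k + 1), g x := by
        congr 1
        refine lintegral_congr fun k => ?_
        rw [← lintegral_indicator measurableSet_Icc, ← lintegral_const_mul' _ _
          (show w k ≠ ∞ from ENNReal.ofReal_ne_top)]
        refine lintegral_congr fun x => ?_
        by_cases hx : x ∈ Icc (k - 1) (k + 1)
        · rw [indicator_of_mem hx, indicator_of_mem hx]
          simp
        · rw [indicator_of_notMem hx, indicator_of_notMem hx]
          simp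

/-- the Jensen inequality on a window -/
lemma jen {U : ℝ → ℝ} (hU : IsWeight U) {k V : ℝ} (hV : 0 ≤ V)
    (h : ∫ t in Icc (k - 1) (k + 1), U t ≤ Real.exp V) :
    ∫⁻ x in Icc (k - 1) (k + 1), ENNReal.ofReal (Real.log (max (U x) 1)) ≤
      ENNReal.ofReal (2 * Real.log 2 + 2 * V) := by
  have hi : IntegrableOn U (Icc (k - 1) (k + 1)) volume :=
    hU.2.integrableOn_isCompact isCompact_Icc
  obtain ⟨m, hm⟩ : ∃ m, m = 2 * Real.exp V := ⟨_, rfl⟩
  have hm0 : 0 < m := by rw [hm]; positivity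
  have hlm : Real.log m = Real.log 2 + V := by
    rw [hm, Real.log_mul (by norm_num) (Real.exp_pos V).ne', Real.log_exp]
  have hpt : ∀ x, Real.log (max (U x) 1) ≤ (Real.log m - 1 + 1 / m) + U x * (1 / m) := by
    intro x
    have h0 : 0 < max (U x) 1 := lt_of_lt_of_le one_pos (le_max_right _ _)
    have h1 := Real.log_le_sub_one_of_pos (div_pos h0 hm0)
    rw [Real.log_div h0.ne' hm0.ne'] at h1
    have h2 : max (U x) 1 ≤ U x + 1 := max_le (by linarith) (by linarith [hU.1 x])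
    have h3 : max (U x) 1 / m ≤ (U x + 1) / m := div_le_div_of_nonneg_right h2 hm0.le
    have h4 : (U x + 1) / m = 1 / m + U x * (1 / m) := by ring
    linarith
  have hnn : ∀ x, 0 ≤ (Real.log m - 1 + 1 / m) + U x * (1 / m) := fun x =>
    (Real.log_nonneg (le_max_right _ _)).trans (hpt x)
  have hc : IntegrableOn (fun _ : ℝ => Real.log m - 1 + 1 / m) (Icc (k - 1) (k + 1)) volume :=
    integrableOn_const (by rw [Real.volume_Icc]; exact ENNReal.ofReal_ne_top)
  have hi2 : IntegrableOn (fun x => (Real.log m - 1 + 1 / m) + U x * (1 / m))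
      (Icc (k - 1) (k + 1)) volume := hc.add (hi.mul_const _)
  have h1 : ∫⁻ x in Icc (k - 1) (k + 1), ENNReal.ofReal (Real.log (max (U x) 1)) ≤
      ∫⁻ x in Icc (k - 1) (k + 1),
        ENNReal.ofReal ((Real.log m - 1 + 1 / m) + U x * (1 / m)) :=
    lintegral_mono fun x => ENNReal.ofReal_le_ofReal (hpt x)
  refine h1.trans ?_
  rw [← ofReal_integral_eq_lintegral_ofReal hi2 (Eventually.of_forall hnn)]
  refine ENNReal.ofReal_le_ofReal ?_
  rw [integral_add hc (hi.mul_const _), integral_mul_const, integral_const,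
    measureReal_restrict_apply_univ, Real.volume_real_Icc_of_le (by linarith), smul_eq_mul, hlm]
  have h5 : k + 1 - (k - 1) = 2 := by ring
  rw [h5]
  have h6 : (∫ t in Icc (k - 1) (k + 1), U t) * (1 / m) ≤ 1 / 2 := by
    calc (∫ t in Icc (k - 1) (k + 1), U t) * (1 / m) ≤ Real.exp V * (1 / m) :=
          mul_le_mul_of_nonneg_right h (by positivity)
      _ = 1 / 2 := by
        rw [hm]
        have := (Real.exp_pos V).ne'
        field_simp
  have h7 : 1 / m ≤ 1 / 2 := by
    refine one_div_le_one_div_of_le (by norm_num) ?_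
    rw [hm]
    linarith [Real.one_le_exp hV]
  linarith

lemma prod_le (k t : ℝ) : (1 / (1 + k ^ 2)) * (1 / ((k - t) ^ 2 + 1 ^ 2)) ≤
    (1 / (1 + t ^ 2)) * (2 * (1 + k ^ 2)⁻¹ + 2 * (1 + (k - t) ^ 2)⁻¹) := by
  have h1 : 0 < 1 + k ^ 2 := by positivity
  have h2 : 0 < (k - t) ^ 2 + 1 ^ 2 := by positivity
  have h3 : 0 < 1 + t ^ 2 := by positivity
  have h4 : (1 + t ^ 2) ≤ 2 * (1 + (k - t) ^ 2) + 2 * (1 + k ^ 2) := by
    nlinarith [sq_nonneg (t - 2 * k)]
  have h5 : 2 * (1 + k ^ 2)⁻¹ + 2 * (1 + (k - t) ^ 2)⁻¹ =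
      (2 * (1 + (k - t) ^ 2) + 2 * (1 + k ^ 2)) / ((1 + k ^ 2) * (1 + (k - t) ^ 2)) := by
    have : (1 + (k - t) ^ 2) ≠ 0 := by positivity
    field_simp
  rw [h5, div_mul_div_comm, div_mul_div_comm, one_mul, one_mul]
  rw [div_le_div_iff₀ (by positivity) (by positivity)]
  have h6 : 0 ≤ (1 + k ^ 2) * (1 + (k - t) ^ 2) := by positivity
  nlinarith [mul_le_mul_of_nonneg_right h4 h6]

/-- the Poisson integral at height one is admissible -/
lemma pois_w {ρ : ℝ → ℝ} (hρ : Admissible ρ) (h0 : ∀ t, 0 ≤ ρ t) :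
    ∫⁻ k, w k * ENNReal.ofReal (poisson ρ k 1) < ∞ := by
  have hρm : AEMeasurable ρ volume := (adm_measurable hρ).aemeasurable
  have h1 : ∀ k : ℝ, w k * ENNReal.ofReal (poisson ρ k 1) ≤
      ∫⁻ t, ENNReal.ofReal (ρ t / (1 + t ^ 2)) *
        ENNReal.ofReal (2 * (1 + k ^ 2)⁻¹ + 2 * (1 + (k - t) ^ 2)⁻¹) := by
    intro k
    have hnn : ∀ t : ℝ, 0 ≤ 1 * ρ t / ((k - t) ^ 2 + 1 ^ 2) := fun t => by
      have := h0 t
      positivity
    have h2 : poisson ρ k 1 ≤ ∫ t : ℝ, 1 * ρ t / ((k - t) ^ 2 + 1 ^ 2) := by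
      rw [poisson_eq_integral]
      have h3 : 0 ≤ ∫ t : ℝ, 1 * ρ t / ((k - t) ^ 2 + 1 ^ 2) := integral_nonneg hnn
      have h4 : 1 / Real.pi ≤ 1 := by
        rw [div_le_one Real.pi_pos]
        linarith [Real.pi_gt_three]
      calc 1 / Real.pi * ∫ t : ℝ, 1 * ρ t / ((k - t) ^ 2 + 1 ^ 2)
          ≤ 1 * ∫ t : ℝ, 1 * ρ t / ((k - t) ^ 2 + 1 ^ 2) := mul_le_mul_of_nonneg_right h4 h3
        _ = _ := one_mul _
    have h5 : ENNReal.ofReal (poisson ρ k 1) ≤
        ∫⁻ t, ENNReal.ofReal (1 * ρ t / ((k - t) ^ 2 + 1 ^ 2)) := by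
      rw [← ofReal_integral_eq_lintegral_ofReal (Crit.TFUp.integrable_pois hρ one_pos)
        (Eventually.of_forall hnn)]
      exact ENNReal.ofReal_le_ofReal h2
    calc w k * ENNReal.ofReal (poisson ρ k 1)
        ≤ w k * ∫⁻ t, ENNReal.ofReal (1 * ρ t / ((k - t) ^ 2 + 1 ^ 2)) := mul_le_mul_right h5 _
      _ = ∫⁻ t, w k * ENNReal.ofReal (1 * ρ t / ((k - t) ^ 2 + 1 ^ 2)) :=
        (lintegral_const_mul' _ _ (show w k ≠ ∞ from ENNReal.ofReal_ne_top)).symm
      _ ≤ _ := by
        refine lintegral_mono fun t => ?_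
        unfold w
        rw [← ENNReal.ofReal_mul (by positivity), ← ENNReal.ofReal_mul
          (div_nonneg (h0 t) (by positivity))]
        refine ENNReal.ofReal_le_ofReal ?_
        have h6 := mul_le_mul_of_nonneg_left (prod_le k t) (h0 t)
        calc 1 / (1 + k ^ 2) * (1 * ρ t / ((k - t) ^ 2 + 1 ^ 2))
            = ρ t * ((1 / (1 + k ^ 2)) * (1 / ((k - t) ^ 2 + 1 ^ 2))) := by ring
          _ ≤ _ := h6
          _ = _ := by ring
  refine lt_of_le_of_lt (lintegral_mono h1) ?_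
  rw [lintegral_lintegral_swap]
  · have h2 : ∀ t : ℝ, ∫⁻ k : ℝ, ENNReal.ofReal (ρ t / (1 + t ^ 2)) *
        ENNReal.ofReal (2 * (1 + k ^ 2)⁻¹ + 2 * (1 + (k - t) ^ 2)⁻¹) =
        ENNReal.ofReal (ρ t / (1 + t ^ 2)) * ENNReal.ofReal (4 * Real.pi) := by
      intro t
      rw [lintegral_const_mul' _ _ ENNReal.ofReal_ne_top]
      congr 1
      have hi1 : Integrable (fun k : ℝ => 2 * (1 + k ^ 2)⁻¹) volume :=
        integrable_inv_one_add_sq.const_mul 2
      have hi2 : Integrable (fun k : ℝ => 2 * (1 + (k - t) ^ 2)⁻¹) volume :=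
        (integrable_inv_one_add_sq.comp_sub_right t).const_mul 2
      have hi3 : Integrable (fun k : ℝ => 2 * (1 + k ^ 2)⁻¹ + 2 * (1 + (k - t) ^ 2)⁻¹) volume :=
        hi1.add hi2
      have hn3 : ∀ k : ℝ, 0 ≤ 2 * (1 + k ^ 2)⁻¹ + 2 * (1 + (k - t) ^ 2)⁻¹ := fun k => by
        positivity
      rw [← ofReal_integral_eq_lintegral_ofReal hi3 (Eventually.of_forall hn3)]
      congr 1
      rw [integral_add hi1 hi2, integral_const_mul, integral_const_mul,
        integral_sub_right_eq_self (fun k : ℝ => (1 + k ^ 2)⁻¹) t,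
        integral_univ_inv_one_add_sq]
      ring
    simp_rw [h2]
    rw [lintegral_mul_const' _ _ ENNReal.ofReal_ne_top]
    exact ENNReal.mul_lt_top hρ.lintegral_lt_top ENNReal.ofReal_lt_top
  · have h3 : AEMeasurable (fun q : ℝ × ℝ => ENNReal.ofReal (ρ q.2 / (1 + q.2 ^ 2)))
        (volume.prod volume) := by
      have h4 : AEMeasurable (fun t : ℝ => ENNReal.ofReal (ρ t / (1 + t ^ 2))) volume :=
        hρ.aestronglyMeasurable.aemeasurable.ennreal_ofReal
      exact h4.comp_quasiMeasurePreserving Measure.quasiMeasurePreserving_snd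
    refine h3.mul (Measurable.aemeasurable ?_)
    fun_prop

/-- the positive part of the logarithm -/
lemma lint_log {U : ℝ → ℝ} (hU : IsWeight U) (hN : NV U) :
    ∫⁻ x, w x * ENNReal.ofReal (Real.log (max (U x) 1)) < ∞ := by
  obtain ⟨ρ, c, hρ, hρ0, hc, h⟩ := hN
  have hg : AEMeasurable (fun x => ENNReal.ofReal (Real.log (max (U x) 1))) volume :=
    ((Real.measurable_log.comp_aemeasurable
      ((weight_aemeas hU).max aemeasurable_const))).ennreal_ofReal
  refine lt_of_le_of_lt (win hg) ?_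
  have hP0 : ∀ k : ℝ, 0 ≤ poisson ρ k 1 := by
    intro k
    rw [poisson_eq_integral]
    refine mul_nonneg (by positivity) (integral_nonneg fun t => ?_)
    have := hρ0 t
    show 0 ≤ 1 * ρ t / ((k - t) ^ 2 + 1 ^ 2)
    positivity
  refine ENNReal.mul_lt_top (by simp) ?_
  have h1 : ∀ k : ℝ, w k * ∫⁻ x in Icc (k - 1) (k + 1),
      ENNReal.ofReal (Real.log (max (U x) 1)) ≤
      w k * ENNReal.ofReal (2 * Real.log 2 + 2 * c) +
        w k * ENNReal.ofReal (poisson ρ k 1) * 2 := by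
    intro k
    have hV : 0 ≤ Vp ρ c k 1 := by
      unfold Vp
      have := hP0 k
      linarith
    have h2 := jen hU hV (h k 1 le_rfl)
    have h3 : ENNReal.ofReal (2 * Real.log 2 + 2 * Vp ρ c k 1) =
        ENNReal.ofReal (2 * Real.log 2 + 2 * c) + ENNReal.ofReal (poisson ρ k 1) * 2 := by
      have h4 : (2 : ℝ≥0∞) = ENNReal.ofReal 2 := by simp
      have h5 : 0 ≤ Real.log 2 := Real.log_nonneg (by norm_num)
      rw [h4, ← ENNReal.ofReal_mul (hP0 k), ← ENNReal.ofReal_add (by positivity)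
        (mul_nonneg (hP0 k) (by norm_num))]
      congr 1
      unfold Vp
      ring
    rw [h3] at h2
    calc w k * ∫⁻ x in Icc (k - 1) (k + 1), ENNReal.ofReal (Real.log (max (U x) 1))
        ≤ w k * (ENNReal.ofReal (2 * Real.log 2 + 2 * c) +
          ENNReal.ofReal (poisson ρ k 1) * 2) := mul_le_mul_right h2 _
      _ = _ := by rw [mul_add, mul_assoc]
  refine lt_of_le_of_lt (lintegral_mono h1) ?_
  rw [lintegral_add_left (measurable_w.mul_const _), lintegral_mul_const' _ _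
    ENNReal.ofReal_ne_top, lintegral_mul_const' _ _ (by simp)]
  exact ENNReal.add_lt_top.2 ⟨ENNReal.mul_lt_top lint_w ENNReal.ofReal_lt_top,
    ENNReal.mul_lt_top (pois_w hρ hρ0) (by simp)⟩

/-- bounded integral criterion -/
lemma adm_of {f g : ℝ → ℝ} (hf : AEStronglyMeasurable f volume) (hg : Admissible g)
    (h : ∀ᵐ x, |f x| ≤ g x) : Admissible f := by
  refine Integrable.mono' hg ?_ ?_
  · have h2 : AEStronglyMeasurable (fun t : ℝ => f t * (1 / (1 + t ^ 2))) volume := by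
      refine hf.mul (Measurable.aestronglyMeasurable ?_)
      fun_prop
    refine h2.congr (Eventually.of_forall fun t => ?_)
    show f t * (1 / (1 + t ^ 2)) = f t / (1 + t ^ 2)
    ring
  · filter_upwards [h] with t ht
    have h3 : (0 : ℝ) < 1 + t ^ 2 := by positivity
    rw [norm_div, Real.norm_eq_abs, Real.norm_eq_abs, abs_of_pos h3]
    exact div_le_div_of_nonneg_right ht h3.le

lemma adm_add {f g : ℝ → ℝ} (hf : Admissible f) (hg : Admissible g) :
    Admissible (fun x => f x + g x) := by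
  have h := hf.add hg
  refine h.congr (Eventually.of_forall fun t => ?_)
  show f t / (1 + t ^ 2) + g t / (1 + t ^ 2) = (f t + g t) / (1 + t ^ 2)
  ring

lemma adm_const (a : ℝ) : Admissible (fun _ => a) := by
  have h := integrable_inv_one_add_sq.const_mul a
  exact h.congr (Eventually.of_forall fun t => by
    show a * (1 + t ^ 2)⁻¹ = a / (1 + t ^ 2)
    rw [div_eq_mul_inv])

lemma adm_abs {f : ℝ → ℝ} (hf : Admissible f) : Admissible (fun x => |f x|) := by
  have h := hf.abs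
  refine h.congr (Eventually.of_forall fun t => ?_)
  have h3 : (0 : ℝ) < 1 + t ^ 2 := by positivity
  show |f t / (1 + t ^ 2)| = |f t| / (1 + t ^ 2)
  rw [abs_div, abs_of_pos h3]

/-- non-negative functions of finite weighted integral are admissible -/
lemma adm_of_lint {f : ℝ → ℝ} (hf : AEMeasurable f volume) (h0 : ∀ᵐ x, 0 ≤ f x)
    (h : ∫⁻ x, w x * ENNReal.ofReal (f x) < ∞) : Admissible f := by
  have hm : AEStronglyMeasurable (fun t : ℝ => f t / (1 + t ^ 2)) volume := by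
    have h2 : AEMeasurable (fun t : ℝ => f t * (1 / (1 + t ^ 2))) volume := by
      refine hf.mul (Measurable.aemeasurable ?_)
      fun_prop
    refine h2.aestronglyMeasurable.congr (Eventually.of_forall fun t => ?_)
    show f t * (1 / (1 + t ^ 2)) = f t / (1 + t ^ 2)
    ring
  refine ⟨hm, ?_⟩
  rw [hasFiniteIntegral_iff_ofReal]
  · refine lt_of_le_of_lt (le_of_eq ?_) h
    refine lintegral_congr fun x => ?_
    unfold w
    rw [← ENNReal.ofReal_mul (by positivity)]
    congr 1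
    ring
  · filter_upwards [h0] with x hx
    exact div_nonneg hx (by positivity)

lemma adm_logp {U : ℝ → ℝ} (hU : IsWeight U) (hN : NV U) :
    Admissible (fun x => Real.log (max (U x) 1)) := by
  refine adm_of_lint (Real.measurable_log.comp_aemeasurable
      ((weight_aemeas hU).max aemeasurable_const)) (Eventually.of_forall fun x =>
      Real.log_nonneg (le_max_right _ _)) (lint_log hU hN)

lemma meas_lgm {U : ℝ → ℝ} (hU : IsWeight U) (θ : ℝ) : AEMeasurable (lgm U θ) volume :=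
  Real.measurable_log.comp_aemeasurable ((weight_aemeas hU).max aemeasurable_const)

/-- (a) -/
lemma adm_lgm {U : ℝ → ℝ} (hU : IsWeight U) (hN : NV U) {θ : ℝ} (h0 : 0 < θ) (h1 : θ ≤ 1) :
    Admissible (lgm U θ) := by
  refine adm_of (meas_lgm hU θ).aestronglyMeasurable
    (adm_add (adm_logp hU hN) (adm_const (-Real.log θ))) (Eventually.of_forall fun x => ?_)
  have h2 : Real.log θ ≤ lgm U θ x := Real.log_le_log h0 (le_max_right _ _)
  have h3 : lgm U θ x ≤ Real.log (max (U x) 1) :=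
    Real.log_le_log (lt_of_lt_of_le h0 (le_max_right _ _)) (max_le_max le_rfl h1)
  have h4 : Real.log θ ≤ 0 := Real.log_nonpos h0.le h1
  have h5 : 0 ≤ Real.log (max (U x) 1) := Real.log_nonneg (le_max_right _ _)
  rw [abs_le]
  constructor
  · linarith
  · linarith

lemma lgm_anti {U : ℝ → ℝ} {θ θ' : ℝ} (h0 : 0 < θ) (h1 : θ ≤ θ') (x : ℝ) :
    lgm U θ x ≤ lgm U θ' x :=
  Real.log_le_log (lt_of_lt_of_le h0 (le_max_right _ _)) (max_le_max le_rfl h1)

/-- the kernels are comparable -/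
lemma kern_le {y t : ℝ} (hy : 0 < y) :
    1 / (1 + t ^ 2) ≤ (1 + y ^ 2) / y * (y / ((0 - t) ^ 2 + y ^ 2)) := by
  have h1 : 0 < (0 - t) ^ 2 + y ^ 2 := by positivity
  have h2 : (1 + y ^ 2) / y * (y / ((0 - t) ^ 2 + y ^ 2)) =
      (1 + y ^ 2) / ((0 - t) ^ 2 + y ^ 2) := by
    field_simp
  rw [h2, div_le_div_iff₀ (by positivity) h1]
  nlinarith [sq_nonneg (t * y)]

/-- the sequence of truncations -/
noncomputable def th (n : ℕ) : ℝ := 1 / ((n : ℝ) + 1)

lemma th_pos (n : ℕ) : 0 < th n := by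
  unfold th
  positivity

lemma th_le (n : ℕ) : th n ≤ 1 := by
  unfold th
  rw [div_le_one (by positivity)]
  have : (0 : ℝ) ≤ n := Nat.cast_nonneg n
  linarith

lemma th_tendsto : Tendsto th atTop (𝓝 0) := tendsto_one_div_add_atTop_nhds_zero_nat

/-- the truncated logarithms are eventually constant -/
lemma lgm_ev {U : ℝ → ℝ} {x : ℝ} (hx : 0 < U x) : ∀ᶠ n in atTop, lgm U (th n) x = lg U x := by
  have h := th_tendsto.eventually (Iio_mem_nhds hx)
  filter_upwards [h] with n hn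
  unfold lgm lg
  rw [max_eq_left (show th n ≤ U x from le_of_lt hn)]

/-- (b) uniform bound -/
lemma lint_D {U : ℝ → ℝ} (hU : IsWeight U) (hN : NV U) {y a : ℝ} (hy : 0 < y)
    (ha : ∀ n : ℕ, a ≤ poisson (lgm U (th n)) 0 y) (n : ℕ) :
    ∫⁻ x, w x * ENNReal.ofReal (lgm U 1 x - lgm U (th n) x) ≤
      ENNReal.ofReal ((1 + y ^ 2) / y * (Real.pi * (poisson (lgm U 1) 0 y - a))) := by
  have hA := adm_lgm hU hN (th_pos n) (th_le n)
  have hB := adm_lgm hU hN one_pos le_rfl
  have hi : Integrable (fun t : ℝ => y * lgm U 1 t / ((0 - t) ^ 2 + y ^ 2) -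
      y * lgm U (th n) t / ((0 - t) ^ 2 + y ^ 2)) volume :=
    (Crit.TFUp.integrable_pois hB (z := 0) hy).sub (Crit.TFUp.integrable_pois hA (z := 0) hy)
  have hnn : ∀ t : ℝ, 0 ≤ lgm U 1 t - lgm U (th n) t := fun t =>
    sub_nonneg.2 (lgm_anti (th_pos n) (th_le n) t)
  have hpt : ∀ t : ℝ, w t * ENNReal.ofReal (lgm U 1 t - lgm U (th n) t) ≤
      ENNReal.ofReal ((1 + y ^ 2) / y * (y * lgm U 1 t / ((0 - t) ^ 2 + y ^ 2) -
        y * lgm U (th n) t / ((0 - t) ^ 2 + y ^ 2))) := by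
    intro t
    unfold w
    rw [← ENNReal.ofReal_mul (by positivity)]
    refine ENNReal.ofReal_le_ofReal ?_
    have h1 := mul_le_mul_of_nonneg_right (kern_le (t := t) hy) (hnn t)
    refine h1.trans (le_of_eq ?_)
    ring
  refine (lintegral_mono hpt).trans ?_
  have hnn2 : ∀ t : ℝ, 0 ≤ (1 + y ^ 2) / y * (y * lgm U 1 t / ((0 - t) ^ 2 + y ^ 2) -
        y * lgm U (th n) t / ((0 - t) ^ 2 + y ^ 2)) := by
    intro t
    have h3 : y * lgm U 1 t / ((0 - t) ^ 2 + y ^ 2) - y * lgm U (th n) t / ((0 - t) ^ 2 + y ^ 2) =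
        y * (lgm U 1 t - lgm U (th n) t) / ((0 - t) ^ 2 + y ^ 2) := by ring
    rw [h3]
    have := hnn t
    positivity
  rw [← ofReal_integral_eq_lintegral_ofReal (hi.const_mul _) (Eventually.of_forall hnn2)]
  refine ENNReal.ofReal_le_ofReal ?_
  rw [integral_const_mul]
  refine mul_le_mul_of_nonneg_left ?_ (by positivity)
  have h4 : ∫ t : ℝ, (y * lgm U 1 t / ((0 - t) ^ 2 + y ^ 2) -
      y * lgm U (th n) t / ((0 - t) ^ 2 + y ^ 2)) =
      (∫ t : ℝ, y * lgm U 1 t / ((0 - t) ^ 2 + y ^ 2)) -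
        ∫ t : ℝ, y * lgm U (th n) t / ((0 - t) ^ 2 + y ^ 2) :=
    integral_sub (Crit.TFUp.integrable_pois hB hy) (Crit.TFUp.integrable_pois hA hy)
  have h5 : ∀ f : ℝ → ℝ, ∫ t : ℝ, y * f t / ((0 - t) ^ 2 + y ^ 2) =
      Real.pi * poisson f 0 y := by
    intro f
    rw [poisson_eq_integral]
    have := Real.pi_pos.ne'
    field_simp
  rw [h5, h5] at h4
  have h6 := ha n
  calc ∫ t : ℝ, (y * lgm U 1 t / ((0 - t) ^ 2 + y ^ 2) -
      y * lgm U (th n) t / ((0 - t) ^ 2 + y ^ 2)) =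
      Real.pi * poisson (lgm U 1) 0 y - Real.pi * poisson (lgm U (th n)) 0 y := h4
    _ ≤ Real.pi * (poisson (lgm U 1) 0 y - a) := by
      rw [mul_sub]
      have := mul_le_mul_of_nonneg_left h6 Real.pi_pos.le
      linarith

/-- (b) positivity and admissibility -/
lemma pos_adm {U : ℝ → ℝ} (hU : IsWeight U) (hN : NV U) {y a : ℝ} (hy : 0 < y)
    (ha : ∀ n : ℕ, a ≤ poisson (lgm U (th n)) 0 y) :
    (∀ᵐ x, 0 < U x) ∧ Admissible (lg U) := by
  have hm : ∀ n : ℕ, AEMeasurable
      (fun x => w x * ENNReal.ofReal (lgm U 1 x - lgm U (th n) x)) volume := fun n =>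
    measurable_w.aemeasurable.mul ((meas_lgm hU 1).sub (meas_lgm hU (th n))).ennreal_ofReal
  have hF : ∫⁻ x, liminf (fun n : ℕ => w x * ENNReal.ofReal (lgm U 1 x - lgm U (th n) x)) atTop <
      ∞ := by
    refine lt_of_le_of_lt (lintegral_liminf_le' hm) ?_
    refine lt_of_le_of_lt (liminf_le_liminf (v := fun _ : ℕ =>
      ENNReal.ofReal ((1 + y ^ 2) / y * (Real.pi * (poisson (lgm U 1) 0 y - a))))
      (Eventually.of_forall fun n => lint_D hU hN hy ha n)) ?_
    rw [liminf_const]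
    exact ENNReal.ofReal_lt_top
  have hFm : AEMeasurable (fun x => liminf (fun n : ℕ =>
      w x * ENNReal.ofReal (lgm U 1 x - lgm U (th n) x)) atTop) volume := by
    simp_rw [liminf_eq_iSup_iInf_of_nat']
    exact AEMeasurable.iSup fun n => AEMeasurable.iInf fun i => hm (i + n)
  have hpos : ∀ᵐ x, 0 < U x := by
    filter_upwards [ae_lt_top' hFm hF.ne] with x hx
    rcases (hU.1 x).lt_or_eq with h | h
    · exact h
    · exfalso
      have h1 : ∀ n : ℕ, lgm U 1 x - lgm U (th n) x = Real.log ((n : ℝ) + 1) := by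
        intro n
        unfold lgm
        rw [← h, max_eq_right (by norm_num : (0 : ℝ) ≤ 1), max_eq_right (th_pos n).le,
          Real.log_one, th, one_div, Real.log_inv]
        ring
      have h2 : Tendsto (fun n : ℕ => w x * ENNReal.ofReal (lgm U 1 x - lgm U (th n) x)) atTop
          (𝓝 ∞) := by
        have h3 : Tendsto (fun n : ℕ => Real.log ((n : ℝ) + 1)) atTop atTop :=
          Real.tendsto_log_atTop.comp
            (tendsto_atTop_add_const_right _ _ tendsto_natCast_atTop_atTop)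
        have h4 : Tendsto (fun n : ℕ => ENNReal.ofReal (lgm U 1 x - lgm U (th n) x)) atTop
            (𝓝 ∞) := by
          simp_rw [h1]
          exact ENNReal.tendsto_ofReal_atTop.comp h3
        have hw0 : w x ≠ 0 := by
          unfold w
          exact (ENNReal.ofReal_pos.2 (by positivity)).ne'
        have h5 := ENNReal.Tendsto.const_mul (a := w x) h4 (Or.inl ENNReal.top_ne_zero)
        rwa [ENNReal.mul_top hw0] at h5
      rw [h2.liminf_eq] at hx
      exact lt_irrefl _ hx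
  refine ⟨hpos, ?_⟩
  have hlm : AEMeasurable (lg U) volume := Real.measurable_log.comp_aemeasurable (weight_aemeas hU)
  have hD : Admissible (fun x => lgm U 1 x - lg U x) := by
    refine adm_of_lint ((meas_lgm hU 1).sub hlm) ?_ ?_
    · filter_upwards [hpos] with x hx
      exact sub_nonneg.2 (Real.log_le_log hx (le_max_left _ _))
    · refine lt_of_le_of_lt (lintegral_mono_ae ?_) hF
      filter_upwards [hpos] with x hx
      have h1 : Tendsto (fun n : ℕ => w x * ENNReal.ofReal (lgm U 1 x - lgm U (th n) x)) atTop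
          (𝓝 (w x * ENNReal.ofReal (lgm U 1 x - lg U x))) := by
        refine tendsto_const_nhds.congr' ?_
        filter_upwards [lgm_ev hx] with n hn
        rw [hn]
      rw [h1.liminf_eq]
  have hB := adm_lgm hU hN one_pos le_rfl
  have h := hB.sub hD
  refine h.congr (Eventually.of_forall fun t => ?_)
  show lgm U 1 t / (1 + t ^ 2) - (lgm U 1 t - lg U t) / (1 + t ^ 2) = lg U t / (1 + t ^ 2)
  ring

/-- (c) -/
lemma pois_tendsto {U : ℝ → ℝ} (hU : IsWeight U) (hN : NV U) (hpos : ∀ᵐ x, 0 < U x)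
    (hadm : Admissible (lg U)) {z y : ℝ} (hy : 0 < y) :
    Tendsto (fun n : ℕ => poisson (lgm U (th n)) z y) atTop (𝓝 (poisson (lg U) z y)) := by
  simp_rw [poisson_eq_integral]
  refine Tendsto.const_mul _ ?_
  have hB := adm_lgm hU hN one_pos le_rfl
  have hS := adm_add (adm_abs hB) (adm_abs hadm)
  refine tendsto_integral_of_dominated_convergence
    (fun t => y * (|lgm U 1 t| + |lg U t|) / ((z - t) ^ 2 + y ^ 2)) ?_ ?_ ?_ ?_
  · intro n
    exact (Crit.TFUp.integrable_pois (adm_lgm hU hN (th_pos n) (th_le n))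
      hy).aestronglyMeasurable
  · exact Crit.TFUp.integrable_pois hS hy
  · intro n
    filter_upwards [hpos] with t ht
    have h1 : lg U t ≤ lgm U (th n) t := Real.log_le_log ht (le_max_left _ _)
    have h2 : lgm U (th n) t ≤ lgm U 1 t := lgm_anti (th_pos n) (th_le n) t
    have h3 : |lgm U (th n) t| ≤ |lgm U 1 t| + |lg U t| := by
      rw [abs_le]
      constructor
      · have h4 := neg_abs_le (lg U t)
        have h5 := abs_nonneg (lgm U 1 t)
        linarith
      · have h4 := le_abs_self (lgm U 1 t)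
        have h5 := abs_nonneg (lg U t)
        linarith
    have h6 : 0 < (z - t) ^ 2 + y ^ 2 := by positivity
    rw [norm_div, norm_mul, Real.norm_eq_abs, Real.norm_eq_abs, Real.norm_eq_abs, abs_of_pos hy,
      abs_of_pos h6]
    exact div_le_div_of_nonneg_right (mul_le_mul_of_nonneg_left h3 hy.le) h6.le
  · filter_upwards [hpos] with t ht
    refine tendsto_const_nhds.congr' ?_
    filter_upwards [lgm_ev ht] with n hn
    rw [hn]

/-- a weight of zero integral over all large intervals vanishes -/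
lemma ae_zero {U : ℝ → ℝ} (hU : IsWeight U) {μ : ℝ} (hμ : 0 < μ)
    (h : ∀ y : ℝ, 0 < y → ∫ t in Icc (0 - μ * y) (0 + μ * y), U t ≤ 0) : ∀ᵐ x, U x = 0 := by
  have h1 : ∀ n : ℕ, ∀ᵐ x, x ∈ Icc (0 - μ * ((n : ℝ) + 1)) (0 + μ * ((n : ℝ) + 1)) →
      U x = 0 := by
    intro n
    have hi : IntegrableOn U (Icc (0 - μ * ((n : ℝ) + 1)) (0 + μ * ((n : ℝ) + 1))) volume :=
      hU.2.integrableOn_isCompact isCompact_Icc
    have h2 : ∫ t in Icc (0 - μ * ((n : ℝ) + 1)) (0 + μ * ((n : ℝ) + 1)), U t = 0 :=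
      le_antisymm (h _ (by positivity)) (integral_nonneg fun t => hU.1 t)
    have h3 := (integral_eq_zero_iff_of_nonneg_ae (Eventually.of_forall fun t => hU.1 t) hi).1 h2
    rw [← ae_restrict_iff' measurableSet_Icc]
    exact h3
  filter_upwards [ae_all_iff.2 h1] with x hx
  obtain ⟨n, hn⟩ := exists_nat_gt (|x| / μ)
  refine hx n ?_
  rw [div_lt_iff₀ hμ] at hn
  have h4 := abs_le.1 (le_of_lt (lt_of_lt_of_le hn (show (n : ℝ) * μ ≤ μ * ((n : ℝ) + 1) by
    nlinarith)))
  exact ⟨by linarith [h4.1], by linarith [h4.2]⟩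

end LimTh

open LimTh in
theorem stLimTh : StLimTh := by
  intro U μ K hU hN hμ hK hS
  by_cases h0 : ∀ y : ℝ, 0 < y → ∫ t in Icc (0 - μ * y) (0 + μ * y), U t ≤ 0
  · exact Or.inl (ae_zero hU hμ h0)
  · right
    push Not at h0
    obtain ⟨y, hy, hq⟩ := h0
    obtain ⟨q, hqd⟩ : ∃ q, q = ∫ t in Icc (0 - μ * y) (0 + μ * y), U t := ⟨_, rfl⟩
    rw [← hqd] at hq
    have hVp : ∀ (l : ℝ → ℝ) (z y : ℝ), Vp l 0 z y = poisson l z y := by
      intro l z y
      unfold Vp
      ring
    have h1 : ∀ n : ℕ, q ≤ K * (y * Real.exp (poisson (lgm U (th n)) 0 y)) := by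
      intro n
      have h := hS (th n) (th_pos n) (th_le n) 0 y hy
      rw [hVp, ← hqd] at h
      exact h
    have hK0 : 0 < K := by
      rcases hK.lt_or_eq with h | h
      · exact h
      · exfalso
        have h2 := h1 0
        rw [← h, zero_mul] at h2
        exact absurd hq (not_lt.2 h2)
    have ha : ∀ n : ℕ, Real.log (q / (K * y)) ≤ poisson (lgm U (th n)) 0 y := by
      intro n
      rw [Real.log_le_iff_le_exp (by positivity), div_le_iff₀ (by positivity)]
      calc q ≤ K * (y * Real.exp (poisson (lgm U (th n)) 0 y)) := h1 n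
        _ = _ := by ring
    obtain ⟨hpos, hadm⟩ := pos_adm hU hN hy ha
    refine ⟨⟨hU, hpos, hadm⟩, K, hK0, fun z y' hy' => ?_⟩
    have h2 : Tendsto (fun n : ℕ => K * (y' * Real.exp (poisson (lgm U (th n)) z y'))) atTop
        (𝓝 (K * (y' * Real.exp (poisson (lg U) z y')))) :=
      ((Real.continuous_exp.continuousAt.tendsto.comp
        (pois_tendsto hU hN hpos hadm hy')).const_mul y').const_mul K
    refine ge_of_tendsto h2 (Eventually.of_forall fun n => ?_)
    have h := hS (th n) (th_pos n) (th_le n) z y' hy'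
    rw [hVp] at h
    exact h

end Pool.Agent.Work.MP_055a27_an.Fn
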