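import Pool.Agent.Work.MP_055a27_an.Fn.Stmts2
import Pool.Agent.Work.MP_055a27_an.Crit.TFUp

/-!
# Upper bound by the Poisson integral, a linear function and the zeros
-/

open MeasureTheory Set Filter Topology Complex Metric
open scoped ENNReal NNReal ComplexConjugate

namespace Pool.Agent.Work.MP_055a27_an.Fn

namespace Rp

variable {g : ℂ → ℂ} {h : ℝ}

lemma isOpen_Dom (h : ℝ) : IsOpen {w : ℂ | -h < w.im} :=
  isOpen_lt continuous_const Complex.continuous_im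

lemma analytic (hg : GG h g) : AnalyticOnNhd ℂ g {w : ℂ | -h < w.im} :=
  hg.2.1.analyticOnNhd (isOpen_Dom h)

lemma countable_ZZ (hg : GG h g) : (ZZ g).Countable := by
  have hconv : Convex ℝ {w : ℂ | -h < w.im} := by
    have := (convex_Ioi (𝕜 := ℝ) (-h)).linear_preimage Complex.imLm
    exact this
  have h1 := (analytic hg).preimage_zero_mem_codiscreteWithin (x := 0)
    (by simpa using hg.2.2.2 0) (by simp [hg.1])
    ⟨⟨0, by simp [hg.1]⟩, hconv.isPreconnected⟩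
  have h2 : IsDiscrete (g ⁻¹' {0} ∩ {w : ℂ | -h < w.im}) :=
    isDiscrete_of_codiscreteWithin (s := g ⁻¹' {0}) h1
  have h2' : DiscreteTopology (↑(g ⁻¹' {0} ∩ {w : ℂ | -h < w.im}) : Type) := h2.to_subtype
  have h3 : (g ⁻¹' {0} ∩ {w : ℂ | -h < w.im}).Countable :=
    countable_coe_iff.1 countable_of_Lindelof_of_discrete
  refine h3.mono ?_
  intro ζ hζ
  have h4 : -h < ζ.im := by linarith [hg.1, hζ.1]
  exact ⟨hζ.2, h4⟩

/-- minus the logarithm -/
noncomputable def sg (g : ℂ → ℂ) (w : ℂ) : ℝ := -Real.log ‖g w‖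

lemma sg_nonneg (hg : GG h g) {w : ℂ} (hw : -h < w.im) : 0 ≤ sg g w := by
  unfold sg
  rw [neg_nonneg]
  exact Real.log_nonpos (norm_nonneg _) (hg.2.2.1 w hw)

/-- The circle through the origin. -/
noncomputable def zt (R x : ℝ) : ℂ := R * I * (1 - Complex.exp ((x / R : ℝ) * I))

lemma zt_eq (R x : ℝ) : zt R x = circleMap (R * I) R (x / R - Real.pi / 2) := by
  unfold zt circleMap
  have e1 : (((x / R - Real.pi / 2 : ℝ) : ℂ) * I) = ((x / R : ℝ) : ℂ) * I + (-((Real.pi / 2 : ℝ) : ℂ) * I) := by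
    push_cast
    ring
  have e2 : Complex.exp (-((Real.pi / 2 : ℝ) : ℂ) * I) = -I := by
    have : -((Real.pi / 2 : ℝ) : ℂ) * I = -(Real.pi / 2 * I) := by push_cast; ring
    rw [this, Complex.exp_neg, Complex.exp_pi_div_two_mul_I, Complex.inv_I]
  rw [e1, Complex.exp_add, e2]
  ring

lemma zt_re (R x : ℝ) : (zt R x).re = R * Real.sin (x / R) := by
  unfold zt
  rw [Complex.exp_mul_I]
  simp only [Complex.mul_re, Complex.mul_im, Complex.sub_re, Complex.sub_im, Complex.add_re,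
    Complex.add_im, Complex.one_re, Complex.one_im, Complex.I_re, Complex.I_im, Complex.ofReal_re,
    Complex.ofReal_im, Complex.cos_ofReal_re, Complex.cos_ofReal_im, Complex.sin_ofReal_re,
    Complex.sin_ofReal_im]
  ring

lemma zt_im (R x : ℝ) : (zt R x).im = R * (1 - Real.cos (x / R)) := by
  unfold zt
  rw [Complex.exp_mul_I]
  simp only [Complex.mul_re, Complex.mul_im, Complex.sub_re, Complex.sub_im, Complex.add_re,
    Complex.add_im, Complex.one_re, Complex.one_im, Complex.I_re, Complex.I_im, Complex.ofReal_re,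
    Complex.ofReal_im, Complex.cos_ofReal_re, Complex.cos_ofReal_im, Complex.sin_ofReal_re,
    Complex.sin_ofReal_im]
  ring

lemma zt_im_nonneg {R : ℝ} (hR : 0 < R) (x : ℝ) : 0 ≤ (zt R x).im := by
  rw [zt_im]
  have := Real.cos_le_one (x / R)
  exact mul_nonneg hR.le (by linarith)

lemma zt_mem_sphere {R : ℝ} (hR : 0 < R) (x : ℝ) : zt R x ∈ sphere ((R : ℂ) * I) R := by
  rw [zt_eq]
  exact circleMap_mem_sphere _ hR.le _

lemma continuous_zt (R : ℝ) : Continuous (zt R) := by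
  unfold zt
  fun_prop

lemma norm_zt_sq {R : ℝ} (x : ℝ) : ‖zt R x‖ ^ 2 = 2 * R ^ 2 * (1 - Real.cos (x / R)) := by
  rw [← Complex.normSq_eq_norm_sq, Complex.normSq_apply, zt_re, zt_im]
  nlinarith [Real.sin_sq_add_cos_sq (x / R)]

lemma norm_zt_ge {R x : ℝ} (hR : 0 < R) (hx : |x| ≤ Real.pi * R) :
    2 / Real.pi * |x| ≤ ‖zt R x‖ := by
  have h1 : |x / R| ≤ Real.pi := by
    rw [abs_div, abs_of_pos hR, div_le_iff₀ hR]
    exact hx
  have h2 := Real.cos_le_one_sub_mul_cos_sq h1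
  have h3 : (2 / Real.pi * |x|) ^ 2 ≤ ‖zt R x‖ ^ 2 := by
    rw [norm_zt_sq, mul_pow, div_pow, sq_abs]
    have h4 : 2 / Real.pi ^ 2 * (x / R) ^ 2 ≤ 1 - Real.cos (x / R) := by linarith
    calc 2 ^ 2 / Real.pi ^ 2 * x ^ 2 = 2 * R ^ 2 * (2 / Real.pi ^ 2 * (x / R) ^ 2) := by
          field_simp
      _ ≤ 2 * R ^ 2 * (1 - Real.cos (x / R)) := by gcongr
  exact (pow_le_pow_iff_left₀ (by positivity) (norm_nonneg _) two_ne_zero).1 h3

lemma circ_eq {R : ℝ} (hR : 0 < R) (F : ℂ → ℝ) :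
    Real.circleAverage F ((R : ℂ) * I) R =
      (2 * Real.pi * R)⁻¹ * ∫ x in (-(Real.pi * R))..(Real.pi * R), F (zt R x) := by
  rw [Real.circleAverage_eq_integral_add (-(Real.pi + Real.pi / 2))]
  have h1 := intervalIntegral.integral_comp_div_add
    (a := -(Real.pi * R)) (b := Real.pi * R)
    (fun θ => F (circleMap ((R : ℂ) * I) R (θ + -(Real.pi + Real.pi / 2)))) hR.ne' Real.pi
  have e1 : -(Real.pi * R) / R + Real.pi = 0 := by field_simp; ring
  have e2 : Real.pi * R / R + Real.pi = 2 * Real.pi := by field_simp; ring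
  rw [e1, e2] at h1
  have e3 : ∀ x : ℝ, circleMap ((R : ℂ) * I) R (x / R + Real.pi + -(Real.pi + Real.pi / 2)) =
      zt R x := by
    intro x
    rw [zt_eq]
    congr 1
    ring
  simp only [e3, smul_eq_mul] at h1 ⊢
  rw [h1]
  have hpi := Real.pi_pos
  field_simp

/-- The integral on the circle. -/
noncomputable def JR (g : ℂ → ℂ) (R : ℝ) (w : ℂ) : ℝ :=
  ∫ x in Ioc (-(Real.pi * R)) (Real.pi * R), sg g (zt R x) / ‖zt R x - w‖ ^ 2

lemma T_eq {R : ℝ} (hR : 0 < R) (w : ℂ) :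
    Real.circleAverage (fun ζ => poissonKernel ((R : ℂ) * I) w ζ * (-Real.log ‖g ζ‖))
      ((R : ℂ) * I) R = (2 * R * w.im - ‖w‖ ^ 2) / (2 * Real.pi * R) * JR g R w := by
  rw [circ_eq hR, intervalIntegral.integral_of_le (by have := Real.pi_pos; nlinarith)]
  unfold JR
  rw [div_mul_eq_mul_div, inv_mul_eq_div, ← integral_const_mul]
  congr 1
  apply integral_congr_ae
  refine Eventually.of_forall fun x => ?_
  show poissonKernel ((R : ℂ) * I) w (zt R x) * (-Real.log ‖g (zt R x)‖) =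
    (2 * R * w.im - ‖w‖ ^ 2) * (sg g (zt R x) / ‖zt R x - w‖ ^ 2)
  have h1 : ‖zt R x - (R : ℂ) * I‖ = R := by
    have := zt_mem_sphere hR x
    rwa [mem_sphere_iff_norm] at this
  have h2 : ‖w - (R : ℂ) * I‖ ^ 2 = ‖w‖ ^ 2 - 2 * R * w.im + R ^ 2 := by
    rw [← Complex.normSq_eq_norm_sq, ← Complex.normSq_eq_norm_sq, Complex.normSq_apply,
      Complex.normSq_apply]
    simp
    ring
  rw [poissonKernel_def, h1, h2, sub_sub_sub_cancel_right]
  unfold sg
  ring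

/-- Good radii. -/
def Good (g : ℂ → ℂ) (R : ℝ) : Prop := 0 < R ∧ ∀ ζ ∈ sphere ((R : ℂ) * I) R, g ζ ≠ 0

lemma exists_good (hg : GG h g) (a b : ℝ) (ha : 0 < a) (hab : a < b) :
    ∃ R ∈ Ioo a b, Good g R := by
  have h1 : ((fun ζ : ℂ => ‖ζ‖ ^ 2 / (2 * ζ.im)) '' (ZZ g)).Countable := (countable_ZZ hg).image _
  obtain ⟨R, hR1, hR2⟩ := (h1.dense_compl ℝ).exists_between hab
  refine ⟨R, hR2, ha.trans hR2.1, ?_⟩
  intro ζ hζ h0
  have hR : 0 < R := ha.trans hR2.1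
  have h2 : ‖ζ - (R : ℂ) * I‖ ^ 2 = ‖ζ‖ ^ 2 - 2 * R * ζ.im + R ^ 2 := by
    rw [← Complex.normSq_eq_norm_sq, ← Complex.normSq_eq_norm_sq, Complex.normSq_apply,
      Complex.normSq_apply]
    simp
    ring
  rw [mem_sphere_iff_norm] at hζ
  rw [hζ] at h2
  have h3 : ‖ζ‖ ^ 2 = 2 * R * ζ.im := by linarith
  rcases le_or_gt ζ.im 0 with h4 | h4
  · have h5 : ‖ζ‖ ^ 2 ≤ 0 := by
      rw [h3]
      nlinarith
    have h6 : ‖ζ‖ = 0 := by
      have := norm_nonneg ζ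
      nlinarith
    rw [norm_eq_zero] at h6
    rw [h6] at h0
    exact hg.2.2.2 0 (by simpa using h0)
  · apply hR1
    refine ⟨ζ, ⟨h4, h0⟩, ?_⟩
    show ‖ζ‖ ^ 2 / (2 * ζ.im) = R
    rw [h3]
    field_simp

lemma mem_ball_iff' {R : ℝ} (hR : 0 < R) (w : ℂ) :
    w ∈ ball ((R : ℂ) * I) R ↔ ‖w‖ ^ 2 < 2 * R * w.im := by
  have h2 : ‖w - (R : ℂ) * I‖ ^ 2 = ‖w‖ ^ 2 - 2 * R * w.im + R ^ 2 := by
    rw [← Complex.normSq_eq_norm_sq, ← Complex.normSq_eq_norm_sq, Complex.normSq_apply,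
      Complex.normSq_apply]
    simp
    ring
  rw [mem_ball_iff_norm, ← pow_lt_pow_iff_left₀ (norm_nonneg _) hR.le two_ne_zero, h2]
  constructor <;> intro h <;> linarith

lemma closedBall_im {R : ℝ} {ζ : ℂ} (hζ : ζ ∈ closedBall ((R : ℂ) * I) R) : 0 ≤ ζ.im := by
  rw [mem_closedBall_iff_norm] at hζ
  have h1 := Complex.abs_im_le_norm (ζ - (R : ℂ) * I)
  have h2 : (ζ - (R : ℂ) * I).im = ζ.im - R := by simp
  rw [h2] at h1
  have h3 := (abs_le.1 (h1.trans hζ)).1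
  linarith

/-- The sum over the zeros. -/
noncomputable def SZ (g : ℂ → ℂ) (w : ℂ) : ℝ≥0∞ :=
  ∑' ζ : ZZ g, (analyticOrderNatAt g (ζ : ℂ) : ℝ≥0∞) *
    ENNReal.ofReal (Real.log (‖w - conj (ζ : ℂ)‖ / ‖w - ζ‖))

lemma PJ_use (hPJ : StPJ) (hg : GG h g) {R : ℝ} (hR : Good g R) {w : ℂ}
    (hw : w ∈ ball ((R : ℂ) * I) R) (hgw : g w ≠ 0) :
    0 ≤ (2 * R * w.im - ‖w‖ ^ 2) / (2 * Real.pi * R) * JR g R w ∧
    (2 * R * w.im - ‖w‖ ^ 2) / (2 * Real.pi * R) * JR g R w ≤ sg g w ∧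
    ENNReal.ofReal (sg g w) ≤
      ENNReal.ofReal ((2 * R * w.im - ‖w‖ ^ 2) / (2 * Real.pi * R) * JR g R w) + SZ g w := by
  have hcl : closedBall ((R : ℂ) * I) R ⊆ {w : ℂ | -h < w.im} := by
    intro ζ hζ
    have := closedBall_im hζ
    show -h < ζ.im
    linarith [hg.1]
  obtain ⟨h1, h2⟩ := hPJ g ((R : ℂ) * I) R hR.1 ((analytic hg).mono hcl) hR.2
    (fun ζ hζ => hg.2.2.1 ζ (hcl hζ)) w hw hgw
  rw [T_eq hR.1] at h1 h2
  refine ⟨h1, ?_, ?_⟩
  · have h3 : ENNReal.ofReal ((2 * R * w.im - ‖w‖ ^ 2) / (2 * Real.pi * R) * JR g R w) ≤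
        ENNReal.ofReal (-Real.log ‖g w‖) := by
      rw [h2]
      exact le_self_add
    exact (ENNReal.ofReal_le_ofReal_iff
      (sg_nonneg hg (hcl (ball_subset_closedBall hw)))).1 h3
  · show ENNReal.ofReal (-Real.log ‖g w‖) ≤ _
    rw [h2]
    refine add_le_add le_rfl ?_
    unfold SZ
    have hmem : ∀ ζ : {ζ : ℂ // ζ ∈ ball ((R : ℂ) * I) R ∧ g ζ = 0}, (ζ : ℂ) ∈ ZZ g := by
      intro ζ
      refine ⟨?_, ζ.2.2⟩
      have h4 := (mem_ball_iff' hR.1 _).1 ζ.2.1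
      have h5 : 0 ≤ ‖(ζ : ℂ)‖ ^ 2 := by positivity
      by_contra h6
      push Not at h6
      nlinarith [hR.1]
    have hinj : Function.Injective
        (fun ζ : {ζ : ℂ // ζ ∈ ball ((R : ℂ) * I) R ∧ g ζ = 0} => (⟨ζ, hmem ζ⟩ : ZZ g)) := by
      intro a b hab
      have := congrArg Subtype.val hab
      exact Subtype.ext this
    refine le_trans ?_ (ENNReal.tsum_comp_le_tsum_of_injective hinj
      (fun ζ : ZZ g => (analyticOrderNatAt g (ζ : ℂ) : ℝ≥0∞) *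
        ENNReal.ofReal (Real.log (‖w - conj (ζ : ℂ)‖ / ‖w - ζ‖))))
    refine ENNReal.tsum_le_tsum fun ζ => ?_
    refine mul_le_mul_right ?_ _
    apply ENNReal.ofReal_le_ofReal
    have hRp := hR.1
    have hne : (0 : ℝ) < ‖w - (ζ : ℂ)‖ := by
      rw [norm_pos_iff, sub_ne_zero]
      intro h4
      exact hgw (h4 ▸ ζ.2.2)
    have hid : ‖(R : ℂ) ^ 2 - conj ((ζ : ℂ) - (R : ℂ) * I) * (w - (R : ℂ) * I)‖ ^ 2 =
        (2 * R * w.im - ‖w‖ ^ 2) * (2 * R * (ζ : ℂ).im - ‖(ζ : ℂ)‖ ^ 2) +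
          R ^ 2 * ‖w - (ζ : ℂ)‖ ^ 2 := by
      simp only [← Complex.normSq_eq_norm_sq, Complex.normSq_apply]
      simp only [Complex.sub_re, Complex.sub_im, Complex.mul_re, Complex.mul_im, Complex.conj_re,
        Complex.conj_im, Complex.I_re, Complex.I_im, Complex.ofReal_re, Complex.ofReal_im, pow_two]
      ring
    have hid2 : ‖w - conj (ζ : ℂ)‖ ^ 2 = ‖w - (ζ : ℂ)‖ ^ 2 + 4 * w.im * (ζ : ℂ).im := by
      simp only [← Complex.normSq_eq_norm_sq, Complex.normSq_apply]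
      simp only [Complex.sub_re, Complex.sub_im, Complex.conj_re, Complex.conj_im]
      ring
    have hb1 := (mem_ball_iff' hR.1 _).1 ζ.2.1
    have hb2 := (mem_ball_iff' hR.1 _).1 hw
    have hpos1 : 0 ≤ ‖(ζ : ℂ)‖ ^ 2 := by positivity
    have hpos2 : 0 ≤ ‖w‖ ^ 2 := by positivity
    have hub : ‖(R : ℂ) ^ 2 - conj ((ζ : ℂ) - (R : ℂ) * I) * (w - (R : ℂ) * I)‖ ≤
        R * ‖w - conj (ζ : ℂ)‖ := by
      refine (pow_le_pow_iff_left₀ (norm_nonneg _) (by positivity) two_ne_zero).1 ?_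
      rw [mul_pow, hid, hid2]
      have h5 : (2 * R * w.im - ‖w‖ ^ 2) * (2 * R * (ζ : ℂ).im - ‖(ζ : ℂ)‖ ^ 2) ≤
          (2 * R * w.im) * (2 * R * (ζ : ℂ).im) := by
        apply mul_le_mul (by linarith) (by linarith) (by linarith) (by linarith)
      nlinarith
    have hlb : R * ‖w - (ζ : ℂ)‖ ≤
        ‖(R : ℂ) ^ 2 - conj ((ζ : ℂ) - (R : ℂ) * I) * (w - (R : ℂ) * I)‖ := by
      refine (pow_le_pow_iff_left₀ (by positivity) (norm_nonneg _) two_ne_zero).1 ?_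
      rw [mul_pow, hid]
      have h5 : 0 ≤ (2 * R * w.im - ‖w‖ ^ 2) * (2 * R * (ζ : ℂ).im - ‖(ζ : ℂ)‖ ^ 2) := by
        apply mul_nonneg (by linarith) (by linarith)
      linarith
    have hRw : 0 < R * ‖w - (ζ : ℂ)‖ := by positivity
    apply Real.log_le_log
    · exact div_pos (lt_of_lt_of_le hRw hlb) hRw
    · rw [div_le_div_iff₀ hRw hne]
      calc _ ≤ (R * ‖w - conj (ζ : ℂ)‖) * ‖w - (ζ : ℂ)‖ := by gcongr
        _ = _ := by ring

lemma norm_zt_sub_le {R x : ℝ} (hR : 0 < R) (hx : |x| ≤ R) : ‖zt R x - x‖ ≤ x ^ 2 / R := by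
  have e1 : zt R x - x = -((R : ℂ) * I) *
      (Complex.exp ((x / R : ℝ) * I) - 1 - ((x / R : ℝ) * I)) := by
    unfold zt
    have hRc : (R : ℂ) ≠ 0 := by exact_mod_cast hR.ne'
    push_cast
    field_simp
    ring_nf
    rw [Complex.I_sq]
    ring
  have h1 : ‖((x / R : ℝ) : ℂ) * I‖ = |x| / R := by
    rw [norm_mul, Complex.norm_I, mul_one, Complex.norm_real, Real.norm_eq_abs, abs_div,
      abs_of_pos hR]
  have h2 : ‖((x / R : ℝ) : ℂ) * I‖ ≤ 1 := by
    rw [h1, div_le_one hR]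
    exact hx
  have h3 := Complex.norm_exp_sub_one_sub_id_le h2
  rw [e1, norm_mul, norm_neg, norm_mul, Complex.norm_I, mul_one, Complex.norm_real,
    Real.norm_eq_abs, abs_of_pos hR]
  calc R * ‖Complex.exp ((x / R : ℝ) * I) - 1 - ((x / R : ℝ) * I)‖
      ≤ R * ‖((x / R : ℝ) : ℂ) * I‖ ^ 2 := by gcongr
    _ = x ^ 2 / R := by
      rw [h1, div_pow, sq_abs]
      field_simp

lemma continuous_gzt (hg : GG h g) {R : ℝ} (hR : 0 < R) : Continuous fun x => g (zt R x) := by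
  have h1 : ContinuousOn g {w : ℂ | -h < w.im} := hg.2.1.continuousOn
  exact h1.comp_continuous (continuous_zt R) fun x => by
    have := zt_im_nonneg hR x
    show -h < (zt R x).im
    linarith [hg.1]

lemma measurable_sgzt (hg : GG h g) {R : ℝ} (hR : 0 < R) : Measurable fun x => sg g (zt R x) := by
  unfold sg
  exact (Real.measurable_log.comp (continuous_gzt hg hR).norm.measurable).neg

lemma continuous_sgzt (hg : GG h g) {R : ℝ} (hR : Good g R) :
    Continuous fun x => sg g (zt R x) := by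
  unfold sg
  refine ((continuous_gzt hg hR.1).norm.log fun x => ?_).neg
  rw [norm_ne_zero_iff]
  exact hR.2 _ (zt_mem_sphere hR.1 x)

lemma continuous_sg (hg : GG h g) : Continuous fun x : ℝ => sg g x := by
  have h1 : ContinuousOn g {w : ℂ | -h < w.im} := hg.2.1.continuousOn
  have h2 : Continuous fun x : ℝ => g (x : ℂ) :=
    h1.comp_continuous Complex.continuous_ofReal fun x => by
      show -h < (x : ℂ).im
      simp [hg.1]
  unfold sg
  exact (h2.norm.log fun x => by rw [norm_ne_zero_iff]; exact hg.2.2.2 x).neg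

lemma continuous_integrand (hg : GG h g) {R : ℝ} (hR : Good g R) {w : ℂ}
    (hw : w ∈ ball ((R : ℂ) * I) R) :
    Continuous fun x => sg g (zt R x) / ‖zt R x - w‖ ^ 2 := by
  refine (continuous_sgzt hg hR).div (((continuous_zt R).sub continuous_const).norm.pow 2) fun x => ?_
  have h1 : zt R x - w ≠ 0 := by
    rw [sub_ne_zero]
    intro h2
    have h3 := zt_mem_sphere hR.1 x
    rw [h2, mem_sphere] at h3
    rw [mem_ball] at hw
    linarith
  exact pow_ne_zero _ (norm_ne_zero_iff.2 h1)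

lemma integrand_nonneg (hg : GG h g) {R : ℝ} (hR : 0 < R) (w : ℂ) (x : ℝ) :
    0 ≤ sg g (zt R x) / ‖zt R x - w‖ ^ 2 := by
  have h1 : 0 ≤ sg g (zt R x) := sg_nonneg hg (by
    have := zt_im_nonneg hR x
    linarith [hg.1])
  positivity

lemma integrableOn_integrand (hg : GG h g) {R : ℝ} (hR : Good g R) {w : ℂ}
    (hw : w ∈ ball ((R : ℂ) * I) R) (a b : ℝ) :
    IntegrableOn (fun x => sg g (zt R x) / ‖zt R x - w‖ ^ 2) (Ioc a b) :=
  ((continuous_integrand hg hR hw).continuousOn.integrableOn_Icc).mono_set Ioc_subset_Icc_self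

lemma tendsto_zt {Rn : ℕ → ℝ} (hRn : Tendsto Rn atTop atTop) (x : ℝ) :
    Tendsto (fun n => zt (Rn n) x) atTop (𝓝 (x : ℂ)) := by
  rw [tendsto_iff_norm_sub_tendsto_zero]
  have h1 : Tendsto (fun n => x ^ 2 / Rn n) atTop (𝓝 0) := hRn.const_div_atTop _
  refine squeeze_zero' (Eventually.of_forall fun n => norm_nonneg _) ?_ h1
  filter_upwards [hRn.eventually_ge_atTop (|x| + 1)] with n hn
  exact norm_zt_sub_le (by linarith [abs_nonneg x]) (by linarith)

lemma tendsto_sgzt (hg : GG h g) {Rn : ℕ → ℝ} (hRn : Tendsto Rn atTop atTop) (x : ℝ) :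
    Tendsto (fun n => sg g (zt (Rn n) x)) atTop (𝓝 (sg g x)) := by
  have h1 : ContinuousAt g (x : ℂ) :=
    (hg.2.1.continuousOn).continuousAt ((isOpen_Dom h).mem_nhds (by simp [hg.1]))
  have h2 := h1.tendsto.comp (tendsto_zt hRn x)
  unfold sg
  exact ((h2.norm).log (by rw [norm_ne_zero_iff]; exact hg.2.2.2 x)).neg

/-- Fatou. -/
lemma lintegral_le (hg : GG h g) {Rn : ℕ → ℝ} (hRn : Tendsto Rn atTop atTop)
    (hgood : ∀ n, Good g (Rn n)) {w : ℂ} (hw : 0 < w.im) (K : ℝ)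
    (hball : ∀ n, w ∈ ball (((Rn n : ℝ) : ℂ) * I) (Rn n))
    (hK : ∀ n, JR g (Rn n) w ≤ K) :
    ∫⁻ x : ℝ, ENNReal.ofReal (sg g x / ‖(x : ℂ) - w‖ ^ 2) ≤ ENNReal.ofReal K := by
  set F : ℕ → ℝ → ℝ≥0∞ := fun n => (Ioc (-(Real.pi * Rn n)) (Real.pi * Rn n)).indicator
    (fun x => ENNReal.ofReal (sg g (zt (Rn n) x) / ‖zt (Rn n) x - w‖ ^ 2)) with hF
  have hFm : ∀ n, Measurable (F n) := by
    intro n
    exact ((continuous_integrand hg (hgood n) (hball n)).measurable.ennreal_ofReal).indicator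
      measurableSet_Ioc
  have hFi : ∀ n, ∫⁻ x, F n x ≤ ENNReal.ofReal K := by
    intro n
    rw [hF]
    simp only
    rw [lintegral_indicator measurableSet_Ioc, ← ofReal_integral_eq_lintegral_ofReal
      (integrableOn_integrand hg (hgood n) (hball n) _ _)
      (Eventually.of_forall fun x => integrand_nonneg hg (hgood n).1 w x)]
    exact ENNReal.ofReal_le_ofReal (hK n)
  have hlim : ∀ x : ℝ, Tendsto (fun n => F n x) atTop
      (𝓝 (ENNReal.ofReal (sg g x / ‖(x : ℂ) - w‖ ^ 2))) := by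
    intro x
    have h1 : Tendsto (fun n => ENNReal.ofReal (sg g (zt (Rn n) x) / ‖zt (Rn n) x - w‖ ^ 2)) atTop
        (𝓝 (ENNReal.ofReal (sg g x / ‖(x : ℂ) - w‖ ^ 2))) := by
      refine ENNReal.tendsto_ofReal ?_
      refine (tendsto_sgzt hg hRn x).div (((tendsto_zt hRn x).sub_const w).norm.pow 2) ?_
      have h2 : (x : ℂ) - w ≠ 0 := by
        intro h3
        have := congrArg Complex.im h3
        simp at this
        linarith
      exact pow_ne_zero _ (norm_ne_zero_iff.2 h2)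
    refine h1.congr' ?_
    filter_upwards [hRn.eventually_ge_atTop (|x| + 1)] with n hn
    rw [hF]
    simp only
    rw [indicator_of_mem]
    have h2 : |x| + 1 ≤ Real.pi * Rn n := by
      have := Real.pi_gt_three
      nlinarith [abs_nonneg x]
    constructor
    · have := neg_abs_le x
      linarith
    · have := le_abs_self x
      linarith
  calc ∫⁻ x : ℝ, ENNReal.ofReal (sg g x / ‖(x : ℂ) - w‖ ^ 2)
      = ∫⁻ x : ℝ, liminf (fun n => F n x) atTop := by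
        apply lintegral_congr
        intro x
        exact (hlim x).liminf_eq.symm
    _ ≤ liminf (fun n => ∫⁻ x, F n x) atTop := lintegral_liminf_le hFm
    _ ≤ ENNReal.ofReal K := by
        refine liminf_le_of_frequently_le' ?_
        exact Frequently.of_forall hFi

lemma admissible_sg (hg : GG h g) {w : ℂ} (hw : 0 < w.im) {K : ℝ}
    (hK : ∫⁻ x : ℝ, ENNReal.ofReal (sg g x / ‖(x : ℂ) - w‖ ^ 2) ≤ ENNReal.ofReal K) :
    Admissible (fun x : ℝ => sg g x) := by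
  have hne : ∀ x : ℝ, (0 : ℝ) < ‖(x : ℂ) - w‖ ^ 2 := by
    intro x
    have h2 : (x : ℂ) - w ≠ 0 := by
      intro h3
      have := congrArg Complex.im h3
      simp at this
      linarith
    have := norm_pos_iff.2 h2
    positivity
  have h0 : ∀ x : ℝ, 0 ≤ sg g x := fun x => sg_nonneg hg (by simp [hg.1])
  have hint : Integrable (fun x : ℝ => sg g x / ‖(x : ℂ) - w‖ ^ 2) := by
    refine ⟨?_, ?_⟩
    · refine Continuous.aestronglyMeasurable ?_
      exact (continuous_sg hg).div (by fun_prop) fun x => (hne x).ne'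
    · rw [hasFiniteIntegral_iff_ofReal (Eventually.of_forall fun x => div_nonneg (h0 x) (hne x).le)]
      exact lt_of_le_of_lt hK ENNReal.ofReal_lt_top
  unfold Admissible
  refine (hint.const_mul (2 + 2 * ‖w‖ ^ 2)).mono' ?_ (Eventually.of_forall fun x => ?_)
  · refine Continuous.aestronglyMeasurable ?_
    exact (continuous_sg hg).div (by fun_prop) fun x => by positivity
  · rw [Real.norm_eq_abs, abs_of_nonneg (div_nonneg (h0 x) (by positivity)), ← mul_div_assoc,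
      div_le_div_iff₀ (by positivity) (hne x)]
    have h1 : ‖(x : ℂ) - w‖ ^ 2 ≤ (2 + 2 * ‖w‖ ^ 2) * (1 + x ^ 2) := by
      have h2 : ‖(x : ℂ) - w‖ ≤ |x| + ‖w‖ := by
        calc ‖(x : ℂ) - w‖ ≤ ‖(x : ℂ)‖ + ‖w‖ := norm_sub_le _ _
          _ = _ := by simp
      have h3 : ‖(x : ℂ) - w‖ ^ 2 ≤ (|x| + ‖w‖) ^ 2 := by gcongr
      have h4 : (|x| + ‖w‖) ^ 2 ≤ 2 * x ^ 2 + 2 * ‖w‖ ^ 2 := by
        nlinarith [sq_nonneg (|x| - ‖w‖), sq_abs x]
      nlinarith [sq_nonneg x, sq_nonneg ‖w‖, mul_nonneg (sq_nonneg x) (sq_nonneg ‖w‖)]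
    calc sg g x * ‖(x : ℂ) - w‖ ^ 2 ≤ sg g x * ((2 + 2 * ‖w‖ ^ 2) * (1 + x ^ 2)) := by
          exact mul_le_mul_of_nonneg_left h1 (h0 x)
      _ = _ := by ring

lemma near_bound (hg : GG h g) (L : ℝ) : ∃ M R1 : ℝ, 0 ≤ M ∧ ∀ R x : ℝ, R1 ≤ R → |x| ≤ L →
    sg g (zt R x) ≤ M := by
  have hc : ContinuousOn g {w : ℂ | -h < w.im} := hg.2.1.continuousOn
  have hO1 : IsOpen ({w : ℂ | -h < w.im} ∩ g ⁻¹' {0}ᶜ) :=
    hc.isOpen_inter_preimage (isOpen_Dom h) isOpen_compl_singleton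
  have hsc : ContinuousOn (sg g) ({w : ℂ | -h < w.im} ∩ g ⁻¹' {0}ᶜ) := by
    unfold sg
    refine ((hc.mono inter_subset_left).norm.log fun w hw => ?_).neg
    rw [norm_ne_zero_iff]
    exact hw.2
  obtain ⟨M0, hM0⟩ := (isCompact_Icc (a := -L) (b := L)).exists_bound_of_continuousOn
    (continuous_sg hg).continuousOn
  have hO2 : IsOpen (({w : ℂ | -h < w.im} ∩ g ⁻¹' {0}ᶜ) ∩ sg g ⁻¹' Iio (|M0| + 1)) :=
    hsc.isOpen_inter_preimage hO1 isOpen_Iio
  have hS : IsCompact ((fun x : ℝ => (x : ℂ)) '' Icc (-L) L) :=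
    isCompact_Icc.image Complex.continuous_ofReal
  have hsub : (fun x : ℝ => (x : ℂ)) '' Icc (-L) L ⊆
      (({w : ℂ | -h < w.im} ∩ g ⁻¹' {0}ᶜ) ∩ sg g ⁻¹' Iio (|M0| + 1)) := by
    rintro _ ⟨x, hx, rfl⟩
    have h1 : -h < ((x : ℝ) : ℂ).im := by simp [hg.1]
    refine ⟨⟨h1, hg.2.2.2 x⟩, ?_⟩
    have h2 := hM0 x hx
    rw [Real.norm_eq_abs] at h2
    show sg g x < |M0| + 1
    have h3 := le_abs_self (sg g x)
    have h4 := le_abs_self M0
    linarith
  obtain ⟨δ, hδ, hth⟩ := hS.exists_thickening_subset_open hO2 hsub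
  refine ⟨|M0| + 1, max (|L| + 1) (L ^ 2 / δ + 1), by positivity, fun R x hR hx => ?_⟩
  have h1 : |L| + 1 ≤ R := (le_max_left _ _).trans hR
  have h2 : L ^ 2 / δ + 1 ≤ R := (le_max_right _ _).trans hR
  have hRp : 0 < R := by linarith [abs_nonneg L]
  have h3 : ‖zt R x - x‖ ≤ x ^ 2 / R :=
    norm_zt_sub_le hRp (by linarith [le_abs_self L])
  have h4 : x ^ 2 ≤ L ^ 2 := by
    rw [← sq_abs x]
    exact pow_le_pow_left₀ (abs_nonneg _) hx 2
  have h5 : x ^ 2 / R < δ := by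
    rw [div_lt_iff₀ hRp]
    have h6 : L ^ 2 / δ < R := by linarith
    rw [div_lt_iff₀ hδ] at h6
    linarith
  have h6 : zt R x ∈ thickening δ ((fun x : ℝ => (x : ℂ)) '' Icc (-L) L) := by
    rw [mem_thickening_iff]
    refine ⟨(x : ℂ), ⟨x, abs_le.1 hx, rfl⟩, ?_⟩
    rw [dist_eq_norm]
    linarith
  have h7 : sg g (zt R x) < |M0| + 1 := (hth h6).2
  exact h7.le

lemma norm_sub_ge {w : ℂ} (z : ℂ) (x : ℝ) (hw : 0 < w.im) (hz : ‖z - x‖ ≤ w.im / 2) :
    w.im / 2 ≤ ‖z - w‖ := by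
  have h1 : w.im ≤ ‖w - (x : ℂ)‖ := by
    have := Complex.abs_im_le_norm (w - (x : ℂ))
    simp at this
    exact (le_abs_self _).trans this
  have h2 : ‖w - (x : ℂ)‖ ≤ ‖z - w‖ + ‖z - x‖ := by
    calc ‖w - (x : ℂ)‖ = ‖(z - x) - (z - w)‖ := by ring_nf
      _ ≤ ‖z - x‖ + ‖z - w‖ := norm_sub_le _ _
      _ = _ := add_comm _ _
  linarith

lemma tendsto_near (hg : GG h g) {Rn : ℕ → ℝ} (hRn : Tendsto Rn atTop atTop)
    (hgood : ∀ n, Good g (Rn n)) {w : ℂ} (hw : 0 < w.im) (L : ℝ) (hL : 0 ≤ L) :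
    Tendsto (fun n => ∫ x in Ioc (-L) L, sg g (zt (Rn n) x) / ‖zt (Rn n) x - w‖ ^ 2) atTop
      (𝓝 (∫ x in Ioc (-L) L, sg g x / ‖(x : ℂ) - w‖ ^ 2)) := by
  obtain ⟨M, R1, hM, hb⟩ := near_bound hg L
  refine tendsto_integral_filter_of_dominated_convergence
    (fun _ => M / (w.im / 2) ^ 2) ?_ ?_ ?_ ?_
  · refine Eventually.of_forall fun n => ?_
    refine Measurable.aestronglyMeasurable ?_
    refine (measurable_sgzt hg (hgood n).1).div ?_
    exact (((continuous_zt _).sub continuous_const).norm.pow 2).measurable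
  · filter_upwards [hRn.eventually_ge_atTop R1, hRn.eventually_ge_atTop (L + 1),
      hRn.eventually_ge_atTop (L ^ 2 / (w.im / 2))] with n h1 h2 h3
    rw [ae_restrict_iff' measurableSet_Ioc]
    refine Eventually.of_forall fun x hx => ?_
    have hx' : |x| ≤ L := abs_le.2 ⟨hx.1.le, hx.2⟩
    have hRp := (hgood n).1
    rw [Real.norm_eq_abs, abs_of_nonneg (integrand_nonneg hg hRp w x)]
    have h4 : ‖zt (Rn n) x - x‖ ≤ x ^ 2 / Rn n := norm_zt_sub_le hRp (by linarith)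
    have h5 : x ^ 2 ≤ L ^ 2 := by
      rw [← sq_abs x]
      exact pow_le_pow_left₀ (abs_nonneg _) hx' 2
    have h6 : x ^ 2 / Rn n ≤ w.im / 2 := by
      rw [div_le_iff₀ hRp]
      rw [div_le_iff₀ (by positivity)] at h3
      linarith
    have h7 := norm_sub_ge (zt (Rn n) x) x hw (h4.trans h6)
    have h8 := hb (Rn n) x h1 hx'
    have h9 : (w.im / 2) ^ 2 ≤ ‖zt (Rn n) x - w‖ ^ 2 := by gcongr
    exact div_le_div₀ hM h8 (by positivity) h9
  · exact integrable_const _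
  · refine Eventually.of_forall fun x => ?_
    refine (tendsto_sgzt hg hRn x).div (((tendsto_zt hRn x).sub_const w).norm.pow 2) ?_
    have h2 : (x : ℂ) - w ≠ 0 := by
      intro h3
      have := congrArg Complex.im h3
      simp at this
      linarith
    exact pow_ne_zero _ (norm_ne_zero_iff.2 h2)

/-- The far part. -/
lemma JR_le (hg : GG h g) {R : ℝ} (hR : Good g R) {w w0 : ℂ} {L : ℝ}
    (hw : w ∈ ball ((R : ℂ) * I) R) (hw0 : w0 ∈ ball ((R : ℂ) * I) R)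
    (hL : 4 * (‖w‖ + ‖w0‖ + 1) ≤ 2 / Real.pi * L) :
    JR g R w ≤ (∫ x in Ioc (-L) L, sg g (zt R x) / ‖zt R x - w‖ ^ 2) + 25 / 9 * JR g R w0 := by
  have hi := integrableOn_integrand hg hR hw
  have hi0 := integrableOn_integrand hg hR hw0
  have hnn := integrand_nonneg hg hR.1
  have key : ∀ x ∈ Ioc (-(Real.pi * R)) (Real.pi * R), sg g (zt R x) / ‖zt R x - w‖ ^ 2 ≤
      (Ioc (-L) L).indicator (fun x => sg g (zt R x) / ‖zt R x - w‖ ^ 2) x +
        25 / 9 * (sg g (zt R x) / ‖zt R x - w0‖ ^ 2) := by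
    intro x hx
    by_cases hxL : x ∈ Ioc (-L) L
    · rw [indicator_of_mem hxL]
      have := hnn w0 x
      linarith
    · rw [indicator_of_notMem hxL, zero_add]
      have h1 : L ≤ |x| := by
        rw [mem_Ioc, not_and_or] at hxL
        rcases hxL with h2 | h2
        · have := neg_le_abs x
          linarith
        · have := le_abs_self x
          linarith
      have h2 : 2 / Real.pi * |x| ≤ ‖zt R x‖ := norm_zt_ge hR.1 (abs_le.2 ⟨hx.1.le, hx.2⟩)
      have h3 : 4 * (‖w‖ + ‖w0‖ + 1) ≤ ‖zt R x‖ := by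
        refine hL.trans (le_trans ?_ h2)
        gcongr
      have hn := norm_nonneg w
      have hn0 := norm_nonneg w0
      have h4 : 3 / 4 * ‖zt R x‖ ≤ ‖zt R x - w‖ := by
        have := norm_sub_norm_le (zt R x) w
        linarith
      have h5 : ‖zt R x - w0‖ ≤ 5 / 4 * ‖zt R x‖ := by
        have := norm_sub_le (zt R x) w0
        linarith
      have hz : 0 < ‖zt R x‖ := by linarith
      have h6 : 3 / 4 * ‖zt R x‖ ≤ ‖zt R x - w0‖ := by
        have := norm_sub_norm_le (zt R x) w0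
        linarith
      have h7 : 0 ≤ sg g (zt R x) := sg_nonneg hg (by
        have := zt_im_nonneg hR.1 x
        linarith [hg.1])
      have h8 : ‖zt R x - w0‖ ^ 2 ≤ 25 / 9 * ‖zt R x - w‖ ^ 2 := by
        have h9 : ‖zt R x - w0‖ ≤ 5 / 3 * ‖zt R x - w‖ := by linarith
        calc ‖zt R x - w0‖ ^ 2 ≤ (5 / 3 * ‖zt R x - w‖) ^ 2 := by gcongr
          _ = _ := by ring
      have h10 : 0 < ‖zt R x - w‖ := by linarith
      have h11 : 0 < ‖zt R x - w0‖ := by linarith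
      rw [← mul_div_assoc, div_le_div_iff₀ (by positivity) (by positivity)]
      calc sg g (zt R x) * ‖zt R x - w0‖ ^ 2 ≤ sg g (zt R x) * (25 / 9 * ‖zt R x - w‖ ^ 2) := by
            gcongr
        _ = _ := by ring
  unfold JR
  have hind : IntegrableOn ((Ioc (-L) L).indicator
      (fun x => sg g (zt R x) / ‖zt R x - w‖ ^ 2)) (Ioc (-(Real.pi * R)) (Real.pi * R)) :=
    (hi _ _).indicator measurableSet_Ioc
  calc ∫ x in Ioc (-(Real.pi * R)) (Real.pi * R), sg g (zt R x) / ‖zt R x - w‖ ^ 2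
      ≤ ∫ x in Ioc (-(Real.pi * R)) (Real.pi * R),
        ((Ioc (-L) L).indicator (fun x => sg g (zt R x) / ‖zt R x - w‖ ^ 2) x +
        25 / 9 * (sg g (zt R x) / ‖zt R x - w0‖ ^ 2)) :=
        setIntegral_mono_on (hi _ _) (hind.add ((hi0 _ _).const_mul _)) measurableSet_Ioc key
    _ = (∫ x in Ioc (-(Real.pi * R)) (Real.pi * R),
        (Ioc (-L) L).indicator (fun x => sg g (zt R x) / ‖zt R x - w‖ ^ 2) x) +
        25 / 9 * ∫ x in Ioc (-(Real.pi * R)) (Real.pi * R),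
          (sg g (zt R x) / ‖zt R x - w0‖ ^ 2) := by
        rw [integral_add hind ((hi0 _ _).const_mul _), integral_const_mul]
    _ ≤ _ := by
        refine add_le_add ?_ le_rfl
        rw [setIntegral_indicator measurableSet_Ioc]
        refine setIntegral_mono_set (hi _ _) ?_ ?_
        · exact Eventually.of_forall fun x => hnn w x
        · exact Eventually.of_forall fun x hx => hx.2

end Rp

theorem stRp (hPJ : StPJ) : StRp := by
  intro g h hg
  -- a point where g does not vanish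
  obtain ⟨w0, hw0, hgw0⟩ : ∃ w0 : ℂ, 0 < w0.im ∧ g w0 ≠ 0 := by
    have hc : ContinuousOn g {w : ℂ | -h < w.im} := hg.2.1.continuousOn
    have h1 : ContinuousAt g (0 : ℂ) := hc.continuousAt ((Rp.isOpen_Dom h).mem_nhds (by simp [hg.1]))
    have h2 : ∀ᶠ z in 𝓝 (0 : ℂ), g z ≠ 0 := h1.eventually_ne (by simpa using hg.2.2.2 0)
    have h3 : Tendsto (fun t : ℝ => (t : ℂ) * I) (𝓝[>] 0) (𝓝 0) := by
      have : Continuous fun t : ℝ => (t : ℂ) * I := by fun_prop
      have h4 := this.tendsto 0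
      simp only [Complex.ofReal_zero, zero_mul] at h4
      exact h4.mono_left nhdsWithin_le_nhds
    obtain ⟨t, ht1, ht2⟩ := ((h3.eventually h2).and self_mem_nhdsWithin).exists
    exact ⟨(t : ℂ) * I, by simpa using ht2, ht1⟩
  -- good radii
  have hexR : ∀ n : ℕ, ∃ R : ℝ, (n : ℝ) + 1 < R ∧ Rp.Good g R := by
    intro n
    obtain ⟨R, hR1, hR2⟩ := Rp.exists_good hg ((n : ℝ) + 1) ((n : ℝ) + 2) (by positivity)
      (by linarith)
    exact ⟨R, hR1.1, hR2⟩
  choose Rn0 hRn1 hRn2 using hexR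
  have hRn0 : Tendsto Rn0 atTop atTop := by
    refine tendsto_atTop_mono (fun n => ?_) tendsto_natCast_atTop_atTop
    have := hRn1 n
    linarith
  have hsg0 : 0 ≤ Rp.sg g w0 := Rp.sg_nonneg hg (by linarith [hg.1])
  -- bound of J at w0
  have hJ : ∀ R : ℝ, Rp.Good g R → ‖w0‖ ^ 2 / w0.im ≤ R →
      w0 ∈ ball ((R : ℂ) * I) R ∧ Rp.JR g R w0 ≤ 2 * Real.pi * Rp.sg g w0 / w0.im := by
    intro R hR hR1
    have hRp := hR.1
    have hpi := Real.pi_pos
    rw [div_le_iff₀ hw0] at hR1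
    have hmem : w0 ∈ ball ((R : ℂ) * I) R := by
      rw [Rp.mem_ball_iff' hR.1]
      have : 0 < R * w0.im := by positivity
      linarith
    refine ⟨hmem, ?_⟩
    have h1 := (Rp.PJ_use hPJ hg hR hmem hgw0).2.1
    have h2 : R * w0.im ≤ 2 * R * w0.im - ‖w0‖ ^ 2 := by linarith
    have h3 : 0 ≤ Rp.JR g R w0 := by
      unfold Rp.JR
      exact integral_nonneg fun x => Rp.integrand_nonneg hg hRp w0 x
    have h4 : (R * w0.im) / (2 * Real.pi * R) * Rp.JR g R w0 ≤ Rp.sg g w0 := by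
      refine le_trans ?_ h1
      gcongr
    rw [le_div_iff₀ hw0]
    have h5 : (R * w0.im) / (2 * Real.pi * R) = w0.im / (2 * Real.pi) := by field_simp
    rw [h5, div_mul_eq_mul_div, div_le_iff₀ (by positivity)] at h4
    linarith
  obtain ⟨N, hN⟩ := (hRn0.eventually_ge_atTop (‖w0‖ ^ 2 / w0.im)).exists_forall_of_atTop
  have hadm : Admissible (fun x : ℝ => Rp.sg g x) := by
    have h1 : Tendsto (fun n => Rn0 (n + N)) atTop atTop := hRn0.comp (tendsto_add_atTop_nat N)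
    refine Rp.admissible_sg hg hw0 (K := 2 * Real.pi * Rp.sg g w0 / w0.im)
      (Rp.lintegral_le hg h1 (fun n => hRn2 _) hw0 _
        (fun n => (hJ _ (hRn2 _) (hN _ (by omega))).1)
        (fun n => (hJ _ (hRn2 _) (hN _ (by omega))).2))
  refine ⟨hadm, 50 / 9 * Rp.sg g w0 / w0.im, by positivity, ?_⟩
  intro w hw hgw
  set L : ℝ := Real.pi / 2 * (4 * (‖w‖ + ‖w0‖ + 1)) with hL
  have hpi := Real.pi_pos
  have hL0 : 0 ≤ L := by positivity
  have hLL : 4 * (‖w‖ + ‖w0‖ + 1) ≤ 2 / Real.pi * L := by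
    rw [hL]
    apply le_of_eq
    field_simp
  set A : ℝ := ∫ x in Ioc (-L) L, Rp.sg g x / ‖(x : ℂ) - w‖ ^ 2 with hA
  have hAlim := Rp.tendsto_near hg hRn0 hRn2 hw L hL0
  have hmain : ∀ᶠ n in atTop, ENNReal.ofReal (Rp.sg g w) ≤
      ENNReal.ofReal (w.im / Real.pi * (∫ x in Ioc (-L) L,
        Rp.sg g (Rp.zt (Rn0 n) x) / ‖Rp.zt (Rn0 n) x - w‖ ^ 2) +
        50 / 9 * Rp.sg g w0 / w0.im * w.im) + Rp.SZ g w := by
    filter_upwards [hRn0.eventually_ge_atTop (‖w0‖ ^ 2 / w0.im),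
      hRn0.eventually_ge_atTop (‖w‖ ^ 2 / w.im)] with n h1 h2
    obtain ⟨hm0, hJ0⟩ := hJ _ (hRn2 n) h1
    have hRp := (hRn2 n).1
    rw [div_le_iff₀ hw] at h2
    have hm : w ∈ ball (((Rn0 n : ℝ) : ℂ) * I) (Rn0 n) := by
      rw [Rp.mem_ball_iff' hRp]
      have : 0 < Rn0 n * w.im := by positivity
      linarith
    refine (Rp.PJ_use hPJ hg (hRn2 n) hm hgw).2.2.trans ?_
    refine add_le_add (ENNReal.ofReal_le_ofReal ?_) le_rfl
    have hJw : 0 ≤ Rp.JR g (Rn0 n) w := by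
      unfold Rp.JR
      exact integral_nonneg fun x => Rp.integrand_nonneg hg hRp w x
    calc (2 * Rn0 n * w.im - ‖w‖ ^ 2) / (2 * Real.pi * Rn0 n) * Rp.JR g (Rn0 n) w
        ≤ (2 * Rn0 n * w.im) / (2 * Real.pi * Rn0 n) * Rp.JR g (Rn0 n) w := by
          gcongr
          have : 0 ≤ ‖w‖ ^ 2 := by positivity
          linarith
      _ = w.im / Real.pi * Rp.JR g (Rn0 n) w := by
          congr 1
          field_simp
      _ ≤ w.im / Real.pi * ((∫ x in Ioc (-L) L,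
            Rp.sg g (Rp.zt (Rn0 n) x) / ‖Rp.zt (Rn0 n) x - w‖ ^ 2) +
            25 / 9 * (2 * Real.pi * Rp.sg g w0 / w0.im)) := by
          have h3 := Rp.JR_le hg (hRn2 n) hm hm0 hLL
          have h4 : w.im / Real.pi ≥ 0 := by positivity
          refine mul_le_mul_of_nonneg_left ?_ h4
          linarith
      _ = _ := by
          field_simp
          ring
  have hlim : Tendsto (fun n => ENNReal.ofReal (w.im / Real.pi * (∫ x in Ioc (-L) L,
        Rp.sg g (Rp.zt (Rn0 n) x) / ‖Rp.zt (Rn0 n) x - w‖ ^ 2) +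
        50 / 9 * Rp.sg g w0 / w0.im * w.im) + Rp.SZ g w) atTop
      (𝓝 (ENNReal.ofReal (w.im / Real.pi * A + 50 / 9 * Rp.sg g w0 / w0.im * w.im) +
        Rp.SZ g w)) := by
    refine Tendsto.add_const _ ?_
    refine ENNReal.tendsto_ofReal ?_
    exact (hAlim.const_mul _).add_const _
  have hfin := ge_of_tendsto hlim hmain
  refine hfin.trans ?_
  show _ ≤ ENNReal.ofReal (Vp (fun x : ℝ => Rp.sg g x) (50 / 9 * Rp.sg g w0 / w0.im) w.re w.im) +
    Rp.SZ g w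
  refine add_le_add (ENNReal.ofReal_le_ofReal ?_) le_rfl
  unfold Vp
  refine add_le_add ?_ le_rfl
  rw [poisson_eq_integral]
  have hsgn : ∀ x : ℝ, 0 ≤ Rp.sg g x := fun x => Rp.sg_nonneg hg (by simp [hg.1])
  have h1 := Crit.TFUp.integrable_pois hadm (z := w.re) hw
  have h2 : w.im * A ≤ ∫ t : ℝ, w.im * Rp.sg g t / ((w.re - t) ^ 2 + w.im ^ 2) := by
    rw [hA, ← integral_const_mul]
    have h3 : ∀ t : ℝ, w.im * (Rp.sg g t / ‖(t : ℂ) - w‖ ^ 2) =
        w.im * Rp.sg g t / ((w.re - t) ^ 2 + w.im ^ 2) := by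
      intro t
      have h4 : ‖(t : ℂ) - w‖ ^ 2 = (w.re - t) ^ 2 + w.im ^ 2 := by
        rw [← Complex.normSq_eq_norm_sq, Complex.normSq_apply]
        simp
        ring
      rw [h4]
      ring
    simp only [h3]
    refine setIntegral_le_integral h1 (Eventually.of_forall fun t => ?_)
    have := hsgn t
    show 0 ≤ w.im * Rp.sg g t / ((w.re - t) ^ 2 + w.im ^ 2)
    positivity
  calc w.im / Real.pi * A = (1 / Real.pi) * (w.im * A) := by ring
    _ ≤ _ := by gcongr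

end Pool.Agent.Work.MP_055a27_an.Fn
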