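import Pool.Agent.Work.MP_055a27_an.Fn.Stmts2
import Pool.Agent.Work.MP_055a27_an.Crit.TFUp

/-!
# The sum over the zeros
-/

open MeasureTheory Set Filter Topology Complex Metric
open scoped ENNReal NNReal ComplexConjugate

set_option autoImplicit false

namespace Pool.Agent.Work.MP_055a27_an.Fn

namespace Zs

/-- The Poisson kernel. -/
noncomputable def ker (z y t : ℝ) : ℝ≥0∞ :=
  ENNReal.ofReal ((1 / Real.pi) * (y / ((z - t) ^ 2 + y ^ 2)))

lemma ker_meas (z y : ℝ) : Measurable (ker z y) := by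
  unfold ker
  fun_prop

lemma ofReal_poisson {f : ℝ → ℝ} (hf : Admissible f) (h0 : ∀ t, 0 ≤ f t) {z y : ℝ} (hy : 0 < y) :
    ENNReal.ofReal (poisson f z y) = ∫⁻ t, ker z y t * ENNReal.ofReal (f t) := by
  have hint := (Crit.TFUp.integrable_pois hf (z := z) hy).const_mul (1 / Real.pi)
  rw [poisson_eq_integral, ← integral_const_mul, ofReal_integral_eq_lintegral_ofReal hint]
  · refine lintegral_congr fun t => ?_
    have h3 : 0 < (z - t) ^ 2 + y ^ 2 := by positivity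
    unfold ker
    rw [← ENNReal.ofReal_mul (by positivity)]
    congr 1
    ring
  · refine Eventually.of_forall fun t => ?_
    have h3 : 0 < (z - t) ^ 2 + y ^ 2 := by positivity
    have h4 := h0 t
    show 0 ≤ _
    positivity

/-- The interval over the point. -/
def Iv (ζ : ℂ) : Set ℝ := Icc (ζ.re - ζ.im) (ζ.re + ζ.im)

/-- The low points. -/
def Lo (ζ : ℂ) : Prop := ζ.im ≤ |ζ.re| / 2 + 1

lemma normsq (ζ : ℂ) : ‖ζ‖ ^ 2 = ζ.re ^ 2 + ζ.im ^ 2 := by
  rw [← Complex.normSq_eq_norm_sq, Complex.normSq_apply]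
  ring

lemma low_bound {ζ : ℂ} (h0 : 0 < ζ.im) (hl : Lo ζ) {t : ℝ} (ht : t ∈ Iv ζ) :
    1 / (1 + t ^ 2) ≤ 28 / (1 + ‖ζ‖ ^ 2) := by
  have h1 : (1 + ‖ζ‖ ^ 2) ≤ 28 * (1 + t ^ 2) := by
    rw [normsq]
    unfold Lo at hl
    obtain ⟨ha, hb⟩ := ht
    rcases le_or_gt 4 |ζ.re| with h | h
    · have h2 : |ζ.re| / 4 ≤ |t| := by
        have h3 : |ζ.re| - |t| ≤ |ζ.re - t| := abs_sub_abs_le_abs_sub _ _
        have h4 : |ζ.re - t| ≤ ζ.im := by
          rw [abs_le]
          constructor <;> linarith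
        linarith
      have h5 : (|ζ.re| / 4) ^ 2 ≤ t ^ 2 := by
        rw [← sq_abs t]
        exact pow_le_pow_left₀ (by positivity) h2 2
      have h6 : ζ.im ^ 2 ≤ (|ζ.re| / 2 + 1) ^ 2 := pow_le_pow_left₀ h0.le hl 2
      nlinarith [sq_abs ζ.re]
    · have h2 : ζ.im ≤ 3 := by linarith
      have h3 : ζ.re ^ 2 ≤ 16 := by
        rw [← sq_abs]
        nlinarith [abs_nonneg ζ.re]
      nlinarith [sq_nonneg t]
  rw [div_le_div_iff₀ (by positivity) (by positivity)]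
  linarith

lemma high_bound {ζ : ℂ} (h0 : 0 < ζ.im) (hl : ¬ Lo ζ) :
    1 / ζ.im ≤ 6 * (ζ.im / (1 + ‖ζ‖ ^ 2)) := by
  unfold Lo at hl
  push Not at hl
  have h1 : |ζ.re| ≤ 2 * ζ.im := by linarith
  have h2 : 1 ≤ ζ.im := by linarith [abs_nonneg ζ.re]
  have h3 : ζ.re ^ 2 ≤ (2 * ζ.im) ^ 2 := by
    rw [← sq_abs]
    exact pow_le_pow_left₀ (abs_nonneg _) h1 2
  rw [← mul_div_assoc, div_le_div_iff₀ h0 (by positivity), normsq]
  nlinarith

end Zs

open Zs in
open Classical in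
theorem stZs (hPd : StPd) (hGa : StGa) : StZs := by
  intro δ Z m hδ0 hδ1 hZc hpos hsum
  obtain ⟨C, hC0, hG⟩ := hGa δ hδ0 hδ1
  have : Countable Z := hZc.to_subtype
  set S : ℝ≥0∞ := ∑' ζ : Z, (m ζ : ℝ≥0∞) * ENNReal.ofReal ((ζ : ℂ).im / (1 + ‖(ζ : ℂ)‖ ^ 2))
    with hS
  set cL : Z → ℝ≥0∞ := fun ζ => if Lo (ζ : ℂ) then (m ζ : ℝ≥0∞) * ENNReal.ofReal C else 0 with hcL
  set R : ℝ → ℝ≥0∞ := fun t => ∑' ζ : Z, cL ζ * (Iv (ζ : ℂ)).indicator (fun _ => (1 : ℝ≥0∞)) t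
    with hR
  have hIm : ∀ ζ : ℂ, MeasurableSet (Iv ζ) := fun ζ => measurableSet_Icc
  have hmeas1 : ∀ ζ : Z, Measurable fun t =>
      cL ζ * (Iv (ζ : ℂ)).indicator (fun _ => (1 : ℝ≥0∞)) t := fun ζ =>
    (measurable_const.indicator (hIm _)).const_mul _
  have hRm : Measurable R := Measurable.ennreal_tsum hmeas1
  have hwm : Measurable fun t : ℝ => ENNReal.ofReal (1 / (1 + t ^ 2)) := by fun_prop
  -- the integral of R against the weight
  have hRint : ∫⁻ t, ENNReal.ofReal (1 / (1 + t ^ 2)) * R t ≤ ENNReal.ofReal (56 * C) * S := by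
    have e1 : ∀ t, ENNReal.ofReal (1 / (1 + t ^ 2)) * R t =
        ∑' ζ : Z, ENNReal.ofReal (1 / (1 + t ^ 2)) *
          (cL ζ * (Iv (ζ : ℂ)).indicator (fun _ => (1 : ℝ≥0∞)) t) := by
      intro t
      rw [hR, ENNReal.tsum_mul_left]
    have e0 := lintegral_tsum (μ := volume) (f := fun (ζ : Z) (t : ℝ) =>
      ENNReal.ofReal (1 / (1 + t ^ 2)) *
        (cL ζ * (Iv (ζ : ℂ)).indicator (fun _ => (1 : ℝ≥0∞)) t)) fun ζ =>
      (hwm.mul (hmeas1 ζ)).aemeasurable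
    rw [lintegral_congr e1, e0, hS, ← ENNReal.tsum_mul_left]
    refine ENNReal.tsum_le_tsum fun ζ => ?_
    by_cases hl : Lo (ζ : ℂ)
    · have h0 : 0 < (ζ : ℂ).im := hpos _ ζ.2
      have e2 : ∀ t, ENNReal.ofReal (1 / (1 + t ^ 2)) *
          (cL ζ * (Iv (ζ : ℂ)).indicator (fun _ => (1 : ℝ≥0∞)) t) ≤
          (Iv (ζ : ℂ)).indicator (fun _ => cL ζ * ENNReal.ofReal (28 / (1 + ‖(ζ : ℂ)‖ ^ 2))) t := by
        intro t
        by_cases ht : t ∈ Iv (ζ : ℂ)
        · rw [indicator_of_mem ht, indicator_of_mem ht, mul_one, mul_comm]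
          exact mul_le_mul_right (ENNReal.ofReal_le_ofReal (low_bound h0 hl ht)) _
        · rw [indicator_of_notMem ht, indicator_of_notMem ht]
          simp
      refine (lintegral_mono e2).trans ?_
      rw [lintegral_indicator (hIm _), setLIntegral_const]
      have e3 : volume (Iv (ζ : ℂ)) = ENNReal.ofReal (2 * (ζ : ℂ).im) := by
        unfold Iv
        rw [Real.volume_Icc]
        congr 1
        ring
      rw [e3]
      simp only [hcL, if_pos hl]
      have e4 : (m ζ : ℝ≥0∞) * ENNReal.ofReal C * ENNReal.ofReal (28 / (1 + ‖(ζ : ℂ)‖ ^ 2)) *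
          ENNReal.ofReal (2 * (ζ : ℂ).im) = (m ζ : ℝ≥0∞) * ENNReal.ofReal
          (C * (28 / (1 + ‖(ζ : ℂ)‖ ^ 2)) * (2 * (ζ : ℂ).im)) := by
        rw [ENNReal.ofReal_mul (p := C * (28 / (1 + ‖(ζ : ℂ)‖ ^ 2))) (by positivity),
          ENNReal.ofReal_mul hC0]
        ring
      have e5 : ENNReal.ofReal (56 * C) * ((m ζ : ℝ≥0∞) *
          ENNReal.ofReal ((ζ : ℂ).im / (1 + ‖(ζ : ℂ)‖ ^ 2))) = (m ζ : ℝ≥0∞) * ENNReal.ofReal
          (56 * C * ((ζ : ℂ).im / (1 + ‖(ζ : ℂ)‖ ^ 2))) := by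
        rw [ENNReal.ofReal_mul (p := 56 * C) (by positivity)]
        ring
      rw [e4, e5]
      apply le_of_eq
      congr 2
      ring
    · have e2 : ∀ t, ENNReal.ofReal (1 / (1 + t ^ 2)) *
          (cL ζ * (Iv (ζ : ℂ)).indicator (fun _ => (1 : ℝ≥0∞)) t) = 0 := by
        intro t
        simp only [hcL, if_neg hl, zero_mul, mul_zero]
      rw [lintegral_congr e2, lintegral_zero]
      exact zero_le
  have hRfin : ∫⁻ t, ENNReal.ofReal (1 / (1 + t ^ 2)) * R t ≠ ∞ :=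
    ne_top_of_le_ne_top (ENNReal.mul_ne_top ENNReal.ofReal_ne_top hsum) hRint
  have hRae : ∀ᵐ t, R t ≠ ∞ := by
    have h1 := ae_lt_top (hwm.mul hRm) hRfin
    filter_upwards [h1] with t ht h2
    have h3 : ENNReal.ofReal (1 / (1 + t ^ 2)) ≠ 0 := by
      rw [Ne, ENNReal.ofReal_eq_zero, not_le]
      positivity
    simp only [Pi.mul_apply, h2] at ht
    rw [ENNReal.mul_top h3] at ht
    exact lt_irrefl _ ht
  have hρadm : Admissible fun t => (R t).toReal := by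
    refine ⟨?_, ?_⟩
    · exact (hRm.ennreal_toReal.div (by fun_prop)).aestronglyMeasurable
    · rw [hasFiniteIntegral_iff_ofReal]
      · refine lt_of_le_of_lt (lintegral_mono fun t => ?_) (lt_top_iff_ne_top.2 hRfin)
        show ENNReal.ofReal ((R t).toReal / (1 + t ^ 2)) ≤ _
        rw [div_eq_mul_one_div, ENNReal.ofReal_mul ENNReal.toReal_nonneg, mul_comm]
        gcongr
        exact ENNReal.ofReal_toReal_le
      · refine Eventually.of_forall fun t => ?_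
        show 0 ≤ (R t).toReal / (1 + t ^ 2)
        positivity
  set SH : ℝ≥0∞ := ∑' ζ : Z, if Lo (ζ : ℂ) then 0 else
    (m ζ : ℝ≥0∞) * ENNReal.ofReal (1 / (ζ : ℂ).im) with hSH
  have hSHle : SH ≤ 6 * S := by
    rw [hSH, hS, ← ENNReal.tsum_mul_left]
    refine ENNReal.tsum_le_tsum fun ζ => ?_
    by_cases hl : Lo (ζ : ℂ)
    · rw [if_pos hl]
      exact zero_le
    · rw [if_neg hl]
      have h0 : 0 < (ζ : ℂ).im := hpos _ ζ.2
      have h1 := ENNReal.ofReal_le_ofReal (high_bound h0 hl)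
      rw [ENNReal.ofReal_mul (by norm_num)] at h1
      have h2 : ENNReal.ofReal 6 = 6 := by simp
      rw [h2] at h1
      calc _ ≤ (m ζ : ℝ≥0∞) * (6 * ENNReal.ofReal ((ζ : ℂ).im / (1 + ‖(ζ : ℂ)‖ ^ 2))) := by
            gcongr
        _ = _ := by ring
  have hSHfin : SH ≠ ∞ := ne_top_of_le_ne_top (ENNReal.mul_ne_top (by norm_num) hsum) hSHle
  refine ⟨fun t => (R t).toReal, C * SH.toReal, hρadm, fun t => ENNReal.toReal_nonneg,
    by positivity, fun z y hy => ?_⟩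
  have hterm : ∀ ζ : Z, (m ζ : ℝ≥0∞) * ∫⁻ w in ball ((z : ℂ) + y * I) (δ * y),
      ENNReal.ofReal (Real.log (‖w - conj (ζ : ℂ)‖ / ‖w - ζ‖)) ≤
      ENNReal.ofReal (y ^ 2) * (cL ζ * ∫⁻ t, ker z y t *
        (Iv (ζ : ℂ)).indicator (fun _ => (1 : ℝ≥0∞)) t) +
      ENNReal.ofReal (C * y ^ 3) * (if Lo (ζ : ℂ) then 0 else
        (m ζ : ℝ≥0∞) * ENNReal.ofReal (1 / (ζ : ℂ).im)) := by
    intro ζ
    have h0 : 0 < (ζ : ℂ).im := hpos _ ζ.2
    obtain ⟨hA, hB⟩ := hG (ζ : ℂ) z y h0 hy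
    by_cases hl : Lo (ζ : ℂ)
    · rw [if_pos hl, mul_zero, add_zero]
      simp only [hcL, if_pos hl]
      have hPadm := (hPd (Iv (ζ : ℂ)) (hIm _)).1
      have e1 : ENNReal.ofReal (poisson ((Iv (ζ : ℂ)).indicator fun _ => 1) z y) =
          ∫⁻ t, ker z y t * (Iv (ζ : ℂ)).indicator (fun _ => (1 : ℝ≥0∞)) t := by
        rw [ofReal_poisson hPadm (fun t => indicator_nonneg (fun _ _ => zero_le_one) t) hy]
        refine lintegral_congr fun t => ?_
        congr 1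
        by_cases ht : t ∈ Iv (ζ : ℂ)
        · rw [indicator_of_mem ht, indicator_of_mem ht, ENNReal.ofReal_one]
        · rw [indicator_of_notMem ht, indicator_of_notMem ht, ENNReal.ofReal_zero]
      rw [← e1]
      calc _ ≤ (m ζ : ℝ≥0∞) * ENNReal.ofReal (C * y ^ 2 *
            poisson ((Iv (ζ : ℂ)).indicator fun _ => 1) z y) := by
            gcongr
            exact hA
        _ = _ := by
            rw [ENNReal.ofReal_mul (p := C * y ^ 2) (by positivity), ENNReal.ofReal_mul hC0]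
            ring
    · rw [if_neg hl]
      simp only [hcL, if_neg hl, zero_mul, mul_zero, zero_add]
      calc _ ≤ (m ζ : ℝ≥0∞) * ENNReal.ofReal (C * y ^ 2 * (y / (ζ : ℂ).im)) := by
            gcongr
        _ = (m ζ : ℝ≥0∞) * ENNReal.ofReal (C * y ^ 3 * (1 / (ζ : ℂ).im)) := by
            congr 2
            ring
        _ = _ := by
            rw [ENNReal.ofReal_mul (p := C * y ^ 3) (by positivity)]
            ring
  refine (ENNReal.tsum_le_tsum hterm).trans ?_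
  rw [ENNReal.tsum_add, ENNReal.tsum_mul_left, ENNReal.tsum_mul_left, ← hSH]
  have e2 : ∑' ζ : Z, cL ζ * ∫⁻ t, ker z y t * (Iv (ζ : ℂ)).indicator (fun _ => (1 : ℝ≥0∞)) t =
      ENNReal.ofReal (poisson (fun t => (R t).toReal) z y) := by
    rw [ofReal_poisson hρadm (fun t => ENNReal.toReal_nonneg) hy]
    have e3 : ∀ ζ : Z, cL ζ * ∫⁻ t, ker z y t *
        (Iv (ζ : ℂ)).indicator (fun _ => (1 : ℝ≥0∞)) t =
        ∫⁻ t, ker z y t * (cL ζ * (Iv (ζ : ℂ)).indicator (fun _ => (1 : ℝ≥0∞)) t) := by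
      intro ζ
      have e6 := lintegral_const_mul (μ := volume) (cL ζ) (f := fun t => ker z y t *
        (Iv (ζ : ℂ)).indicator (fun _ => (1 : ℝ≥0∞)) t)
        ((ker_meas z y).mul (measurable_const.indicator (hIm _)))
      rw [← e6]
      refine lintegral_congr fun t => ?_
      ring
    have e5 := lintegral_tsum (μ := volume) (f := fun (ζ : Z) (t : ℝ) => ker z y t *
      (cL ζ * (Iv (ζ : ℂ)).indicator (fun _ => (1 : ℝ≥0∞)) t)) fun ζ =>
      ((ker_meas z y).mul (hmeas1 ζ)).aemeasurable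
    refine (tsum_congr e3).trans (e5.symm.trans ?_)
    refine lintegral_congr_ae ?_
    filter_upwards [hRae] with t ht
    rw [ENNReal.ofReal_toReal ht]
    exact ENNReal.tsum_mul_left
  rw [e2]
  have hP0 : 0 ≤ poisson (fun t => (R t).toReal) z y := by
    unfold poisson
    refine mul_nonneg (by positivity) (integral_nonneg fun x => ?_)
    show 0 ≤ y * (R (z - x)).toReal / (x ^ 2 + y ^ 2)
    positivity
  have e4 : ENNReal.ofReal (C * y ^ 3) * SH = ENNReal.ofReal (y ^ 2 * (C * SH.toReal * y)) := by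
    rw [show y ^ 2 * (C * SH.toReal * y) = C * y ^ 3 * SH.toReal by ring,
      ENNReal.ofReal_mul (p := C * y ^ 3) (by positivity), ENNReal.ofReal_toReal hSHfin]
  rw [e4, ← ENNReal.ofReal_mul (by positivity), ← ENNReal.ofReal_add (by positivity)
    (by positivity)]
  apply le_of_eq
  unfold Vp
  congr 1
  ring

end Pool.Agent.Work.MP_055a27_an.Fn
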