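import Pool.Agent.Work.MP_055a27_an.Fn.Main1
import Pool.Agent.Work.MP_055a27_an.Bd.B13
import Pool.Agent.Work.MP_055a27_an.Bd.B12
import Pool.Agent.Work.MP_055a27_an.Fn.Rp
import Pool.Agent.Work.MP_055a27_an.Fn.Zs
import Pool.Agent.Work.MP_055a27_an.Bd.B14
import Pool.Agent.Work.MP_055a27_an.Fn.E1
import Pool.Agent.Work.MP_055a27_an.Fn.E2

/-!
# The growth condition and the vacuous case: assembly
-/

set_option autoImplicit false

namespace Pool.Agent.Work.MP_055a27_an.Fn

theorem fGa : StGa := stGa stPd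
theorem fZs : StZs := stZs stPd fGa
theorem fVz : StVz := stVz (stBl stPJ) (stRp stPJ) fZs
theorem fVf : StVf := stVf stVa fVz
theorem fVac : StVac := stVac fVf
theorem fE1 : StE1 := stE1 stPd
theorem fE2 : StE2 := stE2

/-- The two growth conditions are equivalent. -/
theorem nv_iff {U : ℝ → ℝ} (hU : IsWeight U) : NV U ↔ NVd U := ⟨fE2 U hU, fE1 U hU⟩

end Pool.Agent.Work.MP_055a27_an.Fn
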