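import Pool.Agent.Work.MP_055a27_an.Fn.Stmts

/-!
# Necessity of the shadow condition: assembly
-/

set_option autoImplicit false

open MeasureTheory Set Filter Topology Complex Metric
open scoped ENNReal NNReal

namespace Pool.Agent.Work.MP_055a27_an.Fn

open Crit (lg)
open Cr3 (Wt Sh)

theorem stNecF (hUnif : StUnif) (hTr : StTr) (hAp : StAp) (hLimN : StLimN) (hLimT : StLimT)
    (hLimTh : StLimTh) (hSh1 : Cr3.StSh1) : StNecF := by
  intro lam b p μ U hb hbl hμ hμl hp hU hNV hS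
  have hlam : 0 < lam := hb.trans hbl
  set μ' : ℝ := (max b μ + lam) / 2 with hμ'
  have hmx : max b μ < lam := max_lt hbl hμl
  have h1 : b < μ' := by
    have := le_max_left b μ
    rw [hμ']; linarith
  have h2 : μ' < lam := by rw [hμ']; linarith
  have h3 : μ ≤ μ' := by
    have := le_max_right b μ
    rw [hμ']; linarith
  have hμ'0 : 0 < μ' := hb.trans h1
  obtain ⟨C0, hC0⟩ := hS
  have hC : StarC C0 lam b p U := hC0
  obtain ⟨K, hK0, hK⟩ := hUnif C0 lam b p μ' hb h1 h2 hp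
  have key : ∀ t θ : ℝ, 0 < t → t ≤ 1 → 0 < θ → θ ≤ 1 →
      ShK μ' K 0 (Uav U t) (lgm (Uav U t) θ) := by
    intro t θ ht ht1 hθ hθ1
    obtain ⟨hW, hSt⟩ := hTr C0 lam b p t U hlam hb hp ht hU hC
    have hc : ∀ c : ℝ, 0 < c → ShK μ' K c (Uav U t) (lgm (Uav U t) θ) := by
      intro c hc
      obtain ⟨ρ, hρa, hρ0, hρ⟩ := hAp U μ' c hU hNV hμ'0 hc
      obtain ⟨hEx, hn⟩ := hρ t θ ht ht1 hθ hθ1
      refine hLimN (Uav U t) _ ρ μ' K c hEx.1 hρa hK0 fun n => ?_
      obtain ⟨hExn, hκ⟩ := hn n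
      refine hK (Uav U t) _ c hW hExn hc.le ?_ hSt hκ
      refine Eventually.of_forall fun x => ?_
      have hmax : Uav U t x ≤ Real.exp (lgm (Uav U t) θ x) := by
        unfold lgm
        rw [Real.exp_log (lt_of_lt_of_le hθ (le_max_right _ _))]
        exact le_max_left _ _
      refine hmax.trans (Real.exp_le_exp.2 ?_)
      have : 0 ≤ (if (n : ℝ) ≤ |x| then ρ x else 0) := by
        split_ifs
        · exact hρ0 x
        · exact le_rfl
      linarith
    intro z y hy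
    have hlim : Tendsto (fun n : ℕ => K * (y * Real.exp (Vp (lgm (Uav U t) θ) (1 / ((n : ℝ) + 1)) z y)))
        atTop (𝓝 (K * (y * Real.exp (Vp (lgm (Uav U t) θ) 0 z y)))) := by
      refine Tendsto.const_mul _ (Tendsto.const_mul _ ?_)
      refine (Real.continuous_exp.tendsto _).comp ?_
      unfold Vp
      refine Tendsto.const_add _ ?_
      exact (tendsto_one_div_add_atTop_nhds_zero_nat).mul_const y
    refine ge_of_tendsto' hlim fun n => ?_
    exact hc (1 / ((n : ℝ) + 1)) (by positivity) z y hy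
  have hθ : ∀ θ : ℝ, 0 < θ → θ ≤ 1 → ShK μ' K 0 U (lgm U θ) := by
    intro θ hθ hθ1
    exact hLimT U μ' K θ hU hNV hμ'0 hK0 hθ hθ1 fun t ht ht1 => key t θ ht ht1 hθ hθ1
  rcases hLimTh U μ' K hU hNV hμ'0 hK0 hθ with h | ⟨hWt, hSh⟩
  · exact Or.inl h
  · exact Or.inr ⟨hWt, hSh1.2 μ' μ U hμ h3 hU hSh⟩

end Pool.Agent.Work.MP_055a27_an.Fn
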