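import Pool.Agent.Work.MP_055a27_an.Fn.Stmts
import Pool.Agent.Work.MP_055a27_an.Bd.B06

/-!
# The maximal function of larger aperture, uniform version
-/

set_option autoImplicit false

open MeasureTheory Set Filter Topology Complex Metric
open scoped ENNReal NNReal

namespace Pool.Agent.Work.MP_055a27_an.Fn

open Crit (lg NTc Nice NI)

open Crit.N in
theorem stNu (hNS : Crit.StNS) (hNM : Crit.StNM) : StNu := by
  intro C1 lam lam2 b p hlam2 hlt hb hp
  obtain ⟨C0, hC0⟩ := hNS lam lam2 b hlam2 hlt hb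
  refine ⟨3 ^ p * (2 ^ p + C0 ^ p * C1 + C0 ^ p * C1), fun U hU hC1 F hF => ?_⟩
  obtain ⟨hd, M, hM⟩ := id hF
  -- the second function
  have hd2 : ∀ ζ : ℂ, 0 ≤ ζ.im → DifferentiableAt ℂ (fun w => -I * F w) ζ :=
    fun ζ hζ => (hd ζ hζ).const_mul _
  have hM2 : ∀ ζ : ℂ, 0 ≤ ζ.im → ‖(fun w => -I * F w) ζ‖ ≤ M := by
    intro ζ hζ
    simpa using hM ζ hζ
  set f1 : ℝ → ℝ := fun t => (F t).re with hf1
  set f2 : ℝ → ℝ := fun t => ((fun w => -I * F w) (t : ℂ)).re with hf2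
  have a1 : Admissible f1 := admissible_re hd hM
  have a2 : Admissible f2 := admissible_re hd2 hM2
  have p1 : ∀ z y : ℝ, 0 < y → poisson f1 z y = (F (z + y * I)).re :=
    fun z y hy => poisson_re hd hM hy
  have p2 : ∀ z y : ℝ, 0 < y → poisson f2 z y = (F (z + y * I)).im := by
    intro z y hy
    rw [hf2, poisson_re hd2 hM2 hy]
    simp
  have n1 : ∀ x, ntMax b f1 x ≤ NTc F b x := fun x => ntMax_le_NTc fun z y hy => by
    rw [p1 z y hy]; exact Complex.abs_re_le_norm _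
  have n2 : ∀ x, ntMax b f2 x ≤ NTc F b x := fun x => ntMax_le_NTc fun z y hy => by
    rw [p2 z y hy]; exact Complex.abs_im_le_norm _
  -- pointwise
  have hpt : ∀ x, NTc F lam2 x ≤ 2 * NTc F b x + C0 * areaFn lam f1 x + C0 * areaFn lam f2 x := by
    intro x
    calc NTc F lam2 x ≤ ntMax lam2 f1 x + ntMax lam2 f2 x := NTc_le p1 p2
      _ ≤ (ntMax b f1 x + C0 * areaFn lam f1 x) + (ntMax b f2 x + C0 * areaFn lam f2 x) :=
          add_le_add (hC0 f1 a1 x) (hC0 f2 a2 x)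
      _ ≤ (NTc F b x + C0 * areaFn lam f1 x) + (NTc F b x + C0 * areaFn lam f2 x) := by
          gcongr
          · exact n1 x
          · exact n2 x
      _ = _ := by ring
  have hpow : ∀ x, (NTc F lam2 x) ^ p * ENNReal.ofReal (U x) ≤
      3 ^ p * (2 ^ p * ((NTc F b x) ^ p * ENNReal.ofReal (U x)) +
        (C0 : ℝ≥0∞) ^ p * ((areaFn lam f1 x) ^ p * ENNReal.ofReal (U x)) +
        (C0 : ℝ≥0∞) ^ p * ((areaFn lam f2 x) ^ p * ENNReal.ofReal (U x))) := by
    intro x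
    calc (NTc F lam2 x) ^ p * ENNReal.ofReal (U x)
        ≤ (3 ^ p * ((2 * NTc F b x) ^ p + (C0 * areaFn lam f1 x) ^ p +
            (C0 * areaFn lam f2 x) ^ p)) * ENNReal.ofReal (U x) := by
          gcongr
          refine le_trans ?_ (rpow_add3_le hp _ _ _)
          have := hpt x
          gcongr
      _ = _ := by
          rw [ENNReal.mul_rpow_of_nonneg _ _ hp.le, ENNReal.mul_rpow_of_nonneg _ _ hp.le,
            ENNReal.mul_rpow_of_nonneg _ _ hp.le]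
          ring
  have hu := weight_ofReal_aemeas hU
  have m1 : AEMeasurable (fun x => (NTc F b x) ^ p * ENNReal.ofReal (U x)) volume :=
    ((hNM F b hF hb.le).pow_const p).aemeasurable.mul hu
  have m2 : AEMeasurable (fun x => (areaFn lam f1 x) ^ p * ENNReal.ofReal (U x)) volume :=
    ((meas_area a1 lam).pow_const p).aemeasurable.mul hu
  have m3 : AEMeasurable (fun x => (areaFn lam f2 x) ^ p * ENNReal.ofReal (U x)) volume :=
    ((meas_area a2 lam).pow_const p).aemeasurable.mul hu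
  have s1 : ∫⁻ x, (areaFn lam f1 x) ^ p * ENNReal.ofReal (U x) ≤ C1 * NI U F b p := by
    refine (hC1 f1 a1).trans ?_
    unfold NI
    gcongr with x
    exact n1 x
  have s2 : ∫⁻ x, (areaFn lam f2 x) ^ p * ENNReal.ofReal (U x) ≤ C1 * NI U F b p := by
    refine (hC1 f2 a2).trans ?_
    unfold NI
    gcongr with x
    exact n2 x
  have hcast : (((3 : ℝ≥0) ^ p * (2 ^ p + C0 ^ p * C1 + C0 ^ p * C1) : ℝ≥0) : ℝ≥0∞) =
      3 ^ p * (2 ^ p + (C0 : ℝ≥0∞) ^ p * C1 + (C0 : ℝ≥0∞) ^ p * C1) := by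
    push_cast
    rw [ENNReal.coe_rpow_of_nonneg _ hp.le, ENNReal.coe_rpow_of_nonneg _ hp.le,
      ENNReal.coe_rpow_of_nonneg _ hp.le]
    push_cast
    rfl
  rw [hcast]
  calc NI U F lam2 p
      ≤ ∫⁻ x, 3 ^ p * (2 ^ p * ((NTc F b x) ^ p * ENNReal.ofReal (U x)) +
        (C0 : ℝ≥0∞) ^ p * ((areaFn lam f1 x) ^ p * ENNReal.ofReal (U x)) +
        (C0 : ℝ≥0∞) ^ p * ((areaFn lam f2 x) ^ p * ENNReal.ofReal (U x))) :=
        lintegral_mono hpow
    _ = 3 ^ p * (2 ^ p * NI U F b p +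
        (C0 : ℝ≥0∞) ^ p * (∫⁻ x, (areaFn lam f1 x) ^ p * ENNReal.ofReal (U x)) +
        (C0 : ℝ≥0∞) ^ p * (∫⁻ x, (areaFn lam f2 x) ^ p * ENNReal.ofReal (U x))) := by
        rw [lint3 m1 m2 m3]
        rfl
    _ ≤ 3 ^ p * (2 ^ p * NI U F b p + (C0 : ℝ≥0∞) ^ p * (C1 * NI U F b p) +
        (C0 : ℝ≥0∞) ^ p * (C1 * NI U F b p)) := by
        gcongr
    _ = _ := by ring

end Pool.Agent.Work.MP_055a27_an.Fn
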