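import Pool.Agent.Work.MP_055a27_an.Fn.Stmts
import Pool.Agent.Work.MP_055a27_an.Bd.B04

/-! # Rising sun lemma: intervals of given density -/

set_option autoImplicit false

open MeasureTheory Set Filter Topology
open scoped ENNReal

namespace Pool.Agent.Work.MP_055a27_an.Fn

open Pool.Agent.Work.MP_055a27_an

namespace RS

/-- The function of the rising sun lemma. -/
noncomputable def F (X : Set ℝ) (a ρ : ℝ) (x : ℝ) : ℝ := volume.real (X ∩ Iic x) - ρ * (x - a)

section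

variable {X : Set ℝ} {a s ρ : ℝ}

lemma real_Ioc (x y : ℝ) : volume.real (X ∩ Ioc x y) = volume.real (X ∩ Ioo x y) := by
  apply measureReal_congr
  exact (ae_eq_refl X).inter Ioo_ae_eq_Ioc.symm

lemma fin (hXf : volume X ≠ ∞) (Y : Set ℝ) : volume (X ∩ Y) ≠ ∞ :=
  measure_ne_top_of_subset inter_subset_left hXf

lemma F_sub (hX : MeasurableSet X) (hXf : volume X ≠ ∞) {x y : ℝ} (hxy : x ≤ y) :
    F X a ρ y - F X a ρ x = volume.real (X ∩ Ioo x y) - ρ * (y - x) := by
  have h1 : X ∩ Iic y = (X ∩ Iic x) ∪ (X ∩ Ioc x y) := by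
    rw [← inter_union_distrib_left, Iic_union_Ioc_eq_Iic hxy]
  have h2 : Disjoint (X ∩ Iic x) (X ∩ Ioc x y) := by
    rw [Set.disjoint_left]
    rintro t ⟨_, ht⟩ ⟨_, ht'⟩
    exact absurd ht (not_le.2 ht'.1)
  have h3 : volume.real (X ∩ Iic y) = volume.real (X ∩ Iic x) + volume.real (X ∩ Ioc x y) := by
    rw [h1]
    exact measureReal_union h2 (hX.inter measurableSet_Ioc) (fin hXf _) (fin hXf _)
  rw [real_Ioc] at h3
  unfold F
  rw [h3]
  ring

lemma real_le {x y : ℝ} (hxy : x ≤ y) : volume.real (X ∩ Ioo x y) ≤ y - x := by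
  have h : volume.real (X ∩ Ioo x y) ≤ volume.real (Ioo x y) :=
    measureReal_mono inter_subset_right (by simp)
  rwa [Real.volume_real_Ioo_of_le hxy] at h

lemma F_lip (hX : MeasurableSet X) (hXf : volume X ≠ ∞) {x y : ℝ} (hρ : 0 < ρ) (hxy : x ≤ y) :
    |F X a ρ y - F X a ρ x| ≤ (1 + ρ) * (y - x) := by
  rw [F_sub hX hXf hxy]
  have h1 := real_le (X := X) hxy
  have h2 : 0 ≤ volume.real (X ∩ Ioo x y) := measureReal_nonneg
  have h3 : 0 ≤ ρ * (y - x) := mul_nonneg hρ.le (by linarith)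
  rw [abs_le]
  constructor <;> nlinarith

lemma F_cont (hX : MeasurableSet X) (hXf : volume X ≠ ∞) (hρ : 0 < ρ) :
    Continuous (F X a ρ) := by
  have hL : LipschitzWith (Real.toNNReal (1 + ρ)) (F X a ρ) := by
    apply LipschitzWith.of_dist_le_mul
    intro x y
    rw [Real.coe_toNNReal _ (by linarith), Real.dist_eq, Real.dist_eq]
    rcases le_total x y with h | h
    · rw [abs_sub_comm, abs_sub_comm x y, abs_of_nonneg (by linarith : 0 ≤ y - x)]
      exact F_lip hX hXf hρ h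
    · rw [abs_of_nonneg (by linarith : 0 ≤ x - y)]
      exact F_lip hX hXf hρ h
  exact hL.continuous

lemma F_a (hXa : X ⊆ Icc a (a + s)) : F X a ρ a = 0 := by
  unfold F
  have h : volume.real (X ∩ Iic a) = 0 := by
    have h1 : volume (X ∩ Iic a) = 0 := by
      apply measure_mono_null (t := {a}) _ (by simp)
      rintro t ⟨ht, ht'⟩
      exact le_antisymm ht' (hXa ht).1
    simp [Measure.real, h1]
  rw [h]
  ring

lemma F_end (hXa : X ⊆ Icc a (a + s)) (h : volume.real X ≤ ρ * s) : F X a ρ (a + s) ≤ 0 := by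
  unfold F
  have h1 : X ∩ Iic (a + s) = X := inter_eq_left.2 fun t ht => (hXa ht).2
  rw [h1]
  linarith

/-- The last zero of `F`. -/
lemma exists_b (hF : Continuous (F X a ρ)) (hs : 0 < s) (h0 : F X a ρ a = 0)
    (h1 : F X a ρ (a + s) ≤ 0) :
    ∃ b, a ≤ b ∧ b ≤ a + s ∧ F X a ρ b = 0 ∧ ∀ x, b < x → x ≤ a + s → F X a ρ x < 0 := by
  have hcl : IsCompact (Icc a (a + s) ∩ {x | 0 ≤ F X a ρ x}) :=
    isCompact_Icc.inter_right (isClosed_le continuous_const hF)
  have hne : (Icc a (a + s) ∩ {x | 0 ≤ F X a ρ x}).Nonempty :=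
    ⟨a, ⟨le_rfl, by linarith⟩, h0.symm.le⟩
  obtain ⟨b, ⟨hb, hFb⟩, hmax⟩ := hcl.exists_isGreatest hne
  have hmax' : ∀ x, b < x → x ≤ a + s → F X a ρ x < 0 := by
    intro x hx hx'
    by_contra hcon
    push Not at hcon
    have := hmax ⟨⟨hb.1.trans hx.le, hx'⟩, hcon⟩
    linarith
  refine ⟨b, hb.1, hb.2, ?_, hmax'⟩
  have hFb' : 0 ≤ F X a ρ b := hFb
  rcases hFb'.lt_or_eq with hlt | heq
  · exfalso
    obtain ⟨x, hx, hFx⟩ := intermediate_value_Icc' hb.2 hF.continuousOn ⟨h1, hlt.le⟩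
    rcases hx.1.lt_or_eq with h | h
    · have := hmax' x h hx.2
      linarith
    · rw [← h] at hFx
      linarith
  · exact heq.symm

/-- The set of points in the shade. -/
def O (X : Set ℝ) (a s ρ b : ℝ) : Set ℝ :=
  {x | x ∈ Ioo b (a + s) ∧ ∃ y, x < y ∧ y ≤ a + s ∧ F X a ρ x < F X a ρ y}

lemma O_open (hF : Continuous (F X a ρ)) (b : ℝ) : IsOpen (O X a s ρ b) := by
  have h : O X a s ρ b = Ioo b (a + s) ∩
      ⋃ y ∈ Iic (a + s), (Iio y ∩ {x | F X a ρ x < F X a ρ y}) := by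
    ext x
    simp only [O, mem_ofPred_eq, mem_inter_iff, mem_iUnion, mem_Iic, mem_Iio, exists_prop]
    constructor
    · rintro ⟨h1, y, h2, h3, h4⟩
      exact ⟨h1, y, h3, h2, h4⟩
    · rintro ⟨h1, y, h3, h2, h4⟩
      exact ⟨h1, y, h2, h3, h4⟩
  rw [h]
  refine isOpen_Ioo.inter (isOpen_iUnion fun y => isOpen_iUnion fun _ => isOpen_Iio.inter ?_)
  exact isOpen_lt hF continuous_const

/-- An end point of a component does not lie in the open set. -/
lemma end_not {ι : Type} {α γ : ι → ℝ} {O : Set ℝ} (hlt : ∀ i, α i < γ i)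
    (hO : O = ⋃ i, Ioo (α i) (γ i))
    (hd : Pairwise fun i j => Disjoint (Ioo (α i) (γ i)) (Ioo (α j) (γ j))) (i : ι) :
    α i ∉ O ∧ γ i ∉ O := by
  constructor
  · intro h
    rw [hO, mem_iUnion] at h
    obtain ⟨j, hj⟩ := h
    have hij : i ≠ j := by
      rintro rfl
      exact lt_irrefl _ hj.1
    have h1 : α i < min (γ i) (γ j) := lt_min (hlt i) hj.2
    obtain ⟨t, ht, ht'⟩ := exists_between h1
    exact Set.disjoint_left.1 (hd hij) ⟨ht, ht'.trans_le (min_le_left _ _)⟩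
      ⟨hj.1.trans ht, ht'.trans_le (min_le_right _ _)⟩
  · intro h
    rw [hO, mem_iUnion] at h
    obtain ⟨j, hj⟩ := h
    have hij : i ≠ j := by
      rintro rfl
      exact lt_irrefl _ hj.2
    have h1 : max (α i) (α j) < γ i := max_lt (hlt i) hj.1
    obtain ⟨t, ht, ht'⟩ := exists_between h1
    exact Set.disjoint_left.1 (hd hij) ⟨(le_max_left _ _).trans_lt ht, ht'⟩
      ⟨(le_max_right _ _).trans_lt ht, ht'.trans hj.2⟩

lemma F_eq (hF : Continuous (F X a ρ)) {b α γ : ℝ}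
    (hFb : F X a ρ b = 0) (hneg : ∀ x, b < x → x ≤ a + s → F X a ρ x < 0)
    (hαγ : α < γ) (hbα : b ≤ α) (hγ : γ ≤ a + s) (hsub : Ioo α γ ⊆ O X a s ρ b)
    (hαO : α ∉ O X a s ρ b) (hγO : γ ∉ O X a s ρ b) : F X a ρ α = F X a ρ γ := by
  apply le_antisymm
  · have key : ∀ x ∈ Ioo α γ, F X a ρ x ≤ F X a ρ γ := by
      intro x hx
      by_contra hcon
      push Not at hcon
      have hcl : IsCompact (Icc x γ ∩ {y | F X a ρ x ≤ F X a ρ y}) :=
        isCompact_Icc.inter_right (isClosed_le continuous_const hF)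
      obtain ⟨y, ⟨hy, hFy⟩, hmax⟩ := hcl.exists_isGreatest
        ⟨x, ⟨le_rfl, hx.2.le⟩, (le_refl _ : F X a ρ x ≤ F X a ρ x)⟩
      have hyγ : y < γ := by
        rcases hy.2.lt_or_eq with h | h
        · exact h
        · rw [h] at hFy
          exact absurd hFy (not_le.2 hcon)
      obtain ⟨_, y', h1, h2, h3⟩ := hsub (⟨hx.1.trans_le hy.1, hyγ⟩ : y ∈ Ioo α γ)
      have hFy' : F X a ρ x ≤ F X a ρ y := hFy
      rcases le_or_gt y' γ with h | h
      · have := hmax ⟨⟨hy.1.trans h1.le, h⟩, (hFy'.trans h3.le : F X a ρ x ≤ F X a ρ y')⟩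
        linarith
      · exact hγO ⟨⟨hbα.trans_lt hαγ, h.trans_le h2⟩, y', h, h2, by linarith⟩
    have hcl : IsClosed {x | F X a ρ x ≤ F X a ρ γ} := isClosed_le hF continuous_const
    have hmem : α ∈ closure (Ioo α γ) := by
      rw [closure_Ioo hαγ.ne]
      exact ⟨le_rfl, hαγ.le⟩
    exact closure_minimal key hcl hmem
  · rcases hbα.lt_or_eq with h | h
    · by_contra hcon
      push Not at hcon
      exact hαO ⟨⟨h, hαγ.trans_le hγ⟩, γ, hαγ, hγ, hcon⟩
    · rw [← h, hFb]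
      exact (hneg γ (hbα.trans_lt hαγ) hγ).le

/-- The points which are not in the shade form a null set. -/
lemma null (hX : MeasurableSet X) (hXf : volume X ≠ ∞) (hρ : 0 < ρ) (hρ1 : ρ < 1) (b : ℝ) :
    volume {x | x ∈ X ∧ x ∈ Ioo b (a + s) ∧ x ∉ O X a s ρ b} = 0 := by
  have h := Besicovitch.ae_tendsto_measure_inter_div (volume : Measure ℝ) X
  rw [ae_restrict_iff' hX, ae_iff] at h
  refine measure_mono_null ?_ h
  rintro x ⟨hx, hxI, hxO⟩
  simp only [mem_ofPred_eq, Classical.not_imp]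
  refine ⟨hx, fun hT => ?_⟩
  have hq : (ENNReal.ofReal ((1 + ρ) / 2)) < 1 := by
    rw [← ENNReal.ofReal_one]
    exact (ENNReal.ofReal_lt_ofReal_iff zero_lt_one).2 (by linarith)
  have hev : ∀ᶠ r in 𝓝[>] (0 : ℝ), ENNReal.ofReal ((1 + ρ) / 2) <
      volume (X ∩ Metric.closedBall x r) / volume (Metric.closedBall x r) :=
    hT.eventually (lt_mem_nhds hq)
  have hev2 : ∀ᶠ r in 𝓝[>] (0 : ℝ), r < a + s - x :=
    nhdsWithin_le_nhds (Iio_mem_nhds (by linarith [hxI.2]))
  have hev3 : ∀ᶠ r in 𝓝[>] (0 : ℝ), 0 < r := self_mem_nhdsWithin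
  obtain ⟨r, ⟨h1, h2⟩, h3⟩ := ((hev.and hev2).and hev3).exists
  have hF : F X a ρ (x + r) ≤ F X a ρ x := by
    by_contra hcon
    push Not at hcon
    exact hxO ⟨hxI, x + r, by linarith, by linarith, hcon⟩
  have h4 := F_sub (a := a) (ρ := ρ) hX hXf (by linarith : x ≤ x + r)
  have h5 : volume.real (X ∩ Ioo x (x + r)) ≤ ρ * r := by
    have : x + r - x = r := by ring
    rw [this] at h4
    linarith
  have h6 : volume.real (X ∩ Metric.closedBall x r) ≤ (1 + ρ) * r := by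
    have e1 : X ∩ Metric.closedBall x r ⊆ Icc (x - r) x ∪ (X ∩ Ioc x (x + r)) := by
      rintro t ⟨ht, ht'⟩
      rw [Real.closedBall_eq_Icc] at ht'
      rcases le_or_gt t x with h | h
      · exact Or.inl ⟨ht'.1, h⟩
      · exact Or.inr ⟨ht, h, ht'.2⟩
    have e2 : volume.real (Icc (x - r) x ∪ (X ∩ Ioc x (x + r))) ≤
        volume.real (Icc (x - r) x) + volume.real (X ∩ Ioc x (x + r)) := measureReal_union_le _ _
    have e3 : volume.real (X ∩ Metric.closedBall x r) ≤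
        volume.real (Icc (x - r) x ∪ (X ∩ Ioc x (x + r))) :=
      measureReal_mono e1 (measure_union_ne_top (by simp) (fin hXf _))
    rw [real_Ioc, Real.volume_real_Icc_of_le (by linarith)] at e2
    linarith
  have h7 : volume (X ∩ Metric.closedBall x r) ≤ ENNReal.ofReal ((1 + ρ) * r) := by
    rw [← ENNReal.ofReal_toReal (fin hXf (Metric.closedBall x r))]
    exact ENNReal.ofReal_le_ofReal h6
  have h8 : volume (Metric.closedBall x r) = ENNReal.ofReal (2 * r) := Real.volume_closedBall x r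
  rw [h8] at h1
  have h9 : volume (X ∩ Metric.closedBall x r) / ENNReal.ofReal (2 * r) ≤
      ENNReal.ofReal ((1 + ρ) * r) / ENNReal.ofReal (2 * r) := ENNReal.div_le_div_right h7 _
  have h10 : ENNReal.ofReal ((1 + ρ) * r) / ENNReal.ofReal (2 * r) =
      ENNReal.ofReal ((1 + ρ) / 2) := by
    rw [← ENNReal.ofReal_div_of_pos (by linarith)]
    congr 1
    field_simp
  rw [h10] at h9
  exact absurd h1 (not_lt.2 h9)

end

end RS

theorem stRS : StRS := by
  intro X a s ρ hX hXa hs hρ hρ1 hv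
  have hXf : volume X ≠ ∞ := measure_ne_top_of_subset hXa (by simp)
  have hF := RS.F_cont (a := a) hX hXf hρ
  obtain ⟨b, hab, hbs, hFb, hneg⟩ :=
    RS.exists_b hF hs (RS.F_a hXa) (RS.F_end hXa hv)
  have hOf : volume (RS.O X a s ρ b) ≠ ∞ := by
    have h1 : RS.O X a s ρ b ⊆ Ioo b (a + s) := fun x hx => hx.1
    exact measure_ne_top_of_subset h1 (by simp)
  obtain ⟨ι, hι, α, γ, hlt, hU, hd, -⟩ := Crit.stComps (RS.O X a s ρ b) (RS.O_open hF b) hOf
  have hsub : ∀ i, Ioo (α i) (γ i) ⊆ RS.O X a s ρ b := by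
    intro i
    rw [hU]
    exact subset_iUnion (fun i => Ioo (α i) (γ i)) i
  have hsub2 : ∀ i, b ≤ α i ∧ γ i ≤ a + s := by
    intro i
    have h1 : Ioo (α i) (γ i) ⊆ Ioo b (a + s) := fun x hx => (hsub i hx).1
    exact (Ioo_subset_Ioo_iff (hlt i)).1 h1
  let ι' : Type := {i : Option ι // i.elim a α < i.elim b γ}
  refine ⟨ι', inferInstance, fun i => i.1.elim a α, fun i => i.1.elim b γ, ?_, ?_, ?_⟩
  · rintro ⟨_ | i, hi⟩
    · simp only [Option.elim_none] at hi ⊢
      refine ⟨le_rfl, hi, hbs, ?_⟩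
      have h1 := RS.F_sub (a := a) (ρ := ρ) hX hXf hab
      rw [hFb, RS.F_a hXa] at h1
      linarith
    · simp only [Option.elim_some] at hi ⊢
      refine ⟨hab.trans (hsub2 i).1, hi, (hsub2 i).2, ?_⟩
      have h1 := RS.F_sub (a := a) (ρ := ρ) hX hXf hi.le
      have h2 := RS.end_not hlt hU hd i
      have h3 := RS.F_eq hF hFb hneg (hlt i) (hsub2 i).1 (hsub2 i).2 (hsub i) h2.1 h2.2
      linarith
  · rintro ⟨_ | i, hi⟩ ⟨_ | j, hj⟩ hij
    · exact absurd rfl hij
    · simp only [Option.elim_none, Option.elim_some]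
      rw [Set.disjoint_left]
      intro t ht ht'
      linarith [ht.2, ht'.1, (hsub2 j).1]
    · simp only [Option.elim_none, Option.elim_some]
      rw [Set.disjoint_left]
      intro t ht' ht
      linarith [ht.2, ht'.1, (hsub2 i).1]
    · simp only [Option.elim_some]
      apply hd
      rintro rfl
      exact hij rfl
  · have h1 := RS.null (a := a) (s := s) hX hXf hρ hρ1 b
    refine measure_mono_null (t := {a} ∪ {b} ∪ {a + s} ∪
      {x | x ∈ X ∧ x ∈ Ioo b (a + s) ∧ x ∉ RS.O X a s ρ b}) ?_ ?_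
    · rintro x ⟨hx, hxU⟩
      have hxI := hXa hx
      by_contra hcon
      simp only [mem_union, mem_singleton_iff, mem_ofPred_eq, not_or, not_and, not_not] at hcon
      obtain ⟨⟨⟨c1, c2⟩, c3⟩, c4⟩ := hcon
      apply hxU
      rw [mem_iUnion]
      have d1 : a < x := lt_of_le_of_ne hxI.1 (Ne.symm c1)
      have d2 : x < a + s := lt_of_le_of_ne hxI.2 c3
      rcases lt_or_gt_of_ne c2 with h | h
      · exact ⟨⟨none, d1.trans h⟩, d1, h⟩
      · have h2 := c4 hx ⟨h, d2⟩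
        rw [hU, mem_iUnion] at h2
        obtain ⟨i, hi⟩ := h2
        exact ⟨⟨some i, hlt i⟩, hi⟩
    · rw [measure_union_null_iff, measure_union_null_iff, measure_union_null_iff]
      exact ⟨⟨⟨by simp, by simp⟩, by simp⟩, h1⟩

end Pool.Agent.Work.MP_055a27_an.Fn
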