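import Pool.Agent.Work.MP_055a27_an.Fn.Stmts

/-!
# Item Unif: the uniform bound for the constant of the shadow condition
-/

set_option autoImplicit false

open MeasureTheory Set Filter Topology Complex Metric
open scoped ENNReal NNReal

namespace Pool.Agent.Work.MP_055a27_an.Fn

namespace Unif

lemma shK_mono {μ κ κ' c : ℝ} {U l : ℝ → ℝ} (h : κ ≤ κ') (hS : ShK μ κ c U l) :
    ShK μ κ' c U l := by
  intro z y hy
  refine (hS z y hy).trans ?_
  exact mul_le_mul_of_nonneg_right h (mul_nonneg hy.le (Real.exp_pos _).le)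

lemma shK_lim {μ κ K c : ℝ} {U l : ℝ → ℝ}
    (hS : ∀ n : ℕ, ShK μ (κ * (1 / 2) ^ n + K) c U l) : ShK μ K c U l := by
  intro z y hy
  have ht : Tendsto (fun n : ℕ => (κ * (1 / 2 : ℝ) ^ n + K) * (y * Real.exp (Vp l c z y))) atTop
      (𝓝 ((κ * 0 + K) * (y * Real.exp (Vp l c z y)))) := by
    refine Tendsto.mul_const _ ?_
    refine Tendsto.add_const _ ?_
    exact (tendsto_pow_atTop_nhds_zero_of_lt_one (by norm_num) (by norm_num)).const_mul κ
  have h := ge_of_tendsto' ht (fun n => hS n z y hy)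
  simpa using h

end Unif

theorem stUnif (hImp : StImp) (hNK : StNK) : StUnif := by
  intro C0 lam b p μ hb hbμ hμl hp
  obtain ⟨C, hC0, hC⟩ := hNK C0 lam b p ((b + μ) / 2) μ hb (by linarith) (by linarith)
    (by linarith) hμl hp
  have heps : (0 : ℝ) < 1 / (2 * C + 2) := by positivity
  obtain ⟨K1, hK10, hK1⟩ := hImp C0 lam b p ((b + μ) / 2) μ (1 / (2 * C + 2)) (by linarith) hb
    (by linarith) (by linarith) hp heps
  refine ⟨2 * (C * K1), by positivity, ?_⟩
  intro U l c hU hl hc hUl hstar hκ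
  obtain ⟨κ, hκ0, hκ⟩ := hκ
  have hCe : C * (1 / (2 * C + 2)) ≤ 1 / 2 := by
    rw [mul_one_div, div_le_div_iff₀ (by positivity) (by norm_num)]
    linarith
  have step : ∀ κ : ℝ, 0 ≤ κ → ShK μ κ c U l → ShK μ (κ / 2 + C * K1) c U l := by
    intro κ hκ0 hκ
    have h1 := hK1 U l c κ hU hl hc hUl hstar hκ0 hκ
    have h2 := hC U l c _ hU hl hc hstar (by positivity) h1
    refine Unif.shK_mono ?_ h2
    nlinarith
  have hn : ∀ n : ℕ, ShK μ (κ * (1 / 2) ^ n + 2 * (C * K1)) c U l := by
    intro n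
    induction n with
    | zero =>
      refine Unif.shK_mono ?_ hκ
      have : 0 ≤ C * K1 := by positivity
      simp
      linarith
    | succ n ih =>
      refine Unif.shK_mono ?_ (step _ (by positivity) ih)
      rw [pow_succ]
      apply le_of_eq
      ring
  exact Unif.shK_lim hn

end Pool.Agent.Work.MP_055a27_an.Fn
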