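import Pool.Agent.Work.MP_055a27_an.Cr3.Main
import Pool.Agent.Work.MP_055a27_an.Bd.B05
import Pool.Agent.Work.MP_055a27_an.Bd.B12
import Pool.Agent.Work.MP_055a27_an.Fn.RS
import Pool.Agent.Work.MP_055a27_an.Fn.HM
import Pool.Agent.Work.MP_055a27_an.Fn.Cost
import Pool.Agent.Work.MP_055a27_an.Fn.Nu
import Pool.Agent.Work.MP_055a27_an.Fn.Cov
import Pool.Agent.Work.MP_055a27_an.Fn.Core
import Pool.Agent.Work.MP_055a27_an.Fn.Unif
import Pool.Agent.Work.MP_055a27_an.Fn.LimT
import Pool.Agent.Work.MP_055a27_an.Fn.LimTh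
import Pool.Agent.Work.MP_055a27_an.Fn.NecF

/-!
# Necessity of the shadow condition: assembly
-/

set_option autoImplicit false

namespace Pool.Agent.Work.MP_055a27_an.Fn

theorem fHch : StHch := stHch Cr3.stHar
theorem fClA : StClA := stClA fHch stMx stPd
theorem fHM0 : StHM0 := stHM0 fClA stLb
theorem fHM : StHM := stHM fClA stRS fHM0
theorem fNu : StNu := stNu Crit.stNS Crit.stNM
theorem fNK : StNK := stNK stCost fNu
theorem fCore : StCore := stCore fHch fHM stOsc stCost
theorem fImp : StImp := stImp fHch stCov fCore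
theorem fUnif : StUnif := stUnif fImp fNK
theorem fAp : StAp := stAp stNVc
theorem fNecF : StNecF := stNecF fUnif stTr fAp stLimN stLimT stLimTh Cr3.stSh1

end Pool.Agent.Work.MP_055a27_an.Fn
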